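import Pool.Agent.Helper39.TV.Defs

open Finset

set_option linter.unusedSectionVars false
set_option linter.unusedSimpArgs false

namespace Pool.Agent.Helper39.TV

variable {V ι K : Type} [Fintype V] [DecidableEq V] [Fintype ι] [DecidableEq ι] [AddCommGroup K]

namespace Comb

variable {D : Comb V ι K}

section bl
variable {R : Type} [CommRing R]

theorem bl_none (c : ι → R) {v : V} (h : D.blk v = none) : D.bl c v = 0 := by simp [bl, h]

theorem bl_some (c : ι → R) {v : V} {i : ι} (h : D.blk v = some i) : D.bl c v = c i * (D.l v : R) := by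
  simp [bl, h]

theorem bl_zero : D.bl (0 : ι → R) = 0 := by
  funext v
  cases h : D.blk v with
  | none => simp [bl_none _ h]
  | some i => simp [bl_some _ h]

theorem bl_add (c d : ι → R) : D.bl (c + d) = D.bl c + D.bl d := by
  funext v
  cases h : D.blk v with
  | none => simp [bl_none _ h]
  | some i => simp [bl_some _ h, add_mul]

theorem bl_sub (c d : ι → R) : D.bl (c - d) = D.bl c - D.bl d := by
  funext v
  cases h : D.blk v with
  | none => simp [bl_none _ h]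
  | some i => simp [bl_some _ h, sub_mul]

theorem bl_neg (c : ι → R) : D.bl (-c) = -D.bl c := by
  funext v
  cases h : D.blk v with
  | none => simp [bl_none _ h]
  | some i => simp [bl_some _ h]

theorem bl_smul (t : R) (c : ι → R) : D.bl (t • c) = t • D.bl c := by
  funext v
  cases h : D.blk v with
  | none => simp [bl_none _ h]
  | some i => simp [bl_some _ h, mul_assoc]

theorem bl_eq_sum (c : ι → R) : D.bl c = ∑ i, c i • D.bl (Pi.single i (1 : R)) := by
  funext v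
  cases h : D.blk v with
  | none => simp [bl_none _ h, Finset.sum_apply]
  | some i =>
    simp only [bl_some _ h, Finset.sum_apply, Pi.smul_apply, smul_eq_mul]
    rw [Finset.sum_eq_single i]
    · simp
    · intro j _ hj
      simp [Pi.single_apply, Ne.symm hj]
    · simp

end bl

theorem bl_cast (c : ι → ℤ) (v : V) : ((D.bl c v : ℤ) : ℚ) = D.bl (fun i => (c i : ℚ)) v := by
  cases h : D.blk v with
  | none => simp [bl_none _ h]
  | some i => simp [bl_some _ h]

/-! degrees -/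

theorem dg_zero : D.dg 0 = 0 := by simp [dg]

theorem dg_add (a b : V → ℤ) : D.dg (a + b) = D.dg a + D.dg b := by
  simp [dg, add_smul, Finset.sum_add_distrib]

theorem dg_sub (a b : V → ℤ) : D.dg (a - b) = D.dg a - D.dg b := by
  simp [dg, sub_smul, Finset.sum_sub_distrib]

theorem dg_neg (a : V → ℤ) : D.dg (-a) = -D.dg a := by
  simp [dg]

theorem dg_smul (m : ℤ) (a : V → ℤ) : D.dg (m • a) = m • D.dg a := by
  simp [dg, Finset.smul_sum, mul_smul]

theorem dg_nsmul (m : ℕ) (a : V → ℤ) : D.dg (m • a) = m • D.dg a := by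
  have := D.dg_smul (m : ℤ) a
  simpa using this

theorem dg_sum {α : Type} (s : Finset α) (f : α → V → ℤ) :
    D.dg (∑ x ∈ s, f x) = ∑ x ∈ s, D.dg (f x) := by
  classical
  induction s using Finset.induction_on with
  | empty => simp [dg_zero]
  | insert a s ha ih => rw [Finset.sum_insert ha, Finset.sum_insert ha, dg_add, ih]

theorem dg_single (v : V) : D.dg (Pi.single v 1) = D.deg v := by
  rw [dg, Finset.sum_eq_single v]
  · simp
  · intro w _ hw
    simp [Pi.single_apply, hw]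
  · simp

theorem dg_bl (hmu : ∀ i, D.dg (D.bl (Pi.single i 1)) = D.mu) (c : ι → ℤ) :
    D.dg (D.bl c) = (∑ i, c i) • D.mu := by
  rw [bl_eq_sum, dg_sum, Finset.sum_smul]
  refine Finset.sum_congr rfl fun i _ => ?_
  rw [dg_smul, hmu]

theorem dg_one : D.dg 1 = ∑ v, D.deg v := by simp [dg]

/-! InRel -/

theorem InRel.zero : D.InRel 0 := ⟨0, by simp, by rw [bl_zero]⟩

theorem InRel.add {a b : V → ℤ} (ha : D.InRel a) (hb : D.InRel b) : D.InRel (a + b) := by
  obtain ⟨c, hc, rfl⟩ := ha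
  obtain ⟨d, hd, rfl⟩ := hb
  exact ⟨c + d, by simp [Finset.sum_add_distrib, hc, hd], by rw [bl_add]⟩

theorem InRel.neg {a : V → ℤ} (ha : D.InRel a) : D.InRel (-a) := by
  obtain ⟨c, hc, rfl⟩ := ha
  exact ⟨-c, by simp [hc], by rw [bl_neg]⟩

theorem InRel.sub {a b : V → ℤ} (ha : D.InRel a) (hb : D.InRel b) : D.InRel (a - b) := by
  rw [sub_eq_add_neg]; exact ha.add hb.neg

theorem InRel.smul {a : V → ℤ} (m : ℤ) (ha : D.InRel a) : D.InRel (m • a) := by
  obtain ⟨c, hc, rfl⟩ := ha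
  exact ⟨m • c, by simp [← Finset.mul_sum, hc], by rw [bl_smul]⟩

theorem InRel.dg_eq {a : V → ℤ} (hmu : ∀ i, D.dg (D.bl (Pi.single i 1)) = D.mu)
    (ha : D.InRel a) : D.dg a = 0 := by
  obtain ⟨c, hc, rfl⟩ := ha
  rw [dg_bl hmu, hc, zero_smul]

/-! KQ and Rep -/

theorem KQ.zero : D.KQ 0 := ⟨1, one_pos, 0, dg_zero, by simp⟩

theorem KQ.of_int {b : V → ℤ} (h : D.dg b = 0) : D.KQ (fun v => (b v : ℚ)) :=
  ⟨1, one_pos, b, h, by simp⟩

theorem KQ.add {a b : V → ℚ} (ha : D.KQ a) (hb : D.KQ b) : D.KQ (a + b) := by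
  obtain ⟨m, hm, c, hc, hc'⟩ := ha
  obtain ⟨n, hn, d, hd, hd'⟩ := hb
  refine ⟨m * n, Nat.mul_pos hm hn, (n : ℤ) • c + (m : ℤ) • d, ?_, fun v => ?_⟩
  · rw [dg_add, dg_smul, dg_smul, hc, hd]; simp
  · simp only [Pi.add_apply, Pi.smul_apply, smul_eq_mul]
    push_cast
    rw [hc', hd']; ring

theorem KQ.smul {a : V → ℚ} (t : ℚ) (ha : D.KQ a) : D.KQ (t • a) := by
  obtain ⟨m, hm, c, hc, hc'⟩ := ha
  refine ⟨m * t.den, Nat.mul_pos hm t.den_pos, t.num • c, ?_, fun v => ?_⟩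
  · rw [dg_smul, hc]; simp
  · simp only [Pi.smul_apply, smul_eq_mul]
    push_cast
    rw [hc']
    have h : (t.num : ℚ) = t * t.den := by
      rw [Rat.mul_den_eq_num]
    rw [h]; ring

theorem KQ.neg {a : V → ℚ} (ha : D.KQ a) : D.KQ (-a) := by
  have := ha.smul (-1); simpa using this

theorem KQ.sub {a b : V → ℚ} (ha : D.KQ a) (hb : D.KQ b) : D.KQ (a - b) := by
  rw [sub_eq_add_neg]; exact ha.add hb.neg

theorem KQ.sum {α : Type} (s : Finset α) (f : α → V → ℚ) (h : ∀ x ∈ s, D.KQ (f x)) :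
    D.KQ (∑ x ∈ s, f x) := by
  classical
  induction s using Finset.induction_on with
  | empty => simpa using KQ.zero
  | insert a s ha ih =>
    rw [Finset.sum_insert ha]
    exact (h a (Finset.mem_insert_self a s)).add (ih fun x hx => h x (Finset.mem_insert_of_mem hx))

theorem KQ.torsion {b : V → ℤ} (h : D.KQ (fun v => (b v : ℚ))) : ∃ m : ℕ, 0 < m ∧ m • D.dg b = 0 := by
  obtain ⟨m, hm, c, hc, hc'⟩ := h
  refine ⟨m, hm, ?_⟩
  have : c = m • b := by
    funext v
    have h2 : ((c v : ℤ) : ℚ) = (m : ℚ) * (b v : ℚ) := hc' v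
    simp only [Pi.smul_apply, nsmul_eq_mul]
    exact_mod_cast h2
  rw [← dg_nsmul, ← this, hc]

theorem KQ.bl (hmu : ∀ i, D.dg (D.bl (Pi.single i 1)) = D.mu) {c : ι → ℚ} (hc : ∑ i, c i = 0) :
    D.KQ (D.bl c) := by
  classical
  -- common denominator
  set m : ℕ := ∏ i, (c i).den with hm
  have hmpos : 0 < m := Finset.prod_pos fun i _ => (c i).den_pos
  have hdvd : ∀ i, ∃ e : ℤ, (e : ℚ) = m * c i := by
    intro i
    refine ⟨(c i).num * ∏ j ∈ Finset.univ.erase i, ((c j).den : ℤ), ?_⟩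
    rw [hm, ← Finset.mul_prod_erase Finset.univ _ (Finset.mem_univ i)]
    push_cast
    have h : ((c i).num : ℚ) = c i * (c i).den := by rw [Rat.mul_den_eq_num]
    rw [h]; ring
  choose e he using hdvd
  refine ⟨m, hmpos, D.bl e, ?_, fun v => ?_⟩
  · rw [dg_bl hmu]
    have : ∑ i, e i = 0 := by
      have h : ((∑ i, e i : ℤ) : ℚ) = 0 := by
        push_cast
        simp_rw [he]
        rw [← Finset.mul_sum, hc, mul_zero]
      exact_mod_cast h
    rw [this, zero_smul]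
  · rw [bl_cast]
    have : (fun i => (e i : ℚ)) = (m : ℚ) • c := by funext i; simp [he]
    rw [this, bl_smul]; simp

theorem Rep.of_int {b : V → ℤ} {w : K} (h : D.dg b = w) : D.Rep w (fun v => (b v : ℚ)) :=
  ⟨1, one_pos, b, by simp [h], by simp⟩

theorem Rep.zero : D.Rep 0 0 := ⟨1, one_pos, 0, by simp [dg_zero], by simp⟩

theorem Rep.add {a b : V → ℚ} {w w' : K} (ha : D.Rep w a) (hb : D.Rep w' b) : D.Rep (w + w') (a + b) := by
  obtain ⟨m, hm, c, hc, hc'⟩ := ha
  obtain ⟨n, hn, d, hd, hd'⟩ := hb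
  refine ⟨m * n, Nat.mul_pos hm hn, (n : ℤ) • c + (m : ℤ) • d, ?_, fun v => ?_⟩
  · rw [dg_add, dg_smul, dg_smul, hc, hd, smul_add, natCast_zsmul, natCast_zsmul, ← mul_smul,
      ← mul_smul, mul_comm n m]
  · simp only [Pi.add_apply, Pi.smul_apply, smul_eq_mul]
    push_cast
    rw [hc', hd']; ring

theorem Rep.neg {a : V → ℚ} {w : K} (ha : D.Rep w a) : D.Rep (-w) (-a) := by
  obtain ⟨m, hm, c, hc, hc'⟩ := ha
  refine ⟨m, hm, -c, by rw [dg_neg, hc, smul_neg], fun v => by simp [hc']⟩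

theorem Rep.sub {a b : V → ℚ} {w w' : K} (ha : D.Rep w a) (hb : D.Rep w' b) : D.Rep (w - w') (a - b) := by
  rw [sub_eq_add_neg, sub_eq_add_neg]; exact ha.add hb.neg

theorem Rep.nsmul {a : V → ℚ} {w : K} (k : ℕ) (ha : D.Rep w a) : D.Rep (k • w) (k • a) := by
  induction k with
  | zero => simpa using Rep.zero
  | succ k ih => rw [succ_nsmul, succ_nsmul]; exact ih.add ha

theorem Rep.sum {α : Type} (s : Finset α) (f : α → V → ℚ) (w : α → K) (h : ∀ x ∈ s, D.Rep (w x) (f x)) :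
    D.Rep (∑ x ∈ s, w x) (∑ x ∈ s, f x) := by
  classical
  induction s using Finset.induction_on with
  | empty => simpa using Rep.zero
  | insert a s ha ih =>
    rw [Finset.sum_insert ha, Finset.sum_insert ha]
    exact (h a (Finset.mem_insert_self a s)).add (ih fun x hx => h x (Finset.mem_insert_of_mem hx))

theorem Rep.kq {a : V → ℚ} (ha : D.Rep 0 a) : D.KQ a := by
  obtain ⟨m, hm, c, hc, hc'⟩ := ha
  exact ⟨m, hm, c, by simpa using hc, hc'⟩

theorem KQ.rep {a : V → ℚ} (ha : D.KQ a) : D.Rep 0 a := by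
  obtain ⟨m, hm, c, hc, hc'⟩ := ha
  exact ⟨m, hm, c, by simpa using hc, hc'⟩

theorem Rep.sub_kq {a b : V → ℚ} {w : K} (ha : D.Rep w a) (hb : D.Rep w b) : D.KQ (a - b) := by
  have := ha.sub hb
  rw [sub_self] at this
  exact this.kq

theorem Rep.add_kq {a b : V → ℚ} {w : K} (ha : D.Rep w a) (hb : D.KQ b) : D.Rep w (a + b) := by
  have := ha.add hb.rep
  rwa [add_zero] at this

theorem Rep.convex {a b : V → ℚ} {w : K} (t : ℚ) (ha : D.Rep w a) (hb : D.Rep w b) :
    D.Rep w ((1 - t) • a + t • b) := by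
  have h : (1 - t) • a + t • b = a + t • (b - a) := by
    rw [sub_smul, one_smul, smul_sub]; abel
  rw [h]
  exact ha.add_kq ((hb.sub_kq ha).smul t)

theorem Pi.convex {a b : V → ℚ} {w : K} {σ : Finset V} {t : ℚ} (h0 : 0 ≤ t) (h1 : t ≤ 1)
    (ha : D.Pi w σ a) (hb : D.Pi w σ b) : D.Pi w σ ((1 - t) • a + t • b) := by
  refine ⟨ha.1.convex t hb.1, fun v => ?_, fun v hv => ?_⟩
  · have h1' : 0 ≤ 1 - t := by linarith
    have := mul_nonneg h1' (ha.2.1 v)
    have := mul_nonneg h0 (hb.2.1 v)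
    simp only [Pi.add_apply, Pi.smul_apply, smul_eq_mul]
    linarith
  · simp [ha.2.2 v hv, hb.2.2 v hv]

theorem Pi.mono {a : V → ℚ} {w : K} {σ τ : Finset V} (h : σ ⊆ τ) (ha : D.Pi w σ a) : D.Pi w τ a :=
  ⟨ha.1, ha.2.1, fun v hv => ha.2.2 v fun hv' => hv (h hv')⟩

theorem Semi.mono {w : K} {σ τ : Finset V} (h : σ ⊆ τ) (ha : D.Semi w σ) : D.Semi w τ := by
  obtain ⟨a, ha⟩ := ha
  exact ⟨a, ha.mono h⟩

/-! functionals -/

theorem kill_kq {psi : V → ℚ} (hpsi : ∀ b : V → ℤ, D.dg b = 0 → ∑ v, psi v * (b v : ℚ) = 0) {a : V → ℚ}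
    (ha : D.KQ a) : ∑ v, psi v * a v = 0 := by
  obtain ⟨m, hm, c, hc, hc'⟩ := ha
  have := hpsi c hc
  simp_rw [hc'] at this
  have h : ∑ v, psi v * ((m : ℚ) * a v) = m * ∑ v, psi v * a v := by
    rw [Finset.mul_sum]
    exact Finset.sum_congr rfl fun v _ => by ring
  rw [h] at this
  rcases mul_eq_zero.1 this with h | h
  · exact absurd h (by exact_mod_cast hm.ne')
  · exact h

theorem kill_rep {psi : V → ℚ} (hpsi : ∀ b : V → ℤ, D.dg b = 0 → ∑ v, psi v * (b v : ℚ) = 0) {w : K}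
    {a b : V → ℚ} (ha : D.Rep w a) (hb : D.Rep w b) : ∑ v, psi v * a v = ∑ v, psi v * b v := by
  have := kill_kq hpsi (ha.sub_kq hb)
  simp only [Pi.sub_apply, mul_sub, Finset.sum_sub_distrib] at this
  linarith

theorem dot_bl (lam : V → ℚ) (c : ι → ℚ) : ∑ v, lam v * D.bl c v = ∑ i, c i * D.bs lam i := by
  have h1 : ∀ v, lam v * D.bl c v = ∑ i, if D.blk v = some i then c i * (lam v * (D.l v : ℚ)) else 0 := by
    intro v
    cases h : D.blk v with
    | none => simp [bl_none _ h]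
    | some i =>
      simp [bl_some _ h]
      ring
  simp_rw [h1]
  rw [Finset.sum_comm]
  refine Finset.sum_congr rfl fun i _ => ?_
  rw [bs, Finset.mul_sum]
  refine Finset.sum_congr rfl fun v _ => ?_
  split_ifs <;> simp

theorem bs_eq_of_kill (hmu : ∀ i, D.dg (D.bl (Pi.single i 1)) = D.mu) {psi : V → ℚ}
    (hpsi : ∀ b : V → ℤ, D.dg b = 0 → ∑ v, psi v * (b v : ℚ) = 0) (i j : ι) : D.bs psi i = D.bs psi j := by
  by_cases hij : i = j
  · rw [hij]
  have h : ∑ k, ((Pi.single i 1 - Pi.single j 1 : ι → ℚ)) k = 0 := by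
    simp [Finset.sum_sub_distrib]
  have h2 := kill_kq hpsi (KQ.bl hmu h)
  rw [dot_bl] at h2
  simp only [Pi.sub_apply, sub_mul, Finset.sum_sub_distrib] at h2
  simp [Pi.single_apply] at h2
  linarith

/-! fixed supports -/

theorem Fixed.mono {σ τ : Finset V} (h : σ ⊆ τ) (hF : D.Fixed τ) : D.Fixed σ :=
  fun a ha hd => hF a (fun v hv => ha v fun hv' => hv (h hv')) hd

/-- rational elements of the kernel supported on a fixed support -/
theorem Fixed.rat {σ : Finset V} (hF : D.Fixed σ) {a : V → ℚ} (ha : D.KQ a) (hs : ∀ v, v ∉ σ → a v = 0) :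
    ∃ c : ι → ℚ, ∑ i, c i = 0 ∧ a = D.bl c := by
  obtain ⟨m, hm, b, hb, hb'⟩ := ha
  have hm' : (m : ℚ) ≠ 0 := by exact_mod_cast hm.ne'
  obtain ⟨c, hc, rfl⟩ := hF b (fun v hv => by
    have := hb' v
    rw [hs v hv, mul_zero] at this
    exact_mod_cast this) hb
  refine ⟨(m : ℚ)⁻¹ • fun i => (c i : ℚ), ?_, ?_⟩
  · simp only [Pi.smul_apply, smul_eq_mul, ← Finset.mul_sum]
    have : (∑ i, (c i : ℚ)) = 0 := by exact_mod_cast hc
    rw [this, mul_zero]
  · rw [bl_smul]
    funext v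
    have := hb' v
    rw [bl_cast] at this
    simp only [Pi.smul_apply, smul_eq_mul]
    rw [this, ← mul_assoc, inv_mul_cancel₀ hm', one_mul]

theorem bl_zero_of_not_full (hl : ∀ v, 0 < D.l v) {R : Type} [CommRing R] [IsDomain R] [CharZero R]
    {σ : Finset V} {c : ι → R} (hs : ∀ v, v ∉ σ → D.bl c v = 0) {i : ι} (hi : ¬ D.Full σ i) : c i = 0 := by
  simp only [Full, not_forall] at hi
  obtain ⟨v, hv, hv'⟩ := hi
  have := hs v hv'
  rw [bl_some _ hv] at this
  rcases mul_eq_zero.1 this with h | h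
  · exact h
  · exact absurd h (by exact_mod_cast (hl v).ne')

end Comb

end Pool.Agent.Helper39.TV
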