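import Pool.Agent.Helper39.TV.Basic

/-! TV, module Count -/

open Finset

set_option linter.unusedSectionVars false

namespace Pool.Agent.Helper39.TV

variable {V ι K : Type} [Fintype V] [DecidableEq V] [Fintype ι] [DecidableEq ι] [AddCommGroup K]

namespace Comb

variable {D : Comb V ι K} {A : K} {n : ℕ}

/-- extension by zero of a vector on `x` -/
private def count_ext (x : Finset V) (a : {v // v ∈ x} → ℤ) (v : V) : ℤ :=
  if h : v ∈ x then a ⟨v, h⟩ else 0

private theorem count_ext_mem {x : Finset V} (a : {v // v ∈ x} → ℤ) (v : {v // v ∈ x}) :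
    count_ext x a v.1 = a v := by simp [count_ext]

private theorem count_ext_notMem {x : Finset V} (a : {v // v ∈ x} → ℤ) {v : V} (h : v ∉ x) :
    count_ext x a v = 0 := by simp [count_ext, h]

private theorem count_dg_ext {x : Finset V} (a : {v // v ∈ x} → ℤ) :
    D.dg (count_ext x a) = ∑ v : {v // v ∈ x}, a v • D.deg v.1 := by
  classical
  unfold dg
  rw [← Finset.sum_subset (Finset.subset_univ x)
    (fun v _ hv => by rw [count_ext_notMem a hv, zero_smul])]
  rw [← Finset.sum_coe_sort x]
  refine Finset.sum_congr rfl fun v _ => ?_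
  rw [count_ext_mem]

/-- the degree on vectors supported on `x` -/
private noncomputable def count_phi (D : Comb V ι K) (x : Finset V) : ({v // v ∈ x} → ℤ) →ₗ[ℤ] K :=
  Fintype.linearCombination ℤ (fun v : {v // v ∈ x} => D.deg v.1)

private theorem count_phi_apply {x : Finset V} (a : {v // v ∈ x} → ℤ) :
    count_phi D x a = D.dg (count_ext x a) := by
  rw [count_dg_ext, count_phi, Fintype.linearCombination_apply]

/-- extension by zero of a vector on the full blocks -/
private noncomputable def count_cx (D : Comb V ι K) (x : Finset V) (c : {i // D.Full x i} → ℤ) (i : ι) : ℤ := by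
  classical
  exact if h : D.Full x i then c ⟨i, h⟩ else 0

private theorem count_cx_full {x : Finset V} (c : {i // D.Full x i} → ℤ) (i : {i // D.Full x i}) :
    count_cx D x c i.1 = c i := by simp [count_cx, i.2]

private theorem count_cx_not {x : Finset V} (c : {i // D.Full x i} → ℤ) {i : ι} (h : ¬ D.Full x i) :
    count_cx D x c i = 0 := by simp [count_cx, h]

private noncomputable def count_psi (D : Comb V ι K) (x : Finset V) :
    ({i // D.Full x i} → ℤ) →ₗ[ℤ] ({v // v ∈ x} → ℤ) where
  toFun c v := D.bl (count_cx D x c) v.1
  map_add' c d := by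
    funext v
    have : count_cx D x (c + d) = count_cx D x c + count_cx D x d := by
      funext i
      by_cases h : D.Full x i
      · simp [count_cx, h]
      · simp [count_cx, h]
    rw [this, bl_add]; rfl
  map_smul' t c := by
    funext v
    have : count_cx D x (t • c) = t • count_cx D x c := by
      funext i
      by_cases h : D.Full x i
      · simp [count_cx, h]
      · simp [count_cx, h]
    rw [this, bl_smul]; rfl

private theorem count_psi_apply {x : Finset V} (c : {i // D.Full x i} → ℤ) (v : {v // v ∈ x}) :
    count_psi D x c v = D.bl (count_cx D x c) v.1 := rfl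

private theorem count_psi_inj (G : D.Good A n) (x : Finset V) : Function.Injective (count_psi D x) := by
  intro c d h
  funext i
  obtain ⟨v, hv⟩ := G.ne i.1
  have hvx : v ∈ x := i.2 v hv
  have h1 := congrFun h ⟨v, hvx⟩
  rw [count_psi_apply, count_psi_apply, bl_some _ hv, bl_some _ hv, count_cx_full, count_cx_full] at h1
  have hl : ((D.l v : ℕ) : ℤ) ≠ 0 := by exact_mod_cast (G.lpos v).ne'
  exact mul_right_cancel₀ hl h1

private theorem count_ext_psi {x : Finset V} (c : {i // D.Full x i} → ℤ) :
    count_ext x (count_psi D x c) = D.bl (count_cx D x c) := by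
  funext v
  by_cases hv : v ∈ x
  · have := count_ext_mem (count_psi D x c) ⟨v, hv⟩
    rw [this, count_psi_apply]
  · rw [count_ext_notMem _ hv]
    cases h : D.blk v with
    | none => rw [bl_none _ h]
    | some i =>
      rw [bl_some _ h, count_cx_not, zero_mul]
      exact fun hf => hv (hf v h)

/-- the sum of the coefficients -/
private noncomputable def count_sum (D : Comb V ι K) (x : Finset V) :
    ({i // D.Full x i} → ℤ) →ₗ[ℤ] ℤ := by
  classical
  exact Fintype.linearCombination ℤ (fun _ : {i // D.Full x i} => (1 : ℤ))

private theorem count_sum_apply {x : Finset V} (c : {i // D.Full x i} → ℤ) :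
    count_sum D x c = ∑ i, count_cx D x c i := by
  classical
  rw [count_sum, Fintype.linearCombination_apply]
  have h : ∑ i, count_cx D x c i = ∑ i ∈ Finset.univ.filter (fun i => D.Full x i), count_cx D x c i := by
    rw [Finset.sum_filter]
    refine Finset.sum_congr rfl fun i _ => ?_
    split_ifs with hi
    · rfl
    · exact count_cx_not c hi
  rw [h]
  rw [Finset.sum_subtype (p := fun i => D.Full x i) (Finset.univ.filter (fun i => D.Full x i)) (by simp)]
  refine Finset.sum_congr rfl fun i _ => ?_
  rw [count_cx_full]; simp

private theorem count_ker (G : D.Good A n) {x : Finset V} (hF : D.Fixed x) :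
    LinearMap.ker (count_phi D x) = Submodule.map (count_psi D x) (LinearMap.ker (count_sum D x)) := by
  ext a
  simp only [LinearMap.mem_ker, Submodule.mem_map]
  constructor
  · intro ha
    rw [count_phi_apply] at ha
    obtain ⟨c, hc, hac⟩ := hF (count_ext x a) (fun v hv => count_ext_notMem a hv) ha
    have h0 : ∀ i, ¬ D.Full x i → c i = 0 := by
      intro i hi
      exact bl_zero_of_not_full G.lpos (σ := x) (c := c) (fun v hv => by
        rw [← hac]; exact count_ext_notMem a hv) hi
    have hcx : count_cx D x (fun i => c i.1) = c := by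
      funext i
      by_cases h : D.Full x i
      · simp [count_cx, h]
      · rw [count_cx_not _ h, h0 i h]
    refine ⟨fun i => c i.1, ?_, ?_⟩
    · rw [count_sum_apply, hcx, hc]
    · funext v
      rw [count_psi_apply, hcx, ← hac, count_ext_mem]
  · rintro ⟨c, hc, rfl⟩
    rw [count_sum_apply] at hc
    rw [count_phi_apply, count_ext_psi, dg_bl G.mu_eq, hc, zero_smul]

private theorem count_surj (G : D.Good A n) {x : Finset V} (hAd : D.Adm x) (hS : D.Semi A x) :
    Function.Surjective (count_phi D x) := by
  intro w
  obtain ⟨b, hb, hw⟩ := G.gen x hAd hS w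
  refine ⟨fun v => b v.1, ?_⟩
  rw [count_phi_apply, ← hw]
  congr 1
  funext v
  by_cases hv : v ∈ x
  · simp [count_ext, hv]
  · rw [count_ext_notMem _ hv, hb v hv]

private theorem count_main (G : D.Good A n) {x : Finset V} (hAd : D.Adm x) (hF : D.Fixed x)
    (hS : D.Semi A x) :
    x.card = Module.finrank ℤ K + Module.finrank ℤ (LinearMap.ker (count_sum D x)) := by
  classical
  have h1 := Submodule.finrank_quotient_add_finrank (LinearMap.ker (count_phi D x))
  have h2 : Module.finrank ℤ ({v // v ∈ x} → ℤ) = x.card := by
    rw [Module.finrank_pi]; simp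
  have h3 := (LinearMap.quotKerEquivOfSurjective (count_phi D x) (count_surj G hAd hS)).finrank_eq
  have h4 : Module.finrank ℤ (LinearMap.ker (count_phi D x)) =
      Module.finrank ℤ (LinearMap.ker (count_sum D x)) := by
    rw [count_ker G hF]
    exact ((LinearMap.ker (count_sum D x)).equivMapOfInjective _ (count_psi_inj G x)).finrank_eq.symm
  rw [h2, h3, h4] at h1
  exact h1.symm

private theorem count_rank_pos {x : Finset V} (h : ∃ i, D.Full x i) :
    Module.finrank ℤ (LinearMap.ker (count_sum D x)) + 1 = Nat.card {i // D.Full x i} := by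
  classical
  have h1 := Submodule.finrank_quotient_add_finrank (LinearMap.ker (count_sum D x))
  have h2 : Module.finrank ℤ ({i // D.Full x i} → ℤ) = Nat.card {i // D.Full x i} := by
    rw [Module.finrank_pi, Nat.card_eq_fintype_card]
  have hs : Function.Surjective (count_sum D x) := by
    intro t
    obtain ⟨i, hi⟩ := h
    refine ⟨Pi.single ⟨i, hi⟩ t, ?_⟩
    rw [count_sum, Fintype.linearCombination_apply]
    rw [Finset.sum_eq_single (⟨i, hi⟩ : {i // D.Full x i})]
    · simp
    · intro j _ hj
      simp [Pi.single_apply, hj]
    · simp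
  have h3 := (LinearMap.quotKerEquivOfSurjective (count_sum D x) hs).finrank_eq
  rw [h2, h3, Module.finrank_self] at h1
  omega

private theorem count_rank_zero {x : Finset V} (h : ∀ i, ¬ D.Full x i) :
    Module.finrank ℤ (LinearMap.ker (count_sum D x)) = 0 := by
  classical
  haveI : IsEmpty {i // D.Full x i} := ⟨fun i => h i.1 i.2⟩
  haveI : Subsingleton (LinearMap.ker (count_sum D x)) := inferInstance
  exact Module.finrank_zero_of_subsingleton

theorem card_over (G : D.Good A n) {x : Finset V} {i : ι} (hO : D.Over x i) (hi : ¬ D.Full x i)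
    (hF : D.Fixed x) (hS : D.Semi A x) : (xᶜ).card = n := by
  classical
  have h1 := count_main G (Or.inr ⟨i, hO⟩) hF hS
  have hex : ∃ j, j ≠ i := by
    obtain ⟨a, b, hab⟩ := G.two
    by_cases ha : a = i
    · exact ⟨b, fun hb => hab (ha.trans hb.symm)⟩
    · exact ⟨a, ha⟩
  obtain ⟨j, hj⟩ := hex
  have h2 := count_rank_pos (D := D) (x := x) ⟨j, hO j hj⟩
  have h3 : Nat.card {i // D.Full x i} + 1 = Fintype.card ι := by
    rw [Nat.card_eq_fintype_card, Fintype.card_subtype]
    have : (Finset.univ.filter (fun j => D.Full x j)) = Finset.univ.erase i := by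
      ext k
      simp only [Finset.mem_filter, Finset.mem_univ, true_and, Finset.mem_erase, and_true]
      constructor
      · intro hk hki
        exact hi (hki ▸ hk)
      · intro hk
        exact hO k hk
    rw [this, Finset.card_erase_of_mem (Finset.mem_univ i), Finset.card_univ]
    have : 0 < Fintype.card ι := Fintype.card_pos_iff.2 ⟨i⟩
    omega
  have h4 := G.dim
  have h5 := Finset.card_add_card_compl x
  omega

theorem card_full (G : D.Good A n) {x : Finset V} (hO : ∀ i, D.Full x i)
    (hF : D.Fixed x) (hS : D.Semi A x) : (xᶜ).card + 1 = n := by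
  classical
  obtain ⟨a, b, hab⟩ := G.two
  have h1 := count_main G (Or.inr ⟨a, fun j _ => hO j⟩) hF hS
  have h2 := count_rank_pos (D := D) (x := x) ⟨a, hO a⟩
  have h3 : Nat.card {i // D.Full x i} = Fintype.card ι := by
    rw [Nat.card_eq_fintype_card, Fintype.card_subtype]
    rw [Finset.filter_true_of_mem (fun k _ => hO k), Finset.card_univ]
  have h4 := G.dim
  have h5 := Finset.card_add_card_compl x
  have : 0 < Fintype.card ι := Fintype.card_pos_iff.2 ⟨a⟩
  omega

theorem card_ell (G : D.Good A n) {x : Finset V} (hE : D.Ell x)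
    (hF : D.Fixed x) (hS : D.Semi A x) : (xᶜ).card + 2 = n + Fintype.card ι := by
  classical
  have h1 := count_main G (Or.inl hE) hF hS
  have h2 := count_rank_zero (D := D) (x := x) hE
  have h4 := G.dim
  have h5 := Finset.card_add_card_compl x
  omega

end Comb

end Pool.Agent.Helper39.TV
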