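import Mathlib

/-!
Combinatorial data of trinomial Cox rings (rational varieties with a torus action of complexity one).
-/

open Finset

namespace Pool.Agent.Helper39.TV

/-- combinatorial part of the data of a trinomial Cox ring: `V` = variables, `ι` = blocks -/
structure Comb (V ι K : Type) where
  blk : V → Option ι
  l : V → ℕ
  deg : V → K
  mu : K

variable {V ι K : Type} [Fintype V] [DecidableEq V] [Fintype ι] [DecidableEq ι] [AddCommGroup K]

namespace Comb

variable (D : Comb V ι K)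

/-- the vector `∑ i, c i • L_i`; `L_i` has the entries `l v` on block `i` and `0` elsewhere -/
def bl {R : Type} [Ring R] (c : ι → R) (v : V) : R :=
  (D.blk v).elim 0 (fun i => c i * (D.l v : R))

/-- degree of an integral vector -/
def dg (a : V → ℤ) : K := ∑ v, a v • D.deg v

/-- integral combinations of the `L_i - L_j` -/
def InRel (a : V → ℤ) : Prop := ∃ c : ι → ℤ, ∑ i, c i = 0 ∧ a = D.bl c

/-- `a` is a rational vector in the rational span of the kernel of the degree -/
def KQ (a : V → ℚ) : Prop :=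
  ∃ m : ℕ, 0 < m ∧ ∃ b : V → ℤ, D.dg b = 0 ∧ ∀ v, (b v : ℚ) = m * a v

/-- `a` is a rational vector of degree `w` (modulo torsion) -/
def Rep (w : K) (a : V → ℚ) : Prop :=
  ∃ m : ℕ, 0 < m ∧ ∃ b : V → ℤ, D.dg b = m • w ∧ ∀ v, (b v : ℚ) = m * a v

/-- effective rational vectors of degree `w` with support in `σ` -/
def Pi (w : K) (σ : Finset V) (a : V → ℚ) : Prop :=
  D.Rep w a ∧ (∀ v, 0 ≤ a v) ∧ ∀ v, v ∉ σ → a v = 0

/-- `σ` is semistable for `w` -/
def Semi (w : K) (σ : Finset V) : Prop := ∃ a, D.Pi w σ a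

/-- block `i` is contained in `σ` -/
def Full (σ : Finset V) (i : ι) : Prop := ∀ v, D.blk v = some i → v ∈ σ

/-- no block is contained in `σ` (elliptic type) -/
def Ell (σ : Finset V) : Prop := ∀ i, ¬ D.Full σ i

/-- all blocks except possibly block `i` are contained in `σ` -/
def Over (σ : Finset V) (i : ι) : Prop := ∀ j, j ≠ i → D.Full σ j

/-- `σ` is the set of nonzero coordinates of some point of the total space -/
def Adm (σ : Finset V) : Prop := D.Ell σ ∨ ∃ i, D.Over σ i

/-- the torus acts on the points with support `σ` through the grading torus -/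
def Fixed (σ : Finset V) : Prop :=
  ∀ a : V → ℤ, (∀ v, v ∉ σ → a v = 0) → D.dg a = 0 → D.InRel a

/-- `p` is the only element of block `i` not in `σ` -/
def Sole (σ : Finset V) (i : ι) (p : V) : Prop :=
  p ∉ σ ∧ D.blk p = some i ∧ ∀ w, D.blk w = some i → w ≠ p → w ∈ σ

/-- block `i` has exactly one element outside `σ`, and its exponent is `1` -/
def Simple (σ : Finset V) (i : ι) : Prop := ∃ p, D.Sole σ i p ∧ D.l p = 1

/-- the value of a functional on `L_i` -/
def bs (lam : V → ℚ) (i : ι) : ℚ := ∑ v, if D.blk v = some i then lam v * (D.l v : ℚ) else 0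

/-- the canonical class -/
def can : K := ((Fintype.card ι : ℤ) - 2) • D.mu - ∑ v, D.deg v

/-- `z ^ c * g(p)` with a form `g` of degree `k` is a section of degree `w` -/
def Sec (w : K) (c : V → ℤ) (k : ℕ) : Prop := (∀ v, 0 ≤ c v) ∧ D.dg c + k • D.mu = w

/-- the combinatorial hypotheses: `A` is an ample class on a smooth projective variety of
dimension `n` -/
structure Good (A : K) (n : ℕ) : Prop where
  lpos : ∀ v, 0 < D.l v
  two : ∃ i j : ι, i ≠ j
  ne : ∀ i, ∃ v, D.blk v = some i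
  mu_eq : ∀ i, D.dg (D.bl (Pi.single i 1)) = D.mu
  pointed : ∀ a : V → ℤ, (∀ v, 0 ≤ a v) → D.dg a = 0 → a = 0
  tf : ∀ a : V → ℤ, D.dg a = 0 → ∀ m : ℤ, m ≠ 0 → D.InRel (m • a) → D.InRel a
  gen : ∀ σ : Finset V, D.Adm σ → D.Semi A σ → ∀ w : K, ∃ b : V → ℤ, (∀ v, v ∉ σ → b v = 0) ∧ D.dg b = w
  ell : ∀ σ : Finset V, D.Ell σ → D.Semi A σ → ∃ i j : ι, i ≠ j ∧ ∀ m, m ≠ i → m ≠ j → D.Simple σ m
  dim : Fintype.card V + 2 = n + Fintype.card ι + Module.finrank ℤ K

/-- all directions at `x` give sections of degree `w` -/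
def Chart (w : K) (x : Finset V) : Prop :=
  (∃ c k, D.Sec w c k ∧ ∀ v, v ∉ x → c v = 0) ∧
    ∀ v, v ∉ x → ∃ c k, D.Sec w c k ∧ c v = 1 ∧ ∀ u, u ∉ x → u ≠ v → c u = 0

/-- the integral vector with support in `x` and degree `w` -/
noncomputable def rp (x : Finset V) (w : K) : V → ℤ := by
  classical exact if h : ∃ b : V → ℤ, (∀ v, v ∉ x → b v = 0) ∧ D.dg b = w then h.choose else 0

/-- the zeros which are not in a block `m ≠ i, j` -/
def Z (x : Finset V) (i j : ι) : Finset V :=
  xᶜ.filter (fun v => ∀ m, m ≠ i → m ≠ j → D.blk v ≠ some m)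

/-- what we want at an elliptic point: in degree `w`, the blocks `m ≠ i, j` are simple -/
def EChart (w : K) (x : Finset V) : Prop :=
  ∃ i j, i ≠ j ∧ (∀ m, m ≠ i → m ≠ j → D.Simple x m) ∧ (∀ u ∈ x, 1 ≤ D.rp x w u) ∧
    ∀ v ∈ D.Z x i j, ∀ u ∈ x, 0 ≤ D.rp x (w - D.deg v) u

end Comb

end Pool.Agent.Helper39.TV
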