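import Pool.Agent.Helper39.TV.EB

/-! TV, module ES -/

open Finset

set_option linter.unusedSectionVars false

namespace Pool.Agent.Helper39.TV

variable {V ι K : Type} [Fintype V] [DecidableEq V] [Fintype ι] [DecidableEq ι] [AddCommGroup K]

namespace Comb

variable {D : Comb V ι K} {A : K} {n : ℕ}

private theorem es_blk {x : Finset V} {i : ι} {p : V} (hp : D.Sole x i p) {k : ι}
    (h : D.blk p = some k) : k = i := by
  have := hp.2.1
  rw [h] at this
  exact Option.some.inj this

/-- the value of a functional which vanishes on the block up to the sole zero -/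
private theorem es_bs {x : Finset V} {i : ι} {p : V} (hp : D.Sole x i p) (c : V → ℚ)
    (hc : ∀ v ∈ x, c v = 0) : D.bs c i = c p * D.l p := by
  rw [bs, Finset.sum_eq_single p]
  · rw [if_pos hp.2.1]
  · intro v _ hv
    split_ifs with h
    · rw [hc v (hp.2.2 v h hv), zero_mul]
    · rfl
  · intro h
    exact absurd (Finset.mem_univ p) h

theorem rp_sole (G : D.Good A n) {x : Finset V} (hE : D.Ell x) (hF : D.Fixed x) (hS : D.Semi A x)
    {i j : ι} (hij : i ≠ j) (hsim : ∀ m, m ≠ i → m ≠ j → D.Simple x m) {p : V} (hp : D.Sole x i p) :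
    ∃ t : ι → ℚ, (∀ m, 0 ≤ t m) ∧ t i = 0 ∧ t j = 0 ∧ D.l p * ∑ m, t m ≤ 1 ∧
      (∀ u ∈ x, (D.blk u = none ∨ D.blk u = some j) → D.rp x (D.deg p) u ≤ D.rp x A u) ∧
      (∀ u ∈ x, D.blk u = some i →
        (D.l u : ℚ) * ∑ m, t m ≤ D.rp x A u - D.rp x (D.deg p) u) ∧
      ∀ u ∈ x, ∀ m, m ≠ i → m ≠ j → D.blk u = some m →
        -(t m * D.l u) ≤ (D.rp x A u : ℚ) - D.rp x (D.deg p) u := by
  classical
  -- the simple zeros
  obtain ⟨z, hz⟩ : ∃ z : ι → V, ∀ m, m ≠ i → m ≠ j → D.Sole x m (z m) ∧ D.l (z m) = 1 := by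
    have : Nonempty V := ⟨p⟩
    choose! z hz using fun m (h : m ≠ i ∧ m ≠ j) => hsim m h.1 h.2
    exact ⟨z, fun m h1 h2 => hz m ⟨h1, h2⟩⟩
  set M : Finset ι := univ.filter (fun m => m ≠ i ∧ m ≠ j) with hM
  have hmem : ∀ m, m ∈ M ↔ m ≠ i ∧ m ≠ j := fun m => by simp [hM]
  have hzs : ∀ m ∈ M, D.Sole x m (z m) := fun m hm => (hz m ((hmem m).1 hm).1 ((hmem m).1 hm).2).1
  have hzl : ∀ m ∈ M, D.l (z m) = 1 := fun m hm => (hz m ((hmem m).1 hm).1 ((hmem m).1 hm).2).2
  have hpx : p ∉ x := hp.1
  have hzp : ∀ m ∈ M, z m ≠ p := by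
    intro m hm h
    have h1 := (hzs m hm).2.1
    rw [h] at h1
    exact ((hmem m).1 hm).1 (es_blk hp h1)
  set S : Finset V := insert p x ∪ M.image z with hSdef
  have hxS : x ⊆ S := fun v hv => Finset.mem_union_left _ (Finset.mem_insert_of_mem hv)
  have hover : D.Over S j := by
    intro k hk v hv
    by_cases hki : k = i
    · subst hki
      by_cases hvp : v = p
      · exact Finset.mem_union_left _ (Finset.mem_insert.2 (Or.inl hvp))
      · exact hxS (hp.2.2 v hv hvp)
    · have hkM : k ∈ M := (hmem k).2 ⟨hki, hk⟩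
      by_cases hvz : v = z k
      · exact Finset.mem_union_right _ (Finset.mem_image.2 ⟨k, hkM, hvz.symm⟩)
      · exact hxS ((hzs k hkM).2.2 v hv hvz)
  have hnj : ¬ D.Full S j := by
    intro h
    refine hE j fun v hv => ?_
    have h1 := h v hv
    rw [hSdef, Finset.mem_union, Finset.mem_insert, Finset.mem_image] at h1
    rcases h1 with (h1 | h1) | ⟨m, hm, h1⟩
    · rw [h1] at hv
      exact absurd (es_blk hp hv).symm hij
    · exact h1
    · rw [← h1] at hv
      exact absurd (es_blk (hzs m hm) hv).symm ((hmem m).1 hm).2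
  set c : V → ℤ := fun v => if v ∈ x then 0 else if v = p then 1 else if v ∈ M.image z then
    (D.l p : ℤ) else 0 with hc
  have hcx : ∀ v ∈ x, c v = 0 := fun v hv => by simp [hc, hv]
  have hcp : c p = 1 := by simp [hc, hpx]
  have hcz : ∀ m ∈ M, c (z m) = D.l p := by
    intro m hm
    have h1 : z m ∉ x := (hzs m hm).1
    have h2 : z m ∈ M.image z := Finset.mem_image_of_mem z hm
    simp only [hc]
    rw [if_neg h1, if_neg (hzp m hm), if_pos h2]
  have hcn : ∀ v, 0 ≤ c v := by
    intro v
    simp only [hc]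
    split_ifs <;> positivity
  have hbs : ∀ k, k ≠ j → D.bs (fun v => (c v : ℚ)) k = D.l p := by
    intro k hk
    by_cases hki : k = i
    · subst hki
      rw [es_bs hp _ fun v hv => by rw [hcx v hv]; simp, hcp]
      simp
    · have hkM : k ∈ M := (hmem k).2 ⟨hki, hk⟩
      rw [es_bs (hzs k hkM) _ fun v hv => by rw [hcx v hv]; simp, hcz k hkM, hzl k hkM]
      simp
  obtain ⟨a, haPi, hac⟩ := D.star G hxS (Or.inl hE) hS hF (Or.inr ⟨j, hover⟩) c hcx
    (fun v _ => hcn v) ⟨p, Finset.mem_union_left _ (Finset.mem_insert_self p x), by rw [hcp]; norm_num⟩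
    (by
      intro k k' hk hk'
      have h1 : k ≠ j := fun h => hnj (h ▸ hk)
      have h2 : k' ≠ j := fun h => hnj (h ▸ hk')
      rw [hbs k h1, hbs k' h2])
  -- sums over the zeros
  have key : ∀ f : V → ℚ, ∑ v ∈ xᶜ, a v * f v = a p * f p + ∑ m ∈ M, a (z m) * f (z m) := by
    intro f
    have hsub : insert p (M.image z) ⊆ xᶜ := by
      intro v hv
      rw [Finset.mem_compl]
      rcases Finset.mem_insert.1 hv with h | h
      · rw [h]; exact hpx
      · obtain ⟨m, hm, rfl⟩ := Finset.mem_image.1 h
        exact (hzs m hm).1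
    rw [← Finset.sum_subset hsub]
    · rw [Finset.sum_insert, Finset.sum_image]
      · intro m hm m' hm' h
        have h1 := (hzs m hm).2.1
        rw [h] at h1
        exact es_blk (hzs m' hm') h1
      · intro h
        obtain ⟨m, hm, h1⟩ := Finset.mem_image.1 h
        exact hzp m hm h1
    · intro v hv hv'
      rw [Finset.mem_compl] at hv
      have : a v = 0 := by
        refine haPi.2.2 v fun h => ?_
        rw [hSdef, Finset.mem_union, Finset.mem_insert] at h
        rcases h with (h | h) | h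
        · exact hv' (Finset.mem_insert.2 (Or.inl h))
        · exact hv h
        · exact hv' (Finset.mem_insert_of_mem h)
      rw [this, zero_mul]
  have hsum : a p + (D.l p : ℚ) * ∑ m ∈ M, a (z m) = 1 := by
    have h1 := key (fun v => (c v : ℚ))
    have h2 : ∑ v, (c v : ℚ) * a v = ∑ v ∈ xᶜ, a v * (c v : ℚ) := by
      rw [← Finset.sum_subset (Finset.subset_univ xᶜ)]
      · exact Finset.sum_congr rfl fun v _ => mul_comm _ _
      · intro v _ hv
        rw [Finset.mem_compl, not_not] at hv
        rw [hcx v hv]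
        simp
    rw [h2, h1, hcp] at hac
    rw [← hac, Finset.mul_sum]
    push_cast
    rw [mul_one]
    congr 1
    exact Finset.sum_congr rfl fun m hm => by rw [hcz m hm]; push_cast; ring
  set t : ι → ℚ := fun m => if m ∈ M then a (z m) else 0 with ht
  have htsum : ∑ m, t m = ∑ m ∈ M, a (z m) := by
    rw [ht, Finset.sum_ite_mem, Finset.univ_inter]
  have ht0 : ∀ m, 0 ≤ t m := by
    intro m
    simp only [ht]
    split_ifs
    · exact haPi.2.1 _
    · exact le_rfl
  have hexp : ∀ u ∈ x, a u = (D.rp x A u : ℚ) - D.rp x (D.deg p) u -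
      (∑ m, t m) * (if D.blk u = some i then (D.l u : ℚ) else 0) +
      ∑ m ∈ M, a (z m) * (if D.blk u = some m then (D.l u : ℚ) else 0) := by
    intro u hu
    have h1 := rp_expand G hE hF hS haPi.1 hu
    rw [key] at h1
    have h2 := rp_mu G hE hF hS hp hu
    have h3 : ∀ m ∈ M, (D.rp x (D.deg (z m)) u : ℚ) =
        (if D.blk u = some i then (D.l u : ℚ) else 0) + D.l p * D.rp x (D.deg p) u -
          (if D.blk u = some m then (D.l u : ℚ) else 0) := by
      intro m hm
      have h4 := rp_mu G hE hF hS (hzs m hm) hu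
      rw [hzl m hm] at h4
      have h5 : D.rp x (D.deg (z m)) u =
          (if D.blk u = some i then (D.l u : ℤ) else 0) + D.l p * D.rp x (D.deg p) u -
            (if D.blk u = some m then (D.l u : ℤ) else 0) := by
        rw [← h2, h4]
        push_cast
        ring
      rw [h5]
      push_cast
      rfl
    rw [h1, htsum]
    have h6 : ∑ m ∈ M, a (z m) * (D.rp x (D.deg (z m)) u : ℚ) =
        (∑ m ∈ M, a (z m)) * ((if D.blk u = some i then (D.l u : ℚ) else 0) +
          D.l p * D.rp x (D.deg p) u) -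
        ∑ m ∈ M, a (z m) * (if D.blk u = some m then (D.l u : ℚ) else 0) := by
      rw [Finset.sum_mul, ← Finset.sum_sub_distrib]
      exact Finset.sum_congr rfl fun m hm => by rw [h3 m hm]; ring
    rw [h6]
    have h7 : a p = 1 - (D.l p : ℚ) * ∑ m ∈ M, a (z m) := by linarith
    rw [h7]
    ring
  refine ⟨t, ht0, ?_, ?_, ?_, ?_, ?_, ?_⟩
  · simp [ht, hmem]
  · simp [ht, hmem]
  · rw [htsum]
    have := haPi.2.1 p
    linarith
  · intro u hu hb
    have h1 := hexp u hu
    have h0 := haPi.2.1 u
    have hni : D.blk u ≠ some i := by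
      rcases hb with h | h
      · rw [h]; simp
      · rw [h]
        intro h'
        exact hij (Option.some.inj h').symm
    have hz0 : ∑ m ∈ M, a (z m) * (if D.blk u = some m then (D.l u : ℚ) else 0) = 0 := by
      refine Finset.sum_eq_zero fun m hm => ?_
      rw [if_neg, mul_zero]
      rcases hb with h | h
      · rw [h]; simp
      · rw [h]
        intro h'
        exact ((hmem m).1 hm).2 (Option.some.inj h').symm
    rw [hz0, if_neg hni] at h1
    have h2 : (D.rp x (D.deg p) u : ℚ) ≤ D.rp x A u := by linarith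
    exact_mod_cast h2
  · intro u hu hb
    have h1 := hexp u hu
    have h0 := haPi.2.1 u
    have hz0 : ∑ m ∈ M, a (z m) * (if D.blk u = some m then (D.l u : ℚ) else 0) = 0 := by
      refine Finset.sum_eq_zero fun m hm => ?_
      rw [if_neg, mul_zero]
      rw [hb]
      intro h'
      exact ((hmem m).1 hm).1 (Option.some.inj h').symm
    rw [hz0, if_pos hb] at h1
    linarith
  · intro u hu m hmi hmj hb
    have h1 := hexp u hu
    have h0 := haPi.2.1 u
    have hmM : m ∈ M := (hmem m).2 ⟨hmi, hmj⟩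
    have hni : D.blk u ≠ some i := by
      rw [hb]
      intro h'
      exact hmi (Option.some.inj h')
    have hz0 : ∑ m' ∈ M, a (z m') * (if D.blk u = some m' then (D.l u : ℚ) else 0) =
        a (z m) * D.l u := by
      rw [Finset.sum_eq_single m]
      · rw [if_pos hb]
      · intro m' _ hne
        rw [if_neg, mul_zero]
        rw [hb]
        intro h'
        exact hne (Option.some.inj h').symm
      · intro h
        exact absurd hmM h
    have htm : t m = a (z m) := by simp only [ht]; rw [if_pos hmM]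
    rw [hz0, if_neg hni] at h1
    rw [htm]
    linarith

end Comb

end Pool.Agent.Helper39.TV
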