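import Pool.Agent.Helper39.TV.EF
import Pool.Agent.Helper39.TV.ES

/-! TV, common lemmas of the modules E1, E2, E3 -/

open Finset

set_option linter.unusedSectionVars false

namespace Pool.Agent.Helper39.TV

variable {V ι K : Type} [Fintype V] [DecidableEq V] [Fintype ι] [DecidableEq ι] [AddCommGroup K]

namespace Comb

variable {D : Comb V ι K} {A : K} {n : ℕ}

theorem E0_rp_sub (G : D.Good A n) {x : Finset V} (hE : D.Ell x) (hF : D.Fixed x)
    (hS : D.Semi A x) (w w' : K) (u : V) :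
    D.rp x (w - w') u = D.rp x w u - D.rp x w' u := by
  have h := rp_unique G hE hF hS (b := D.rp x w - D.rp x w') (w := w - w')
    (fun v hv => by
      simp only [Pi.sub_apply]
      rw [rp_supp G hE hS w hv, rp_supp G hE hS w' hv, sub_zero])
    (by rw [dg_sub, rp_dg G hE hS, rp_dg G hE hS])
  have h2 := congrFun h u
  rw [← h2]; rfl

theorem E0_mem_Z {x : Finset V} {i j : ι} {v : V} :
    v ∈ D.Z x i j ↔ v ∉ x ∧ ∀ m, m ≠ i → m ≠ j → D.blk v ≠ some m := by
  simp [Z]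

/-- the extra term -/
def E0_ex (D : Comb V ι K) (i j : ι) (u : V) : ℤ :=
  (D.blk u).elim 0 (fun m => if m = i ∨ m = j then 0 else (D.l u : ℤ))

theorem E0_ex_nonneg (D : Comb V ι K) (i j : ι) (u : V) : 0 ≤ E0_ex D i j u := by
  unfold E0_ex
  cases D.blk u with
  | none => simp
  | some m =>
    simp only [Option.elim_some]
    split_ifs <;> simp

theorem E0_ex_some {i j m : ι} {u : V} (h : D.blk u = some m) (hi : m ≠ i) (hj : m ≠ j) :
    E0_ex D i j u = D.l u := by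
  unfold E0_ex
  rw [h]
  simp [hi, hj]

theorem E0_echart (G : D.Good A n) {x : Finset V} (hE : D.Ell x) (hF : D.Fixed x)
    (hS : D.Semi A x) {N : ℕ} (hN : n + 2 ≤ N) {i j : ι} (hij : i ≠ j)
    (hsim : ∀ m, m ≠ i → m ≠ j → D.Simple x m)
    (h1 : ∀ u ∈ x, 0 ≤ ∑ v ∈ D.Z x i j, (D.rp x A u - D.rp x (D.deg v) u) + E0_ex D i j u)
    (h2 : ∀ v ∈ D.Z x i j, ∀ u ∈ x, 0 ≤ (D.rp x A u - 1) + (D.rp x A u - D.rp x (D.deg v) u)
      + ∑ v ∈ D.Z x i j, (D.rp x A u - D.rp x (D.deg v) u) + E0_ex D i j u) :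
    D.EChart (D.can + N • A) x := by
  have hN' : (n : ℤ) + 2 ≤ N := by exact_mod_cast hN
  refine ⟨i, j, hij, hsim, fun u hu => ?_, fun v hv u hu => ?_⟩
  · rw [rp_adjoint G hE hF hS hij hsim hN hu]
    have ha := rp_pos G hE hF hS hu
    have h3 := h1 u hu
    unfold E0_ex at h3
    nlinarith
  · rw [E0_rp_sub G hE hF hS, rp_adjoint G hE hF hS hij hsim hN hu]
    have ha := rp_pos G hE hF hS hu
    have h3 := h2 v hv u hu
    unfold E0_ex at h3
    nlinarith

/-- if all terms except the one of `p` are nonnegative -/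
theorem E0_sum {s : Finset V} {f : V → ℤ} {p : V} (hp : p ∈ s) (hf : ∀ v ∈ s, v ≠ p → 0 ≤ f v) :
    f p ≤ ∑ v ∈ s, f v := by
  rw [← Finset.add_sum_erase s f hp]
  have : 0 ≤ ∑ v ∈ s.erase p, f v := by
    apply Finset.sum_nonneg
    intro v hv
    rw [Finset.mem_erase] at hv
    exact hf v hv.2 hv.1
  linarith

/-- if all terms except the ones of `p` and `q` are nonnegative -/
theorem E0_sum2 {s : Finset V} {f : V → ℤ} {p q : V} (hp : p ∈ s) (hq : q ∈ s) (hpq : p ≠ q)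
    (hf : ∀ v ∈ s, v ≠ p → v ≠ q → 0 ≤ f v) :
    f p + f q ≤ ∑ v ∈ s, f v := by
  rw [← Finset.add_sum_erase s f hp]
  have : f q ≤ ∑ v ∈ s.erase p, f v := by
    apply E0_sum (p := q)
    · rw [Finset.mem_erase]; exact ⟨hpq.symm, hq⟩
    · intro v hv hvq
      rw [Finset.mem_erase] at hv
      exact hf v hv.2 hv.1 hvq
  linarith

/-- one special direction -/
theorem E0_echart_one (G : D.Good A n) {x : Finset V} (hE : D.Ell x) (hF : D.Fixed x)
    (hS : D.Semi A x) {N : ℕ} (hN : n + 2 ≤ N) {i j : ι} (hij : i ≠ j)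
    (hsim : ∀ m, m ≠ i → m ≠ j → D.Simple x m) {p : V} (hpZ : p ∈ D.Z x i j)
    (hf : ∀ v ∈ D.Z x i j, v ≠ p → ∀ u ∈ x, D.rp x (D.deg v) u ≤ D.rp x A u)
    (hp : ∀ u ∈ x, 0 ≤ 2 * (D.rp x A u - D.rp x (D.deg p) u) + E0_ex D i j u) :
    D.EChart (D.can + N • A) x := by
  have hsum : ∀ u ∈ x, D.rp x A u - D.rp x (D.deg p) u ≤
      ∑ v ∈ D.Z x i j, (D.rp x A u - D.rp x (D.deg v) u) := by
    intro u hu
    exact E0_sum (f := fun v => D.rp x A u - D.rp x (D.deg v) u) hpZ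
      (fun v hv hvp => by have := hf v hv hvp u hu; linarith)
  refine E0_echart G hE hF hS hN hij hsim (fun u hu => ?_) (fun v hv u hu => ?_)
  · have h1 := hsum u hu
    have h2 := hp u hu
    have h3 := E0_ex_nonneg D i j u
    linarith
  · have h1 := hsum u hu
    have h2 := hp u hu
    have h3 := E0_ex_nonneg D i j u
    have h4 := rp_pos G hE hF hS hu
    by_cases hvp : v = p
    · subst hvp
      linarith
    · have h5 := hf v hv hvp u hu
      linarith

end Comb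

end Pool.Agent.Helper39.TV
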