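import Pool.Agent.Helper39.TV.EF
import Pool.Agent.Helper39.TV.ES
import Pool.Agent.Helper39.TV.E0

/-! TV, module E1 -/

open Finset

set_option linter.unusedSectionVars false

namespace Pool.Agent.Helper39.TV

variable {V ι K : Type} [Fintype V] [DecidableEq V] [Fintype ι] [DecidableEq ι] [AddCommGroup K]

namespace Comb

variable {D : Comb V ι K} {A : K} {n : ℕ}

/-- the numbers `t` with sum one -/
theorem E1_t (G : D.Good A n) {x : Finset V} (hE : D.Ell x) (hF : D.Fixed x)
    (hS : D.Semi A x) {j i0 : ι} (hi0 : i0 ≠ j) (hsim : ∀ m, m ≠ j → D.Simple x m) :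
    ∃ t : ι → ℚ, (∀ m, 0 ≤ t m) ∧ t j = 0 ∧ ∑ m, t m = 1 ∧
      (∀ u ∈ x, (D.blk u = none ∨ D.blk u = some j) → D.rp x D.mu u ≤ D.rp x A u) ∧
      ∀ u ∈ x, ∀ m, m ≠ j → D.blk u = some m →
        -(t m * D.l u) ≤ (D.rp x A u : ℚ) - D.rp x D.mu u := by
  obtain ⟨p, hp, hlp⟩ := hsim i0 hi0
  obtain ⟨t, ht0, hti, htj, hsum, h1, h2, h3⟩ :=
    rp_sole G hE hF hS hi0 (fun m _ hm => hsim m hm) hp
  rw [hlp] at hsum
  have hmu : ∀ u ∈ x, D.rp x D.mu u =
      (if D.blk u = some i0 then (D.l u : ℤ) else 0) + D.rp x (D.deg p) u := by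
    intro u hu
    have := rp_mu G hE hF hS hp hu
    rw [hlp] at this
    simpa using this
  refine ⟨Function.update t i0 (1 - ∑ m, t m), fun m => ?_, ?_, ?_, fun u hu hb => ?_,
    fun u hu m hm hb => ?_⟩
  · by_cases h : m = i0
    · subst h
      rw [Function.update_self]
      push_cast at hsum
      linarith
    · rw [Function.update_of_ne h]
      exact ht0 m
  · rw [Function.update_of_ne hi0.symm]
    exact htj
  · rw [Finset.sum_update_of_mem (Finset.mem_univ i0)]
    have : ∑ m, t m = t i0 + ∑ x ∈ Finset.univ \ {i0}, t x := by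
      rw [← Finset.add_sum_erase Finset.univ t (Finset.mem_univ i0)]
      rw [Finset.sdiff_singleton_eq_erase]
    rw [hti, zero_add] at this
    rw [← this]
    ring
  · rw [hmu u hu]
    have h4 : D.blk u ≠ some i0 := by
      rcases hb with hb | hb
      · rw [hb]; simp
      · rw [hb]
        intro h
        exact hi0 (Option.some.inj h).symm
    rw [if_neg h4, zero_add]
    exact h1 u hu hb
  · rw [hmu u hu]
    by_cases hmi : m = i0
    · subst hmi
      rw [if_pos hb, Function.update_self]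
      have h4 := h2 u hu hb
      push_cast at h4 ⊢
      linarith
    · have h4 : D.blk u ≠ some i0 := by
        rw [hb]
        intro h
        exact hmi (Option.some.inj h)
      rw [if_neg h4, zero_add, Function.update_of_ne hmi]
      exact h3 u hu m hmi hm hb

theorem echart_one (G : D.Good A n) {x : Finset V} (hE : D.Ell x) (hF : D.Fixed x)
    (hS : D.Semi A x) {N : ℕ} (hN : n + 2 ≤ N) {j : ι} (hsim : ∀ m, m ≠ j → D.Simple x m) :
    D.EChart (D.can + N • A) x := by
  obtain ⟨i0, hi0⟩ : ∃ i0 : ι, i0 ≠ j := by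
    obtain ⟨a, b, hab⟩ := G.two
    by_cases h : a = j
    · exact ⟨b, fun h' => hab (h.trans h'.symm)⟩
    · exact ⟨a, h⟩
  obtain ⟨t, ht0, htj, hsum, h1, h2⟩ := E1_t G hE hF hS hi0 hsim
  obtain ⟨m0, hm0, hmax⟩ := Finset.exists_max_image (Finset.univ.erase j) t
    ⟨i0, by rw [Finset.mem_erase]; exact ⟨hi0, Finset.mem_univ _⟩⟩
  have hm0j : m0 ≠ j := (Finset.mem_erase.1 hm0).1
  have ht1 : t m0 ≤ 1 := by
    rw [← hsum]
    exact Finset.single_le_sum (fun m _ => ht0 m) (Finset.mem_univ m0)
  have ht2 : ∀ m, m ≠ m0 → m ≠ j → t m ≤ 1 / 2 := by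
    intro m hm hmj
    have h3 : t m + t m0 ≤ 1 := by
      rw [← hsum, ← Finset.add_sum_erase Finset.univ t (Finset.mem_univ m)]
      have : t m0 ≤ ∑ x ∈ Finset.univ.erase m, t x :=
        Finset.single_le_sum (fun m _ => ht0 m)
          (by rw [Finset.mem_erase]; exact ⟨hm.symm, Finset.mem_univ _⟩)
      linarith
    have h4 := hmax m (by rw [Finset.mem_erase]; exact ⟨hmj, Finset.mem_univ _⟩)
    linarith
  obtain ⟨p, hp, hlp⟩ := hsim m0 hm0j
  have hmu : ∀ u ∈ x, D.rp x D.mu u =
      (if D.blk u = some m0 then (D.l u : ℤ) else 0) + D.rp x (D.deg p) u := by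
    intro u hu
    have := rp_mu G hE hF hS hp hu
    rw [hlp] at this
    simpa using this
  have hpZ : p ∈ D.Z x m0 j := by
    rw [E0_mem_Z]
    refine ⟨hp.1, fun m hmi _ hm => ?_⟩
    rw [hp.2.1] at hm
    exact hmi (Option.some.inj hm).symm
  have hup : ∀ v, v ∉ x → D.blk v = some m0 → v = p := by
    intro v hv hb
    by_contra hne
    exact hv (hp.2.2 v hb hne)
  refine E0_echart_one G hE hF hS hN hm0j (fun m _ hm => hsim m hm) hpZ
    (fun v hv hvp u hu => ?_) (fun u hu => ?_)
  · rw [E0_mem_Z] at hv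
    by_cases hns : ∃ m, D.Sole x m v
    · obtain ⟨m, hm⟩ := hns
      have hmj : m = j := by
        by_contra hmj
        by_cases hmm : m = m0
        · subst hmm
          exact hvp (hup v hv.1 hm.2.1)
        · exact hv.2 m hmm hmj hm.2.1
      subst hmj
      -- sole zero of block j
      have hrs : ∀ m1, m1 ≠ m → (∀ u ∈ x, (D.blk u = none ∨ D.blk u = some m1) →
          D.rp x (D.deg v) u ≤ D.rp x A u) ∧
          ∀ u ∈ x, D.blk u = some m → D.rp x (D.deg v) u ≤ D.rp x A u := by
        intro m1 hm1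
        obtain ⟨t', ht0', hti', htj', hsum', h1', h2', h3'⟩ :=
          rp_sole G hE hF hS (i := m) (j := m1) hm1.symm (fun m' h _ => hsim m' h) hm
        refine ⟨h1', fun u hu hb => ?_⟩
        have h4 := h2' u hu hb
        have hS0 : 0 ≤ ∑ m, t' m := Finset.sum_nonneg (fun m _ => ht0' m)
        have h5 : (0 : ℚ) ≤ (D.l u : ℚ) * ∑ m, t' m := mul_nonneg (Nat.cast_nonneg _) hS0
        have h6 : (0 : ℚ) ≤ ((D.rp x A u - D.rp x (D.deg v) u : ℤ) : ℚ) := by
          push_cast; linarith
        have h7 : 0 ≤ D.rp x A u - D.rp x (D.deg v) u := by exact_mod_cast h6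
        linarith
      cases hb : D.blk u with
      | none => exact (hrs i0 hi0).1 u hu (Or.inl hb)
      | some m' =>
        by_cases hm' : m' = m
        · subst hm'
          exact (hrs i0 hi0).2 u hu hb
        · exact (hrs m' hm').1 u hu (Or.inr hb)
    · exact rp_nonsole G hE hF hS hv.1 (fun m hm => hns ⟨m, hm⟩) hu
  · have hex0 := E0_ex_nonneg D m0 j u
    have h4 := hmu u hu
    cases hb : D.blk u with
    | none =>
      have h3 := h1 u hu (Or.inl hb)
      rw [hb] at h4
      simp at h4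
      linarith
    | some m =>
      rw [hb] at h4
      by_cases hmj : m = j
      · subst hmj
        have h3 := h1 u hu (Or.inr hb)
        rw [if_neg (fun h => hm0j (Option.some.inj h).symm), zero_add] at h4
        linarith
      by_cases hmm : m = m0
      · subst hmm
        rw [if_pos rfl] at h4
        have h3 := h2 u hu m hmj hb
        rw [h4] at h3
        have hl : (0 : ℚ) ≤ D.l u := Nat.cast_nonneg _
        have h5 : t m * D.l u ≤ 1 * D.l u := mul_le_mul_of_nonneg_right ht1 hl
        have h6 : (0 : ℚ) ≤ ((D.rp x A u - D.rp x (D.deg p) u : ℤ) : ℚ) := by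
          push_cast at h3 ⊢; linarith
        have h7 : 0 ≤ D.rp x A u - D.rp x (D.deg p) u := by exact_mod_cast h6
        linarith
      · rw [if_neg (fun h => hmm (Option.some.inj h)), zero_add] at h4
        have h3 := h2 u hu m hmj hb
        rw [h4] at h3
        rw [E0_ex_some hb hmm hmj]
        have hl : (0 : ℚ) ≤ D.l u := Nat.cast_nonneg _
        have h5 : t m * D.l u ≤ 1 / 2 * D.l u := mul_le_mul_of_nonneg_right (ht2 m hmm hmj) hl
        have h6 : (0 : ℚ) ≤ ((2 * (D.rp x A u - D.rp x (D.deg p) u) + (D.l u : ℤ) : ℤ) : ℚ) := by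
          push_cast; linarith
        exact_mod_cast h6

end Comb

end Pool.Agent.Helper39.TV
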