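import Pool.Agent.Helper39.TV.EF
import Pool.Agent.Helper39.TV.ES
import Pool.Agent.Helper39.TV.E0

/-! TV, module E2 -/

open Finset

set_option linter.unusedSectionVars false

namespace Pool.Agent.Helper39.TV

variable {V ι K : Type} [Fintype V] [DecidableEq V] [Fintype ι] [DecidableEq ι] [AddCommGroup K]

namespace Comb

variable {D : Comb V ι K} {A : K} {n : ℕ}

/-- at most one of the two non-simple blocks has a sole zero -/
theorem echart_two (G : D.Good A n) {x : Finset V} (hE : D.Ell x) (hF : D.Fixed x)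
    (hS : D.Semi A x) {N : ℕ} (hN : n + 2 ≤ N) {i j : ι} (hij : i ≠ j)
    (hsim : ∀ m, m ≠ i → m ≠ j → D.Simple x m) (hi : ¬ D.Simple x i) (hj : ∀ q, ¬ D.Sole x j q) :
    D.EChart (D.can + N • A) x := by
  -- zeros in Z which are not sole in block i
  have hns : ∀ v ∈ D.Z x i j, ¬ D.Sole x i v → ∀ m, ¬ D.Sole x m v := by
    intro v hv hvi m hm
    rw [E0_mem_Z] at hv
    by_cases h1 : m = i
    · subst h1; exact hvi hm
    by_cases h2 : m = j
    · subst h2; exact hj v hm
    exact hv.2 m h1 h2 hm.2.1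
  have hle : ∀ v ∈ D.Z x i j, ¬ D.Sole x i v → ∀ u ∈ x, D.rp x (D.deg v) u ≤ D.rp x A u := by
    intro v hv hvi u hu
    exact rp_nonsole G hE hF hS (E0_mem_Z.1 hv).1 (hns v hv hvi) hu
  by_cases hex : ∃ p, D.Sole x i p
  · obtain ⟨p, hp⟩ := hex
    have hpZ : p ∈ D.Z x i j := by
      rw [E0_mem_Z]
      refine ⟨hp.1, fun m hmi _ hm => ?_⟩
      rw [hp.2.1] at hm
      exact hmi (Option.some.inj hm).symm
    have hlp : 2 ≤ D.l p := by
      have h1 := G.lpos p
      have h2 : D.l p ≠ 1 := fun h => hi ⟨p, hp, h⟩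
      omega
    have huniq : ∀ v, D.Sole x i v → v = p := by
      intro v hv
      by_contra hne
      exact hv.1 (hp.2.2 v hv.2.1 hne)
    obtain ⟨t, ht0, hti, htj, hsum, h1, h2, h3⟩ := rp_sole G hE hF hS hij hsim hp
    have hlpq : (2 : ℚ) ≤ D.l p := by exact_mod_cast hlp
    have hS0 : 0 ≤ ∑ m, t m := Finset.sum_nonneg (fun m _ => ht0 m)
    have hS1 : ∑ m, t m ≤ 1 / 2 := by
      have : 2 * ∑ m, t m ≤ D.l p * ∑ m, t m := mul_le_mul_of_nonneg_right hlpq hS0
      linarith
    refine E0_echart_one G hE hF hS hN hij hsim hpZ (fun v hv hvp u hu => ?_) (fun u hu => ?_)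
    · exact hle v hv (fun h => hvp (huniq v h)) u hu
    · have hex0 := E0_ex_nonneg D i j u
      cases hb : D.blk u with
      | none =>
        have := h1 u hu (Or.inl hb)
        linarith
      | some m =>
        by_cases hmj : m = j
        · subst hmj
          have := h1 u hu (Or.inr hb)
          linarith
        by_cases hmi : m = i
        · subst hmi
          have h4 := h2 u hu hb
          have h5 : (0 : ℚ) ≤ (D.l u : ℚ) * ∑ m, t m := mul_nonneg (Nat.cast_nonneg _) hS0
          have h6 : (0 : ℚ) ≤ ((D.rp x A u - D.rp x (D.deg p) u : ℤ) : ℚ) := by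
            push_cast; linarith
          have h7 : 0 ≤ D.rp x A u - D.rp x (D.deg p) u := by exact_mod_cast h6
          linarith
        · have h4 := h3 u hu m hmi hmj hb
          rw [E0_ex_some hb hmi hmj]
          have h5 : t m ≤ 1 / 2 :=
            (Finset.single_le_sum (fun m _ => ht0 m) (Finset.mem_univ m)).trans hS1
          have h6 : t m * (D.l u : ℚ) ≤ 1 / 2 * (D.l u : ℚ) :=
            mul_le_mul_of_nonneg_right h5 (Nat.cast_nonneg _)
          have h7 : (0 : ℚ) ≤ ((2 * (D.rp x A u - D.rp x (D.deg p) u) + (D.l u : ℤ) : ℤ) : ℚ) := by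
            push_cast; linarith
          exact_mod_cast h7
  · have hall : ∀ u ∈ x, 0 ≤ ∑ v ∈ D.Z x i j, (D.rp x A u - D.rp x (D.deg v) u) := by
      intro u hu
      apply Finset.sum_nonneg
      intro v hv
      have := hle v hv (fun h => hex ⟨v, h⟩) u hu
      linarith
    refine E0_echart G hE hF hS hN hij hsim (fun u hu => ?_) (fun v hv u hu => ?_)
    · have h1 := hall u hu
      have h3 := E0_ex_nonneg D i j u
      linarith
    · have h1 := hall u hu
      have h3 := E0_ex_nonneg D i j u
      have h4 := rp_pos G hE hF hS hu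
      have h5 := hle v hv (fun h => hex ⟨v, h⟩) u hu
      linarith

end Comb

end Pool.Agent.Helper39.TV
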