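import Pool.Agent.Helper39.TV.EB

/-! TV, module EW -/

open Finset

set_option linter.unusedSectionVars false

namespace Pool.Agent.Helper39.TV

variable {V ι K : Type} [Fintype V] [DecidableEq V] [Fintype ι] [DecidableEq ι] [AddCommGroup K]

namespace Comb

variable {D : Comb V ι K} {A : K} {n : ℕ}

theorem ew_ne {x : Finset V} {i j : ι} (hij : i ≠ j) {p q : V} (hp : D.Sole x i p)
    (hq : D.Sole x j q) : p ≠ q := by
  rintro rfl
  have h := hp.2.1.symm.trans hq.2.1
  exact hij (Option.some.inj h)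

/-- `L_i - L_j` in terms of the two sole zeros -/
theorem ew_diff (G : D.Good A n) {x : Finset V} (hE : D.Ell x) (hF : D.Fixed x)
    (hS : D.Semi A x) {i j : ι} {p q : V} (hp : D.Sole x i p) (hq : D.Sole x j q) :
    D.bl (Pi.single i 1 - Pi.single j 1 : ι → ℤ) =
      (D.l p : ℤ) • (Pi.single p 1 - D.rp x (D.deg p)) -
        (D.l q : ℤ) • (Pi.single q 1 - D.rp x (D.deg q)) := by
  have hpart : ∀ (k : ι) (r : V), D.Sole x k r → ∀ v, v ∉ x →
      D.bl (Pi.single k 1 : ι → ℤ) v = ((D.l r : ℤ) • (Pi.single r 1 : V → ℤ)) v := by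
    intro k r hr v hv
    rw [Pi.smul_apply, smul_eq_mul]
    by_cases hvr : v = r
    · rw [hvr, bl_some _ hr.2.1]; simp
    · have h1 : (Pi.single r 1 : V → ℤ) v = 0 := by simp [Pi.single_apply, hvr]
      rw [h1, mul_zero]
      cases hb : D.blk v with
      | none => rw [bl_none _ hb]
      | some k' =>
        rw [bl_some _ hb]
        by_cases hk : k' = k
        · exact absurd (hr.2.2 v (by rw [hb, hk]) hvr) hv
        · simp [Pi.single_apply, hk]
  have hsp := rp_supp (v := p) G hE hS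
  set R : V → ℤ := D.bl (Pi.single i 1 - Pi.single j 1 : ι → ℤ) -
      ((D.l p : ℤ) • (Pi.single p 1 - D.rp x (D.deg p)) -
        (D.l q : ℤ) • (Pi.single q 1 - D.rp x (D.deg q))) with hR
  have hdg : D.dg R = 0 := by
    rw [hR, dg_sub, dg_sub, dg_smul, dg_smul, dg_sub, dg_sub, dg_single, dg_single,
      rp_dg G hE hS, rp_dg G hE hS, sub_self, sub_self, smul_zero, smul_zero, sub_zero, sub_zero,
      dg_bl G.mu_eq]
    simp [Finset.sum_sub_distrib]
  have hsupp : ∀ v, v ∉ x → R v = 0 := by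
    intro v hv
    have h1 := hpart i p hp v hv
    have h2 := hpart j q hq v hv
    have h3 := rp_supp G hE hS (D.deg p) hv
    have h4 := rp_supp G hE hS (D.deg q) hv
    rw [hR, bl_sub]
    simp only [Pi.sub_apply, Pi.smul_apply, smul_eq_mul] at h1 h2 ⊢
    rw [h3, h4, sub_zero, sub_zero, ← h1, ← h2, sub_self]
  obtain ⟨c, -, hc⟩ := hF R hsupp hdg
  have hc0 : c = 0 := by
    funext k
    exact bl_zero_of_not_full (R := ℤ) G.lpos (σ := x) (fun v hv => by rw [← hc]; exact hsupp v hv)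
      (hE k)
  rw [hc0, bl_zero] at hc
  exact sub_eq_zero.1 hc

theorem sole_coprime (G : D.Good A n) {x : Finset V} (hE : D.Ell x) (hF : D.Fixed x)
    (hS : D.Semi A x) {i j : ι} (hij : i ≠ j) {p q : V} (hp : D.Sole x i p) (hq : D.Sole x j q) :
    Nat.Coprime (D.l p) (D.l q) := by
  obtain ⟨a, ha⟩ := Nat.gcd_dvd_left (D.l p) (D.l q)
  obtain ⟨b, hb⟩ := Nat.gcd_dvd_right (D.l p) (D.l q)
  set d := Nat.gcd (D.l p) (D.l q) with hd
  have hdpos : 0 < d := Nat.gcd_pos_of_pos_left _ (G.lpos p)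
  set v : V → ℤ := (a : ℤ) • (Pi.single p 1 - D.rp x (D.deg p)) -
    (b : ℤ) • (Pi.single q 1 - D.rp x (D.deg q)) with hv
  have h1 : (d : ℤ) • v = D.bl (Pi.single i 1 - Pi.single j 1 : ι → ℤ) := by
    rw [ew_diff G hE hF hS hp hq, hv, smul_sub, smul_smul, smul_smul]
    congr 2
    · rw [ha]; push_cast; rfl
    · rw [hb]; push_cast; rfl
  have h2 : D.InRel ((d : ℤ) • v) := ⟨_, by simp [Finset.sum_sub_distrib], h1⟩
  have h3 : D.dg v = 0 := by
    rw [hv, dg_sub, dg_smul, dg_smul, dg_sub, dg_sub, dg_single, dg_single, rp_dg G hE hS,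
      rp_dg G hE hS, sub_self, sub_self, smul_zero, smul_zero, sub_zero]
  obtain ⟨c, -, hc⟩ := G.tf v h3 d (by exact_mod_cast hdpos.ne') h2
  have h4 := congrFun hc p
  rw [bl_some _ hp.2.1, hv] at h4
  have h5 := rp_supp G hE hS (D.deg p) hp.1
  have h6 := rp_supp G hE hS (D.deg q) hp.1
  have h7 : (Pi.single q 1 : V → ℤ) p = 0 := by
    simp [Pi.single_apply, ew_ne hij hp hq]
  simp only [Pi.sub_apply, Pi.smul_apply, smul_eq_mul, h5, h6, h7, Pi.single_eq_same, sub_zero,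
    mul_one, mul_zero] at h4
  -- a = c i * l p
  have h8 : (D.l p : ℤ) = d * (c i * D.l p) := by
    rw [← h4]
    exact_mod_cast ha
  have h9 : (D.l p : ℤ) ≠ 0 := by exact_mod_cast (G.lpos p).ne'
  have h10 : (d : ℤ) * c i = 1 := by
    have h11 : ((d : ℤ) * c i - 1) * D.l p = 0 := by linear_combination -h8
    rcases mul_eq_zero.1 h11 with h12 | h12
    · linarith
    · exact absurd h12 h9
  have h11 : (d : ℤ) ∣ 1 := ⟨c i, h10.symm⟩
  have h12 : d ∣ 1 := by exact_mod_cast h11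
  exact Nat.dvd_one.1 h12

theorem sole_beta (G : D.Good A n) {x : Finset V} (hE : D.Ell x) (hF : D.Fixed x)
    (hS : D.Semi A x) {i j : ι} (hij : i ≠ j) {p q : V} (hp : D.Sole x i p) (hq : D.Sole x j q)
    {m : ι} (hmi : m ≠ i) (hmj : m ≠ j) {u : V} (hu : u ∈ x) (hum : D.blk u = some m) :
    ∃ β : ℤ, D.rp x (D.deg p) u = D.l q * β ∧ D.rp x (D.deg q) u = D.l p * β ∧
      D.rp x D.mu u = D.l p * D.l q * β := by
  have hcop := sole_coprime G hE hF hS hij hp hq
  have h1 := rp_mu G hE hF hS hp hu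
  have h2 := rp_mu G hE hF hS hq hu
  rw [if_neg (fun h => hmi (Option.some.inj (hum.symm.trans h))), zero_add] at h1
  rw [if_neg (fun h => hmj (Option.some.inj (hum.symm.trans h))), zero_add] at h2
  have h3 : (D.l p : ℤ) * D.rp x (D.deg p) u = D.l q * D.rp x (D.deg q) u := h1.symm.trans h2
  have h4 : IsCoprime (D.l q : ℤ) (D.l p : ℤ) := (Nat.isCoprime_iff_coprime.2 hcop).symm
  obtain ⟨β, hβ⟩ : (D.l q : ℤ) ∣ D.rp x (D.deg p) u := h4.dvd_of_dvd_mul_left ⟨_, h3⟩
  refine ⟨β, hβ, ?_, ?_⟩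
  · have h5 : (D.l q : ℤ) ≠ 0 := by exact_mod_cast (G.lpos q).ne'
    rw [hβ] at h3
    apply mul_left_cancel₀ h5
    linear_combination -h3
  · rw [h1, hβ]; ring

/-- a weight which vanishes on `x` -/
theorem ew_bs {x : Finset V} {k : ι} {r : V} (hr : D.Sole x k r) {c : V → ℤ}
    (hc : ∀ v ∈ x, c v = 0) : D.bs (fun v => (c v : ℚ)) k = (c r : ℚ) * D.l r := by
  unfold bs
  rw [Finset.sum_eq_single r]
  · rw [if_pos hr.2.1]
  · intro v _ hv
    split_ifs with h
    · change (c v : ℚ) * _ = 0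
      rw [hc v (hr.2.2 v h hv)]; simp
    · rfl
  · intro h
    exact absurd (Finset.mem_univ _) h

theorem diag_one (G : D.Good A n) {x : Finset V} (hE : D.Ell x) (hF : D.Fixed x)
    (hS : D.Semi A x) {i j : ι} (hij : i ≠ j) {p q : V} (hp : D.Sole x i p) (hq : D.Sole x j q)
    (hsim : ∀ m, m ≠ i → m ≠ j → D.Simple x m)
    {m : ι} (hmi : m ≠ i) (hmj : m ≠ j) {u : V} (hu : u ∈ x) (hum : D.blk u = some m)
    {β : ℤ} (h1 : D.rp x (D.deg p) u = D.l q * β) (h2 : D.rp x (D.deg q) u = D.l p * β) :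
    β ≤ D.rp x A u := by
  classical
  have hpq : p ≠ q := ew_ne hij hp hq
  -- the support and the weight
  set T : V → Prop := fun v => ∃ k, k ≠ i ∧ k ≠ j ∧ k ≠ m ∧ D.Sole x k v with hT
  set S : Finset V := Finset.univ.filter (fun v => v ∈ x ∨ v = p ∨ v = q ∨ T v) with hSd
  set c : V → ℤ := fun v => if v = p then (D.l q : ℤ) else if v = q then (D.l p : ℤ) else
    if T v then (D.l p : ℤ) * D.l q else 0 with hcd
  have hmemS : ∀ v, v ∈ S ↔ (v ∈ x ∨ v = p ∨ v = q ∨ T v) := fun v => by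
    rw [hSd, Finset.mem_filter]
    exact ⟨fun h => h.2, fun h => ⟨Finset.mem_univ _, h⟩⟩
  have hTp : ∀ v, T v → v ≠ p := by
    rintro v ⟨k, hk, -, -, hs⟩
    exact ew_ne hk hs hp
  have hTq : ∀ v, T v → v ≠ q := by
    rintro v ⟨k, -, hk, -, hs⟩
    exact ew_ne hk hs hq
  have hcp : c p = D.l q := by rw [hcd]; simp
  have hcq : c q = D.l p := by rw [hcd]; simp [hpq.symm]
  have hcT : ∀ v, T v → c v = (D.l p : ℤ) * D.l q := by
    intro v hv
    change (if v = p then (D.l q : ℤ) else if v = q then (D.l p : ℤ) else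
      if T v then (D.l p : ℤ) * D.l q else 0) = _
    rw [if_neg (hTp v hv), if_neg (hTq v hv), if_pos hv]
  have hcx : ∀ v ∈ x, c v = 0 := by
    intro v hv
    change (if v = p then (D.l q : ℤ) else if v = q then (D.l p : ℤ) else
      if T v then (D.l p : ℤ) * D.l q else 0) = _
    have e1 : v ≠ p := fun h => hp.1 (h ▸ hv)
    have e2 : v ≠ q := fun h => hq.1 (h ▸ hv)
    have e3 : ¬ T v := by
      rintro ⟨k, -, -, -, hs⟩
      exact hs.1 hv
    rw [if_neg e1, if_neg e2, if_neg e3]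
  have hcn : ∀ v, 0 ≤ c v := by
    intro v
    change 0 ≤ (if v = p then (D.l q : ℤ) else if v = q then (D.l p : ℤ) else
      if T v then (D.l p : ℤ) * D.l q else 0)
    split_ifs <;> positivity
  -- blocks other than `m`: the sole zero
  have hblk : ∀ k, k ≠ m → ∃ r, D.Sole x k r ∧ r ∈ S ∧ (c r : ℚ) * D.l r = D.l p * D.l q := by
    intro k hk
    by_cases hki : k = i
    · subst hki
      refine ⟨p, hp, (hmemS p).2 (Or.inr (Or.inl rfl)), ?_⟩
      rw [hcp]; push_cast; ring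
    by_cases hkj : k = j
    · subst hkj
      refine ⟨q, hq, (hmemS q).2 (Or.inr (Or.inr (Or.inl rfl))), ?_⟩
      rw [hcq]; push_cast; ring
    obtain ⟨r, hr, hlr⟩ := hsim k hki hkj
    have hTr : T r := ⟨k, hki, hkj, hk, hr⟩
    refine ⟨r, hr, (hmemS r).2 (Or.inr (Or.inr (Or.inr hTr))), ?_⟩
    rw [hcT r hTr, hlr]; push_cast; ring
  have hover : D.Over S m := by
    intro k hk v hv
    obtain ⟨r, hr, hrS, -⟩ := hblk k hk
    by_cases hvr : v = r
    · rw [hvr]; exact hrS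
    · exact (hmemS v).2 (Or.inl (hr.2.2 v hv hvr))
  have hnot : ¬ D.Full S m := by
    intro hfull
    obtain ⟨r, hr, -⟩ := hsim m hmi hmj
    have h3 := hfull r hr.2.1
    rcases (hmemS r).1 h3 with h4 | h4 | h4 | ⟨k, -, -, h5, h6⟩
    · exact hr.1 h4
    · exact ew_ne hmi hr hp h4
    · exact ew_ne hmj hr hq h4
    · exact ew_ne h5.symm hr h6 rfl
  have hbs : ∀ k, D.Full S k → D.bs (fun v => (c v : ℚ)) k = D.l p * D.l q := by
    intro k hk
    have hkm : k ≠ m := by
      rintro rfl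
      exact hnot hk
    obtain ⟨r, hr, -, h3⟩ := hblk k hkm
    rw [ew_bs hr hcx, h3]
  obtain ⟨a, ha, hsum⟩ := star G (S := S) (fun v hv => (hmemS v).2 (Or.inl hv)) (Or.inl hE) hS hF
    (Or.inr ⟨m, hover⟩) c hcx (fun v _ => hcn v)
    ⟨p, (hmemS p).2 (Or.inr (Or.inl rfl)), by
      rw [hcp]
      exact_mod_cast G.lpos q⟩
    (fun k k' hk hk' => (hbs k hk).trans (hbs k' hk').symm)
  -- the values of `rp (deg v)` at `u`
  have hmu : D.rp x D.mu u = (D.l p : ℤ) * D.l q * β := by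
    have h3 := rp_mu G hE hF hS hp hu
    rw [if_neg (fun h => hmi (Option.some.inj (hum.symm.trans h))), zero_add, h1] at h3
    rw [h3]; ring
  have hval : ∀ v ∈ S, v ∉ x → D.rp x (D.deg v) u = β * c v := by
    intro v hv hvx
    rcases (hmemS v).1 hv with h3 | h3 | h3 | h3
    · exact absurd h3 hvx
    · rw [h3, h1, hcp]; ring
    · rw [h3, h2, hcq]; ring
    · rw [hcT v h3]
      obtain ⟨k, hki, hkj, hkm, hs⟩ := h3
      obtain ⟨r, hr, hlr⟩ := hsim k hki hkj
      have hvr : v = r := by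
        by_contra hne
        exact hs.1 (hr.2.2 v hs.2.1 hne)
      have h4 := rp_mu G hE hF hS hs hu
      rw [if_neg (fun h => hkm (Option.some.inj (hum.symm.trans h)).symm), zero_add, hvr, hlr,
        hmu] at h4
      rw [hvr]
      push_cast at h4
      linear_combination -h4
  have hexp := rp_expand G hE hF hS ha.1 hu
  have hrest : ∑ v ∈ xᶜ, a v * (D.rp x (D.deg v) u : ℚ) = β := by
    have h3 : ∑ v ∈ xᶜ, a v * (D.rp x (D.deg v) u : ℚ) = ∑ v ∈ xᶜ, (β : ℚ) * ((c v : ℚ) * a v) := by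
      refine Finset.sum_congr rfl fun v hv => ?_
      rw [Finset.mem_compl] at hv
      by_cases hvS : v ∈ S
      · rw [hval v hvS hv]; push_cast; ring
      · rw [ha.2.2 v hvS]; ring
    have h4 : ∑ v ∈ xᶜ, (c v : ℚ) * a v = ∑ v, (c v : ℚ) * a v := by
      refine Finset.sum_subset (Finset.subset_univ _) fun v _ hv => ?_
      rw [Finset.mem_compl, not_not] at hv
      rw [hcx v hv]; simp
    rw [h3, ← Finset.mul_sum, h4, hsum, mul_one]
  rw [hrest] at hexp
  have h3 := ha.2.1 u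
  have h4 : (β : ℚ) ≤ D.rp x A u := by linarith
  exact_mod_cast h4

end Comb

end Pool.Agent.Helper39.TV
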