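import Pool.Agent.Helper39.TV.EW
import Pool.Agent.Helper39.TV.ES

/-! TV, module EY -/

open Finset

set_option linter.unusedSectionVars false

namespace Pool.Agent.Helper39.TV

variable {V ι K : Type} [Fintype V] [DecidableEq V] [Fintype ι] [DecidableEq ι] [AddCommGroup K]

namespace Comb

variable {D : Comb V ι K} {A : K} {n : ℕ}

/-- the zeros are the `z i` and free variables -/
theorem EY_blk {x : Finset V} {z : ι → V} (hz : ∀ i, D.Sole x i (z i)) {v : V} (hv : v ∉ x)
    {i : ι} (hi : D.blk v = some i) : v = z i := by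
  by_contra h
  exact hv ((hz i).2.2 v hi h)

theorem EY_inj {x : Finset V} {z : ι → V} (hz : ∀ i, D.Sole x i (z i)) :
    Function.Injective z := by
  intro i j h
  have h1 := (hz i).2.1
  rw [h, (hz j).2.1] at h1
  exact (Option.some_injective ι h1).symm

theorem EY_sum {x : Finset V} {z : ι → V} (hz : ∀ i, D.Sole x i (z i)) (f : V → ℚ)
    (hf : ∀ v, v ∉ x → (∀ i, v ≠ z i) → f v = 0) : ∑ v ∈ xᶜ, f v = ∑ i, f (z i) := by
  rw [← Finset.sum_image (f := f) (g := z) (s := Finset.univ) (fun a _ b _ h => EY_inj hz h)]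
  symm
  apply Finset.sum_subset
  · intro v hv
    rw [Finset.mem_image] at hv
    obtain ⟨i, _, rfl⟩ := hv
    exact Finset.mem_compl.mpr (hz i).1
  · intro v hv hv'
    apply hf v (Finset.mem_compl.mp hv)
    intro i hi
    exact hv' (Finset.mem_image.mpr ⟨i, Finset.mem_univ i, hi.symm⟩)

theorem EY_lne (G : D.Good A n) (v : V) : (D.l v : ℚ) ≠ 0 := by
  exact_mod_cast (G.lpos v).ne'

/-- the expansion of a vector of degree `A` at an element of block `m` -/
theorem EY_F (G : D.Good A n) {x : Finset V} (hE : D.Ell x) (hF : D.Fixed x) (hS : D.Semi A x)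
    {z : ι → V} (hz : ∀ i, D.Sole x i (z i)) {m : ι} {u : V} (hu : u ∈ x)
    (hum : D.blk u = some m) {a : V → ℚ} (ha : D.Rep A a)
    (hs : ∀ v, v ∉ x → (∀ i, v ≠ z i) → a v = 0) :
    a u = D.rp x A u - (∑ i, a (z i) / D.l (z i)) * D.rp x D.mu u +
      a (z m) / D.l (z m) * D.l u := by
  rw [rp_expand G hE hF hS ha hu, EY_sum hz _ (fun v hv hv' => by rw [hs v hv hv', zero_mul])]
  have h1 : ∀ i, a (z i) * (D.rp x (D.deg (z i)) u : ℚ) =
      a (z i) / D.l (z i) * D.rp x D.mu u -
        (if m = i then a (z i) / D.l (z i) * (D.l u : ℚ) else 0) := by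
    intro i
    have h2 := rp_mu G hE hF hS (hz i) hu
    have h3 := EY_lne G (z i)
    rw [hum] at h2
    have h4 : ((D.rp x D.mu u : ℤ) : ℚ) = (if m = i then (D.l u : ℚ) else 0) +
        D.l (z i) * (D.rp x (D.deg (z i)) u : ℚ) := by
      rw [h2]
      push_cast
      congr 1
      by_cases h5 : m = i
      · simp [h5]
      · have : ¬ (some m = some i) := fun h => h5 (Option.some_injective ι h)
        simp [h5]
    rw [h4]
    by_cases h5 : m = i
    · rw [if_pos h5, if_pos h5]
      field_simp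
      ring
    · rw [if_neg h5, if_neg h5]
      field_simp
      ring
  rw [Finset.sum_congr rfl fun i _ => h1 i, Finset.sum_sub_distrib, ← Finset.sum_mul,
    Finset.sum_ite_eq Finset.univ m]
  rw [if_pos (Finset.mem_univ m)]
  ring

/-- a rational kernel vector is determined by its values at the zeros -/
theorem EY_frame (G : D.Good A n) {x : Finset V} (hE : D.Ell x) (hF : D.Fixed x)
    {z : ι → V} (hz : ∀ i, D.Sole x i (z i)) {d : V → ℚ} (hd : D.KQ d)
    (hs : ∀ v, v ∉ x → (∀ i, v ≠ z i) → d v = 0) (hT : ∑ i, d (z i) / D.l (z i) = 0) :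
    d = D.bl (fun i => d (z i) / (D.l (z i) : ℚ)) := by
  have h1 : D.KQ (d - D.bl (fun i => d (z i) / (D.l (z i) : ℚ))) :=
    hd.sub (KQ.bl G.mu_eq hT)
  have hsupp : ∀ v, v ∉ x → (d - D.bl (fun i => d (z i) / (D.l (z i) : ℚ))) v = 0 := by
    intro v hv
    rw [Pi.sub_apply]
    cases hb : D.blk v with
    | none =>
      rw [bl_none _ hb, hs v hv, sub_zero]
      intro i hi
      rw [hi, (hz i).2.1] at hb
      exact absurd hb (by simp)
    | some i =>
      have h2 := EY_blk hz hv hb
      rw [bl_some _ hb, h2, div_mul_cancel₀ _ (EY_lne G (z i)), sub_self]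
  obtain ⟨c1, -, hc1⟩ := hF.rat h1 hsupp
  have h2 : c1 = 0 := by
    funext i
    exact bl_zero_of_not_full G.lpos (σ := x) (fun v hv => by rw [← hc1]; exact hsupp v hv) (hE i)
  rw [h2, bl_zero, sub_eq_zero] at hc1
  exact hc1

/-- the integral version -/
theorem EY_frame_int (G : D.Good A n) {x : Finset V} (hE : D.Ell x) (hF : D.Fixed x)
    {z : ι → V} (hz : ∀ i, D.Sole x i (z i)) {a : V → ℤ} (hd : D.dg a = 0)
    (hs : ∀ v, v ∉ x → (∀ i, v ≠ z i) → a v = 0) {c : ι → ℤ}
    (hc : ∀ i, a (z i) = c i * D.l (z i)) (hT : ∑ i, c i = 0) : D.InRel a := by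
  have h1 : D.dg (a - D.bl c) = 0 := by
    rw [dg_sub, hd, dg_bl G.mu_eq, hT, zero_smul, sub_zero]
  have hsupp : ∀ v, v ∉ x → (a - D.bl c) v = 0 := by
    intro v hv
    rw [Pi.sub_apply]
    cases hb : D.blk v with
    | none =>
      rw [bl_none _ hb, hs v hv, sub_zero]
      intro i hi
      rw [hi, (hz i).2.1] at hb
      exact absurd hb (by simp)
    | some i =>
      have h2 := EY_blk hz hv hb
      rw [bl_some _ hb, h2, hc i, sub_self]
  have h2 := hF _ hsupp h1
  have h3 : a = (a - D.bl c) + D.bl c := by abel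
  rw [h3]
  exact h2.add ⟨c, hT, rfl⟩

/-- the sum of `c a` -/
theorem EY_dot (G : D.Good A n) {x : Finset V} {z : ι → V} (hz : ∀ i, D.Sole x i (z i))
    {c : V → ℤ} {P : ℤ} (hc0 : ∀ v ∈ x, c v = 0) (hcz : ∀ i, c (z i) * D.l (z i) = P)
    (hcf : ∀ v, v ∉ x → (∀ i, v ≠ z i) → c v = 0) (a : V → ℚ) :
    ∑ v, (c v : ℚ) * a v = P * ∑ i, a (z i) / D.l (z i) := by
  have h1 : ∑ v, (c v : ℚ) * a v = ∑ v ∈ xᶜ, (c v : ℚ) * a v := by
    symm
    apply Finset.sum_subset (Finset.subset_univ _)
    intro v _ hv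
    rw [Finset.mem_compl, not_not] at hv
    rw [hc0 v hv]
    simp
  rw [h1, EY_sum hz _ (fun v hv hv' => by rw [hcf v hv hv']; simp), Finset.mul_sum]
  apply Finset.sum_congr rfl
  intro i _
  have h2 := EY_lne G (z i)
  have h3 : (c (z i) : ℚ) * D.l (z i) = P := by exact_mod_cast hcz i
  rw [← h3]
  field_simp

theorem EY_bs {x : Finset V} {z : ι → V} (hz : ∀ i, D.Sole x i (z i))
    {c : V → ℤ} (hc0 : ∀ v ∈ x, c v = 0) (i : ι) :
    D.bs (fun v => (c v : ℚ)) i = (c (z i) : ℚ) * D.l (z i) := by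
  rw [bs, Finset.sum_eq_single (z i)]
  · rw [if_pos (hz i).2.1]
  · intro v _ hv
    split_ifs with h
    · rw [hc0 v ((hz i).2.2 v h hv)]
      simp
    · rfl
  · intro h
    exact absurd (Finset.mem_univ _) h

theorem EY_core (G : D.Good A n) {x : Finset V} (hE : D.Ell x) (hF : D.Fixed x)
    (hS : D.Semi A x) {z : ι → V} (hz : ∀ i, D.Sole x i (z i)) {i j : ι} (hij : i ≠ j)
    (hl : ∀ m, m ≠ i → m ≠ j → D.l (z m) = 1)
    {m : ι} (hmi : m ≠ i) (hmj : m ≠ j) {u : V} (hu : u ∈ x) (hum : D.blk u = some m)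
    {β : ℤ} (hβ : 0 < β) (hmu : D.rp x D.mu u = D.l (z i) * D.l (z j) * β)
    {c : V → ℤ} (hc0 : ∀ v ∈ x, c v = 0)
    (hcz : ∀ i', c (z i') * D.l (z i') = (D.l (z i) : ℤ) * D.l (z j))
    (hcf : ∀ v, v ∉ x → (∀ i, v ≠ z i) → c v = 0)
    {S : Finset V} (hSm : ∀ v, v ∈ S ↔ v ∈ x ∨ ∃ i', i' ≠ m ∧ v = z i')
    {psi : V → ℚ} (hkill : ∀ b : V → ℤ, D.dg b = 0 → ∑ v, psi v * (b v : ℚ) = 0)
    (hle : ∀ v ∈ S, psi v ≤ -(c v : ℚ)) {τ : Finset V} (hτS : τ ⊆ S)
    (hτ : ∀ v ∈ S, v ∈ τ ↔ psi v = -(c v : ℚ)) (hSτ : D.Semi A τ) (hAτ : D.Adm τ)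
    (hor : D.Ell τ ∨ ∀ i', D.Full S i' → D.Full τ i') {M : ℚ} (hM0 : 0 < M)
    (hM : ∀ a, D.Rep A a → ∑ v, psi v * a v = -M) (hMq : M < D.l (z j)) :
    (D.l (z i) : ℤ) * D.l (z j) * β ≤ D.rp x A u + D.l u := by
  classical
  have hinj := EY_inj hz
  have hlp : (0 : ℚ) < D.l (z i) := by exact_mod_cast G.lpos _
  have hlq : (0 : ℚ) < D.l (z j) := by exact_mod_cast G.lpos _
  have hlq' : (0 : ℤ) < D.l (z j) := by exact_mod_cast G.lpos _
  have hcnn : ∀ v, 0 ≤ c v := by
    intro v
    by_cases hv : v ∈ x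
    · rw [hc0 v hv]
    by_cases hv' : ∃ i', v = z i'
    · obtain ⟨i', rfl⟩ := hv'
      have h1 := hcz i'
      have h2 : (0 : ℤ) < D.l (z i') := by exact_mod_cast G.lpos _
      have h3 : (0 : ℤ) < D.l (z i) := by exact_mod_cast G.lpos _
      by_contra hcon
      push Not at hcon
      have h4 : c (z i') * D.l (z i') < 0 := mul_neg_of_neg_of_pos hcon h2
      rw [h1] at h4
      have h5 : (0 : ℤ) < (D.l (z i) : ℤ) * D.l (z j) := mul_pos h3 hlq'
      omega
    · push Not at hv'
      rw [hcf v hv hv']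
  have hzmS : z m ∉ S := by
    rw [hSm]
    rintro (h | ⟨i', hi', h⟩)
    · exact (hz m).1 h
    · exact hi' (hinj h).symm
  have hxS : x ⊆ S := fun v hv => (hSm v).mpr (Or.inl hv)
  -- the sum of `c a` over vectors supported in `τ`
  have hMτ : ∀ a : V → ℚ, (∀ v, v ∉ τ → a v = 0) →
      ∑ v, psi v * a v = -∑ v, (c v : ℚ) * a v := by
    intro a ha
    rw [← Finset.sum_neg_distrib]
    apply Finset.sum_congr rfl
    intro v _
    by_cases hv : v ∈ τ
    · rw [(hτ v (hτS hv)).mp hv]
      ring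
    · rw [ha v hv]
      ring
  -- the point `a^p`
  obtain ⟨ap, hap, hap1⟩ : ∃ a, (∃ S2, D.Pi A S2 a ∧ ∀ v, v ∈ S2 ↔ v ∈ x ∨ ∃ i', i' ≠ j ∧ v = z i') ∧
      ∑ v, (c v : ℚ) * a v = D.l (z j) := by
    let S2 : Finset V := Finset.univ.filter (fun v => v ∈ x ∨ ∃ i', i' ≠ j ∧ v = z i')
    have hS2 : ∀ v, v ∈ S2 ↔ v ∈ x ∨ ∃ i', i' ≠ j ∧ v = z i' := by
      intro v
      simp [S2]
    let c' : V → ℤ := fun v => if v = z j then 0 else c v / D.l (z j)
    have hdiv : ∀ v, v ≠ z j → c' v * D.l (z j) = c v := by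
      intro v hv
      simp only [c', if_neg hv]
      apply Int.ediv_mul_cancel
      by_cases hvx : v ∈ x
      · rw [hc0 v hvx]
        exact dvd_zero _
      by_cases hv' : ∃ i', v = z i'
      · obtain ⟨i', rfl⟩ := hv'
        by_cases hi' : i' = i
        · subst hi'
          have h1 := hcz i'
          have h2 : (D.l (z i') : ℤ) ≠ 0 := by exact_mod_cast (G.lpos _).ne'
          rw [mul_comm] at h1
          rw [mul_left_cancel₀ h2 h1]
        · have hj' : i' ≠ j := fun h => hv (by rw [h])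
          have h1 := hcz i'
          rw [hl i' hi' hj', Nat.cast_one, mul_one] at h1
          rw [h1]
          exact dvd_mul_left _ _
      · push Not at hv'
        rw [hcf v hvx hv']
        exact dvd_zero _
    have hc'0 : ∀ v ∈ x, c' v = 0 := by
      intro v hv
      simp only [c']
      split_ifs
      · rfl
      · rw [hc0 v hv]
        simp
    have hzj2 : z j ∉ S2 := by
      rw [hS2]
      rintro (h | ⟨i', hi', h⟩)
      · exact (hz j).1 h
      · exact hi' (hinj h).symm
    have hfull : ∀ i', D.Full S2 i' → i' ≠ j := by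
      rintro i' h rfl
      exact hzj2 (h _ (hz i').2.1)
    have hAdm : D.Adm S2 := by
      right
      refine ⟨j, ?_⟩
      intro i' hi' v hv
      rw [hS2]
      by_cases h : v = z i'
      · exact Or.inr ⟨i', hi', h⟩
      · exact Or.inl ((hz i').2.2 v hv h)
    have hbs : ∀ i', i' ≠ j → D.bs (fun v => (c' v : ℚ)) i' = D.l (z i) := by
      intro i' hi'
      rw [EY_bs hz hc'0]
      have h1 : z i' ≠ z j := fun h => hi' (hinj h)
      have h2 : (c' (z i') : ℚ) * D.l (z j) = c (z i') := by exact_mod_cast hdiv _ h1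
      have h3 : (c (z i') : ℚ) * D.l (z i') = D.l (z i) * D.l (z j) := by exact_mod_cast hcz i'
      rw [← h2] at h3
      have h4 : ((c' (z i') : ℚ) * D.l (z i')) * D.l (z j) = D.l (z i) * D.l (z j) := by
        rw [← h3]; ring
      exact mul_right_cancel₀ hlq.ne' h4
    obtain ⟨a, ha, ha1⟩ := star G (x := x) (S := S2) (fun v hv => (hS2 v).mpr (Or.inl hv))
      (Or.inl hE) hS hF hAdm c' hc'0 (fun v _ => by
        simp only [c']
        split_ifs
        · exact le_rfl
        · exact Int.ediv_nonneg (hcnn v) hlq'.le) (by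
        refine ⟨z i, (hS2 _).mpr (Or.inr ⟨i, hij, rfl⟩), ?_⟩
        have h1 : z i ≠ z j := fun h => hij (hinj h)
        have h2 := hdiv (z i) h1
        have h3 := hcz i
        have h4 : (D.l (z i) : ℤ) ≠ 0 := by exact_mod_cast (G.lpos _).ne'
        rw [mul_comm] at h3
        have h5 := mul_left_cancel₀ h4 h3
        rw [h5] at h2
        have h6 : c' (z i) * (D.l (z j) : ℤ) = 1 * D.l (z j) := by rw [h2, one_mul]
        rw [mul_right_cancel₀ hlq'.ne' h6]
        norm_num) (fun i1 i2 h1 h2 => by rw [hbs i1 (hfull i1 h1), hbs i2 (hfull i2 h2)])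
    refine ⟨a, ⟨S2, ha, hS2⟩, ?_⟩
    have h1 : ∑ v, (c v : ℚ) * a v = (∑ v, (c' v : ℚ) * a v) * D.l (z j) := by
      rw [Finset.sum_mul]
      apply Finset.sum_congr rfl
      intro v _
      by_cases hv : v = z j
      · rw [hv, ha.2.2 _ hzj2]
        ring
      · have h2 : (c' v : ℚ) * D.l (z j) = c v := by exact_mod_cast hdiv v hv
        rw [← h2]
        ring
    rw [h1, ha1, one_mul]
  obtain ⟨S2, hap2, hS2⟩ := hap
  have hzj2 : z j ∉ S2 := by
    rw [hS2]
    rintro (h | ⟨i', hi', h⟩)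
    · exact (hz j).1 h
    · exact hi' (hinj h).symm
  have hapz : ∀ v, v ∉ x → (∀ i', v ≠ z i') → ap v = 0 := by
    intro v hv hv'
    apply hap2.2.2
    rw [hS2]
    rintro (h | ⟨i', _, h⟩)
    · exact hv h
    · exact hv' i' h
  have hτz : ∀ a : V → ℚ, (∀ v, v ∉ τ → a v = 0) → ∀ v, v ∉ x → (∀ i', v ≠ z i') → a v = 0 := by
    intro a ha v hv hv'
    apply ha
    intro h
    rcases (hSm v).mp (hτS h) with h1 | ⟨i', _, h1⟩
    · exact hv h1
    · exact hv' i' h1
  -- (i) `τ` is not elliptic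
  have hnE : ¬ D.Ell τ := by
    intro hEτ
    obtain ⟨ax, hax, haxpos⟩ := interior G (Or.inl hE) hS hF
    obtain ⟨as, has⟩ := hSτ
    set s : ℚ := M / D.l (z j) with hs
    have hs0 : 0 < s := div_pos hM0 hlq
    have hs1 : s < 1 := (div_lt_one hlq).mpr hMq
    set a' : V → ℚ := (1 - s) • ax + s • ap with ha'
    have ha'v : ∀ v, a' v = (1 - s) * ax v + s * ap v := fun v => rfl
    have hRep' : D.Rep A a' := hax.1.convex s hap2.1
    have hnn' : ∀ v, 0 ≤ a' v := by
      intro v
      rw [ha'v]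
      have h1 := mul_nonneg (by linarith : (0 : ℚ) ≤ 1 - s) (hax.2.1 v)
      have h2 := mul_nonneg hs0.le (hap2.2.1 v)
      linarith
    have hdotx : ∑ v, (c v : ℚ) * ax v = 0 := by
      apply Finset.sum_eq_zero
      intro v _
      by_cases hv : v ∈ x
      · rw [hc0 v hv]; simp
      · rw [hax.2.2 v hv]; ring
    have hdot' : ∑ v, (c v : ℚ) * a' v = M := by
      have h1 : ∑ v, (c v : ℚ) * a' v =
          (1 - s) * ∑ v, (c v : ℚ) * ax v + s * ∑ v, (c v : ℚ) * ap v := by
        rw [Finset.mul_sum, Finset.mul_sum, ← Finset.sum_add_distrib]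
        apply Finset.sum_congr rfl
        intro v _
        rw [ha'v]
        ring
      rw [h1, hdotx, hap1, hs]
      field_simp
      ring
    have hdots : ∑ v, (c v : ℚ) * as v = M := by
      have h1 := hMτ as has.2.2
      rw [hM as has.1] at h1
      linarith
    have hKQ : D.KQ (a' - as) := hRep'.sub_kq has.1
    have hsz : ∀ v, v ∉ x → (∀ i', v ≠ z i') → (a' - as) v = 0 := by
      intro v hv hv'
      rw [Pi.sub_apply, ha'v, hax.2.2 v hv, hapz v hv hv', hτz as has.2.2 v hv hv']
      ring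
    have hT : ∑ i', (a' - as) (z i') / D.l (z i') = 0 := by
      have h1 := EY_dot G hz hc0 hcz hcf (a' - as)
      have h2 : ∑ v, (c v : ℚ) * (a' - as) v = 0 := by
        simp only [Pi.sub_apply, mul_sub, Finset.sum_sub_distrib]
        rw [hdot', hdots, sub_self]
      rw [h2] at h1
      have h3 : (((D.l (z i) : ℤ) * D.l (z j) : ℤ) : ℚ) ≠ 0 := by
        push_cast
        exact mul_ne_zero hlp.ne' hlq.ne'
      rcases mul_eq_zero.mp h1.symm with h4 | h4
      · exact absurd h4 h3
      · exact h4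
    have hfr := EY_frame G hE hF hz hKQ hsz hT
    -- all coefficients are nonnegative
    have hcoef : ∀ i', 0 ≤ (a' - as) (z i') / D.l (z i') := by
      intro i'
      have h1 := hEτ i'
      simp only [Full, not_forall] at h1
      obtain ⟨v, hv, hvτ⟩ := h1
      have h2 := congrFun hfr v
      rw [bl_some _ hv, Pi.sub_apply, has.2.2 v hvτ, sub_zero] at h2
      have h3 := hnn' v
      rw [h2] at h3
      have h4 : (0 : ℚ) < D.l v := by exact_mod_cast G.lpos v
      by_contra hcon
      push Not at hcon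
      have h5 := mul_neg_of_neg_of_pos hcon h4
      linarith
    have hcoef0 : (fun i' => (a' - as) (z i') / (D.l (z i') : ℚ)) = 0 := by
      funext i'
      exact (Finset.sum_eq_zero_iff_of_nonneg fun i' _ => hcoef i').mp hT i' (Finset.mem_univ _)
    rw [hcoef0, bl_zero, sub_eq_zero] at hfr
    have hxτ : x ⊆ τ := by
      intro v hv
      by_contra hvτ
      have h1 := has.2.2 v hvτ
      rw [← hfr, ha'v] at h1
      have h2 := haxpos v hv
      have h3 := mul_pos (by linarith : (0 : ℚ) < 1 - s) h2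
      have h4 := mul_nonneg hs0.le (hap2.2.1 v)
      linarith
    have hex : ∃ v ∈ τ, c v ≠ 0 := by
      by_contra hcon
      push Not at hcon
      have h1 : ∑ v, (c v : ℚ) * as v = 0 := by
        apply Finset.sum_eq_zero
        intro v _
        by_cases hv : v ∈ τ
        · rw [hcon v hv]; simp
        · rw [has.2.2 v hv]; ring
      rw [hdots] at h1
      linarith
    obtain ⟨v, hvτ, hcv⟩ := hex
    obtain ⟨b, hb, hbd⟩ := G.gen x (Or.inl hE) hS (D.deg v)
    set e0 : V → ℤ := Pi.single v 1 - b with he0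
    have he0w : ∀ w, w ≠ v → w ∉ x → e0 w = 0 := by
      intro w hw hwx
      rw [he0, Pi.sub_apply, Pi.single_apply, if_neg hw, hb w hwx, sub_zero]
    have hvx : v ∉ x := fun h => hcv (hc0 v h)
    have he0v : e0 v = 1 := by
      rw [he0, Pi.sub_apply, Pi.single_eq_same, hb v hvx, sub_zero]
    have h1 : D.dg e0 = 0 := by
      rw [he0, dg_sub, dg_single, hbd, sub_self]
    have h2 := hkill _ h1
    rw [hMτ _ (by
      intro w hw
      have h3 : w ≠ v := fun h => hw (h ▸ hvτ)
      have h4 : w ∉ x := fun h => hw (hxτ h)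
      rw [he0w w h3 h4]
      simp)] at h2
    have h3 : ∑ w, (c w : ℚ) * (e0 w : ℚ) = c v := by
      rw [Finset.sum_eq_single v]
      · rw [he0v]
        simp
      · intro w _ hw
        by_cases hwx : w ∈ x
        · rw [hc0 w hwx]; simp
        · rw [he0w w hw hwx]; simp
      · intro h
        exact absurd (Finset.mem_univ _) h
    rw [h3] at h2
    apply hcv
    have h4 : (c v : ℚ) = 0 := by linarith
    exact_mod_cast h4
  have hfullτ : ∀ i', D.Full S i' → D.Full τ i' := hor.resolve_left hnE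
  have hfullS : ∀ i', i' ≠ m → D.Full S i' := by
    intro i' hi' v hv
    rw [hSm]
    by_cases h : v = z i'
    · exact Or.inr ⟨i', hi', h⟩
    · exact Or.inl ((hz i').2.2 v hv h)
  -- (ii) an element of block `m` in `x` and not in `τ`
  have hw0 : ∃ w0 ∈ x, D.blk w0 = some m ∧ w0 ∉ τ := by
    by_contra hcon
    push Not at hcon
    have h1 : D.bs psi i = D.bs (fun v => -(c v : ℚ)) i := by
      rw [bs, bs]
      apply Finset.sum_congr rfl
      intro v _
      split_ifs with h
      · have h2 : v ∈ τ := hfullτ i (hfullS i hmi.symm) v h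
        rw [(hτ v (hτS h2)).mp h2]
      · rfl
    have h2 : ∀ i', D.bs (fun v => -(c v : ℚ)) i' = -(D.l (z i) * D.l (z j)) := by
      intro i'
      have h3 := EY_bs hz hc0 i'
      have h4 : (c (z i') : ℚ) * D.l (z i') = D.l (z i) * D.l (z j) := by exact_mod_cast hcz i'
      rw [h4] at h3
      rw [← h3, bs, bs, ← Finset.sum_neg_distrib]
      apply Finset.sum_congr rfl
      intro v _
      split_ifs <;> simp
    have h3 : D.bs psi m = D.bs (fun v => -(c v : ℚ)) m := by
      rw [bs_eq_of_kill G.mu_eq hkill m i, h1, h2, h2]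
    have h4 : D.bs psi m = D.bs (fun v => -(c v : ℚ)) m + (psi (z m) + c (z m)) * D.l (z m) := by
      have h5 : D.bs psi m - D.bs (fun v => -(c v : ℚ)) m =
          ∑ v, if D.blk v = some m then (psi v + c v) * (D.l v : ℚ) else 0 := by
        rw [bs, bs, ← Finset.sum_sub_distrib]
        apply Finset.sum_congr rfl
        intro v _
        split_ifs
        · ring
        · ring
      rw [Finset.sum_eq_single (z m), if_pos (hz m).2.1] at h5
      · linarith
      · intro v _ hv
        split_ifs with h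
        · have h6 := (hz m).2.2 v h hv
          have h7 := (hτ v (hxS h6)).mp (hcon v h6 h)
          rw [h7]
          ring
        · rfl
      · intro h
        exact absurd (Finset.mem_univ _) h
    have h5 : psi (z m) = -(c (z m) : ℚ) := by
      have h6 : (psi (z m) + c (z m)) * (D.l (z m) : ℚ) = 0 := by linarith
      rcases mul_eq_zero.mp h6 with h7 | h7
      · linarith
      · exact absurd h7 (EY_lne G (z m))
    have h6 : ∑ v, psi v * ap v ≤ -∑ v, (c v : ℚ) * ap v := by
      rw [← Finset.sum_neg_distrib]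
      apply Finset.sum_le_sum
      intro v _
      by_cases hv : v ∈ S
      · have h7 := mul_le_mul_of_nonneg_right (hle v hv) (hap2.2.1 v)
        linarith
      · by_cases hv2 : v = z m
        · rw [hv2, h5]
          linarith
        · have h8 : v ∉ x := fun h => hv (hxS h)
          have h9 : ap v = 0 := by
            apply hapz v h8
            intro i' hi'
            by_cases hi2 : i' = m
            · exact hv2 (by rw [hi', hi2])
            · exact hv ((hSm v).mpr (Or.inr ⟨i', hi2, hi'⟩))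
          rw [h9]
          simp
    rw [hM ap hap2.1, hap1] at h6
    linarith
  obtain ⟨w0, hw0x, hw0m, hw0τ⟩ := hw0
  -- (iii) `τ` is fixed
  have hzmτ : z m ∉ τ := fun h => hzmS (hτS h)
  have hFτ : D.Fixed τ := by
    intro a ha hda
    have h1 := hkill a hda
    rw [hMτ _ (fun v hv => by rw [ha v hv]; simp), EY_dot G hz hc0 hcz hcf] at h1
    have h2 : ∑ i', (a (z i') : ℚ) / D.l (z i') = 0 := by
      have h3 : (((D.l (z i) : ℤ) * D.l (z j) : ℤ) : ℚ) ≠ 0 := by
        push_cast
        exact mul_ne_zero hlp.ne' hlq.ne'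
      rcases mul_eq_zero.mp (neg_eq_zero.mp h1) with h4 | h4
      · exact absurd h4 h3
      · exact h4
    -- split off `i` and `j`
    have h3 : ∑ i', (a (z i') : ℚ) / D.l (z i') = (a (z i) : ℚ) / D.l (z i) +
        ((a (z j) : ℚ) / D.l (z j) +
          ((∑ i' ∈ (Finset.univ.erase i).erase j, a (z i') : ℤ) : ℚ)) := by
      rw [← Finset.add_sum_erase _ _ (Finset.mem_univ i),
        ← Finset.add_sum_erase (Finset.univ.erase i) _ (Finset.mem_erase.mpr
          ⟨hij.symm, Finset.mem_univ j⟩)]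
      congr 2
      push_cast
      apply Finset.sum_congr rfl
      intro i' hi'
      rw [Finset.mem_erase, Finset.mem_erase] at hi'
      rw [hl i' hi'.2.1 hi'.1]
      simp
    set T : ℤ := ∑ i' ∈ (Finset.univ.erase i).erase j, a (z i') with hTdef
    have h4 : a (z i) * D.l (z j) + a (z j) * D.l (z i) + D.l (z i) * D.l (z j) * T = 0 := by
      have h5 : (a (z i) : ℚ) * D.l (z j) + a (z j) * D.l (z i) + D.l (z i) * D.l (z j) * T = 0 := by
        have h6 : (a (z i) : ℚ) / D.l (z i) + ((a (z j) : ℚ) / D.l (z j) + T) = 0 := by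
          rw [← h3, h2]
        field_simp at h6
        linarith
      exact_mod_cast h5
    have hcop := sole_coprime G hE hF hS hij (hz i) (hz j)
    have hcop' : IsCoprime (D.l (z i) : ℤ) (D.l (z j) : ℤ) :=
      Nat.isCoprime_iff_coprime.mpr hcop
    have hdi : (D.l (z i) : ℤ) ∣ a (z i) := by
      apply hcop'.dvd_of_dvd_mul_right
      refine ⟨-(a (z j) + D.l (z j) * T), ?_⟩
      linear_combination h4
    have hdj : (D.l (z j) : ℤ) ∣ a (z j) := by
      apply hcop'.symm.dvd_of_dvd_mul_right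
      refine ⟨-(a (z i) + D.l (z i) * T), ?_⟩
      linear_combination h4
    obtain ⟨ci, hci⟩ := hdi
    obtain ⟨cj, hcj⟩ := hdj
    let c1 : ι → ℤ := fun i' => if i' = i then ci else if i' = j then cj else a (z i')
    have hc1 : ∀ i', a (z i') = c1 i' * D.l (z i') := by
      intro i'
      simp only [c1]
      split_ifs with h5 h6
      · rw [h5, hci, mul_comm]
      · rw [h6, hcj, mul_comm]
      · rw [hl i' h5 h6]
        simp
    refine EY_frame_int G hE hF hz hda ?_ hc1 ?_
    · intro v hv hv'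
      apply ha
      intro h
      rcases (hSm v).mp (hτS h) with h5 | ⟨i', _, h5⟩
      · exact hv h5
      · exact hv' i' h5
    · have h5 : (∑ i', c1 i' : ℤ) = 0 := by
        have h6 : ((∑ i', c1 i' : ℤ) : ℚ) = 0 := by
          push_cast
          rw [← h2]
          apply Finset.sum_congr rfl
          intro i' _
          have h7 : (a (z i') : ℚ) = c1 i' * D.l (z i') := by exact_mod_cast hc1 i'
          rw [h7, mul_div_assoc, div_self (EY_lne G (z i')), mul_one]
        exact_mod_cast h6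
      exact h5
  -- (iv) the last point
  obtain ⟨a, ha, ha1⟩ := star_one G hAτ hSτ hFτ hzmτ (by
    intro i' hi' hfull
    rw [(hz m).2.1] at hi'
    have h1 : m = i' := Option.some_injective ι hi'
    subst h1
    have h2 := hfull w0 hw0m
    rw [Finset.mem_insert] at h2
    rcases h2 with h2 | h2
    · exact (hz m).1 (h2 ▸ hw0x)
    · exact hw0τ h2)
  have haz : ∀ v, v ∉ x → (∀ i', v ≠ z i') → a v = 0 := by
    intro v hv hv'
    apply ha.2.2
    rw [Finset.mem_insert]
    rintro (h | h)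
    · exact hv' m h
    · rcases (hSm v).mp (hτS h) with h1 | ⟨i', _, h1⟩
      · exact hv h1
      · exact hv' i' h1
  have h1 := EY_F G hE hF hS hz hu hum ha.1 haz
  rw [ha1, hl m hmi hmj, hmu] at h1
  have h2 := ha.2.1 u
  have h3 : (1 : ℚ) ≤ ∑ i', a (z i') / D.l (z i') := by
    have h4 : a (z m) / D.l (z m) = 1 := by rw [ha1, hl m hmi hmj]; simp
    rw [← h4]
    exact Finset.single_le_sum (f := fun i' => a (z i') / (D.l (z i') : ℚ))
      (fun i' _ => div_nonneg (ha.2.1 _) (Nat.cast_nonneg _)) (Finset.mem_univ m)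
  have hβ' : (0 : ℚ) < β := by exact_mod_cast hβ
  have h5 : (0 : ℚ) < D.l (z i) * D.l (z j) * β := by positivity
  have h6 : ((D.l (z i) : ℚ) * D.l (z j) * β) ≤ D.rp x A u + D.l u := by
    push_cast at h1
    have h7 := mul_le_mul_of_nonneg_right h3 h5.le
    have h8 : a u = (D.rp x A u : ℚ) - (∑ i', a (z i') / D.l (z i')) *
        (D.l (z i) * D.l (z j) * β) + D.l u := by
      rw [h1]
      ring
    linarith
  exact_mod_cast h6

theorem diag_two (G : D.Good A n) {x : Finset V} (hE : D.Ell x) (hF : D.Fixed x)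
    (hS : D.Semi A x) {i j : ι} (hij : i ≠ j) {p q : V} (hp : D.Sole x i p) (hq : D.Sole x j q)
    (hsim : ∀ m, m ≠ i → m ≠ j → D.Simple x m)
    {m : ι} (hmi : m ≠ i) (hmj : m ≠ j) {u : V} (hu : u ∈ x) (hum : D.blk u = some m)
    {β : ℤ} (h1 : D.rp x (D.deg p) u = D.l q * β) (h2 : D.rp x (D.deg q) u = D.l p * β) :
    (D.l p * D.l q * β ≤ D.rp x A u + D.l u) ∨
      (D.l q * β ≤ D.rp x A u ∧ D.l p * β ≤ D.rp x A u) := by
  classical
  have hα := rp_pos G hE hF hS hu
  have hlp : (0 : ℤ) < D.l p := by exact_mod_cast G.lpos _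
  have hlq : (0 : ℤ) < D.l q := by exact_mod_cast G.lpos _
  rcases le_or_gt β 0 with hβ | hβ
  · right
    constructor
    · nlinarith
    · nlinarith
  -- the zeros
  choose z0 hz0 hz01 using hsim
  let z : ι → V := fun m' => if h : m' = i then p else if h' : m' = j then q else z0 m' h h'
  have hzi : z i = p := by simp [z]
  have hzj : z j = q := by simp [z, hij.symm]
  have hz : ∀ i', D.Sole x i' (z i') := by
    intro i'
    simp only [z]
    split_ifs with h h'
    · rw [h]; exact hp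
    · rw [h']; exact hq
    · exact hz0 i' h h'
  have hl : ∀ m', m' ≠ i → m' ≠ j → D.l (z m') = 1 := by
    intro m' h h'
    simp only [z, dif_neg h, dif_neg h']
    exact hz01 m' h h'
  have hinj := EY_inj hz
  have hmu : D.rp x D.mu u = D.l (z i) * D.l (z j) * β := by
    have h3 := rp_mu G hE hF hS (hz i) hu
    rw [hum, if_neg (fun h => hmi (Option.some_injective ι h)), zero_add, hzi, h1] at h3
    rw [h3, hzi, hzj]
    ring
  -- the weights
  let c : V → ℤ := fun v => if v ∈ x then 0 else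
    if D.blk v = none then 0 else ((D.l p : ℤ) * D.l q) / D.l v
  have hc0 : ∀ v ∈ x, c v = 0 := fun v hv => by simp [c, hv]
  have hcz : ∀ i', c (z i') * D.l (z i') = (D.l (z i) : ℤ) * D.l (z j) := by
    intro i'
    have h3 : D.blk (z i') ≠ none := by rw [(hz i').2.1]; simp
    simp only [c, if_neg (hz i').1, if_neg h3]
    rw [hzi, hzj]
    apply Int.ediv_mul_cancel
    by_cases h4 : i' = i
    · rw [h4, hzi]
      exact dvd_mul_right _ _
    by_cases h5 : i' = j
    · rw [h5, hzj]
      exact dvd_mul_left _ _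
    rw [hl i' h4 h5]
    simp
  have hcf : ∀ v, v ∉ x → (∀ i, v ≠ z i) → c v = 0 := by
    intro v hv hv'
    have h3 : D.blk v = none := by
      cases hb : D.blk v with
      | none => rfl
      | some i' => exact absurd (EY_blk hz hv hb) (hv' i')
    simp [c, h3]
  let S : Finset V := Finset.univ.filter (fun v => v ∈ x ∨ ∃ i', i' ≠ m ∧ v = z i')
  have hSm : ∀ v, v ∈ S ↔ v ∈ x ∨ ∃ i', i' ≠ m ∧ v = z i' := by
    intro v
    simp [S]
  have hxS : x ⊆ S := fun v hv => (hSm v).mpr (Or.inl hv)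
  have hAdm : D.Adm S := by
    right
    refine ⟨m, ?_⟩
    intro i' hi' v hv
    rw [hSm]
    by_cases h : v = z i'
    · exact Or.inr ⟨i', hi', h⟩
    · exact Or.inl ((hz i').2.2 v hv h)
  have hP : ∀ i', D.bs (fun v => (c v : ℚ)) i' = D.l (z i) * D.l (z j) := by
    intro i'
    rw [EY_bs hz hc0 i']
    exact_mod_cast hcz i'
  have hPneg : ∀ i', D.bs (fun v => -(c v : ℚ)) i' = -(D.l (z i) * D.l (z j)) := by
    intro i'
    rw [← hP i', bs, bs, ← Finset.sum_neg_distrib]
    apply Finset.sum_congr rfl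
    intro v _
    split_ifs <;> simp
  have hcnn : ∀ v, 0 ≤ c v := by
    intro v
    simp only [c]
    split_ifs
    · exact le_rfl
    · exact le_rfl
    · exact Int.ediv_nonneg (by positivity) (by positivity)
  obtain ⟨psi, hkill, hle, τ, hτS, hτ, hSτ, hAτ, hor⟩ := limit G hAdm (hS.mono hxS)
    (fun v => -(c v : ℚ)) (fun i1 i2 _ _ => by rw [hPneg, hPneg])
  obtain ⟨a1, ha1, ha1'⟩ := star G hxS (Or.inl hE) hS hF hAdm c hc0 (fun v _ => hcnn v) (by
      refine ⟨z i, (hSm _).mpr (Or.inr ⟨i, hmi.symm, rfl⟩), ?_⟩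
      have h3 := hcz i
      have h4 : (0 : ℤ) < D.l (z i) * D.l (z j) := by rw [hzi, hzj]; positivity
      rcases (hcnn (z i)).lt_or_eq with h5 | h5
      · exact h5
      · rw [← h5, zero_mul] at h3
        omega) (fun i1 i2 _ _ => by rw [hP, hP])
  obtain ⟨as, has⟩ := id hSτ
  set M : ℚ := ∑ v, (c v : ℚ) * as v with hMdef
  have hMs : ∑ v, psi v * as v = -M := by
    rw [hMdef, ← Finset.sum_neg_distrib]
    apply Finset.sum_congr rfl
    intro v _
    by_cases hv : v ∈ τ
    · rw [(hτ v (hτS hv)).mp hv]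
      ring
    · rw [has.2.2 v hv]
      ring
  have hM : ∀ a, D.Rep A a → ∑ v, psi v * a v = -M := by
    intro a ha
    rw [kill_rep hkill ha has.1, hMs]
  have hM1 : 1 ≤ M := by
    have h3 := hM a1 ha1.1
    have h4 : ∑ v, psi v * a1 v ≤ -∑ v, (c v : ℚ) * a1 v := by
      rw [← Finset.sum_neg_distrib]
      apply Finset.sum_le_sum
      intro v _
      by_cases hv : v ∈ S
      · have h7 := mul_le_mul_of_nonneg_right (hle v hv) (ha1.2.1 v)
        linarith
      · rw [ha1.2.2 v hv]
        simp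
    rw [h3, ha1'] at h4
    linarith
  by_cases hMq : M < D.l q
  · left
    have h3 := EY_core G hE hF hS hz hij hl hmi hmj hu hum hβ hmu hc0 hcz hcf hSm hkill hle hτS hτ
      hSτ hAτ hor (by linarith) hM (by rw [hzj]; exact hMq)
    rw [hzi, hzj] at h3
    exact h3
  by_cases hMp : M < D.l p
  · left
    have h3 := EY_core G hE hF hS hz hij.symm (fun m' h h' => hl m' h' h) hmj hmi hu hum hβ
      (by rw [hmu]; ring) hc0 (fun i' => by rw [hcz i']; ring) hcf hSm hkill hle hτS hτ
      hSτ hAτ hor (by linarith) hM (by rw [hzi]; exact hMp)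
    rw [hzi, hzj, mul_comm (D.l q : ℤ)] at h3
    exact h3
  right
  push Not at hMq hMp
  have hzmS : z m ∉ S := by
    rw [hSm]
    rintro (h | ⟨i', hi', h⟩)
    · exact (hz m).1 h
    · exact hi' (hinj h).symm
  have h3 := EY_F G hE hF hS hz hu hum has.1 (by
    intro v hv hv'
    apply has.2.2
    intro h
    rcases (hSm v).mp (hτS h) with h1 | ⟨i', _, h1⟩
    · exact hv h1
    · exact hv' i' h1)
  rw [has.2.2 (z m) (fun h => hzmS (hτS h)), hmu] at h3
  have h4 := EY_dot G hz hc0 hcz hcf as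
  rw [← hMdef] at h4
  have h5 : (M * β : ℚ) ≤ D.rp x A u := by
    have h6 := has.2.1 u
    rw [h3] at h6
    push_cast at h6 h4
    rw [h4]
    have h7 : (D.l (z i) : ℚ) * D.l (z j) * (∑ i', as (z i') / D.l (z i')) * β =
        (∑ i', as (z i') / D.l (z i')) * (D.l (z i) * D.l (z j) * β) := by ring
    rw [h7]
    have h8 : (0 : ℚ) / (D.l (z m) : ℚ) * D.l u = 0 := by simp
    linarith
  have hβ' : (0 : ℚ) < β := by exact_mod_cast hβ
  constructor
  · have h6 : (D.l q : ℚ) * β ≤ D.rp x A u :=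
      (mul_le_mul_of_nonneg_right hMq hβ'.le).trans h5
    exact_mod_cast h6
  · have h6 : (D.l p : ℚ) * β ≤ D.rp x A u :=
      (mul_le_mul_of_nonneg_right hMp hβ'.le).trans h5
    exact_mod_cast h6

end Comb

end Pool.Agent.Helper39.TV
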