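import Pool.Agent.Helper39.TV.EF
import Pool.Agent.Helper39.TV.ES
import Pool.Agent.Helper39.TV.EW
import Pool.Agent.Helper39.TV.EY
import Pool.Agent.Helper39.TV.E0

/-! TV, module E3 -/

open Finset

set_option linter.unusedSectionVars false

namespace Pool.Agent.Helper39.TV

variable {V ι K : Type} [Fintype V] [DecidableEq V] [Fintype ι] [DecidableEq ι] [AddCommGroup K]

namespace Comb

variable {D : Comb V ι K} {A : K} {n : ℕ}

/-- the numbers of `rp_sole` in integral form -/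
theorem E3_sole (G : D.Good A n) {x : Finset V} (hE : D.Ell x) (hF : D.Fixed x)
    (hS : D.Semi A x) {i j : ι} (hij : i ≠ j) (hsim : ∀ m, m ≠ i → m ≠ j → D.Simple x m)
    {p : V} (hp : D.Sole x i p) :
    (∀ u ∈ x, (∀ m, m ≠ i → m ≠ j → D.blk u ≠ some m) → D.rp x (D.deg p) u ≤ D.rp x A u) ∧
    ∀ u ∈ x, ∀ m, m ≠ i → m ≠ j → D.blk u = some m →
      -(D.l u : ℤ) ≤ D.l p * (D.rp x A u - D.rp x (D.deg p) u) := by
  obtain ⟨t, ht0, hti, htj, hsum, h1, h2, h3⟩ := rp_sole G hE hF hS hij hsim hp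
  have hS0 : 0 ≤ ∑ m, t m := Finset.sum_nonneg (fun m _ => ht0 m)
  refine ⟨fun u hu hm => ?_, fun u hu m hmi hmj hb => ?_⟩
  · cases hb : D.blk u with
    | none => exact h1 u hu (Or.inl hb)
    | some m =>
      by_cases hmj : m = j
      · subst hmj
        exact h1 u hu (Or.inr hb)
      by_cases hmi : m = i
      · subst hmi
        have h4 := h2 u hu hb
        have h5 : (0 : ℚ) ≤ (D.l u : ℚ) * ∑ m, t m := mul_nonneg (Nat.cast_nonneg _) hS0
        have h6 : (0 : ℚ) ≤ ((D.rp x A u - D.rp x (D.deg p) u : ℤ) : ℚ) := by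
          push_cast; linarith
        have h7 : 0 ≤ D.rp x A u - D.rp x (D.deg p) u := by exact_mod_cast h6
        linarith
      · exact absurd hb (hm m hmi hmj)
  · have h4 := h3 u hu m hmi hmj hb
    have h5 : t m ≤ ∑ m, t m := Finset.single_le_sum (fun m _ => ht0 m) (Finset.mem_univ m)
    have hlp : (0 : ℚ) ≤ D.l p := Nat.cast_nonneg _
    have hlu : (0 : ℚ) ≤ D.l u := Nat.cast_nonneg _
    have h6 : (D.l p : ℚ) * t m ≤ 1 := (mul_le_mul_of_nonneg_left h5 hlp).trans hsum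
    have h7 : (D.l p : ℚ) * (-(t m * D.l u)) ≤
        D.l p * ((D.rp x A u : ℚ) - D.rp x (D.deg p) u) := mul_le_mul_of_nonneg_left h4 hlp
    have h8 : (D.l p : ℚ) * t m * D.l u ≤ 1 * D.l u := mul_le_mul_of_nonneg_right h6 hlu
    have h9 : (((-(D.l u : ℤ) : ℤ)) : ℚ) ≤
        ((D.l p * (D.rp x A u - D.rp x (D.deg p) u) : ℤ) : ℚ) := by
      push_cast; linarith
    exact_mod_cast h9

/-- arithmetic of the block `m` -/
theorem E3_arith {α β a b l : ℤ} (ha : 2 ≤ a) (hb : 2 ≤ b) (hα : 1 ≤ α) (hl : 0 ≤ l)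
    (h1 : β ≤ α) (h2 : a * b * β ≤ α + l ∨ (b * β ≤ α ∧ a * β ≤ α)) :
    0 ≤ (α - 1) + 2 * (α - b * β) + (α - a * β) + l := by
  rcases le_or_gt β 0 with hβ | hβ
  · have e1 : b * β ≤ 0 := mul_nonpos_of_nonneg_of_nonpos (by linarith) hβ
    have e2 : a * β ≤ 0 := mul_nonpos_of_nonneg_of_nonpos (by linarith) hβ
    linarith
  rcases h2 with h2 | ⟨h2, h3⟩
  · have e1 : 0 ≤ (a - 2) * (b - 1) * β :=
      mul_nonneg (mul_nonneg (by linarith) (by linarith)) hβ.le
    have e2 : (a - 2) * (b - 1) * β = a * b * β - a * β - 2 * (b * β) + 2 * β := by ring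
    linarith
  · linarith

/-- both non-simple blocks have a sole zero -/
theorem echart_sole (G : D.Good A n) {x : Finset V} (hE : D.Ell x) (hF : D.Fixed x)
    (hS : D.Semi A x) {N : ℕ} (hN : n + 2 ≤ N) {i j : ι} (hij : i ≠ j)
    (hsim : ∀ m, m ≠ i → m ≠ j → D.Simple x m) {p q : V} (hp : D.Sole x i p) (hq : D.Sole x j q)
    (hlp : 2 ≤ D.l p) (hlq : 2 ≤ D.l q) :
    D.EChart (D.can + N • A) x := by
  have hsim' : ∀ m, m ≠ j → m ≠ i → D.Simple x m := fun m h1 h2 => hsim m h2 h1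
  have hpq : p ≠ q := by
    intro h
    have h1 := hp.2.1
    rw [h, hq.2.1] at h1
    exact hij (Option.some.inj h1).symm
  have hup : ∀ v, D.Sole x i v → v = p := by
    intro v hv
    by_contra hne
    exact hv.1 (hp.2.2 v hv.2.1 hne)
  have huq : ∀ v, D.Sole x j v → v = q := by
    intro v hv
    by_contra hne
    exact hv.1 (hq.2.2 v hv.2.1 hne)
  have hpZ : p ∈ D.Z x i j := by
    rw [E0_mem_Z]
    refine ⟨hp.1, fun m hmi _ hm => ?_⟩
    rw [hp.2.1] at hm
    exact hmi (Option.some.inj hm).symm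
  have hqZ : q ∈ D.Z x i j := by
    rw [E0_mem_Z]
    refine ⟨hq.1, fun m _ hmj hm => ?_⟩
    rw [hq.2.1] at hm
    exact hmj (Option.some.inj hm).symm
  have hle : ∀ v ∈ D.Z x i j, v ≠ p → v ≠ q → ∀ u ∈ x, D.rp x (D.deg v) u ≤ D.rp x A u := by
    intro v hv hvp hvq u hu
    rw [E0_mem_Z] at hv
    refine rp_nonsole G hE hF hS hv.1 (fun m hm => ?_) hu
    by_cases h1 : m = i
    · subst h1; exact hvp (hup v hm)
    by_cases h2 : m = j
    · subst h2; exact hvq (huq v hm)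
    exact hv.2 m h1 h2 hm.2.1
  obtain ⟨p1, p2⟩ := E3_sole G hE hF hS hij hsim hp
  obtain ⟨q1, q2⟩ := E3_sole G hE hF hS hij.symm hsim' hq
  have hsum : ∀ u ∈ x, (D.rp x A u - D.rp x (D.deg p) u) + (D.rp x A u - D.rp x (D.deg q) u) ≤
      ∑ v ∈ D.Z x i j, (D.rp x A u - D.rp x (D.deg v) u) := by
    intro u hu
    exact E0_sum2 (f := fun v => D.rp x A u - D.rp x (D.deg v) u) hpZ hqZ hpq
      (fun v hv hvp hvq => by have := hle v hv hvp hvq u hu; linarith)
  have hlp' : (2 : ℤ) ≤ D.l p := by exact_mod_cast hlp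
  have hlq' : (2 : ℤ) ≤ D.l q := by exact_mod_cast hlq
  -- the three inequalities
  have key : ∀ u ∈ x,
      0 ≤ (D.rp x A u - D.rp x (D.deg p) u) + (D.rp x A u - D.rp x (D.deg q) u) + E0_ex D i j u ∧
      0 ≤ (D.rp x A u - 1) + 2 * (D.rp x A u - D.rp x (D.deg p) u)
        + (D.rp x A u - D.rp x (D.deg q) u) + E0_ex D i j u ∧
      0 ≤ (D.rp x A u - 1) + 2 * (D.rp x A u - D.rp x (D.deg q) u)
        + (D.rp x A u - D.rp x (D.deg p) u) + E0_ex D i j u := by
    intro u hu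
    have hα := rp_pos G hE hF hS hu
    by_cases hm : ∃ m, m ≠ i ∧ m ≠ j ∧ D.blk u = some m
    · obtain ⟨m, hmi, hmj, hb⟩ := hm
      rw [E0_ex_some hb hmi hmj]
      have e1 := p2 u hu m hmi hmj hb
      have e2 := q2 u hu m hmj hmi hb
      obtain ⟨β, b1, b2, b3⟩ := sole_beta G hE hF hS hij hp hq hmi hmj hu hb
      have d1 := diag_one G hE hF hS hij hp hq hsim hmi hmj hu hb b1 b2
      have d2 := diag_two G hE hF hS hij hp hq hsim hmi hmj hu hb b1 b2
      have hl : (0 : ℤ) ≤ D.l u := Int.natCast_nonneg _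
      have k1 := E3_arith hlp' hlq' hα hl d1 d2
      have d2' : (D.l q : ℤ) * D.l p * β ≤ D.rp x A u + D.l u ∨
          ((D.l p : ℤ) * β ≤ D.rp x A u ∧ (D.l q : ℤ) * β ≤ D.rp x A u) := by
        rcases d2 with h | h
        · left; linarith [mul_comm (D.l q : ℤ) (D.l p : ℤ)]
        · right; exact ⟨h.2, h.1⟩
      have k2 := E3_arith hlq' hlp' hα hl d1 d2'
      rw [b1] at e1
      rw [b2] at e2
      rw [b1, b2]
      refine ⟨?_, by linarith, by linarith⟩
      -- a f_p >= - l, b f_q >= - l, a, b >= 2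
      set fp := D.rp x A u - (D.l q : ℤ) * β with hfp
      set fq := D.rp x A u - (D.l p : ℤ) * β with hfq
      have g1 : -(D.l u : ℤ) ≤ 2 * fp := by
        rcases le_or_gt 0 fp with h | h
        · linarith
        · have : (D.l p : ℤ) * fp ≤ 2 * fp := mul_le_mul_of_nonpos_right hlp' h.le
          linarith
      have g2 : -(D.l u : ℤ) ≤ 2 * fq := by
        rcases le_or_gt 0 fq with h | h
        · linarith
        · have : (D.l q : ℤ) * fq ≤ 2 * fq := mul_le_mul_of_nonpos_right hlq' h.le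
          linarith
      linarith
    · have hm' : ∀ m, m ≠ i → m ≠ j → D.blk u ≠ some m := fun m h1 h2 h3 => hm ⟨m, h1, h2, h3⟩
      have e1 := p1 u hu hm'
      have e2 := q1 u hu (fun m h1 h2 => hm' m h2 h1)
      have hex0 := E0_ex_nonneg D i j u
      refine ⟨?_, ?_, ?_⟩ <;> linarith
  refine E0_echart G hE hF hS hN hij hsim (fun u hu => ?_) (fun v hv u hu => ?_)
  · have h1 := hsum u hu
    have h2 := (key u hu).1
    linarith
  · have h1 := hsum u hu
    obtain ⟨k1, k2, k3⟩ := key u hu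
    have h4 := rp_pos G hE hF hS hu
    by_cases hvp : v = p
    · subst hvp
      linarith
    by_cases hvq : v = q
    · subst hvq
      linarith
    have h5 := hle v hv hvp hvq u hu
    linarith

end Comb

end Pool.Agent.Helper39.TV
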