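import Pool.Agent.Helper39.TV.E1
import Pool.Agent.Helper39.TV.E2
import Pool.Agent.Helper39.TV.E3

/-! TV, module EAll -/

open Finset

set_option linter.unusedSectionVars false

namespace Pool.Agent.Helper39.TV

variable {V ι K : Type} [Fintype V] [DecidableEq V] [Fintype ι] [DecidableEq ι] [AddCommGroup K]

namespace Comb

variable {D : Comb V ι K} {A : K} {n : ℕ}

theorem echart (G : D.Good A n) {x : Finset V} (hE : D.Ell x) (hF : D.Fixed x)
    (hS : D.Semi A x) {N : ℕ} (hN : n + 2 ≤ N) : D.EChart (D.can + N • A) x := by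
  obtain ⟨i, j, hij, hsim⟩ := G.ell x hE hS
  by_cases hi : D.Simple x i
  · refine echart_one G hE hF hS hN (j := j) fun m hm => ?_
    by_cases hmi : m = i
    · rw [hmi]; exact hi
    · exact hsim m hmi hm
  by_cases hj : D.Simple x j
  · refine echart_one G hE hF hS hN (j := i) fun m hm => ?_
    by_cases hmj : m = j
    · rw [hmj]; exact hj
    · exact hsim m hm hmj
  by_cases hsj : ∃ q, D.Sole x j q
  · obtain ⟨q, hq⟩ := hsj
    by_cases hsi : ∃ p, D.Sole x i p
    · obtain ⟨p, hp⟩ := hsi
      have h2 : ∀ (k : ι) (r : V), D.Sole x k r → ¬ D.Simple x k → 2 ≤ D.l r := by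
        intro k r hr hk
        have h1 := G.lpos r
        by_contra hlt
        exact hk ⟨r, hr, by omega⟩
      exact echart_sole G hE hF hS hN hij hsim hp hq (h2 i p hp hi) (h2 j q hq hj)
    · exact echart_two G hE hF hS hN (Ne.symm hij) (fun m h1 h2 => hsim m h2 h1) hj
        (fun p hp => hsi ⟨p, hp⟩)
  · exact echart_two G hE hF hS hN hij hsim hi (fun q hq => hsj ⟨q, hq⟩)

end Comb

end Pool.Agent.Helper39.TV
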