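import Pool.Agent.Helper39.TV.Star

/-! TV, module EB -/

open Finset

set_option linter.unusedSectionVars false

namespace Pool.Agent.Helper39.TV

variable {V ι K : Type} [Fintype V] [DecidableEq V] [Fintype ι] [DecidableEq ι] [AddCommGroup K]

namespace Comb

variable {D : Comb V ι K} {A : K} {n : ℕ}

theorem eb_aux_spec (G : D.Good A n) {x : Finset V} (hE : D.Ell x) (hS : D.Semi A x) (w : K) :
    (∀ v, v ∉ x → D.rp x w v = 0) ∧ D.dg (D.rp x w) = w := by
  have h : ∃ b : V → ℤ, (∀ v, v ∉ x → b v = 0) ∧ D.dg b = w := G.gen x (Or.inl hE) hS w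
  have h1 : D.rp x w = h.choose := by
    unfold rp
    rw [dif_pos h]
  rw [h1]
  exact h.choose_spec

theorem rp_supp (G : D.Good A n) {x : Finset V} (hE : D.Ell x) (hS : D.Semi A x) (w : K) {v : V}
    (hv : v ∉ x) : D.rp x w v = 0 := (eb_aux_spec G hE hS w).1 v hv

theorem rp_dg (G : D.Good A n) {x : Finset V} (hE : D.Ell x) (hS : D.Semi A x) (w : K) :
    D.dg (D.rp x w) = w := (eb_aux_spec G hE hS w).2

/-- rational elements of the kernel with elliptic fixed support are zero -/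
theorem eb_aux_zero (G : D.Good A n) {x : Finset V} (hE : D.Ell x) (hF : D.Fixed x)
    {a : V → ℚ} (ha : D.KQ a) (hs : ∀ v, v ∉ x → a v = 0) : a = 0 := by
  obtain ⟨c, hc, rfl⟩ := hF.rat ha hs
  have : c = 0 := by
    funext i
    exact bl_zero_of_not_full G.lpos hs (hE i)
  rw [this, bl_zero]

theorem rp_unique (G : D.Good A n) {x : Finset V} (hE : D.Ell x) (hF : D.Fixed x) (hS : D.Semi A x)
    {b : V → ℤ} (hb : ∀ v, v ∉ x → b v = 0) {w : K} (hd : D.dg b = w) : b = D.rp x w := by
  have h1 : D.dg (b - D.rp x w) = 0 := by rw [dg_sub, hd, rp_dg G hE hS, sub_self]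
  have h2 := eb_aux_zero G hE hF (KQ.of_int h1) (fun v hv => by
    rw [Pi.sub_apply, hb v hv, rp_supp G hE hS w hv]; simp)
  funext v
  have h3 := congrFun h2 v
  simp only [Pi.sub_apply, Pi.zero_apply] at h3
  have h4 : b v - D.rp x w v = 0 := by exact_mod_cast h3
  linarith

/-- rational version: a vector of degree `w` is determined by its entries outside `x` -/
theorem rp_expand (G : D.Good A n) {x : Finset V} (hE : D.Ell x) (hF : D.Fixed x) (hS : D.Semi A x)
    {a : V → ℚ} {w : K} (ha : D.Rep w a) {u : V} (hu : u ∈ x) :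
    a u = D.rp x w u - ∑ v ∈ xᶜ, a v * D.rp x (D.deg v) u := by
  set f : V → V → ℚ := fun v z => ((Pi.single v 1 - D.rp x (D.deg v) : V → ℤ) z : ℚ) with hf
  have hfK : ∀ v, D.KQ (f v) := fun v => KQ.of_int (by
    rw [dg_sub, dg_single, rp_dg G hE hS, sub_self])
  have h1 : D.KQ ((a - fun z => (D.rp x w z : ℚ)) - ∑ v ∈ xᶜ, a v • f v) :=
    (ha.sub_kq (Rep.of_int (rp_dg G hE hS w))).sub (KQ.sum _ _ fun v _ => (hfK v).smul (a v))
  have hval : ∀ z, ((a - fun z => (D.rp x w z : ℚ)) - ∑ v ∈ xᶜ, a v • f v) z =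
      a z - D.rp x w z - ∑ v ∈ xᶜ, a v * ((if z = v then 1 else 0) - D.rp x (D.deg v) z) := by
    intro z
    simp only [Pi.sub_apply, Finset.sum_apply, Pi.smul_apply, smul_eq_mul, hf]
    congr 1
    refine Finset.sum_congr rfl fun v _ => ?_
    push_cast
    congr 2
    rw [Pi.single_apply]
    split_ifs <;> simp
  have h2 := eb_aux_zero G hE hF h1 (fun z hz => by
    rw [hval, rp_supp G hE hS w hz]
    have : ∑ v ∈ xᶜ, a v * ((if z = v then 1 else 0) - (D.rp x (D.deg v) z : ℚ)) = a z := by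
      rw [Finset.sum_eq_single z]
      · rw [if_pos rfl, rp_supp G hE hS _ hz]; simp
      · intro v _ hv
        rw [if_neg (Ne.symm hv), rp_supp G hE hS _ hz]; simp
      · intro h
        exact absurd (Finset.mem_compl.mpr hz) h
    rw [this]; simp)
  have h3 := congrFun h2 u
  rw [hval, Pi.zero_apply] at h3
  have h4 : ∑ v ∈ xᶜ, a v * ((if u = v then 1 else 0) - (D.rp x (D.deg v) u : ℚ)) =
      -∑ v ∈ xᶜ, a v * D.rp x (D.deg v) u := by
    rw [← Finset.sum_neg_distrib]
    refine Finset.sum_congr rfl fun v hv => ?_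
    have : u ≠ v := fun h => (Finset.mem_compl.mp hv) (h ▸ hu)
    rw [if_neg this]; ring
  rw [h4] at h3
  linarith

theorem rp_pos (G : D.Good A n) {x : Finset V} (hE : D.Ell x) (hF : D.Fixed x) (hS : D.Semi A x)
    {u : V} (hu : u ∈ x) : 1 ≤ D.rp x A u := by
  obtain ⟨a, ha, hpos⟩ := interior G (Or.inl hE) hS hF
  have h1 := interior_int G (Or.inl hE) hS hF ha (hpos u hu) (fun i hi => absurd hi (hE i))
  have h2 := rp_expand G hE hF hS ha.1 hu
  have h3 : ∑ v ∈ xᶜ, a v * (D.rp x (D.deg v) u : ℚ) = 0 := by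
    refine Finset.sum_eq_zero fun v hv => ?_
    rw [ha.2.2 v (Finset.mem_compl.mp hv), zero_mul]
  rw [h3, sub_zero] at h2
  rw [h2] at h1
  exact_mod_cast h1

theorem rp_mu (G : D.Good A n) {x : Finset V} (hE : D.Ell x) (hF : D.Fixed x) (hS : D.Semi A x)
    {i : ι} {p : V} (hp : D.Sole x i p) {u : V} (hu : u ∈ x) :
    D.rp x D.mu u = (if D.blk u = some i then (D.l u : ℤ) else 0) + D.l p * D.rp x (D.deg p) u := by
  obtain ⟨hpx, hpi, hpo⟩ := hp
  set b : V → ℤ := D.bl (Pi.single i 1) - (D.l p : ℤ) • (Pi.single p 1 - D.rp x (D.deg p)) with hb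
  have hbl : ∀ v, D.bl (Pi.single i 1 : ι → ℤ) v = if D.blk v = some i then (D.l v : ℤ) else 0 := by
    intro v
    cases h : D.blk v with
    | none => rw [bl_none _ h]; simp
    | some j =>
      rw [bl_some _ h, Pi.single_apply]
      by_cases hj : j = i
      · rw [if_pos hj, if_pos (by rw [hj]), one_mul]
      · rw [if_neg hj, if_neg (fun h' => hj (Option.some.inj h')), zero_mul]
  have hd : D.dg b = D.mu := by
    rw [hb, dg_sub, dg_smul, dg_sub, dg_single, rp_dg G hE hS, sub_self, smul_zero, sub_zero,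
      G.mu_eq]
  have hsupp : ∀ v, v ∉ x → b v = 0 := by
    intro v hv
    rw [hb]
    simp only [Pi.sub_apply, Pi.smul_apply, smul_eq_mul]
    rw [hbl, rp_supp G hE hS _ hv]
    by_cases hvp : v = p
    · subst hvp
      rw [if_pos hpi]; simp
    · rw [if_neg (fun h => hv (hpo v h hvp))]
      simp [hvp]
  have h1 := congrFun (rp_unique G hE hF hS hsupp hd) u
  rw [← h1, hb]
  simp only [Pi.sub_apply, Pi.smul_apply, smul_eq_mul]
  rw [hbl]
  have hup : u ≠ p := fun h => hpx (h ▸ hu)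
  rw [Pi.single_apply, if_neg hup]
  ring

/-- direction of a zero which is not the sole zero of its block (uses STAR) -/
theorem rp_nonsole (G : D.Good A n) {x : Finset V} (hE : D.Ell x) (hF : D.Fixed x) (hS : D.Semi A x)
    {v : V} (hv : v ∉ x) (hns : ∀ i, ¬ D.Sole x i v) {u : V} (hu : u ∈ x) :
    D.rp x (D.deg v) u ≤ D.rp x A u := by
  obtain ⟨a, ha, hav⟩ := star_one G (Or.inl hE) hS hF hv (fun i hi hfull => hns i
    ⟨hv, hi, fun w hw hwv => by
      rcases Finset.mem_insert.mp (hfull w hw) with h | h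
      · exact absurd h hwv
      · exact h⟩)
  have h2 := rp_expand G hE hF hS ha.1 hu
  have h3 : ∑ w ∈ xᶜ, a w * (D.rp x (D.deg w) u : ℚ) = D.rp x (D.deg v) u := by
    rw [Finset.sum_eq_single v]
    · rw [hav, one_mul]
    · intro w hw hwv
      rw [ha.2.2 w (fun h => by
        rcases Finset.mem_insert.mp h with h | h
        · exact hwv h
        · exact (Finset.mem_compl.mp hw) h), zero_mul]
    · intro h
      exact absurd (Finset.mem_compl.mpr hv) h
  rw [h3] at h2
  have h4 := ha.2.1 u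
  rw [h2] at h4
  have h5 : (D.rp x (D.deg v) u : ℚ) ≤ D.rp x A u := by linarith
  exact_mod_cast h5

end Comb

end Pool.Agent.Helper39.TV
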