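import Pool.Agent.Helper39.TV.EB
import Pool.Agent.Helper39.TV.Count

/-! TV, module EF -/

open Finset

set_option linter.unusedSectionVars false

namespace Pool.Agent.Helper39.TV

variable {V ι K : Type} [Fintype V] [DecidableEq V] [Fintype ι] [DecidableEq ι] [AddCommGroup K]

namespace Comb

variable {D : Comb V ι K} {A : K} {n : ℕ}

private theorem ef_blk {x : Finset V} {i : ι} {p : V} (hp : D.Sole x i p) {k : ι}
    (h : D.blk p = some k) : k = i := by
  have := hp.2.1
  rw [h] at this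
  exact Option.some.inj this

/-- the simple zeros -/
private theorem ef_simple {x : Finset V} {i j : ι} (hij : i ≠ j)
    (hsim : ∀ m, m ≠ i → m ≠ j → D.Simple x m) (hne : Nonempty V) :
    ∃ (z : ι → V) (M : Finset ι), (∀ m, m ∈ M ↔ m ≠ i ∧ m ≠ j) ∧ M.card + 2 = Fintype.card ι ∧
      (∀ m ∈ M, D.Sole x m (z m)) ∧ (∀ m ∈ M, D.l (z m) = 1) ∧
      (∀ m ∈ M, ∀ m' ∈ M, z m = z m' → m = m') ∧
      xᶜ = D.Z x i j ∪ M.image z ∧ Disjoint (D.Z x i j) (M.image z) := by
  classical
  obtain ⟨z, hz⟩ : ∃ z : ι → V, ∀ m, m ≠ i → m ≠ j → D.Sole x m (z m) ∧ D.l (z m) = 1 := by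
    choose! z hz using fun m (h : m ≠ i ∧ m ≠ j) => hsim m h.1 h.2
    exact ⟨z, fun m h1 h2 => hz m ⟨h1, h2⟩⟩
  have hmem : ∀ m, m ∈ (univ.erase i).erase j ↔ m ≠ i ∧ m ≠ j := fun m => by
    rw [Finset.mem_erase, Finset.mem_erase]
    exact ⟨fun h => ⟨h.2.1, h.1⟩, fun h => ⟨h.2, h.1, Finset.mem_univ m⟩⟩
  have hzs : ∀ m ∈ (univ.erase i).erase j, D.Sole x m (z m) := fun m hm =>
    (hz m ((hmem m).1 hm).1 ((hmem m).1 hm).2).1
  have hzl : ∀ m ∈ (univ.erase i).erase j, D.l (z m) = 1 := fun m hm =>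
    (hz m ((hmem m).1 hm).1 ((hmem m).1 hm).2).2
  refine ⟨z, (univ.erase i).erase j, hmem, ?_, hzs, hzl, ?_, ?_, ?_⟩
  · have h1 : j ∈ (univ.erase i : Finset ι) := Finset.mem_erase.2 ⟨hij.symm, Finset.mem_univ j⟩
    rw [Finset.card_erase_of_mem h1, Finset.card_erase_of_mem (Finset.mem_univ i),
      Finset.card_univ]
    have : 1 < Fintype.card ι := Fintype.one_lt_card_iff.2 ⟨i, j, hij⟩
    omega
  · intro m hm m' hm' h
    have h1 := (hzs m hm).2.1
    rw [h] at h1
    exact ef_blk (hzs m' hm') h1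
  · ext v
    rw [Finset.mem_union, Z, Finset.mem_filter]
    constructor
    · intro hv
      by_cases h : ∀ m, m ≠ i → m ≠ j → D.blk v ≠ some m
      · exact Or.inl ⟨hv, h⟩
      · push Not at h
        obtain ⟨m, h1, h2, h3⟩ := h
        have hm : m ∈ (univ.erase i).erase j := (hmem m).2 ⟨h1, h2⟩
        refine Or.inr (Finset.mem_image.2 ⟨m, hm, ?_⟩)
        by_contra hne
        rw [Finset.mem_compl] at hv
        exact hv ((hzs m hm).2.2 v h3 (Ne.symm hne))
    · rintro (h | h)
      · exact h.1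
      · obtain ⟨m, hm, rfl⟩ := Finset.mem_image.1 h
        exact Finset.mem_compl.2 (hzs m hm).1
  · rw [Finset.disjoint_left]
    intro v hv hv'
    obtain ⟨m, hm, rfl⟩ := Finset.mem_image.1 hv'
    rw [Z, Finset.mem_filter] at hv
    exact hv.2 m ((hmem m).1 hm).1 ((hmem m).1 hm).2 (hzs m hm).2.1

private theorem ef_nonempty (G : D.Good A n) : Nonempty V := by
  obtain ⟨i, -, -⟩ := G.two
  obtain ⟨v, -⟩ := G.ne i
  exact ⟨v⟩

theorem card_Z (G : D.Good A n) {x : Finset V} (hE : D.Ell x) (hF : D.Fixed x) (hS : D.Semi A x)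
    {i j : ι} (hij : i ≠ j) (hsim : ∀ m, m ≠ i → m ≠ j → D.Simple x m) : (D.Z x i j).card = n := by
  obtain ⟨z, M, -, hcard, -, -, hinj, hcompl, hdisj⟩ := ef_simple hij hsim (ef_nonempty G)
  have h1 := card_ell G hE hF hS
  rw [hcompl, Finset.card_union_of_disjoint hdisj,
    Finset.card_image_of_injOn fun m hm m' hm' => hinj m hm m' hm'] at h1
  omega

/-- `∑ (α - b_v)` over the zeros `v ∈ Z`, plus the rest -/
theorem rp_adjoint (G : D.Good A n) {x : Finset V} (hE : D.Ell x) (hF : D.Fixed x) (hS : D.Semi A x)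
    {i j : ι} (hij : i ≠ j) (hsim : ∀ m, m ≠ i → m ≠ j → D.Simple x m) {N : ℕ} (hN : n + 2 ≤ N)
    {u : V} (hu : u ∈ x) :
    D.rp x (D.can + N • A) u = ((N : ℤ) - n) * D.rp x A u - 1 +
      ∑ v ∈ D.Z x i j, (D.rp x A u - D.rp x (D.deg v) u) +
      (D.blk u).elim 0 (fun m => if m = i ∨ m = j then 0 else (D.l u : ℤ)) := by
  classical
  obtain ⟨z, M, hmem, hcard, hzs, hzl, hinj, hcompl, hdisj⟩ := ef_simple hij hsim (ef_nonempty G)
  have hZ := card_Z G hE hF hS hij hsim
  -- linearity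
  have hlin : D.rp x (D.can + N • A) = ((Fintype.card ι : ℤ) - 2) • D.rp x D.mu -
      ∑ v, D.rp x (D.deg v) + (N : ℤ) • D.rp x A := by
    refine (rp_unique G hE hF hS (fun v hv => ?_) ?_).symm
    · simp only [Pi.add_apply, Pi.sub_apply, Pi.smul_apply, Finset.sum_apply,
        rp_supp G hE hS _ hv]
      simp
    · rw [dg_add, dg_sub, dg_smul, dg_smul, dg_sum, rp_dg G hE hS, rp_dg G hE hS, can]
      simp only [rp_dg G hE hS]
      rw [natCast_zsmul]
  have hx : ∀ v ∈ x, D.rp x (D.deg v) u = if v = u then 1 else 0 := by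
    intro v hv
    have : (Pi.single v 1 : V → ℤ) = D.rp x (D.deg v) := by
      refine rp_unique G hE hF hS (fun w hw => ?_) (dg_single v)
      have : w ≠ v := by
        rintro rfl
        exact hw hv
      simp [this]
    rw [← this, Pi.single_apply]
    by_cases h : v = u
    · simp [h]
    · simp [h, Ne.symm h]
  have hsx : ∑ v ∈ x, D.rp x (D.deg v) u = 1 := by
    rw [Finset.sum_congr rfl hx, Finset.sum_ite_eq' x u, if_pos hu]
  have hsM : ∑ v ∈ M.image z, D.rp x (D.deg v) u = (M.card : ℤ) * D.rp x D.mu u -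
      (D.blk u).elim 0 (fun m => if m = i ∨ m = j then 0 else (D.l u : ℤ)) := by
    rw [Finset.sum_image fun m hm m' hm' => hinj m hm m' hm']
    have h1 : ∀ m ∈ M, D.rp x (D.deg (z m)) u = D.rp x D.mu u -
        (if D.blk u = some m then (D.l u : ℤ) else 0) := by
      intro m hm
      have h2 := rp_mu G hE hF hS (hzs m hm) hu
      rw [hzl m hm] at h2
      rw [h2]
      push_cast
      ring
    rw [Finset.sum_congr rfl h1, Finset.sum_sub_distrib, Finset.sum_const, nsmul_eq_mul]
    congr 1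
    cases hb : D.blk u with
    | none => simp
    | some k =>
      by_cases hk : k ∈ M
      · rw [Finset.sum_eq_single k]
        · have := (hmem k).1 hk
          simp [this.1, this.2]
        · intro m _ hm
          rw [if_neg]
          intro h
          exact hm (Option.some.inj h).symm
        · intro h
          exact absurd hk h
      · rw [Finset.sum_eq_zero]
        · have : k = i ∨ k = j := by
            by_contra h
            push Not at h
            exact hk ((hmem k).2 h)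
          simp [this]
        · intro m hm
          rw [if_neg]
          intro h
          exact hk ((Option.some.inj h) ▸ hm)
  have hall : ∑ v, D.rp x (D.deg v) u = 1 + (∑ v ∈ D.Z x i j, D.rp x (D.deg v) u +
      ∑ v ∈ M.image z, D.rp x (D.deg v) u) := by
    rw [← Finset.sum_union hdisj, ← hcompl, ← hsx, Finset.sum_add_sum_compl]
  rw [hlin]
  simp only [Pi.add_apply, Pi.sub_apply, Pi.smul_apply, Finset.sum_apply, smul_eq_mul]
  rw [hall, hsM, Finset.sum_sub_distrib, Finset.sum_const, nsmul_eq_mul, hZ]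
  have hc : (M.card : ℤ) = (Fintype.card ι : ℤ) - 2 := by omega
  rw [hc]
  ring

end Comb

end Pool.Agent.Helper39.TV
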