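import Pool.Agent.Helper39.TV.PSupp

/-!
Vacuity check for the TV project: the smooth quadric threefold `z0 z1 + z2 z3 = z4^2` in `P^4`
satisfies all hypotheses of `SmoothProjective` (with `K = ℤ`, `A = 1`, `n = 3`).
-/

open Finset MvPolynomial

namespace Pool.Agent.Helper39.TV.Example

/-- the quadric threefold: blocks `{z0, z1}`, `{z2, z3}`, `{z4}` with exponents 1, 1, 1, 1, 2 -/
def quadric : CoxData (Fin 5) (Fin 3) ℤ where
  blk := ![some 0, some 0, some 1, some 1, some 2]
  l := ![1, 1, 1, 1, 2]
  deg := fun _ => 1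
  mu := 2
  a := ![![1, 0], ![0, 1], ![1, 1]]

theorem rel0 : quadric.rel 0 = X (Sum.inl 0) * X (Sum.inl 1) - X (Sum.inr 0) := by
  have h : univ.filter (fun v => quadric.blk v = some 0) = ({0, 1} : Finset (Fin 5)) := by decide
  unfold CoxData.rel
  rw [h, Finset.prod_pair (by decide)]
  simp [quadric]

theorem rel1 : quadric.rel 1 = X (Sum.inl 2) * X (Sum.inl 3) - X (Sum.inr 1) := by
  have h : univ.filter (fun v => quadric.blk v = some 1) = ({2, 3} : Finset (Fin 5)) := by decide
  unfold CoxData.rel
  rw [h, Finset.prod_pair (by decide)]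
  simp [quadric]

theorem rel2 : quadric.rel 2 = X (Sum.inl 4) ^ 2 - (X (Sum.inr 0) + X (Sum.inr 1)) := by
  have h : univ.filter (fun v => quadric.blk v = some 2) = ({4} : Finset (Fin 5)) := by decide
  unfold CoxData.rel
  rw [h, Finset.prod_singleton]
  simp [quadric]

theorem weight_eq (b : Fin 5 ⊕ Fin 2 →₀ ℕ) :
    Finsupp.weight quadric.wt b = ∑ v, (b (Sum.inl v) : ℤ) + 2 * (b (Sum.inr 0) + b (Sum.inr 1)) := by
  rw [Finsupp.weight_apply, Finsupp.sum_fintype _ _ (by simp), Fintype.sum_sum_type]
  simp only [CoxData.wt, Sum.elim_inl, Sum.elim_inr, Fin.sum_univ_two, quadric]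
  simp
  ring

/-- a semistable point has a nonzero coordinate -/
theorem exists_ne {x : Fin 5 ⊕ Fin 2 → ℂ} (hx : x ∈ quadric.semistable (1 : ℤ)) :
    ∃ v, x (Sum.inl v) ≠ 0 := by
  by_contra hcon
  push Not at hcon
  obtain ⟨ht, m, hm, f, hf, hfx⟩ := hx
  have h0 := ht 0
  have h1 := ht 1
  rw [rel0] at h0
  rw [rel1] at h1
  simp [hcon] at h0 h1
  have hx0 : x = 0 := by
    funext s
    rcases s with v | k
    · exact hcon v
    · fin_cases k
      · exact h0
      · exact h1
  apply hfx
  rw [hx0]
  have h2 : eval (0 : Fin 5 ⊕ Fin 2 → ℂ) f = coeff 0 f := by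
    rw [eval_zero, constantCoeff_eq]
  rw [h2]
  by_contra h3
  have h4 := hf h3
  rw [map_zero] at h4
  simp at h4
  omega

theorem bl_eq (c : Fin 3 → ℤ) (v : Fin 5) :
    (quadric.blk v).elim 0 (fun i => c i * (quadric.l v : ℤ)) =
      (![c 0, c 0, c 1, c 1, 2 * c 2] : Fin 5 → ℤ) v := by
  fin_cases v <;> simp [quadric, mul_comm]

theorem indep {x : Fin 5 ⊕ Fin 2 → ℂ} (hx : ∃ v, x (Sum.inl v) ≠ 0) :
    LinearIndependent ℂ (fun i s => eval x (pderiv s (quadric.rel i))) := by
  rw [Fintype.linearIndependent_iff]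
  intro g hg
  have hz : ∀ s, g 0 * eval x (pderiv s (quadric.rel 0)) + g 1 * eval x (pderiv s (quadric.rel 1)) +
      g 2 * eval x (pderiv s (quadric.rel 2)) = 0 := by
    intro s
    have := congrFun hg s
    simpa [Fin.sum_univ_three] using this
  rw [rel0, rel1, rel2] at hz
  have e0 := hz (Sum.inl 0)
  have e1 := hz (Sum.inl 1)
  have e2 := hz (Sum.inl 2)
  have e3 := hz (Sum.inl 3)
  have e4 := hz (Sum.inl 4)
  have e5 := hz (Sum.inr 0)
  have e6 := hz (Sum.inr 1)
  simp [pderiv_X, Pi.single_apply] at e0 e1 e2 e3 e4 e5 e6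
  have h02 : g 2 = - g 0 := by linear_combination -e5
  have h12 : g 1 = g 0 := by linear_combination e5 - e6
  have hg0 : g 0 = 0 := by
    obtain ⟨v, hv⟩ := hx
    fin_cases v
    · rcases e1 with h | h
      · exact h
      · exact absurd h hv
    · rcases e0 with h | h
      · exact h
      · exact absurd h hv
    · rcases e3 with h | h
      · rw [← h12]; exact h
      · exact absurd h hv
    · rcases e2 with h | h
      · rw [← h12]; exact h
      · exact absurd h hv
    · rcases e4 with h | h
      · have : g 0 = - g 2 := by rw [h02]; ring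
        rw [this, h]; ring
      · exact absurd h hv
  intro i
  fin_cases i
  · exact hg0
  · show g 1 = 0
    rw [h12, hg0]
  · show g 2 = 0
    rw [h02, hg0]; ring

/-- the smooth quadric threefold satisfies all hypotheses -/
theorem quadric_smoothProjective : quadric.SmoothProjective (1 : ℤ) 3 where
  lpos := by decide
  two := ⟨0, 1, by decide⟩
  indep := by
    intro i j hij
    fin_cases i <;> fin_cases j <;> simp [quadric] at hij ⊢
  homog := by
    intro i
    fin_cases i <;> decide
  pointed := by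
    intro b hb
    rw [weight_eq, Fin.sum_univ_five] at hb
    ext s
    rcases s with v | k
    · fin_cases v <;> simp <;> omega
    · fin_cases k <;> simp <;> omega
  connected := by
    intro a ha m hm ⟨c, hc, hac⟩
    simp only [quadric, smul_eq_mul, mul_one, Fin.sum_univ_five] at ha
    rw [Fin.sum_univ_three] at hc
    simp only [bl_eq] at hac
    have h0 := hac 0
    have h1 := hac 1
    have h2 := hac 2
    have h3 := hac 3
    have h4 := hac 4
    simp at h0 h1 h2 h3 h4
    have h01 : a 0 = a 1 := mul_left_cancel₀ hm (by rw [h0, h1])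
    have h23 : a 2 = a 3 := mul_left_cancel₀ hm (by rw [h2, h3])
    refine ⟨![a 0, a 2, - a 0 - a 2], by simp [Fin.sum_univ_three], fun v => ?_⟩
    rw [bl_eq]
    fin_cases v
    · simp
    · simp [h01]
    · simp
    · simp [h23]
    · simp
      linarith
  free := by
    intro x hx h hh
    obtain ⟨v, hv⟩ := exists_ne hx
    have h1 := hh (Sum.inl v)
    have h2 : (h (Multiplicative.ofAdd (1 : ℤ)) : ℂ) = 1 := by
      have h3 : (h (Multiplicative.ofAdd (1 : ℤ)) : ℂ) * x (Sum.inl v) = x (Sum.inl v) := h1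
      exact mul_right_cancel₀ hv (by rw [h3, one_mul])
    have h3 : h (Multiplicative.ofAdd (1 : ℤ)) = 1 := Units.ext h2
    refine MonoidHom.ext fun k => ?_
    have h4 : k = (Multiplicative.ofAdd (1 : ℤ)) ^ (Multiplicative.toAdd k) := by
      rw [← ofAdd_zsmul]; simp
    rw [h4, map_zpow, h3]; simp
  smooth := fun x hx => indep (exists_ne hx)
  dim := by simp

end Pool.Agent.Helper39.TV.Example
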