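import Mathlib

/-! TV, module Farkas -/

open Finset

set_option linter.unusedSectionVars false

namespace Pool.Agent.Helper39.TV

private theorem farkas_fin {E : Type*} [AddCommGroup E] [Module ℚ E] : ∀ (n : ℕ)
    (f : Fin n → E →ₗ[ℚ] ℚ) (g : E →ₗ[ℚ] ℚ), (∀ x, (∀ i, f i x ≤ 0) → g x ≤ 0) →
    ∃ m : Fin n → ℚ, (∀ i, 0 ≤ m i) ∧ g = ∑ i, m i • f i := by
  intro n
  induction n with
  | zero =>
    intro f g h
    refine ⟨fun _ => 0, fun _ => le_rfl, ?_⟩
    ext x
    have h1 := h x (fun i => i.elim0)
    have h2 := h (-x) (fun i => i.elim0)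
    rw [map_neg] at h2
    simp only [univ_eq_empty, zero_smul, sum_empty, LinearMap.zero_apply]
    linarith
  | succ n ih =>
    intro f g h
    by_cases hc : ∀ x, (∀ i : Fin n, f i.castSucc x ≤ 0) → g x ≤ 0
    · obtain ⟨m, hm, hg⟩ := ih (fun i => f i.castSucc) g hc
      refine ⟨Fin.snoc m 0, ?_, ?_⟩
      · intro i
        refine Fin.lastCases ?_ (fun i => ?_) i
        · simp
        · simp [hm]
      · rw [Fin.sum_univ_castSucc]
        simp [hg]
    · push Not at hc
      obtain ⟨x0, hx0, hgx0⟩ := hc
      have hlast : 0 < f (Fin.last n) x0 := by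
        by_contra hcon
        push Not at hcon
        have := h x0 (fun i => Fin.lastCases hcon hx0 i)
        linarith
      obtain ⟨x, hx⟩ : ∃ x, x = (f (Fin.last n) x0)⁻¹ • x0 := ⟨_, rfl⟩
      have hinv : 0 < (f (Fin.last n) x0)⁻¹ := inv_pos.2 hlast
      have hx1 : f (Fin.last n) x = 1 := by
        rw [hx, map_smul, smul_eq_mul, inv_mul_cancel₀ hlast.ne']
      have hxi : ∀ i : Fin n, f i.castSucc x ≤ 0 := by
        intro i
        rw [hx, map_smul, smul_eq_mul]
        exact mul_nonpos_of_nonneg_of_nonpos hinv.le (hx0 i)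
      have hgx : 0 < g x := by
        rw [hx, map_smul, smul_eq_mul]
        exact mul_pos hinv hgx0
      obtain ⟨m, hm, hg⟩ := ih (fun i => f i.castSucc - (f i.castSucc x) • f (Fin.last n))
        (g - g x • f (Fin.last n)) (by
          intro y hy
          have h1 := h (y - f (Fin.last n) y • x) (fun i => by
            refine Fin.lastCases ?_ (fun i => ?_) i
            · rw [map_sub, map_smul, hx1, smul_eq_mul, mul_one, sub_self]
            · have := hy i
              simp only [LinearMap.sub_apply, LinearMap.smul_apply, smul_eq_mul] at this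
              rw [map_sub, map_smul, smul_eq_mul]
              linarith)
          rw [map_sub, map_smul, smul_eq_mul] at h1
          simp only [LinearMap.sub_apply, LinearMap.smul_apply, smul_eq_mul]
          linarith)
      refine ⟨Fin.snoc m (g x - ∑ i, m i * f i.castSucc x), ?_, ?_⟩
      · intro i
        refine Fin.lastCases ?_ (fun i => ?_) i
        · simp only [Fin.snoc_last]
          have : ∑ i, m i * f i.castSucc x ≤ 0 :=
            Finset.sum_nonpos fun i _ => mul_nonpos_of_nonneg_of_nonpos (hm i) (hxi i)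
          linarith
        · simp only [Fin.snoc_castSucc]
          exact hm i
      · rw [Fin.sum_univ_castSucc]
        simp only [Fin.snoc_castSucc, Fin.snoc_last]
        ext y
        have h2 := LinearMap.congr_fun hg y
        simp only [LinearMap.sub_apply, LinearMap.smul_apply, smul_eq_mul, LinearMap.sum_apply,
          LinearMap.add_apply] at h2 ⊢
        have h3 : ∑ i, m i * (f i.castSucc y - f i.castSucc x * f (Fin.last n) y) =
            ∑ i, m i * f i.castSucc y - (∑ i, m i * f i.castSucc x) * f (Fin.last n) y := by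
          rw [Finset.sum_mul, ← Finset.sum_sub_distrib]
          exact Finset.sum_congr rfl fun i _ => by ring
        rw [h3] at h2
        linarith

theorem farkas {E : Type*} [AddCommGroup E] [Module ℚ E] {α : Type*} [Fintype α]
    (f : α → E →ₗ[ℚ] ℚ) (g : E →ₗ[ℚ] ℚ) (h : ∀ x, (∀ i, f i x ≤ 0) → g x ≤ 0) :
    ∃ m : α → ℚ, (∀ i, 0 ≤ m i) ∧ g = ∑ i, m i • f i := by
  classical
  let e := Fintype.equivFin α
  obtain ⟨m, hm, hg⟩ := farkas_fin _ (fun i => f (e.symm i)) g (fun x hx => h x fun i => by
    have := hx (e i)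
    rwa [Equiv.symm_apply_apply] at this)
  refine ⟨fun i => m (e i), fun i => hm _, ?_⟩
  rw [hg]
  refine (Fintype.sum_equiv e _ _ fun i => ?_).symm
  rw [Equiv.symm_apply_apply]

end Pool.Agent.Helper39.TV
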