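import Pool.Agent.Helper39.TV.Limit

/-! TV, module Generic -/

open Finset

set_option linter.unusedSectionVars false

namespace Pool.Agent.Helper39.TV

variable {V ι K : Type} [Fintype V] [DecidableEq V] [Fintype ι] [DecidableEq ι] [AddCommGroup K]

namespace Comb

variable {D : Comb V ι K} {A : K} {n : ℕ}

theorem Generic_denom (c : ι → ℚ) : ∃ m : ℕ, 0 < m ∧ ∃ e : ι → ℤ, ∀ i, (e i : ℚ) = m * c i := by
  classical
  set m : ℕ := ∏ i, (c i).den with hm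
  have hmpos : 0 < m := Finset.prod_pos fun i _ => (c i).den_pos
  have hdvd : ∀ i, ∃ e : ℤ, (e : ℚ) = m * c i := by
    intro i
    refine ⟨(c i).num * ∏ j ∈ Finset.univ.erase i, ((c j).den : ℤ), ?_⟩
    rw [hm, ← Finset.mul_prod_erase Finset.univ _ (Finset.mem_univ i)]
    push_cast
    have h : ((c i).num : ℚ) = c i * (c i).den := by rw [Rat.mul_den_eq_num]
    rw [h]; ring
  choose e he using hdvd
  exact ⟨m, hmpos, e, he⟩

theorem Generic_inRel (G : D.Good A n) {b : V → ℤ} (hb : D.dg b = 0) {c : ι → ℚ}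
    (hc : ∑ i, c i = 0) (h : (fun v => (b v : ℚ)) = D.bl c) : D.InRel b := by
  obtain ⟨m, hm, e, he⟩ := Generic_denom c
  refine G.tf b hb m (by exact_mod_cast hm.ne') ⟨e, ?_, ?_⟩
  · have h : ((∑ i, e i : ℤ) : ℚ) = 0 := by
      push_cast
      simp_rw [he]
      rw [← Finset.mul_sum, hc, mul_zero]
    exact_mod_cast h
  · funext v
    have h1 : ((D.bl e v : ℤ) : ℚ) = m * (b v : ℚ) := by
      rw [bl_cast]
      have : (fun i => (e i : ℚ)) = (m : ℚ) • c := by funext i; simp [he]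
      rw [this, bl_smul, ← h]
      simp
    have h2 : ((D.bl e v : ℤ) : ℚ) = (((m : ℤ) • b) v : ℤ) := by
      rw [h1]
      simp
    exact_mod_cast h2.symm

theorem generic (G : D.Good A n) : ∃ lam : V → ℚ, (∀ i j, D.bs lam i = D.bs lam j) ∧
    ∀ σ : Finset V, (∀ b : V → ℤ, (∀ v, v ∉ σ → b v = 0) → D.dg b = 0 → ∑ v, lam v * (b v : ℚ) = 0) →
      D.Fixed σ := by
  classical
  let blL : (ι → ℚ) →ₗ[ℚ] (V → ℚ) :=
    { toFun := D.bl, map_add' := bl_add, map_smul' := fun t c => bl_smul t c }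
  let sumL : (ι → ℚ) →ₗ[ℚ] ℚ :=
    { toFun := fun c => ∑ i, c i
      map_add' := fun a b => by simp [Finset.sum_add_distrib]
      map_smul' := fun t c => by simp [Finset.mul_sum] }
  let W : Submodule ℚ (V → ℚ) := (LinearMap.ker sumL).map blL
  have hW : ∀ c : ι → ℚ, ∑ i, c i = 0 → D.bl c ∈ W := fun c hc =>
    Submodule.mem_map.2 ⟨c, LinearMap.mem_ker.2 hc, rfl⟩
  have hW' : ∀ a ∈ W, ∃ c : ι → ℚ, ∑ i, c i = 0 ∧ a = D.bl c := fun a ha => by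
    obtain ⟨c, hc, rfl⟩ := Submodule.mem_map.1 ha
    exact ⟨c, LinearMap.mem_ker.1 hc, rfl⟩
  have hex : ∀ σ : {σ : Finset V // ¬ D.Fixed σ}, ∃ b : V → ℤ, (∀ v, v ∉ σ.1 → b v = 0) ∧
      D.dg b = 0 ∧ ¬ D.InRel b := by
    rintro ⟨σ, hσ⟩
    simp only [Fixed, not_forall] at hσ
    obtain ⟨b, h1, h2, h3⟩ := hσ
    exact ⟨b, h1, h2, h3⟩
  choose b hb1 hb2 hb3 using hex
  have hne : ∀ σ, W.mkQ (fun v => (b σ v : ℚ)) ≠ 0 := by
    intro σ h0
    rw [Submodule.mkQ_apply, Submodule.Quotient.mk_eq_zero] at h0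
    obtain ⟨c, hc, hc'⟩ := hW' _ h0
    exact hb3 σ (Generic_inRel G (hb2 σ) hc hc')
  obtain ⟨f, hf⟩ := Module.exists_dual_forall_apply_ne_zero (K := ℚ)
    (fun σ => W.mkQ (fun v => (b σ v : ℚ))) hne
  let g : (V → ℚ) →ₗ[ℚ] ℚ := f ∘ₗ W.mkQ
  have hg : ∀ a : V → ℚ, ∑ v, g (Pi.single v 1) * a v = g a := by
    intro a
    have h1 : a = ∑ v, a v • (Pi.single v (1 : ℚ) : V → ℚ) := by
      funext w
      simp [Finset.sum_apply, Pi.single_apply]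
    conv_rhs => rw [h1, map_sum]
    refine Finset.sum_congr rfl fun v _ => ?_
    rw [map_smul, smul_eq_mul, mul_comm]
  refine ⟨fun v => g (Pi.single v 1), fun i j => ?_, fun σ hσ => ?_⟩
  · have hc : ∑ k, (Pi.single i (1 : ℚ) - Pi.single j (1 : ℚ) : ι → ℚ) k = 0 := by
      simp [Finset.sum_sub_distrib]
    have h0 : g (D.bl (Pi.single i (1 : ℚ) - Pi.single j (1 : ℚ) : ι → ℚ)) = 0 := by
      show f (W.mkQ _) = 0
      rw [(Submodule.Quotient.mk_eq_zero W).2 (hW _ hc) |> fun h => (show W.mkQ _ = 0 from h),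
        map_zero]
    rw [← hg, dot_bl] at h0
    simp only [Pi.sub_apply, sub_mul, Finset.sum_sub_distrib] at h0
    have e1 : ∀ (k : ι) (F : ι → ℚ), ∑ m, (Pi.single k (1 : ℚ) : ι → ℚ) m * F m = F k := by
      intro k F
      simp [Pi.single_apply]
    rw [e1, e1] at h0
    exact sub_eq_zero.1 h0
  · by_contra hn
    have h1 := hσ (b ⟨σ, hn⟩) (hb1 ⟨σ, hn⟩) (hb2 ⟨σ, hn⟩)
    have h2 := hg (fun v => (b ⟨σ, hn⟩ v : ℚ))
    rw [h1] at h2
    exact hf ⟨σ, hn⟩ h2.symm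

/-- (uses LIMIT) -/
theorem fixed_limit (G : D.Good A n) : ∃ lam : V → ℚ, ∀ σ : Finset V, D.Adm σ → D.Semi A σ →
    ∃ psi : V → ℚ, (∀ b : V → ℤ, D.dg b = 0 → ∑ v, psi v * (b v : ℚ) = 0) ∧
      (∀ v ∈ σ, psi v ≤ lam v) ∧ ∃ τ : Finset V, τ ⊆ σ ∧ (∀ v ∈ σ, v ∈ τ ↔ psi v = lam v) ∧
        D.Semi A τ ∧ D.Adm τ ∧ D.Fixed τ ∧ (D.Ell τ ∨ ∀ i, D.Full σ i → D.Full τ i) := by
  obtain ⟨lam, h1, h2⟩ := generic G
  refine ⟨lam, fun σ hA hS => ?_⟩
  obtain ⟨psi, hk, hle, τ, hsub, hiff, hSτ, hAτ, hlast⟩ := limit G hA hS lam fun i j _ _ => h1 i j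
  refine ⟨psi, hk, hle, τ, hsub, hiff, hSτ, hAτ, h2 τ fun b hb hb0 => ?_, hlast⟩
  rw [← hk b hb0]
  refine Finset.sum_congr rfl fun v _ => ?_
  by_cases hv : v ∈ τ
  · rw [(hiff v (hsub hv)).1 hv]
  · rw [hb v hv]
    simp

end Comb

end Pool.Agent.Helper39.TV
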