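import Pool.Agent.Helper39.TV.Basic

/-! TV, module Interior -/

open Finset

set_option linter.unusedSectionVars false

namespace Pool.Agent.Helper39.TV

variable {V ι K : Type} [Fintype V] [DecidableEq V] [Fintype ι] [DecidableEq ι] [AddCommGroup K]

namespace Comb

variable {D : Comb V ι K} {A : K} {n : ℕ}

theorem interior_aux_pos {x : Finset V} (h0 : D.Semi A x) (s : Finset V)
    (h : ∀ v ∈ s, ∃ a, D.Pi A x a ∧ 0 < a v) : ∃ a, D.Pi A x a ∧ ∀ v ∈ s, 0 < a v := by
  induction s using Finset.induction_on with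
  | empty =>
    obtain ⟨a, ha⟩ := h0
    exact ⟨a, ha, fun v hv => absurd hv (Finset.notMem_empty v)⟩
  | insert v s hvs ih =>
    obtain ⟨a, ha, hpos⟩ := ih fun u hu => h u (Finset.mem_insert_of_mem hu)
    obtain ⟨a', ha', hpos'⟩ := h v (Finset.mem_insert_self v s)
    refine ⟨(1 - (1 / 2 : ℚ)) • a + (1 / 2 : ℚ) • a',
      Pi.convex (by norm_num) (by norm_num) ha ha', ?_⟩
    intro u hu
    have h1 := ha.2.1 u
    have h2 := ha'.2.1 u
    simp only [Pi.add_apply, Pi.smul_apply, smul_eq_mul]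
    rcases Finset.mem_insert.mp hu with rfl | hu
    · linarith
    · have := hpos u hu
      linarith

theorem interior_aux_move (G : D.Good A n) {x : Finset V} {a : V → ℚ} (ha : D.Pi A x a) {j j' : ι}
    (hne : j' ≠ j) (hj : D.Full x j) (hj' : D.Full x j') (hpos : ∀ v, D.blk v = some j → 0 < a v) :
    ∃ a', D.Pi A x a' ∧ ∀ v, D.blk v = some j' → 0 < a' v := by
  classical
  obtain ⟨v₀, hv₀⟩ := G.ne j
  obtain ⟨v₁, hv₁, hmin⟩ := Finset.exists_min_image
    (Finset.univ.filter fun v => D.blk v = some j) (fun v => a v / (D.l v : ℚ))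
    ⟨v₀, by simp [hv₀]⟩
  have hl : ∀ v, (0 : ℚ) < D.l v := fun v => by exact_mod_cast G.lpos v
  have hv₁' : D.blk v₁ = some j := by simpa using hv₁
  set ε : ℚ := a v₁ / (D.l v₁ : ℚ) with hε
  have hεpos : 0 < ε := div_pos (hpos v₁ hv₁') (hl v₁)
  have hεle : ∀ v, D.blk v = some j → ε * (D.l v : ℚ) ≤ a v := by
    intro v hv
    have := hmin v (by simp [hv])
    rwa [le_div_iff₀ (hl v)] at this
  have hsum : ∑ i, ((Pi.single j' 1 - Pi.single j 1 : ι → ℚ)) i = 0 := by
    simp [Finset.sum_sub_distrib]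
  have hval : ∀ v i, D.blk v = some i →
      D.bl (Pi.single j' 1 - Pi.single j 1 : ι → ℚ) v =
        ((if i = j' then 1 else 0) - (if i = j then 1 else 0)) * (D.l v : ℚ) := by
    intro v i hv
    rw [bl_some _ hv]
    simp [Pi.single_apply]
  refine ⟨a + ε • D.bl (Pi.single j' 1 - Pi.single j 1 : ι → ℚ),
    ⟨ha.1.add_kq ((KQ.bl G.mu_eq hsum).smul ε), ?_, ?_⟩, ?_⟩
  · intro v
    have h0 := ha.2.1 v
    simp only [Pi.add_apply, Pi.smul_apply, smul_eq_mul]
    cases hb : D.blk v with
    | none => rw [bl_none _ hb]; linarith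
    | some i =>
      rw [hval v i hb]
      by_cases h1 : i = j
      · subst h1
        have h2 := hεle v hb
        rw [if_neg (Ne.symm hne), if_pos rfl]
        linarith
      · rw [if_neg h1]
        have h3 : 0 ≤ ε * (((if i = j' then 1 else 0) - 0) * (D.l v : ℚ)) := by
          have h4 : (0 : ℚ) ≤ (if i = j' then 1 else 0) - 0 := by split_ifs <;> norm_num
          exact mul_nonneg hεpos.le (mul_nonneg h4 (hl v).le)
        linarith
  · intro v hv
    simp only [Pi.add_apply, Pi.smul_apply, smul_eq_mul]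
    rw [ha.2.2 v hv]
    cases hb : D.blk v with
    | none => rw [bl_none _ hb]; ring
    | some i =>
      rw [hval v i hb]
      have h1 : i ≠ j := fun h => hv (hj v (by rw [hb, h]))
      have h2 : i ≠ j' := fun h => hv (hj' v (by rw [hb, h]))
      rw [if_neg h1, if_neg h2]
      ring
  · intro v hv
    simp only [Pi.add_apply, Pi.smul_apply, smul_eq_mul]
    rw [hval v j' hv, if_pos rfl, if_neg hne]
    have h0 := ha.2.1 v
    have := mul_pos hεpos (hl v)
    linarith

theorem interior (G : D.Good A n) {x : Finset V} (hA : D.Adm x) (hS : D.Semi A x) (hF : D.Fixed x) :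
    ∃ a, D.Pi A x a ∧ ∀ v ∈ x, 0 < a v := by
  classical
  set s : Finset V := x.filter fun v => ∃ a, D.Pi A x a ∧ 0 < a v with hs
  have hsx : s ⊆ x := Finset.filter_subset _ _
  obtain ⟨a, ha, hpos⟩ := interior_aux_pos hS s fun v hv => (Finset.mem_filter.mp hv).2
  have hzero : ∀ v, v ∉ s → a v = 0 := by
    intro v hv
    by_cases hvx : v ∈ x
    · by_contra h0
      have h1 : 0 < a v := lt_of_le_of_ne (ha.2.1 v) (Ne.symm h0)
      exact hv (Finset.mem_filter.mpr ⟨hvx, a, ha, h1⟩)
    · exact ha.2.2 v hvx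
  have hSs : D.Semi A s := ⟨a, ha.1, ha.2.1, hzero⟩
  refine ⟨a, ha, ?_⟩
  by_contra hcon
  push Not at hcon
  obtain ⟨v, hvx, hv0⟩ := hcon
  have hvs : v ∉ s := fun h => absurd (hpos v h) (not_lt.mpr hv0)
  -- the vector `e_v - b`
  have key : D.Adm s → ∀ u, u ∈ x → u ∉ s → ∃ c : ι → ℤ, ∑ i, c i = 0 ∧ D.bl c u = 1 ∧
      (∀ w, w ∉ s → w ≠ u → D.bl c w = 0) := by
    intro hAs u hu hus
    obtain ⟨b, hb, hbd⟩ := G.gen s hAs hSs (D.deg u)
    obtain ⟨c, hc, hcb⟩ := hF (Pi.single u 1 - b) (fun w hw => by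
      have h1 : w ≠ u := fun h => hw (h ▸ hu)
      have h2 : w ∉ s := fun h => hw (hsx h)
      simp [h1, hb w h2]) (by rw [dg_sub, dg_single, hbd, sub_self])
    refine ⟨c, hc, ?_, ?_⟩
    · rw [← hcb]
      simp [hb u hus]
    · intro w hw hwu
      rw [← hcb]
      simp [hwu, hb w hw]
  by_cases h1 : ∀ i, D.Full x i → D.Full s i
  · have hAs : D.Adm s := by
      rcases hA with hE | ⟨i, hi⟩
      · left
        intro i hi
        exact hE i fun w hw => hsx (hi w hw)
      · right
        exact ⟨i, fun j hj => h1 j (hi j hj)⟩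
    obtain ⟨c, hc, hcv, hcw⟩ := key hAs v hvx hvs
    have hx0 : ∀ w, w ∉ x → D.bl c w = 0 := fun w hw =>
      hcw w (fun h => hw (hsx h)) (fun h => hw (h ▸ hvx))
    cases hb : D.blk v with
    | none =>
      rw [bl_none _ hb] at hcv
      exact absurd hcv (by norm_num)
    | some i =>
      have hnf : ¬ D.Full x i := fun h => hvs (h1 i h v hb)
      have hci := bl_zero_of_not_full G.lpos hx0 hnf
      rw [bl_some _ hb, hci, zero_mul] at hcv
      exact absurd hcv (by norm_num)
  · push Not at h1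
    obtain ⟨m, hm, hms⟩ := h1
    -- no block is contained in `s`
    have hE : D.Ell s := by
      intro j hj
      have hjm : m ≠ j := fun h => hms (h ▸ hj)
      obtain ⟨a', ha', hpos'⟩ := interior_aux_move G ha hjm (fun w hw => hsx (hj w hw)) hm
        (fun w hw => hpos w (hj w hw))
      apply hms
      intro w hw
      exact Finset.mem_filter.mpr ⟨hm w hw, a', ha', hpos' w hw⟩
    have hms' := hms
    simp only [Full, not_forall] at hms'
    obtain ⟨u, hu, hus⟩ := hms'
    obtain ⟨c, hc, hcu, hcw⟩ := key (Or.inl hE) u (hm u hu) hus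
    have h2 : ∀ i, i ≠ m → c i = 0 := by
      intro i hi
      have h3 := hE i
      simp only [Full, not_forall] at h3
      obtain ⟨w, hw, hws⟩ := h3
      have hwu : w ≠ u := by
        intro h
        rw [h, hu] at hw
        exact hi (Option.some.inj hw).symm
      have h4 := hcw w hws hwu
      rw [bl_some _ hw] at h4
      rcases mul_eq_zero.mp h4 with h5 | h5
      · exact h5
      · exact absurd h5 (by exact_mod_cast (G.lpos w).ne')
    have h3 : ∑ i, c i = c m := Finset.sum_eq_single m (fun i _ hi => h2 i hi)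
      (fun h => absurd (Finset.mem_univ m) h)
    rw [hc] at h3
    rw [bl_some _ hu, ← h3, zero_mul] at hcu
    exact absurd hcu (by norm_num)

/-- the values of `a` outside the full blocks are integers -/
theorem interior_int (G : D.Good A n) {x : Finset V} (hA : D.Adm x) (hS : D.Semi A x) (hF : D.Fixed x)
    {a : V → ℚ} (ha : D.Pi A x a) {v : V} (hv : 0 < a v) (hb : ∀ i, D.Full x i → D.blk v ≠ some i) :
    1 ≤ a v := by
  obtain ⟨al, hal, hald⟩ := G.gen x hA hS A
  have h1 : D.KQ (a - fun v => (al v : ℚ)) := ha.1.sub_kq (Rep.of_int hald)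
  obtain ⟨c, hc, hcb⟩ := hF.rat h1 (fun w hw => by
    rw [Pi.sub_apply, ha.2.2 w hw, hal w hw]; simp)
  have h2 : a v = al v := by
    have h3 : D.bl c v = 0 := by
      cases hbv : D.blk v with
      | none => exact bl_none _ hbv
      | some i =>
        have hnf : ¬ D.Full x i := fun h => hb i h hbv
        have hx0 : ∀ w, w ∉ x → D.bl c w = 0 := by
          intro w hw
          rw [← hcb, Pi.sub_apply, ha.2.2 w hw, hal w hw]; simp
        rw [bl_some _ hbv, bl_zero_of_not_full G.lpos hx0 hnf, zero_mul]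
    rw [← hcb, Pi.sub_apply] at h3
    linarith
  rw [h2] at hv ⊢
  have h4 : 0 < al v := by exact_mod_cast hv
  exact_mod_cast h4

end Comb

end Pool.Agent.Helper39.TV
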