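import Pool.Agent.Helper39.TV.Limit
import Pool.Agent.Helper39.TV.Interior

/-! TV, module Star -/

open Finset

set_option linter.unusedSectionVars false

namespace Pool.Agent.Helper39.TV

variable {V ι K : Type} [Fintype V] [DecidableEq V] [Fintype ι] [DecidableEq ι] [AddCommGroup K]

namespace Comb

variable {D : Comb V ι K} {A : K} {n : ℕ}

theorem Star_eps (x : Finset V) (a : V → ℚ) (b : V → ℤ) (ha : ∀ v ∈ x, 0 < a v) :
    ∃ ε : ℚ, 0 < ε ∧ ∀ v ∈ x, ε * (b v : ℚ) ≤ a v := by
  classical
  induction x using Finset.induction_on with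
  | empty => exact ⟨1, one_pos, by simp⟩
  | insert u x hu ih =>
    obtain ⟨ε, hε, h⟩ := ih fun v hv => ha v (Finset.mem_insert_of_mem hv)
    have hau := ha u (Finset.mem_insert_self u x)
    have hpos : (0 : ℚ) < |(b u : ℚ)| + 1 := by positivity
    refine ⟨min ε (a u / (|(b u : ℚ)| + 1)), lt_min hε (div_pos hau hpos), fun v hv => ?_⟩
    have hm : 0 < min ε (a u / (|(b u : ℚ)| + 1)) := lt_min hε (div_pos hau hpos)
    rcases Finset.mem_insert.1 hv with rfl | hv
    · calc min ε (a v / (|(b v : ℚ)| + 1)) * (b v : ℚ)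
          ≤ min ε (a v / (|(b v : ℚ)| + 1)) * (|(b v : ℚ)| + 1) := by
            apply mul_le_mul_of_nonneg_left _ hm.le
            linarith [le_abs_self (b v : ℚ)]
        _ ≤ a v / (|(b v : ℚ)| + 1) * (|(b v : ℚ)| + 1) :=
            mul_le_mul_of_nonneg_right (min_le_right _ _) hpos.le
        _ = a v := div_mul_cancel₀ _ hpos.ne'
    · rcases le_or_gt 0 (b v : ℚ) with hb | hb
      · exact (mul_le_mul_of_nonneg_right (min_le_left _ _) hb).trans (h v hv)
      · have := ha v (Finset.mem_insert_of_mem hv)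
        have h2 := mul_neg_of_pos_of_neg hm hb
        linarith

theorem star (G : D.Good A n) {x S : Finset V} (hxS : x ⊆ S) (hA : D.Adm x) (hS : D.Semi A x)
    (hF : D.Fixed x) (hSA : D.Adm S) (c : V → ℤ) (hc0 : ∀ v ∈ x, c v = 0) (hcn : ∀ v ∈ S, 0 ≤ c v)
    (hcp : ∃ v ∈ S, 0 < c v)
    (hblk : ∀ i j, D.Full S i → D.Full S j → D.bs (fun v => (c v : ℚ)) i = D.bs (fun v => (c v : ℚ)) j) :
    ∃ a, D.Pi A S a ∧ ∑ v, (c v : ℚ) * a v = 1 := by
  have hneg : ∀ i, D.bs (fun v => -(c v : ℚ)) i = -D.bs (fun v => (c v : ℚ)) i := by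
    intro i
    simp only [bs]
    rw [← Finset.sum_neg_distrib]
    refine Finset.sum_congr rfl fun v _ => ?_
    split_ifs <;> simp
  obtain ⟨psi, hk, hle, τ, hsub, hiff, ⟨as, has⟩, hAτ, -⟩ := limit G hSA (hS.mono hxS)
    (fun v => -(c v : ℚ)) (fun i j hi hj => by rw [hneg, hneg, hblk i j hi hj])
  obtain ⟨al, hal, halA⟩ := G.gen τ hAτ ⟨as, has⟩ A
  set M : ℤ := ∑ v, c v * al v with hM
  have hMpsi : ∑ v, psi v * (al v : ℚ) = -(M : ℚ) := by
    rw [hM]
    push_cast
    rw [← Finset.sum_neg_distrib]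
    refine Finset.sum_congr rfl fun v _ => ?_
    by_cases hv : v ∈ τ
    · rw [(hiff v (hsub hv)).1 hv]
      ring
    · rw [hal v hv]
      simp
  have hle' : ∀ a, D.Pi A S a → ∑ v, (c v : ℚ) * a v ≤ M := by
    intro a ha
    have h1 : ∑ v, psi v * a v = -(M : ℚ) := by
      rw [← hMpsi]
      exact kill_rep hk ha.1 (Rep.of_int halA)
    have h2 : ∑ v, psi v * a v ≤ ∑ v, -((c v : ℚ) * a v) := by
      refine Finset.sum_le_sum fun v _ => ?_
      by_cases hv : v ∈ S
      · have := mul_le_mul_of_nonneg_right (hle v hv) (ha.2.1 v)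
        linarith
      · rw [ha.2.2 v hv]
        simp
    rw [Finset.sum_neg_distrib] at h2
    linarith
  have hasM : ∑ v, (c v : ℚ) * as v = M := by
    have h1 : ∑ v, psi v * as v = -(M : ℚ) := by
      rw [← hMpsi]
      exact kill_rep hk has.1 (Rep.of_int halA)
    have h2 : ∑ v, psi v * as v = ∑ v, -((c v : ℚ) * as v) := by
      refine Finset.sum_congr rfl fun v _ => ?_
      by_cases hv : v ∈ τ
      · rw [(hiff v (hsub hv)).1 hv]
        ring
      · rw [has.2.2 v hv]
        simp
    rw [Finset.sum_neg_distrib] at h2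
    linarith
  obtain ⟨ax, hax, haxpos⟩ := interior G hA hS hF
  have haxc : ∑ v, (c v : ℚ) * ax v = 0 := by
    refine Finset.sum_eq_zero fun v _ => ?_
    by_cases hv : v ∈ x
    · rw [hc0 v hv]
      simp
    · rw [hax.2.2 v hv]
      simp
  have hMpos : 0 < M := by
    obtain ⟨v0, hv0, hcv0⟩ := hcp
    have hv0x : v0 ∉ x := fun h => by
      rw [hc0 v0 h] at hcv0
      exact lt_irrefl _ hcv0
    obtain ⟨b, hb, hbd⟩ := G.gen x hA hS (D.deg v0)
    obtain ⟨ε, hε, hεb⟩ := Star_eps x ax b haxpos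
    have hkq : D.KQ (fun v => (((Pi.single v0 1 - b : V → ℤ) v : ℤ) : ℚ)) :=
      KQ.of_int (by rw [dg_sub, dg_single, hbd, sub_self])
    have hPi : D.Pi A S (ax + ε • (fun v => (((Pi.single v0 1 - b : V → ℤ) v : ℤ) : ℚ))) := by
      refine ⟨hax.1.add_kq (hkq.smul ε), fun v => ?_, fun v hv => ?_⟩
      · simp only [Pi.add_apply, Pi.smul_apply, Pi.sub_apply, smul_eq_mul]
        push_cast
        by_cases hv : v ∈ x
        · have h0 : v ≠ v0 := fun h => hv0x (h ▸ hv)
          have := hεb v hv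
          simp only [Pi.single_apply, if_neg h0]
          push_cast
          nlinarith
        · rw [hax.2.2 v hv, hb v hv]
          by_cases h0 : v = v0
          · subst h0
            simp
            exact hε.le
          · simp [Pi.single_apply, h0]
      · have h0 : v ≠ v0 := fun h => hv (h ▸ hv0)
        have hvx : v ∉ x := fun h => hv (hxS h)
        simp [hax.2.2 v hvx, hb v hvx, Pi.single_apply, h0]
    have h1 := hle' _ hPi
    have h2 : ∑ v, (c v : ℚ) * (ax + ε • (fun v => (((Pi.single v0 1 - b : V → ℤ) v : ℤ) : ℚ))) v =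
        ε * c v0 := by
      have h3 : ∀ v, (c v : ℚ) * (ax + ε • (fun v => (((Pi.single v0 1 - b : V → ℤ) v : ℤ) : ℚ))) v =
          (c v : ℚ) * ax v + (if v = v0 then ε * c v0 else 0) := by
        intro v
        simp only [Pi.add_apply, Pi.smul_apply, Pi.sub_apply, smul_eq_mul]
        push_cast
        by_cases hv : v ∈ x
        · have h0 : v ≠ v0 := fun h => hv0x (h ▸ hv)
          rw [hc0 v hv, if_neg h0]
          simp
        · rw [hb v hv]
          by_cases h0 : v = v0
          · subst h0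
            simp
            ring
          · simp [Pi.single_apply, h0]
      simp_rw [h3]
      rw [Finset.sum_add_distrib, haxc]
      simp
    rw [h2] at h1
    have h3 : (0 : ℚ) < ε * c v0 := mul_pos hε (by exact_mod_cast hcv0)
    have h4 : (0 : ℚ) < M := lt_of_lt_of_le h3 h1
    exact_mod_cast h4
  have hM1 : (1 : ℚ) ≤ M := by exact_mod_cast hMpos
  have hM0 : (0 : ℚ) < M := by linarith
  refine ⟨_, Pi.convex (t := 1 / (M : ℚ)) (by positivity) ((div_le_one hM0).2 hM1)
    (hax.mono hxS) (has.mono hsub), ?_⟩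
  simp only [Pi.add_apply, Pi.smul_apply, smul_eq_mul, mul_add, Finset.sum_add_distrib]
  have e1 : ∑ v, (c v : ℚ) * ((1 - 1 / (M : ℚ)) * ax v) =
      (1 - 1 / (M : ℚ)) * ∑ v, (c v : ℚ) * ax v := by
    rw [Finset.mul_sum]
    exact Finset.sum_congr rfl fun v _ => by ring
  have e2 : ∑ v, (c v : ℚ) * (1 / (M : ℚ) * as v) = 1 / (M : ℚ) * ∑ v, (c v : ℚ) * as v := by
    rw [Finset.mul_sum]
    exact Finset.sum_congr rfl fun v _ => by ring
  rw [e1, e2, haxc, hasM, mul_zero, zero_add]
  exact one_div_mul_cancel hM0.ne'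

theorem star_one (G : D.Good A n) {x : Finset V} (hA : D.Adm x) (hS : D.Semi A x)
    (hF : D.Fixed x) {v : V} (hv : v ∉ x) (hb : ∀ i, D.blk v = some i → ¬ D.Full (insert v x) i) :
    ∃ a, D.Pi A (insert v x) a ∧ a v = 1 := by
  have hSA : D.Adm (insert v x) := by
    rcases hA with hA | ⟨i0, hA⟩
    · refine Or.inl fun i hi => ?_
      by_cases hvi : D.blk v = some i
      · exact hb i hvi hi
      · refine hA i fun w hw => ?_
        rcases Finset.mem_insert.1 (hi w hw) with rfl | h
        · exact absurd hw hvi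
        · exact h
    · exact Or.inr ⟨i0, fun j hj w hw => Finset.mem_insert_of_mem (hA j hj w hw)⟩
  have hbs : ∀ i, D.Full (insert v x) i →
      D.bs (fun w => (((Pi.single v 1 : V → ℤ) w : ℤ) : ℚ)) i = 0 := by
    intro i hi
    refine Finset.sum_eq_zero fun w _ => ?_
    split_ifs with h
    · have : w ≠ v := fun h' => hb i (h' ▸ h) hi
      simp [Pi.single_apply, this]
    · rfl
  obtain ⟨a, ha, ha1⟩ := star G (Finset.subset_insert v x) hA hS hF hSA (Pi.single v 1)
    (fun w hw => by
      have : w ≠ v := fun h => hv (h ▸ hw)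
      simp [Pi.single_apply, this])
    (fun w _ => by
      by_cases h : w = v
      · subst h
        simp
      · simp [Pi.single_apply, h])
    ⟨v, Finset.mem_insert_self v x, by simp⟩
    (fun i j hi hj => by rw [hbs i hi, hbs j hj])
  refine ⟨a, ha, ?_⟩
  rw [Finset.sum_eq_single v] at ha1
  · simpa using ha1
  · intro w _ hw
    simp [Pi.single_apply, hw]
  · intro h
    exact absurd (Finset.mem_univ v) h

end Comb

end Pool.Agent.Helper39.TV
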