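import Pool.Agent.Helper39.TV.Round
import Pool.Agent.Helper39.TV.Star
import Pool.Agent.Helper39.TV.Count

/-! TV, module Hyp -/

open Finset

set_option linter.unusedSectionVars false

namespace Pool.Agent.Helper39.TV

variable {V ι K : Type} [Fintype V] [DecidableEq V] [Fintype ι] [DecidableEq ι] [AddCommGroup K]

namespace Comb

variable {D : Comb V ι K} {A : K} {n : ℕ}

theorem hyp_sections (G : D.Good A n) {N : ℕ} (hN : n + 2 ≤ N) {x : Finset V} {i : ι}
    (hO : D.Over x i) (hi : ¬ D.Full x i) (hns : ∀ p, ¬ D.Sole x i p)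
    (hF : D.Fixed x) (hS : D.Semi A x) :
    (∃ c k, D.Sec (D.can + N • A) c k ∧ (∀ v, v ∉ x → c v = 0) ∧
      ∀ v ∈ x, (∀ j, j ≠ i → D.blk v ≠ some j) → 0 < c v) ∧ D.Chart (D.can + N • A) x := by
  classical
  have hA : D.Adm x := Or.inr ⟨i, hO⟩
  obtain ⟨a, ha, hapos⟩ := interior G hA hS hF
  have hex : ∀ v, ∃ f, v ∉ x → D.Pi A (insert v x) f ∧ f v = 1 := by
    intro v
    by_cases hv : v ∈ x
    · exact ⟨0, fun h => absurd hv h⟩
    · have hb : ∀ i', D.blk v = some i' → ¬ D.Full (insert v x) i' := by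
        intro i' hi' hfull
        by_cases h : i' = i
        · subst h
          refine hns v ⟨hv, hi', fun w hw hne => ?_⟩
          rcases Finset.mem_insert.1 (hfull w hw) with h | h
          · exact absurd h hne
          · exact h
        · exact hv (hO i' h v hi')
      obtain ⟨f, hf, hf1⟩ := star_one G hA hS hF hv hb
      exact ⟨f, fun _ => ⟨hf, hf1⟩⟩
  choose f hf using hex
  set S : V → ℚ := ∑ v ∈ xᶜ, f v with hSdef
  have hcard := card_over G hO hi hF hS
  have hSrep : D.Rep (n • A) S := by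
    have h := Rep.sum (D := D) xᶜ f (fun _ => A) (fun v hv => (hf v (Finset.mem_compl.1 hv)).1.1)
    rw [Finset.sum_const, hcard] at h
    exact h
  have hS1 : ∀ u, u ∉ x → S u = 1 := by
    intro u hu
    rw [hSdef, Finset.sum_apply, Finset.sum_eq_single u]
    · exact (hf u hu).2
    · intro v hv hne
      refine (hf v (Finset.mem_compl.1 hv)).1.2.2 u fun h => ?_
      rcases Finset.mem_insert.1 h with h | h
      · exact hne h.symm
      · exact hu h
    · intro h
      exact absurd (Finset.mem_compl.2 hu) h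
  have hS0 : ∀ u, 0 ≤ S u := by
    intro u
    rw [hSdef, Finset.sum_apply]
    exact Finset.sum_nonneg fun v hv => (hf v (Finset.mem_compl.1 hv)).1.2.1 u
  have ha0 : ∀ u, u ∉ x → a u = 0 := ha.2.2
  have first : ∃ c k, D.Sec (D.can + N • A) c k ∧ (∀ v, v ∉ x → c v = 0) ∧
      ∀ v ∈ x, (∀ j, j ≠ i → D.blk v ≠ some j) → 0 < c v := by
    have hQ : D.Rep (N • A) ((N - n) • a + S) := by
      have h := (Rep.nsmul (N - n) ha.1).add hSrep
      rw [← add_smul] at h
      rwa [Nat.sub_add_cancel (by omega)] at h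
    have hNn : (2 : ℚ) ≤ ((N - n : ℕ) : ℚ) := by
      have : 2 ≤ N - n := by omega
      exact_mod_cast this
    have hpos : ∀ v ∈ x, 0 < ((N - n) • a + S) v := by
      intro v hv
      have h1 := hapos v hv
      have h2 := hS0 v
      simp only [Pi.add_apply, nsmul_eq_mul, Pi.mul_apply, Pi.natCast_apply]
      have : 0 < ((N - n : ℕ) : ℚ) * a v := mul_pos (by linarith) h1
      linarith
    obtain ⟨c, k, h1, h2, h3⟩ := round_over G hO hi hF hS hQ hpos (d := fun _ => 1)
      (fun v hv => by
        simp only [Pi.add_apply, nsmul_eq_mul, Pi.mul_apply, Pi.natCast_apply, ha0 v hv, hS1 v hv]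
        norm_num)
    refine ⟨c, k, h1, fun v hv => by rw [h2 v hv]; norm_num, fun v hv hb => ?_⟩
    have hint : 1 ≤ a v := interior_int G hA hS hF ha (hapos v hv) (fun i' hfull hbi => by
      have hne : i' ≠ i := by rintro rfl; exact hi hfull
      exact hb i' hne hbi)
    have h4 := h3 v hv hb
    have h2' := hS0 v
    simp only [Pi.add_apply, nsmul_eq_mul, Pi.mul_apply, Pi.natCast_apply] at h4
    have h5 : (0 : ℚ) < (c v : ℚ) := by
      rw [h4]
      nlinarith
    exact_mod_cast h5
  refine ⟨first, ?_, ?_⟩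
  · obtain ⟨c, k, h1, h2, _⟩ := first
    exact ⟨c, k, h1, h2⟩
  · intro v hv
    have hQ : D.Rep (N • A) ((N - n - 1) • a + S + f v) := by
      have h := ((Rep.nsmul (N - n - 1) ha.1).add hSrep).add (hf v hv).1.1
      rw [← add_smul, ← succ_nsmul] at h
      have e : N - n - 1 + n + 1 = N := by omega
      rwa [e] at h
    have hNn : (1 : ℚ) ≤ ((N - n - 1 : ℕ) : ℚ) := by
      have : 1 ≤ N - n - 1 := by omega
      exact_mod_cast this
    have hpos : ∀ u ∈ x, 0 < ((N - n - 1) • a + S + f v) u := by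
      intro u hu
      have h1 := hapos u hu
      have h2 := hS0 u
      have h3 := (hf v hv).1.2.1 u
      simp only [Pi.add_apply, nsmul_eq_mul, Pi.mul_apply, Pi.natCast_apply]
      have : 0 < ((N - n - 1 : ℕ) : ℚ) * a u := mul_pos (by linarith) h1
      linarith
    have hfv : ∀ u, u ∉ x → f v u = if u = v then 1 else 0 := by
      intro u hu
      by_cases h : u = v
      · subst h
        rw [if_pos rfl]
        exact (hf u hv).2
      · rw [if_neg h]
        refine (hf v hv).1.2.2 u fun h' => ?_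
        rcases Finset.mem_insert.1 h' with h' | h'
        · exact h h'
        · exact hu h'
    obtain ⟨c, k, h1, h2, _⟩ := round_over G hO hi hF hS hQ hpos
      (d := fun u => 1 + if u = v then 1 else 0)
      (fun u hu => by
        simp only [Pi.add_apply, nsmul_eq_mul, Pi.mul_apply, Pi.natCast_apply, ha0 u hu, hS1 u hu, hfv u hu]
        split_ifs <;> norm_num)
    refine ⟨c, k, h1, ?_, fun u hu hne => ?_⟩
    · rw [h2 v hv]; simp
    · rw [h2 u hu]; simp [hne]

end Comb

end Pool.Agent.Helper39.TV
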