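import Pool.Agent.Helper39.TV.Basic
import Pool.Agent.Helper39.TV.Farkas

/-! TV, module LP -/

open Finset

set_option linter.unusedSectionVars false

namespace Pool.Agent.Helper39.TV

variable {V ι K : Type} [Fintype V] [DecidableEq V] [Fintype ι] [DecidableEq ι] [AddCommGroup K]

/-- affine form of Farkas' lemma -/
private theorem lp_affine {E : Type*} [AddCommGroup E] [Module ℚ E] {α : Type*} [Fintype α]
    (f : α → E →ₗ[ℚ] ℚ) (c : α → ℚ) (h : ∀ m : α → ℚ, (∀ i, 0 ≤ m i) → ∑ i, m i • f i = 0 →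
      0 ≤ ∑ i, m i * c i) : ∃ x, ∀ i, f i x ≤ c i := by
  by_contra hno
  push Not at hno
  obtain ⟨m, hm, hg⟩ := farkas (E := E × ℚ) (α := Option α)
    (fun o => o.elim (-LinearMap.snd ℚ E ℚ)
      (fun i => (f i).comp (LinearMap.fst ℚ E ℚ) - c i • LinearMap.snd ℚ E ℚ))
    (LinearMap.snd ℚ E ℚ) (by
      rintro ⟨x, t⟩ hx
      by_contra ht
      simp only [LinearMap.snd_apply, not_le] at ht
      obtain ⟨i, hi⟩ := hno (t⁻¹ • x)
      have := hx (some i)
      simp only [Option.elim_some, LinearMap.sub_apply, LinearMap.comp_apply, LinearMap.fst_apply,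
        LinearMap.smul_apply, LinearMap.snd_apply, smul_eq_mul] at this
      rw [map_smul, smul_eq_mul] at hi
      have h2 : c i * t < f i x := by
        calc c i * t < (t⁻¹ * f i x) * t := by gcongr
          _ = f i x := by field_simp
      linarith)
  have h1 := h (fun i => m (some i)) (fun i => hm _) (by
    ext x
    have := congrArg (fun L => L (x, 0)) hg
    simp only [LinearMap.snd_apply, Fintype.sum_option, LinearMap.add_apply, LinearMap.smul_apply,
      LinearMap.sum_apply, Option.elim_none, Option.elim_some, LinearMap.neg_apply,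
      LinearMap.sub_apply, LinearMap.comp_apply, LinearMap.fst_apply, smul_eq_mul] at this
    simp only [LinearMap.sum_apply, LinearMap.smul_apply, smul_eq_mul, LinearMap.zero_apply]
    simpa using this.symm)
  have h2 := congrArg (fun L => L ((0 : E), (1 : ℚ))) hg
  simp only [LinearMap.snd_apply, Fintype.sum_option, LinearMap.add_apply, LinearMap.smul_apply,
    LinearMap.sum_apply, Option.elim_none, Option.elim_some, LinearMap.neg_apply,
    LinearMap.sub_apply, LinearMap.comp_apply, LinearMap.fst_apply, smul_eq_mul, map_zero,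
    mul_one, zero_sub, mul_neg, Finset.sum_neg_distrib] at h2
  have := hm none
  linarith

namespace Comb

variable {D : Comb V ι K} {A : K} {n : ℕ}

private def lpN (D : Comb V ι K) : Submodule ℚ (V → ℚ) where
  carrier := {a | D.KQ a}
  add_mem' ha hb := KQ.add ha hb
  zero_mem' := KQ.zero
  smul_mem' t _ ha := KQ.smul t ha

private def lpE (D : Comb V ι K) : Submodule ℚ (V → ℚ) where
  carrier := {psi | ∀ b : V → ℤ, D.dg b = 0 → ∑ v, psi v * (b v : ℚ) = 0}
  add_mem' {x y} hx hy b hb := by
    simp only [Pi.add_apply, add_mul, Finset.sum_add_distrib, hx b hb, hy b hb, add_zero]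
  zero_mem' b _ := by simp
  smul_mem' t x hx b hb := by
    simp only [Pi.smul_apply, smul_eq_mul, mul_assoc, ← Finset.mul_sum, hx b hb, mul_zero]

/-- double annihilator -/
private theorem lp_double {u : V → ℚ} (hu : ∀ psi ∈ lpE D, ∑ v, psi v * u v = 0) : D.KQ u := by
  by_contra hn
  have hn' : u ∉ lpN D := hn
  obtain ⟨f, hf, hf'⟩ := Submodule.exists_le_ker_of_notMem hn'
  have key : ∀ x : V → ℚ, f x = ∑ v, f (Pi.single v 1) * x v := by
    intro x
    conv_lhs => rw [← Finset.univ_sum_single x]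
    rw [map_sum]
    refine Finset.sum_congr rfl fun v _ => ?_
    have : Pi.single v (x v) = x v • (Pi.single v 1 : V → ℚ) := by
      rw [← Pi.single_smul]; simp
    rw [this, map_smul, smul_eq_mul, mul_comm]
  apply hf
  rw [key]
  refine hu _ fun b hb => ?_
  rw [← key]
  exact hf' (show D.KQ _ from KQ.of_int hb)

theorem lp (hp : ∀ a : V → ℤ, (∀ v, 0 ≤ a v) → D.dg a = 0 → a = 0) {σ : Finset V} (hS : D.Semi A σ)
    (lam : V → ℚ) :
    ∃ psi : V → ℚ, (∀ b : V → ℤ, D.dg b = 0 → ∑ v, psi v * (b v : ℚ) = 0) ∧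
      (∀ v ∈ σ, psi v ≤ lam v) ∧ ∃ a, D.Pi A σ a ∧ ∀ v ∈ σ, psi v < lam v → a v = 0 := by
  obtain ⟨α, hα⟩ := hS
  -- the functionals on E x N
  let ev1 (v : V) : (lpE D × lpN D) →ₗ[ℚ] ℚ :=
    (LinearMap.proj v).comp ((lpE D).subtype.comp (LinearMap.fst ℚ (lpE D) (lpN D)))
  let ev2 (v : V) : (lpE D × lpN D) →ₗ[ℚ] ℚ :=
    (LinearMap.proj v).comp ((lpN D).subtype.comp (LinearMap.snd ℚ (lpE D) (lpN D)))
  have ev1_app : ∀ v x, ev1 v x = (x.1 : V → ℚ) v := fun _ _ => rfl
  have ev2_app : ∀ v x, ev2 v x = (x.2 : V → ℚ) v := fun _ _ => rfl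
  let F : (V ⊕ V) ⊕ (V ⊕ Unit) → (lpE D × lpN D) →ₗ[ℚ] ℚ := fun i =>
    match i with
    | Sum.inl (Sum.inl v) => if v ∈ σ then ev1 v else 0
    | Sum.inl (Sum.inr v) => - ev2 v
    | Sum.inr (Sum.inl v) => if v ∈ σ then 0 else ev2 v
    | Sum.inr (Sum.inr _) => ∑ v, lam v • ev2 v - ∑ v, α v • ev1 v
  let c : (V ⊕ V) ⊕ (V ⊕ Unit) → ℚ := fun i =>
    match i with
    | Sum.inl (Sum.inl v) => if v ∈ σ then lam v else 0
    | Sum.inl (Sum.inr v) => α v
    | Sum.inr (Sum.inl _) => 0
    | Sum.inr (Sum.inr _) => - ∑ v, lam v * α v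
  obtain ⟨x, hx⟩ := lp_affine F c (by
    intro m hm h0
    set y : V → ℚ := fun v => m (Sum.inl (Sum.inr v)) with hy
    set s : ℚ := m (Sum.inr (Sum.inr ())) with hs
    set X : V → ℚ := fun v => if v ∈ σ then m (Sum.inl (Sum.inl v)) else 0 with hX
    set Z : V → ℚ := fun v => if v ∈ σ then 0 else m (Sum.inr (Sum.inl v)) with hZ
    have h1 : ∀ p : lpE D × lpN D, ∑ v, X v * (p.1 : V → ℚ) v - ∑ v, y v * (p.2 : V → ℚ) v +
        ∑ v, Z v * (p.2 : V → ℚ) v + s * (∑ v, lam v * (p.2 : V → ℚ) v -
          ∑ v, α v * (p.1 : V → ℚ) v) = 0 := by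
      intro p
      have := congrArg (fun L => L p) h0
      simp only [Fintype.sum_sum_type, LinearMap.add_apply, LinearMap.sum_apply,
        LinearMap.smul_apply, LinearMap.zero_apply, smul_eq_mul, F, Finset.univ_unique,
        Finset.sum_singleton, LinearMap.sub_apply, LinearMap.neg_apply, ev1_app, ev2_app] at this
      rw [← this]
      have a1 : ∑ v, X v * (p.1 : V → ℚ) v = ∑ v, m (Sum.inl (Sum.inl v)) *
          (if v ∈ σ then ev1 v else 0) p := by
        refine Finset.sum_congr rfl fun v _ => ?_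
        by_cases hv : v ∈ σ <;> simp [hX, hv, ev1_app]
      have a2 : ∑ v, Z v * (p.2 : V → ℚ) v = ∑ v, m (Sum.inr (Sum.inl v)) *
          (if v ∈ σ then 0 else ev2 v) p := by
        refine Finset.sum_congr rfl fun v _ => ?_
        by_cases hv : v ∈ σ <;> simp [hZ, hv, ev2_app]
      rw [a1, a2]
      have a3 : ∑ v, m (Sum.inl (Sum.inr v)) * -(p.2 : V → ℚ) v = -∑ v, y v * (p.2 : V → ℚ) v := by
        rw [← Finset.sum_neg_distrib]
        exact Finset.sum_congr rfl fun v _ => by simp [hy]
      rw [a3]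
      simp only [hs]
      have a4 : (default : Unit) = () := rfl
      rw [a4]
      ring
    have hc : ∑ i, m i * c i = ∑ v, X v * lam v + ∑ v, y v * α v - s * ∑ v, lam v * α v := by
      simp only [Fintype.sum_sum_type, c, Finset.univ_unique, Finset.sum_singleton, mul_zero,
        Finset.sum_const_zero, zero_add]
      have a1 : ∑ v, X v * lam v = ∑ v, m (Sum.inl (Sum.inl v)) * (if v ∈ σ then lam v else 0) := by
        refine Finset.sum_congr rfl fun v _ => ?_
        by_cases hv : v ∈ σ <;> simp [hX, hv]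
      rw [a1]
      have a4 : (default : Unit) = () := rfl
      rw [a4]
      simp only [hy, hs]
      ring
    rw [hc]
    -- X - s α is in the kernel span
    have hker : D.KQ (X - s • α) := by
      refine lp_double (D := D) fun psi hpsi => ?_
      have := h1 (⟨psi, hpsi⟩, 0)
      simp only [Submodule.coe_zero, Pi.zero_apply, mul_zero, Finset.sum_const_zero, sub_zero,
        add_zero, zero_sub] at this
      simp only [Pi.sub_apply, Pi.smul_apply, smul_eq_mul, mul_sub, Finset.sum_sub_distrib]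
      have e1 : ∑ v, psi v * X v = ∑ v, X v * psi v := Finset.sum_congr rfl fun v _ => mul_comm _ _
      have e2 : ∑ v, psi v * (s * α v) = s * ∑ v, α v * psi v := by
        rw [Finset.mul_sum]; exact Finset.sum_congr rfl fun v _ => by ring
      rw [e1, e2]
      linarith
    -- φ = y - Z - s lam kills the kernel
    set φ : V → ℚ := fun v => y v - Z v - s * lam v with hφ
    have hφk : ∀ b : V → ℤ, D.dg b = 0 → ∑ v, φ v * (b v : ℚ) = 0 := by
      intro b hb
      have := h1 (0, ⟨fun v => (b v : ℚ), KQ.of_int hb⟩)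
      simp only [Submodule.coe_zero, Pi.zero_apply, mul_zero, Finset.sum_const_zero, sub_zero,
        zero_sub] at this
      have e : ∑ v, φ v * (b v : ℚ) = ∑ v, y v * (b v : ℚ) - ∑ v, Z v * (b v : ℚ) -
          s * ∑ v, lam v * (b v : ℚ) := by
        simp only [hφ, sub_mul, Finset.sum_sub_distrib, Finset.mul_sum, mul_assoc]
      rw [e]; linarith
    have hX0 : ∀ v, 0 ≤ X v := fun v => by
      by_cases hv : v ∈ σ <;> simp [hX, hv, hm]
    have hXσ : ∀ v, v ∉ σ → X v = 0 := fun v hv => by simp [hX, hv]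
    have hZσ : ∀ v, v ∈ σ → Z v = 0 := fun v hv => by simp [hZ, hv]
    have hy0 : ∀ v, 0 ≤ y v := fun v => hm _
    have hs0 : 0 ≤ s := hm _
    have hZα : ∑ v, Z v * α v = 0 := Finset.sum_eq_zero fun v _ => by
      by_cases hv : v ∈ σ
      · rw [hZσ v hv, zero_mul]
      · rw [hα.2.2 v hv, mul_zero]
    have hφα : ∑ v, φ v * α v = ∑ v, y v * α v - s * ∑ v, lam v * α v := by
      have : ∑ v, φ v * α v = ∑ v, y v * α v - ∑ v, Z v * α v - s * ∑ v, lam v * α v := by
        simp only [hφ, sub_mul, Finset.sum_sub_distrib, Finset.mul_sum, mul_assoc]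
      rw [this, hZα, sub_zero]
    have hφX : ∑ v, φ v * X v = s * ∑ v, φ v * α v := by
      have := kill_kq hφk hker
      simp only [Pi.sub_apply, Pi.smul_apply, smul_eq_mul, mul_sub, Finset.sum_sub_distrib] at this
      have e2 : ∑ v, φ v * (s * α v) = s * ∑ v, φ v * α v := by
        rw [Finset.mul_sum]; exact Finset.sum_congr rfl fun v _ => by ring
      rw [e2] at this
      linarith
    have hφX2 : ∑ v, φ v * X v = ∑ v, y v * X v - s * ∑ v, X v * lam v := by
      have hz : ∑ v, Z v * X v = 0 := Finset.sum_eq_zero fun v _ => by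
        by_cases hv : v ∈ σ
        · rw [hZσ v hv, zero_mul]
        · rw [hXσ v hv, mul_zero]
      have : ∑ v, φ v * X v = ∑ v, y v * X v - ∑ v, Z v * X v - s * ∑ v, X v * lam v := by
        simp only [hφ, sub_mul, Finset.sum_sub_distrib, Finset.mul_sum]
        congr 1
        exact Finset.sum_congr rfl fun v _ => by ring
      rw [this, hz, sub_zero]
    have hyX : 0 ≤ ∑ v, y v * X v := Finset.sum_nonneg fun v _ => mul_nonneg (hy0 v) (hX0 v)
    have hyα : 0 ≤ ∑ v, y v * α v := Finset.sum_nonneg fun v _ => mul_nonneg (hy0 v) (hα.2.1 v)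
    rcases hs0.eq_or_lt with h | h
    · -- s = 0
      rw [← h] at hker hφα ⊢
      rw [zero_smul, sub_zero] at hker
      have hXz : X = 0 := by
        obtain ⟨k, hk, b, hb, hb'⟩ := hker
        have hk' : (0 : ℚ) < k := by exact_mod_cast hk
        have hb0 : b = 0 := hp b (fun v => by
          have : (0 : ℚ) ≤ (b v : ℚ) := by rw [hb']; exact mul_nonneg hk'.le (hX0 v)
          exact_mod_cast this) hb
        funext v
        have := hb' v
        rw [hb0] at this
        simp only [Pi.zero_apply, Int.cast_zero] at this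
        rcases mul_eq_zero.1 this.symm with h' | h'
        · exact absurd h' hk'.ne'
        · exact h'
      rw [hXz]
      simp only [Pi.zero_apply, zero_mul, Finset.sum_const_zero, zero_add, sub_zero]
      exact hyα
    · -- s > 0
      have e : s * (∑ v, X v * lam v + ∑ v, y v * α v - s * ∑ v, lam v * α v) = ∑ v, y v * X v := by
        have h5 : s * ∑ v, X v * lam v = ∑ v, y v * X v - ∑ v, φ v * X v := by linarith
        have h6 : s * (∑ v, y v * α v - s * ∑ v, lam v * α v) = ∑ v, φ v * X v := by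
          rw [← hφα, hφX]
        calc _ = s * ∑ v, X v * lam v + s * (∑ v, y v * α v - s * ∑ v, lam v * α v) := by ring
          _ = _ := by rw [h5, h6]; ring
      have : 0 ≤ s * (∑ v, X v * lam v + ∑ v, y v * α v - s * ∑ v, lam v * α v) := by
        rw [e]; exact hyX
      exact nonneg_of_mul_nonneg_right this h)
  -- read off the solution
  set psi : V → ℚ := (x.1 : V → ℚ) with hpsi
  set k : V → ℚ := (x.2 : V → ℚ) with hk
  have hpsiE : ∀ b : V → ℤ, D.dg b = 0 → ∑ v, psi v * (b v : ℚ) = 0 := x.1.2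
  have hkN : D.KQ k := x.2.2
  have hle : ∀ v ∈ σ, psi v ≤ lam v := fun v hv => by
    have := hx (Sum.inl (Sum.inl v))
    simpa [F, c, hv, ev1_app] using this
  have hge : ∀ v, 0 ≤ α v + k v := fun v => by
    have := hx (Sum.inl (Sum.inr v))
    simp only [F, c, LinearMap.neg_apply, ev2_app] at this
    linarith
  have hout : ∀ v, v ∉ σ → α v + k v = 0 := fun v hv => by
    have := hx (Sum.inr (Sum.inl v))
    simp only [F, c, hv, if_false, ev2_app] at this
    have h2 := hge v
    rw [hα.2.2 v hv] at h2 ⊢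
    linarith
  have hopt : ∑ v, lam v * (α v + k v) ≤ ∑ v, psi v * (α v + k v) := by
    have := hx (Sum.inr (Sum.inr ()))
    simp only [F, c, LinearMap.sub_apply, LinearMap.sum_apply, LinearMap.smul_apply, smul_eq_mul,
      ev1_app, ev2_app] at this
    have hk0 := kill_kq hpsiE hkN
    have e1 : ∑ v, α v * (x.1 : V → ℚ) v = ∑ v, psi v * α v :=
      Finset.sum_congr rfl fun v _ => mul_comm _ _
    rw [e1] at this
    simp only [mul_add, Finset.sum_add_distrib]
    linarith
  refine ⟨psi, hpsiE, hle, fun v => α v + k v, ⟨hα.1.add_kq hkN, hge, hout⟩, ?_⟩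
  intro v hv hlt
  by_contra hne
  have hpos : 0 < α v + k v := lt_of_le_of_ne (hge v) (Ne.symm hne)
  have h1 : ∑ w, psi w * (α w + k w) < ∑ w, lam w * (α w + k w) := by
    refine Finset.sum_lt_sum (fun w _ => ?_) ⟨v, Finset.mem_univ v, by gcongr⟩
    by_cases hw : w ∈ σ
    · exact mul_le_mul_of_nonneg_right (hle w hw) (hge w)
    · rw [hout w hw, mul_zero, mul_zero]
  linarith

end Comb

end Pool.Agent.Helper39.TV
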