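import Pool.Agent.Helper39.TV.LP

/-! TV, module Limit -/

open Finset

set_option linter.unusedSectionVars false

namespace Pool.Agent.Helper39.TV

variable {V ι K : Type} [Fintype V] [DecidableEq V] [Fintype ι] [DecidableEq ι] [AddCommGroup K]

namespace Comb

variable {D : Comb V ι K} {A : K} {n : ℕ}

theorem limit (G : D.Good A n) {σ : Finset V} (hA : D.Adm σ) (hS : D.Semi A σ) (lam : V → ℚ)
    (hlam : ∀ i j, D.Full σ i → D.Full σ j → D.bs lam i = D.bs lam j) :
    ∃ psi : V → ℚ, (∀ b : V → ℤ, D.dg b = 0 → ∑ v, psi v * (b v : ℚ) = 0) ∧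
      (∀ v ∈ σ, psi v ≤ lam v) ∧ ∃ τ : Finset V, τ ⊆ σ ∧ (∀ v ∈ σ, v ∈ τ ↔ psi v = lam v) ∧
        D.Semi A τ ∧ D.Adm τ ∧ (D.Ell τ ∨ ∀ i, D.Full σ i → D.Full τ i) := by
  obtain ⟨psi, hk, hle, a, ha, hcomp⟩ := lp G.pointed hS lam
  refine ⟨psi, hk, hle, σ.filter (fun v => psi v = lam v), Finset.filter_subset _ _, ?_, ?_, ?_⟩
  · intro v hv
    simp [hv]
  · refine ⟨a, ha.1, ha.2.1, fun v hv => ?_⟩
    by_cases hvs : v ∈ σ
    · have : psi v ≠ lam v := fun h => hv (Finset.mem_filter.2 ⟨hvs, h⟩)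
      exact hcomp v hvs (lt_of_le_of_ne (hle v hvs) this)
    · exact ha.2.2 v hvs
  set τ := σ.filter (fun v => psi v = lam v) with hτ
  have hsub : ∀ i, D.Full τ i → D.Full σ i := fun i h v hv => Finset.filter_subset _ _ (h v hv)
  have hzero : ∀ k, D.Full τ k → D.bs lam k = D.bs psi k := by
    intro k hk'
    refine Finset.sum_congr rfl fun v _ => ?_
    split_ifs with h
    · rw [(Finset.mem_filter.1 (hk' v h)).2]
    · rfl
  have hfull : ∀ k, D.Full σ k → D.bs lam k = D.bs psi k → D.Full τ k := by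
    intro k hk' he v hv
    refine Finset.mem_filter.2 ⟨hk' v hv, ?_⟩
    have hterm : ∀ w ∈ (Finset.univ : Finset V),
        (if D.blk w = some k then psi w * (D.l w : ℚ) else 0) ≤
          (if D.blk w = some k then lam w * (D.l w : ℚ) else 0) := by
      intro w _
      split_ifs with h
      · exact mul_le_mul_of_nonneg_right (hle w (hk' w h)) (Nat.cast_nonneg _)
      · exact le_refl _
    have := (Finset.sum_eq_sum_iff_of_le hterm).1 he.symm v (Finset.mem_univ v)
    rw [if_pos hv, if_pos hv] at this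
    have hl : (D.l v : ℚ) ≠ 0 := by exact_mod_cast (G.lpos v).ne'
    exact mul_right_cancel₀ hl this
  by_cases h : ∃ k, D.Full τ k
  · obtain ⟨k, hk'⟩ := h
    have hall : ∀ i, D.Full σ i → D.Full τ i := by
      intro i hi
      refine hfull i hi ?_
      rw [hlam i k hi (hsub k hk'), hzero k hk', bs_eq_of_kill G.mu_eq hk k i]
    refine ⟨?_, Or.inr hall⟩
    rcases hA with hA | ⟨i0, hA⟩
    · exact absurd (hsub k hk') (hA k)
    · exact Or.inr ⟨i0, fun j hj => hall j (hA j hj)⟩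
  · have hE : D.Ell τ := fun i hi => h ⟨i, hi⟩
    exact ⟨Or.inl hE, Or.inl hE⟩

end Comb

end Pool.Agent.Helper39.TV
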