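import Pool.Agent.Helper39.TV.Matrix
import Pool.Agent.Helper39.TV.Star
import Pool.Agent.Helper39.TV.Count

/-! TV, module Pair -/

open Finset

set_option linter.unusedSectionVars false

namespace Pool.Agent.Helper39.TV

variable {V ι K : Type} [Fintype V] [DecidableEq V] [Fintype ι] [DecidableEq ι] [AddCommGroup K]

namespace Comb

variable {D : Comb V ι K} {A : K} {n : ℕ}

/-- the coefficients of the correction -/
def pairC (D : Comb V ι K) (i j : ι) (v : ι → V) (a : V → ℚ) : ι → ℚ := fun m =>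
  if m = i then 0 else if m = j then -∑ m' ∈ (univ.erase i).erase j, a (v m') / D.l (v m')
    else a (v m) / D.l (v m)

theorem pair_sum (i j : ι) (hij : i ≠ j) (f : ι → ℚ) :
    ∑ m, f m = f i + f j + ∑ m ∈ (univ.erase i).erase j, f m := by
  rw [← Finset.add_sum_erase univ f (Finset.mem_univ i),
    ← Finset.add_sum_erase (univ.erase i) f (Finset.mem_erase.2 ⟨hij.symm, Finset.mem_univ j⟩)]
  ring

theorem pairC_sum {i j : ι} (hij : i ≠ j) (v : ι → V) (a : V → ℚ) :
    ∑ m, D.pairC i j v a m = 0 := by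
  rw [pair_sum i j hij]
  have h1 : D.pairC i j v a i = 0 := by simp [pairC]
  have h2 : D.pairC i j v a j = -∑ m' ∈ (univ.erase i).erase j, a (v m') / D.l (v m') := by
    simp [pairC, hij.symm]
  have h3 : ∑ m ∈ (univ.erase i).erase j, D.pairC i j v a m =
      ∑ m' ∈ (univ.erase i).erase j, a (v m') / D.l (v m') := by
    refine Finset.sum_congr rfl fun m hm => ?_
    rw [Finset.mem_erase, Finset.mem_erase] at hm
    simp [pairC, hm.1, hm.2.1]
  rw [h1, h2, h3]
  ring

/-- the correction -/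
def pairA (D : Comb V ι K) (i j : ι) (v : ι → V) (a : V → ℚ) : V → ℚ := a - D.bl (D.pairC i j v a)

theorem pairA_rep (hmu : ∀ i, D.dg (D.bl (Pi.single i 1)) = D.mu) {i j : ι} (hij : i ≠ j)
    (v : ι → V) {a : V → ℚ} {w : K} (ha : D.Rep w a) : D.Rep w (D.pairA i j v a) := by
  unfold pairA
  rw [sub_eq_add_neg]
  exact ha.add_kq (KQ.bl hmu (pairC_sum hij v a)).neg

theorem pairA_v (hl : ∀ v, 0 < D.l v) {i j : ι} {v : ι → V}
    (hv : ∀ m, m ≠ i → m ≠ j → D.blk (v m) = some m) (a : V → ℚ) {m : ι} (hmi : m ≠ i)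
    (hmj : m ≠ j) : D.pairA i j v a (v m) = 0 := by
  unfold pairA
  rw [Pi.sub_apply, bl_some _ (hv m hmi hmj)]
  have h1 : D.pairC i j v a m = a (v m) / D.l (v m) := by simp [pairC, hmi, hmj]
  have h2 : (D.l (v m) : ℚ) ≠ 0 := by exact_mod_cast (hl (v m)).ne'
  rw [h1, div_mul_cancel₀ _ h2, sub_self]

theorem pairA_none {i j : ι} {v : ι → V} (a : V → ℚ) {u : V} (hu : D.blk u = none) :
    D.pairA i j v a u = a u := by
  unfold pairA
  rw [Pi.sub_apply, bl_none _ hu, sub_zero]

theorem pairA_i {i j : ι} {v : ι → V} (a : V → ℚ) {u : V} (hu : D.blk u = some i) :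
    D.pairA i j v a u = a u := by
  unfold pairA
  rw [Pi.sub_apply, bl_some _ hu]
  simp [pairC]

theorem pairA_j {i j : ι} (hij : i ≠ j) {v : ι → V} {a : V → ℚ} (ha : ∀ u, 0 ≤ a u) {u : V}
    (hu : D.blk u = some j) : a u ≤ D.pairA i j v a u := by
  unfold pairA
  rw [Pi.sub_apply, bl_some _ hu]
  have h2 : D.pairC i j v a j = -∑ m' ∈ (univ.erase i).erase j, a (v m') / D.l (v m') := by
    simp [pairC, hij.symm]
  rw [h2]
  have h3 : 0 ≤ ∑ m' ∈ (univ.erase i).erase j, a (v m') / D.l (v m') :=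
    Finset.sum_nonneg fun m' _ => div_nonneg (ha _) (Nat.cast_nonneg _)
  have h4 := mul_nonneg h3 (Nat.cast_nonneg (α := ℚ) (D.l u))
  linarith

/-- rational kernel elements vanishing off `x` and at the `v m` vanish -/
theorem pair_frame (G : D.Good A n) {x : Finset V} {i j : ι} (hij : i ≠ j)
    (hxi : ¬ D.Full x i) (hxF : D.Fixed x) {v : ι → V}
    (hv : ∀ m, m ≠ i → m ≠ j → D.blk (v m) = some m) {d : V → ℚ} (hd : D.KQ d)
    (hdx : ∀ u, u ∉ x → d u = 0) (hdv : ∀ m, m ≠ i → m ≠ j → d (v m) = 0) : d = 0 := by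
  obtain ⟨c, hc, hcb⟩ := hxF.rat hd hdx
  have h1 : c i = 0 := bl_zero_of_not_full G.lpos (fun u hu => by rw [← hcb]; exact hdx u hu) hxi
  have h2 : ∀ m, m ≠ i → m ≠ j → c m = 0 := by
    intro m hmi hmj
    have h3 := hdv m hmi hmj
    rw [hcb, bl_some _ (hv m hmi hmj)] at h3
    rcases mul_eq_zero.1 h3 with h | h
    · exact h
    · exact absurd h (by exact_mod_cast (G.lpos (v m)).ne')
  have h4 : c j = 0 := by
    rw [pair_sum i j hij, h1] at hc
    have h5 : ∑ m ∈ (univ.erase i).erase j, c m = 0 := by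
      refine Finset.sum_eq_zero fun m hm => ?_
      rw [Finset.mem_erase, Finset.mem_erase] at hm
      exact h2 m hm.2.1 hm.1
    rw [h5] at hc
    linarith
  have h6 : c = 0 := by
    funext m
    by_cases hmi : m = i
    · rw [hmi, h1]; rfl
    by_cases hmj : m = j
    · rw [hmj, h4]; rfl
    exact h2 m hmi hmj
  rw [hcb, h6, bl_zero]

/-- one side of the argument -/
theorem pair_side (G : D.Good A n) {N : ℕ} (hN : n + 2 ≤ N) {x : Finset V} {i j : ι} (hij : i ≠ j)
    (hxO : D.Over x i) (hxi : ¬ D.Full x i) (hxs : ∀ p, ¬ D.Sole x i p) (hxF : D.Fixed x)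
    (hxS : D.Semi A x) {c : V → ℤ} (hcd : D.dg c = D.can + N • A)
    (hcx : ∀ v, v ∉ x → c v = 0) {v : ι → V} (hv : ∀ m, m ≠ i → m ≠ j → D.blk (v m) = some m)
    (hvc : ∀ m, m ≠ i → m ≠ j → c (v m) < D.l (v m)) :
    ∃ (xi0 : V → ℚ) (xi : V → V → ℚ),
      (∀ k, k ∉ x → D.Rep A (xi k)) ∧
      (∀ k, k ∉ x → ∀ m, m ≠ i → m ≠ j → xi k (v m) = 0) ∧
      (∀ k, k ∉ x → ∀ u, u ∉ x → xi k u = if u = k then 1 else 0) ∧
      (∀ u, D.blk u = none ∨ D.blk u = some i ∨ D.blk u = some j → 0 ≤ xi0 u ∧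
        ∀ k, k ∉ x → 0 ≤ xi k u) ∧
      (∀ u, D.blk u = some j → 0 < xi0 u) ∧
      (∀ u, c u = 0 → (D.blk u = none ∨ D.blk u = some j) →
        2 * xi0 u + ∑ k ∈ xᶜ, xi k u ≤ 1) ∧
      (∀ a, D.Rep A a → (∀ m, m ≠ i → m ≠ j → a (v m) = 0) →
        ∀ u, a u = xi0 u + ∑ k ∈ xᶜ, a k * (xi k u - xi0 u)) := by
  classical
  have hadm : D.Adm x := Or.inr ⟨i, hxO⟩
  have hcard := card_over G hxO hxi hxF hxS
  have hout : ∀ u, u ∉ x → D.blk u = none ∨ D.blk u = some i := by
    intro u hu
    cases h : D.blk u with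
    | none => exact Or.inl rfl
    | some m =>
      right
      by_cases hm : m = i
      · rw [hm]
      · exact absurd (hxO m hm u h) hu
  obtain ⟨a0, ha0, ha0p⟩ := interior G hadm hxS hxF
  have hstar : ∀ k, ∃ a, k ∉ x → D.Pi A (insert k x) a ∧ a k = 1 := by
    intro k
    by_cases hk : k ∈ x
    · exact ⟨0, fun h => absurd hk h⟩
    · obtain ⟨a, ha⟩ := star_one G hadm hxS hxF hk (fun i' hi' hfull => by
        rcases hout k hk with h | h
        · rw [h] at hi'; simp at hi'
        · rw [h] at hi'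
          have hii : i = i' := by simpa using hi'
          subst hii
          refine hxs k ⟨hk, h, fun w hw hwk => ?_⟩
          have := hfull w hw
          rw [Finset.mem_insert] at this
          exact this.resolve_left hwk)
      exact ⟨a, fun _ => ha⟩
  choose ak hak using hstar
  have hoff : ∀ (a : V → ℚ) (u : V), u ∉ x → D.pairA i j v a u = a u := by
    intro a u hu
    rcases hout u hu with h | h
    · exact pairA_none a h
    · exact pairA_i a h
  have h0off : ∀ u, u ∉ x → D.pairA i j v a0 u = 0 := by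
    intro u hu
    rw [hoff _ _ hu]
    exact ha0.2.2 u hu
  have hkoff : ∀ k, k ∉ x → ∀ u, u ∉ x → D.pairA i j v (ak k) u = if u = k then 1 else 0 := by
    intro k hk u hu
    rw [hoff _ _ hu]
    split_ifs with h
    · rw [h]
      exact (hak k hk).2
    · exact (hak k hk).1.2.2 u (by rw [Finset.mem_insert]; tauto)
  have hnn : ∀ (a : V → ℚ), (∀ u, 0 ≤ a u) → ∀ u, D.blk u = none ∨ D.blk u = some i ∨
      D.blk u = some j → 0 ≤ D.pairA i j v a u := by
    intro a ha u hu
    rcases hu with h | h | h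
    · rw [pairA_none a h]; exact ha u
    · rw [pairA_i a h]; exact ha u
    · exact (ha u).trans (pairA_j hij ha h)
  have hframe : ∀ a b : V → ℚ, ∀ w : K, D.Rep w a → D.Rep w b → (∀ u, u ∉ x → a u = b u) →
      (∀ m, m ≠ i → m ≠ j → a (v m) = b (v m)) → a = b := by
    intro a b w ha hb h1 h2
    have := pair_frame G hij hxi hxF hv (ha.sub_kq hb)
      (fun u hu => by rw [Pi.sub_apply, h1 u hu, sub_self])
      (fun m hmi hmj => by rw [Pi.sub_apply, h2 m hmi hmj, sub_self])
    exact sub_eq_zero.1 this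
  refine ⟨D.pairA i j v a0, fun k => D.pairA i j v (ak k), ?_, ?_, hkoff, ?_, ?_, ?_, ?_⟩
  · intro k hk
    exact pairA_rep G.mu_eq hij v (hak k hk).1.1
  · intro k _ m hmi hmj
    exact pairA_v G.lpos hv _ hmi hmj
  · intro u hu
    exact ⟨hnn a0 ha0.2.1 u hu, fun k hk => hnn (ak k) (hak k hk).1.2.1 u hu⟩
  · intro u hu
    exact lt_of_lt_of_le (ha0p u (hxO j hij.symm u hu)) (pairA_j hij ha0.2.1 hu)
  · intro u hcu hu
    -- the vector `c*`
    set tt : ι → ℚ := fun m => if m = i then 0 else if m = j then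
      (Fintype.card ι : ℚ) - 2 - ∑ m' ∈ (univ.erase i).erase j, ((c (v m') : ℚ) + 1) / D.l (v m')
      else ((c (v m) : ℚ) + 1) / D.l (v m) with htt
    have htti : tt i = 0 := by simp [htt]
    have httj : tt j = (Fintype.card ι : ℚ) - 2 -
        ∑ m' ∈ (univ.erase i).erase j, ((c (v m') : ℚ) + 1) / D.l (v m') := by
      simp [htt, hij.symm]
    have httm : ∀ m, m ≠ i → m ≠ j → tt m = ((c (v m) : ℚ) + 1) / D.l (v m) := by
      intro m hmi hmj
      simp [htt, hmi, hmj]
    have htts : ∑ m, tt m = (Fintype.card ι : ℚ) - 2 := by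
      rw [pair_sum i j hij, htti, httj]
      have h3 : ∑ m ∈ (univ.erase i).erase j, tt m =
          ∑ m' ∈ (univ.erase i).erase j, ((c (v m') : ℚ) + 1) / D.l (v m') := by
        refine Finset.sum_congr rfl fun m hm => ?_
        rw [Finset.mem_erase, Finset.mem_erase] at hm
        exact httm m hm.2.1 hm.1
      rw [h3]
      ring
    -- degree of bl tt
    have hbl : D.Rep (((Fintype.card ι : ℤ) - 2) • D.mu) (D.bl tt) := by
      have e1 : D.Rep (((Fintype.card ι : ℤ) - 2) • D.mu)
          (fun w => ((D.bl (Pi.single i ((Fintype.card ι : ℤ) - 2)) w : ℤ) : ℚ)) := by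
        refine Rep.of_int ?_
        rw [dg_bl G.mu_eq]
        congr 1
        simp
      have e2 : (fun w => ((D.bl (Pi.single i ((Fintype.card ι : ℤ) - 2)) w : ℤ) : ℚ)) =
          D.bl (Pi.single i ((Fintype.card ι : ℚ) - 2) : ι → ℚ) := by
        funext w
        rw [bl_cast]
        congr 1
        funext m
        by_cases hm : m = i
        · subst hm
          simp
        · simp [hm]
      rw [e2] at e1
      have e3 : D.KQ (D.bl (tt - Pi.single i ((Fintype.card ι : ℚ) - 2) : ι → ℚ)) := by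
        refine KQ.bl G.mu_eq ?_
        simp only [Pi.sub_apply, Finset.sum_sub_distrib, htts]
        simp
      have e4 := e1.add_kq e3
      rw [bl_sub] at e4
      have e5 : D.bl (Pi.single i ((Fintype.card ι : ℚ) - 2) : ι → ℚ) +
          (D.bl tt - D.bl (Pi.single i ((Fintype.card ι : ℚ) - 2) : ι → ℚ)) = D.bl tt := by abel
      rw [e5] at e4
      exact e4
    have hcs : D.Rep (N • A) ((fun w => ((c w : ℤ) : ℚ)) + (fun _ => (1 : ℚ)) - D.bl tt) := by
      have e1 : D.Rep (∑ w, D.deg w) (fun _ : V => (1 : ℚ)) := by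
        have := Rep.of_int (D := D) (b := 1) (w := ∑ w, D.deg w) dg_one
        simpa using this
      have e2 := ((Rep.of_int hcd).add e1).sub hbl
      have e3 : D.can + N • A + ∑ w, D.deg w - ((Fintype.card ι : ℤ) - 2) • D.mu = N • A := by
        unfold can
        abel
      rw [e3] at e2
      exact e2
    have hXi : D.Rep (N • A) ((N - n) • D.pairA i j v a0 + ∑ k ∈ xᶜ, D.pairA i j v (ak k)) := by
      have e1 : D.Rep ((N - n) • A) ((N - n) • D.pairA i j v a0) :=
        (pairA_rep G.mu_eq hij v ha0.1).nsmul _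
      have e2 : D.Rep (∑ _k ∈ xᶜ, A) (∑ k ∈ xᶜ, D.pairA i j v (ak k)) :=
        Rep.sum _ _ _ fun k hk => pairA_rep G.mu_eq hij v (hak k (Finset.mem_compl.1 hk)).1.1
      have e3 := e1.add e2
      rw [Finset.sum_const, hcard, ← add_nsmul, Nat.sub_add_cancel (by omega)] at e3
      exact e3
    have heq := hframe _ _ _ hXi hcs
      (by
        intro w hw
        have e1 : D.bl tt w = 0 := by
          rcases hout w hw with h | h
          · exact bl_none _ h
          · rw [bl_some _ h, htti, zero_mul]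
        have e2 : ∑ k ∈ xᶜ, D.pairA i j v (ak k) w = 1 := by
          rw [Finset.sum_congr rfl fun k hk => hkoff k (Finset.mem_compl.1 hk) w hw]
          simp [hw]
        simp only [Pi.add_apply, Pi.sub_apply, Pi.smul_apply, Finset.sum_apply, e1, e2,
          h0off w hw, hcx w hw]
        simp)
      (by
        intro m hmi hmj
        have e1 : D.bl tt (v m) = (c (v m) : ℚ) + 1 := by
          rw [bl_some _ (hv m hmi hmj), httm m hmi hmj]
          have h2 : (D.l (v m) : ℚ) ≠ 0 := by exact_mod_cast (G.lpos (v m)).ne'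
          rw [div_mul_cancel₀ _ h2]
        have e2 : ∑ k ∈ xᶜ, D.pairA i j v (ak k) (v m) = 0 :=
          Finset.sum_eq_zero fun k _ => pairA_v G.lpos hv _ hmi hmj
        simp only [Pi.add_apply, Pi.sub_apply, Pi.smul_apply, Finset.sum_apply, e1, e2,
          pairA_v G.lpos hv _ hmi hmj]
        simp)
    have heu := congrFun heq u
    simp only [Pi.add_apply, Pi.sub_apply, Finset.sum_apply, hcu] at heu
    rw [Pi.smul_apply, nsmul_eq_mul] at heu
    have hblu : 0 ≤ D.bl tt u := by
      rcases hu with h | h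
      · rw [bl_none _ h]
      · rw [bl_some _ h]
        refine mul_nonneg ?_ (Nat.cast_nonneg _)
        rw [httj]
        have e1 : ∑ m' ∈ (univ.erase i).erase j, ((c (v m') : ℚ) + 1) / D.l (v m') ≤
            ∑ _m' ∈ (univ.erase i).erase j, (1 : ℚ) := by
          refine Finset.sum_le_sum fun m hm => ?_
          rw [Finset.mem_erase, Finset.mem_erase] at hm
          have h2 : (0 : ℚ) < (D.l (v m) : ℚ) := by exact_mod_cast G.lpos (v m)
          rw [div_le_one h2]
          have h3 := hvc m hm.2.1 hm.1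
          have h4 : c (v m) + 1 ≤ (D.l (v m) : ℤ) := by omega
          exact_mod_cast h4
        have e2 : ∑ _m' ∈ (univ.erase i).erase j, (1 : ℚ) = (Fintype.card ι : ℚ) - 2 := by
          have e3 := pair_sum i j hij (fun _ => (1 : ℚ))
          rw [Finset.sum_const, Finset.card_univ, nsmul_eq_mul, mul_one] at e3
          linarith
        linarith
    have h00 : 0 ≤ D.pairA i j v a0 u := hnn a0 ha0.2.1 u (by tauto)
    have hNn : (2 : ℚ) ≤ ((N - n : ℕ) : ℚ) := by
      have : 2 ≤ N - n := by omega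
      exact_mod_cast this
    have h2x : 2 * D.pairA i j v a0 u ≤ ((N - n : ℕ) : ℚ) * D.pairA i j v a0 u :=
      mul_le_mul_of_nonneg_right hNn h00
    rw [Int.cast_zero] at heu
    have hgoal : 2 * D.pairA i j v a0 u + ∑ k ∈ xᶜ, D.pairA i j v (ak k) u ≤ 1 := by linarith
    exact hgoal
  · intro a ha hav
    have hrep : D.Rep A (D.pairA i j v a0 +
        ∑ k ∈ xᶜ, a k • (D.pairA i j v (ak k) - D.pairA i j v a0)) := by
      refine (pairA_rep G.mu_eq hij v ha0.1).add_kq (KQ.sum _ _ fun k hk => ?_)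
      exact ((pairA_rep G.mu_eq hij v (hak k (Finset.mem_compl.1 hk)).1.1).sub_kq
        (pairA_rep G.mu_eq hij v ha0.1)).smul _
    have heq := hframe _ _ _ ha hrep
      (by
        intro u hu
        simp only [Pi.add_apply, Finset.sum_apply, Pi.smul_apply, Pi.sub_apply, smul_eq_mul,
          h0off u hu, sub_zero, zero_add]
        rw [Finset.sum_congr rfl fun k hk => by rw [hkoff k (Finset.mem_compl.1 hk) u hu]]
        simp [hu])
      (by
        intro m hmi hmj
        rw [hav m hmi hmj]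
        simp only [Pi.add_apply, Finset.sum_apply, Pi.smul_apply, Pi.sub_apply,
          pairA_v G.lpos hv _ hmi hmj]
        simp)
    intro u
    have := congrFun heq u
    simpa only [Pi.add_apply, Finset.sum_apply, Pi.smul_apply, Pi.sub_apply, smul_eq_mul]
      using this

theorem pair (G : D.Good A n) {N : ℕ} (hN : n + 2 ≤ N) {x y : Finset V} {i j : ι} (hij : i ≠ j)
    (hxO : D.Over x i) (hxi : ¬ D.Full x i) (hxs : ∀ p, ¬ D.Sole x i p) (hxF : D.Fixed x)
    (hxS : D.Semi A x)
    (hyO : D.Over y j) (hyi : ¬ D.Full y j) (hys : ∀ p, ¬ D.Sole y j p) (hyF : D.Fixed y)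
    (hyS : D.Semi A y)
    {c : V → ℤ} (hc : ∀ v, 0 ≤ c v) (hcd : D.dg c = D.can + N • A)
    (hcx : ∀ v, v ∉ x → c v = 0) (hcy : ∀ v, v ∉ y → c v = 0)
    (hlt : ∀ m, m ≠ i → m ≠ j → ∃ v, D.blk v = some m ∧ c v < D.l v) : False := by
  classical
  obtain ⟨v0, hv0⟩ := G.ne i
  have hlt' : ∀ m, ∃ v, m ≠ i → m ≠ j → D.blk v = some m ∧ c v < D.l v := by
    intro m
    by_cases hmi : m = i
    · exact ⟨v0, fun h => absurd hmi h⟩
    by_cases hmj : m = j
    · exact ⟨v0, fun _ h => absurd hmj h⟩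
    obtain ⟨v, hv⟩ := hlt m hmi hmj
    exact ⟨v, fun _ _ => hv⟩
  choose v hv using hlt'
  obtain ⟨xi0, xi, x1, x2, x3, x4, x5, x6, x7⟩ := pair_side G hN hij hxO hxi hxs hxF hxS hcd hcx
    (v := v) (fun m h1 h2 => (hv m h1 h2).1) (fun m h1 h2 => (hv m h1 h2).2)
  obtain ⟨et0, et, y1, y2, y3, y4, y5, y6, y7⟩ := pair_side G hN hij.symm hyO hyi hys hyF hyS hcd
    hcy (v := v) (fun m h1 h2 => (hv m h2 h1).1) (fun m h1 h2 => (hv m h2 h1).2)
  have hxout : ∀ u, u ∉ x → D.blk u = none ∨ D.blk u = some i := by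
    intro u hu
    cases h : D.blk u with
    | none => exact Or.inl rfl
    | some m =>
      right
      by_cases hm : m = i
      · rw [hm]
      · exact absurd (hxO m hm u h) hu
  have hyout : ∀ u, u ∉ y → D.blk u = none ∨ D.blk u = some j := by
    intro u hu
    cases h : D.blk u with
    | none => exact Or.inl rfl
    | some m =>
      right
      by_cases hm : m = j
      · rw [hm]
      · exact absurd (hyO m hm u h) hu
  have hmx : ∀ k : ↥(xᶜ), (k : V) ∉ x := fun k => Finset.mem_compl.1 k.2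
  have hmy : ∀ l : ↥(yᶜ), (l : V) ∉ y := fun l => Finset.mem_compl.1 l.2
  have hcard : Fintype.card ↥(xᶜ) = Fintype.card ↥(yᶜ) := by
    rw [Fintype.card_coe, Fintype.card_coe, card_over G hxO hxi hxF hxS,
      card_over G hyO hyi hyF hyS]
  have key := matrix_lemma hcard (fun l : ↥(yᶜ) => xi0 l) (fun l k => xi k l)
    (fun k : ↥(xᶜ) => et0 k) (fun k l => et l k)
    (fun l => (x4 l (by have := hyout l (hmy l); tauto)).1)
    (fun l k => (x4 l (by have := hyout l (hmy l); tauto)).2 k (hmx k))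
    (fun k => (y4 k (by have := hxout k (hmx k); tauto)).1)
    (fun k l => (y4 k (by have := hxout k (hmx k); tauto)).2 l (hmy l))
    (by
      intro l
      have h1 := x6 l (hcy l (hmy l)) (hyout l (hmy l))
      rw [← Finset.sum_coe_sort] at h1
      exact h1)
    (by
      intro k
      have h1 := y6 k (hcx k (hmx k)) (hxout k (hmx k))
      rw [← Finset.sum_coe_sort] at h1
      exact h1)
    (by
      intro k
      have h1 := y7 (xi k) (x1 k (hmx k)) (fun m h1 h2 => x2 k (hmx k) m h2 h1) k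
      rw [x3 k (hmx k) k (hmx k), if_pos rfl, ← Finset.sum_coe_sort] at h1
      exact h1.symm)
  simp only [Full, not_forall] at hyi
  obtain ⟨l, hl, hly⟩ := hyi
  have h1 := key ⟨l, Finset.mem_compl.2 hly⟩
  have h2 := x5 l hl
  simp only at h1
  linarith

end Comb

end Pool.Agent.Helper39.TV
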