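import Pool.Agent.Helper39.TV.ParStr
import Pool.Agent.Helper39.TV.Star
import Pool.Agent.Helper39.TV.Count

/-! TV, module ParSec -/

open Finset

set_option linter.unusedSectionVars false

namespace Pool.Agent.Helper39.TV

variable {V ι K : Type} [Fintype V] [DecidableEq V] [Fintype ι] [DecidableEq ι] [AddCommGroup K]

namespace Comb

variable {D : Comb V ι K} {A : K} {n : ℕ}

/-- rounding when all blocks are full -/
theorem parsec_round (G : D.Good A n) {N : ℕ} {x : Finset V} (hO : ∀ i, D.Full x i)
    (hF : D.Fixed x) (hS : D.Semi A x) {e : ι → V}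
    (he : ∀ i, D.blk (e i) = some i ∧ D.l (e i) = 1) {Q : V → ℚ} (hQ : D.Rep (N • A) Q)
    {d : V → ℤ} (hd : ∀ v, v ∉ x → Q v = d v) (hd1 : ∀ v, v ∉ x → 1 ≤ d v)
    (hb : ∀ i v, D.blk v = some i → (D.l v : ℚ) * Q (e i) ≤ Q v)
    (hf : ∀ v ∈ x, D.blk v = none → 1 ≤ Q v) {m : ℕ} (hm : (m : ℚ) + 2 ≤ ∑ i, Q (e i)) :
    ∃ c k, m ≤ k ∧ D.Sec (D.can + N • A) c k ∧ (∀ v, v ∉ x → c v = d v - 1) ∧
      (∀ i, c (e i) = 0) ∧
      (∀ i v, D.blk v = some i → (c v : ℚ) = Q v - D.l v * Q (e i) + D.l v - 1) ∧
      ∀ v ∈ x, D.blk v = none → (c v : ℚ) = Q v - 1 := by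
  classical
  obtain ⟨i0, -⟩ := G.two
  have hAdm : D.Adm x := Or.inr ⟨i0, fun j _ => hO j⟩
  have hfree : ∀ v, v ∉ x → D.blk v = none := by
    intro v hv
    cases h : D.blk v with
    | none => rfl
    | some i => exact absurd (hO i v h) hv
  -- the integral vector
  set d' : V → ℤ := fun v => if v ∈ x then 0 else d v with hd'
  obtain ⟨b, hbx, hbd⟩ := G.gen x hAdm hS (N • A - D.dg d')
  set s : V → ℤ := d' + b with hs
  have hsd : D.dg s = N • A := by
    rw [hs, dg_add, hbd]
    abel
  have hsx : ∀ v, v ∉ x → s v = d v := by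
    intro v hv
    simp only [hs, Pi.add_apply, hbx v hv, hd', if_neg hv, add_zero]
  have hkq : D.KQ (Q - fun v => (s v : ℚ)) := hQ.sub_kq (Rep.of_int hsd)
  obtain ⟨c0, hc0, hc0'⟩ := hF.rat hkq (fun v hv => by
    rw [Pi.sub_apply, hd v hv, hsx v hv, sub_self])
  have hQs : ∀ v, Q v = s v + D.bl c0 v := by
    intro v
    have := congrFun hc0' v
    rw [Pi.sub_apply] at this
    linarith
  have hse : ∀ i, Q (e i) = s (e i) + c0 i := by
    intro i
    rw [hQs, bl_some _ (he i).1, (he i).2]
    simp
  have hsum : ((∑ i, s (e i) : ℤ) : ℚ) = ∑ i, Q (e i) := by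
    simp_rw [hse]
    rw [Finset.sum_add_distrib, hc0, add_zero]
    push_cast
    rfl
  have hk2 : (m : ℤ) + 2 ≤ ∑ i, s (e i) := by
    have : (((m : ℤ) + 2 : ℤ) : ℚ) ≤ ((∑ i, s (e i) : ℤ) : ℚ) := by
      rw [hsum]
      push_cast
      exact hm
    exact_mod_cast this
  obtain ⟨k, hk⟩ : ∃ k : ℕ, (k : ℤ) = ∑ i, s (e i) - 2 :=
    ⟨(∑ i, s (e i) - 2).toNat, Int.toNat_of_nonneg (by omega)⟩
  set c : V → ℤ := s - 1 + D.bl (fun i => 1 - s (e i)) with hc
  have hcn : ∀ v, D.blk v = none → c v = s v - 1 := by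
    intro v hv
    simp only [hc, Pi.add_apply, Pi.sub_apply, Pi.one_apply, bl_none _ hv, add_zero]
  have hcs : ∀ i v, D.blk v = some i → c v = s v - 1 + (1 - s (e i)) * (D.l v : ℤ) := by
    intro i v hv
    simp only [hc, Pi.add_apply, Pi.sub_apply, Pi.one_apply, bl_some _ hv]
  have hcb : ∀ i v, D.blk v = some i →
      (c v : ℚ) = Q v - D.l v * Q (e i) + D.l v - 1 := by
    intro i v hv
    rw [hcs i v hv, hQs v, bl_some _ hv, hse i]
    push_cast
    ring
  have hcf : ∀ v, D.blk v = none → (c v : ℚ) = Q v - 1 := by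
    intro v hv
    rw [hcn v hv, hQs v, bl_none _ hv]
    push_cast
    ring
  have hcx : ∀ v, v ∉ x → c v = d v - 1 := by
    intro v hv
    rw [hcn v (hfree v hv), hsx v hv]
  refine ⟨c, k, by omega, ⟨?_, ?_⟩, hcx, ?_, hcb, fun v _ hv => hcf v hv⟩
  · intro v
    by_cases hv : v ∈ x
    · cases h : D.blk v with
      | none =>
        have h1 := hf v hv h
        have h2 := hcf v h
        have : (0 : ℚ) ≤ (c v : ℚ) := by linarith
        exact_mod_cast this
      | some i =>
        have h1 := hb i v h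
        have h2 := hcb i v h
        have h3 : (1 : ℚ) ≤ D.l v := by exact_mod_cast G.lpos v
        have : (0 : ℚ) ≤ (c v : ℚ) := by linarith
        exact_mod_cast this
    · have h1 := hd1 v hv
      rw [hcx v hv]
      omega
  · have h1 : D.dg c = N • A - ∑ v, D.deg v + (∑ i, (1 - s (e i))) • D.mu := by
      rw [hc, dg_add, dg_sub, hsd, dg_one, dg_bl G.mu_eq]
    rw [h1, can]
    have h2 : (k : ℕ) • D.mu = (∑ i, s (e i) - 2) • D.mu := by
      rw [← natCast_zsmul, hk]
    rw [h2]
    have h3 : ((Fintype.card ι : ℤ) - 2) • D.mu =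
        (∑ i, (1 - s (e i))) • D.mu + (∑ i, s (e i) - 2) • D.mu := by
      rw [← add_smul]
      congr 1
      rw [Finset.sum_sub_distrib]
      simp
    rw [h3]
    abel
  · intro i
    rw [hcs i _ (he i).1, (he i).2]
    push_cast
    ring

theorem par_sections (G : D.Good A n) {N : ℕ} (hN : n + 2 ≤ N) {x : Finset V} (hO : ∀ i, D.Full x i)
    (hF : D.Fixed x) (hS : D.Semi A x) {e : ι → V}
    (he : ∀ i, D.blk (e i) = some i ∧ D.l (e i) = 1 ∧ D.Semi A (x.erase (e i))) :
    (∃ c k, 1 ≤ k ∧ D.Sec (D.can + N • A) c k ∧ (∀ v, v ∉ x → c v = 0) ∧ (∀ i, c (e i) = 0) ∧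
      ∀ v ∈ x, (∀ i, v ≠ e i) → 0 < c v) ∧ D.Chart (D.can + N • A) x ∧
      ∀ i, D.Chart (D.can + N • A) (x.erase (e i)) := by
  classical
  obtain ⟨i0, -⟩ := G.two
  have hAdm : D.Adm x := Or.inr ⟨i0, fun j _ => hO j⟩
  have hfree : ∀ v, v ∉ x → D.blk v = none := by
    intro v hv
    cases h : D.blk v with
    | none => rfl
    | some i => exact absurd (hO i v h) hv
  have hex : ∀ i, e i ∈ x := fun i => hO i _ (he i).1
  obtain ⟨e', he1, he2, he3⟩ := par_structure G hO hF hS
  have hee : ∀ i, e i = e' i := fun i => he2 i (e i) (he i).1 (he i).2.2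
  obtain rfl : e = e' := funext hee
  obtain ⟨a, ha, hapos⟩ := interior G hAdm hS hF
  obtain ⟨ha1, ha2⟩ := he3 a ha hapos
  have haint : ∀ v ∈ x, D.blk v = none → 1 ≤ a v := by
    intro v hv hn
    refine interior_int G hAdm hS hF ha (hapos v hv) ?_
    intro i _ h
    rw [hn] at h
    exact absurd h (by simp)
  -- the vectors at the zeros
  have hstar : ∀ u : V, ∃ au : V → ℚ, u ∉ x → (D.Pi A (insert u x) au ∧ au u = 1) := by
    intro u
    by_cases hu : u ∈ x
    · exact ⟨0, fun h => absurd hu h⟩
    · obtain ⟨au, h1, h2⟩ := star_one G hAdm hS hF hu (fun i hi => by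
        rw [hfree u hu] at hi
        exact absurd hi (by simp))
      exact ⟨au, fun _ => ⟨h1, h2⟩⟩
  choose au hau using hstar
  have hau0 : ∀ u, u ∉ x → ∀ v, v ∉ x → v ≠ u → au u v = 0 := by
    intro u hu v hv hvu
    refine (hau u hu).1.2.2 v ?_
    rw [Finset.mem_insert, not_or]
    exact ⟨hvu, hv⟩
  -- the inequality on the blocks
  have hblock : ∀ u, u ∉ x → ∀ i v, D.blk v = some i → (D.l v : ℚ) * au u (e i) ≤ au u v := by
    intro u hu i v hv
    have hA' : D.Adm (x.erase (e i)) := by
      refine Or.inr ⟨i, fun j hj w hw => ?_⟩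
      rw [Finset.mem_erase]
      refine ⟨?_, hO j w hw⟩
      rintro rfl
      rw [(he i).1] at hw
      exact hj (Option.some.inj hw).symm
    have hu' : u ∉ x.erase (e i) := fun h => hu (Finset.mem_of_mem_erase h)
    obtain ⟨a', h1, h2⟩ := star_one G hA' (he i).2.2 (hF.mono (Finset.erase_subset _ _)) hu'
      (fun j hj => by
        rw [hfree u hu] at hj
        exact absurd hj (by simp))
    have hne : e i ≠ u := fun h => hu (h ▸ hex i)
    have h3 : a' (e i) = 0 := by
      refine h1.2.2 _ ?_
      rw [Finset.mem_insert, not_or]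
      exact ⟨hne, Finset.notMem_erase _ _⟩
    have hkq : D.KQ (au u - a') := (hau u hu).1.1.sub_kq h1.1
    obtain ⟨c, -, hc⟩ := hF.rat hkq (fun w hw => by
      rw [Pi.sub_apply]
      by_cases hwu : w = u
      · rw [hwu, (hau u hu).2, h2, sub_self]
      · rw [hau0 u hu w hw hwu, h1.2.2 w ?_, sub_self]
        rw [Finset.mem_insert, not_or]
        exact ⟨hwu, fun h => hw (Finset.mem_of_mem_erase h)⟩)
    have h4 : au u (e i) = c i := by
      have := congrFun hc (e i)
      rw [Pi.sub_apply, h3, bl_some _ (he i).1, (he i).2.1] at this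
      simpa using this
    have h5 : au u v = a' v + c i * D.l v := by
      have := congrFun hc v
      rw [Pi.sub_apply, bl_some _ hv] at this
      linarith
    have h6 := h1.2.1 v
    rw [h4, h5]
    linarith
  have hcard := card_full G hO hF hS
  -- the common part
  set R : V → ℚ := ∑ u ∈ xᶜ, au u with hR
  have hRrep : D.Rep ((xᶜ).card • A) R := by
    have := Rep.sum (D := D) (xᶜ) au (fun _ => A) (fun u hu => (hau u (Finset.mem_compl.mp hu)).1.1)
    rwa [Finset.sum_const] at this
  have hRx : ∀ v, v ∉ x → R v = 1 := by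
    intro v hv
    rw [hR, Finset.sum_apply, Finset.sum_eq_single v]
    · exact (hau v hv).2
    · intro u hu huv
      exact hau0 u (Finset.mem_compl.mp hu) v hv (Ne.symm huv)
    · intro h
      exact absurd (Finset.mem_compl.mpr hv) h
  have hRnn : ∀ v, 0 ≤ R v := by
    intro v
    rw [hR, Finset.sum_apply]
    exact Finset.sum_nonneg fun u hu => (hau u (Finset.mem_compl.mp hu)).1.2.1 v
  have hRb : ∀ i v, D.blk v = some i → (D.l v : ℚ) * R (e i) ≤ R v := by
    intro i v hv
    rw [hR, Finset.sum_apply, Finset.sum_apply, Finset.mul_sum]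
    exact Finset.sum_le_sum fun u hu => hblock u (Finset.mem_compl.mp hu) i v hv
  have hab : ∀ i v, D.blk v = some i → (D.l v : ℚ) * a (e i) ≤ a v := by
    intro i v hv
    by_cases h : v = e i
    · rw [h, (he i).2.1]
      simp
    · exact (ha1 i v hv h).le
  have hax : ∀ v, v ∉ x → a v = 0 := ha.2.2
  -- the first section
  have P1 : ∃ c k, 1 ≤ k ∧ D.Sec (D.can + N • A) c k ∧ (∀ v, v ∉ x → c v = 0) ∧
      (∀ i, c (e i) = 0) ∧ ∀ v ∈ x, (∀ i, v ≠ e i) → 0 < c v := by
    set p : ℕ := N - n + 1 with hp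
    have hp3 : (3 : ℚ) ≤ p := by
      have : 3 ≤ p := by omega
      exact_mod_cast this
    have hQ : D.Rep (N • A) (p • a + R) := by
      have := (ha.1.nsmul p).add hRrep
      rw [← add_smul] at this
      have h1 : p + (xᶜ).card = N := by omega
      rwa [h1] at this
    have hQv : ∀ v, (p • a + R) v = p * a v + R v := by
      intro v
      rw [Pi.add_apply, Pi.smul_apply, nsmul_eq_mul]
    obtain ⟨c, k, hk, hsec, hcx, hce, hcb, hcf⟩ := parsec_round G hO hF hS
      (fun i => ⟨(he i).1, (he i).2.1⟩) hQ (d := 1) (m := 1)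
      (fun v hv => by rw [hQv, hax v hv, hRx v hv]; simp) (fun v _ => le_refl _)
      (fun i v hv => by
        rw [hQv, hQv]
        have h1 := hRb i v hv
        have h2 := mul_le_mul_of_nonneg_left (hab i v hv) (by linarith : (0 : ℚ) ≤ p)
        linarith)
      (fun v hv hn => by
        rw [hQv]
        have h1 := haint v hv hn
        have h2 := hRnn v
        nlinarith)
      (by
        simp_rw [hQv]
        rw [Finset.sum_add_distrib, ← Finset.mul_sum]
        have h1 : (0 : ℚ) ≤ ∑ i, R (e i) := Finset.sum_nonneg fun i _ => hRnn _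
        push_cast
        nlinarith)
    refine ⟨c, k, hk, hsec, fun v hv => by rw [hcx v hv]; simp, hce, ?_⟩
    intro v hv hne
    cases h : D.blk v with
    | none =>
      have h1 := hcf v hv h
      rw [hQv] at h1
      have h2 := haint v hv h
      have h3 := hRnn v
      have : (0 : ℚ) < (c v : ℚ) := by
        rw [h1]
        nlinarith
      exact_mod_cast this
    | some i =>
      have h1 := hcb i v h
      rw [hQv, hQv] at h1
      have h2 := ha1 i v h (hne i)
      have h3 := hRb i v h
      have h4 : (1 : ℚ) ≤ D.l v := by exact_mod_cast G.lpos v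
      have h5 : (p : ℚ) * ((D.l v : ℚ) * a (e i)) < p * a v :=
        mul_lt_mul_of_pos_left h2 (by linarith)
      have : (0 : ℚ) < (c v : ℚ) := by
        rw [h1]
        linarith
      exact_mod_cast this
  -- the directions
  have P2 : ∀ v, v ∉ x → ∃ c k, D.Sec (D.can + N • A) c k ∧ c v = 1 ∧
      (∀ u, u ∉ x → u ≠ v → c u = 0) ∧ ∀ i, c (e i) = 0 := by
    intro v hv
    set p : ℕ := N - n with hp
    have hp3 : (2 : ℚ) ≤ p := by
      have : 2 ≤ p := by omega
      exact_mod_cast this
    have hQ : D.Rep (N • A) (p • a + R + au v) := by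
      have := ((ha.1.nsmul p).add hRrep).add (hau v hv).1.1
      rw [← add_smul, ← succ_nsmul] at this
      have h1 : p + (xᶜ).card + 1 = N := by omega
      rwa [h1] at this
    have hQv : ∀ u, (p • a + R + au v) u = p * a u + R u + au v u := by
      intro u
      rw [Pi.add_apply, Pi.add_apply, Pi.smul_apply, nsmul_eq_mul]
    have hvn : ∀ u, 0 ≤ au v u := (hau v hv).1.2.1
    obtain ⟨c, k, hk, hsec, hcx, hce, hcb, hcf⟩ := parsec_round G hO hF hS
      (fun i => ⟨(he i).1, (he i).2.1⟩) hQ (d := 1 + Pi.single v 1) (m := 0)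
      (fun u hu => by
        rw [hQv, hax u hu, hRx u hu]
        by_cases huv : u = v
        · rw [huv, (hau v hv).2]
          simp
          norm_num
        · rw [hau0 v hv u hu huv]
          simp [huv])
      (fun u _ => by
        by_cases huv : u = v
        · rw [huv]; simp
        · simp [huv])
      (fun i u hu => by
        rw [hQv, hQv]
        have h1 := hRb i u hu
        have h2 := mul_le_mul_of_nonneg_left (hab i u hu) (by linarith : (0 : ℚ) ≤ p)
        have h3 := hblock v hv i u hu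
        linarith)
      (fun u hu hn => by
        rw [hQv]
        have h1 := haint u hu hn
        have h2 := hRnn u
        have h3 := hvn u
        nlinarith)
      (by
        simp_rw [hQv]
        rw [Finset.sum_add_distrib, Finset.sum_add_distrib, ← Finset.mul_sum]
        have h1 : (0 : ℚ) ≤ ∑ i, R (e i) := Finset.sum_nonneg fun i _ => hRnn _
        have h2 : (0 : ℚ) ≤ ∑ i, au v (e i) := Finset.sum_nonneg fun i _ => hvn _
        push_cast
        nlinarith)
    refine ⟨c, k, hsec, ?_, ?_, hce⟩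
    · rw [hcx v hv]
      simp
    · intro u hu huv
      rw [hcx u hu]
      simp [huv]
  refine ⟨P1, ⟨?_, ?_⟩, ?_⟩
  · obtain ⟨c, k, -, hsec, hcx, -, -⟩ := P1
    exact ⟨c, k, hsec, hcx⟩
  · intro v hv
    obtain ⟨c, k, h1, h2, h3, -⟩ := P2 v hv
    exact ⟨c, k, h1, h2, h3⟩
  · intro i
    have hmem : ∀ u, u ∉ x.erase (e i) → u = e i ∨ u ∉ x := by
      intro u hu
      rw [Finset.mem_erase, not_and_or, not_not] at hu
      exact hu
    constructor
    · obtain ⟨c, k, -, hsec, hcx, hce, -⟩ := P1
      refine ⟨c, k, hsec, fun v hv => ?_⟩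
      rcases hmem v hv with rfl | h
      · exact hce i
      · exact hcx v h
    · intro v hv
      rcases hmem v hv with rfl | h
      · obtain ⟨c, k, hk, hsec, hcx, hce, -⟩ := P1
        refine ⟨c + D.bl (Pi.single i 1), k - 1, ⟨?_, ?_⟩, ?_, ?_⟩
        · intro u
          have h1 := hsec.1 u
          have h2 : 0 ≤ D.bl (Pi.single i (1 : ℤ)) u := by
            cases hu : D.blk u with
            | none => rw [bl_none _ hu]
            | some j =>
              rw [bl_some _ hu]
              refine mul_nonneg ?_ (Int.natCast_nonneg _)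
              rw [Pi.single_apply]
              split_ifs <;> norm_num
          rw [Pi.add_apply]
          omega
        · rw [dg_add, G.mu_eq]
          have h1 : D.mu + (k - 1) • D.mu = k • D.mu := by
            conv_rhs => rw [show k = 1 + (k - 1) by omega, add_smul, one_smul]
          rw [add_assoc, h1]
          exact hsec.2
        · rw [Pi.add_apply, hce i, bl_some _ (he i).1, (he i).2.1]
          simp
        · intro u hu hne
          rcases hmem u hu with rfl | h
          · exact absurd rfl hne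
          · rw [Pi.add_apply, hcx u h, bl_none _ (hfree u h), add_zero]
      · obtain ⟨c, k, h1, h2, h3, h4⟩ := P2 v h
        refine ⟨c, k, h1, h2, ?_⟩
        intro u hu hne
        rcases hmem u hu with rfl | h'
        · exact h4 i
        · exact h3 u h' hne

end Comb

end Pool.Agent.Helper39.TV
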