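import Pool.Agent.Helper39.TV.Points

/-! TV, module Orbit -/

open Finset MvPolynomial

set_option linter.unusedSectionVars false

namespace Pool.Agent.Helper39.TV

variable {V ι K : Type} [Fintype V] [DecidableEq V] [Fintype ι] [DecidableEq ι] [AddCommGroup K]

namespace CoxData

variable {X : CoxData V ι K} {A : K} {n : ℕ}

theorem exists_char {σ : Finset V} (hgen : ∀ w : K, ∃ b : V → ℤ, (∀ v, v ∉ σ → b v = 0) ∧ X.toComb.dg b = w)
    (r : V → ℂˣ) (hker : ∀ b : V → ℤ, (∀ v, v ∉ σ → b v = 0) → X.toComb.dg b = 0 → ∏ v, r v ^ b v = 1) :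
    ∃ h : Multiplicative K →* ℂˣ, ∀ b : V → ℤ, (∀ v, v ∉ σ → b v = 0) →
      h (Multiplicative.ofAdd (X.toComb.dg b)) = ∏ v, r v ^ b v := by
  choose B hB hBd using hgen
  have hwell : ∀ b b' : V → ℤ, (∀ v, v ∉ σ → b v = 0) → (∀ v, v ∉ σ → b' v = 0) →
      X.toComb.dg b = X.toComb.dg b' → ∏ v, r v ^ b v = ∏ v, r v ^ b' v := by
    intro b b' hb hb' hd
    have h1 := hker (b - b') (fun v hv => by rw [Pi.sub_apply, hb v hv, hb' v hv, sub_zero])
      (by rw [Comb.dg_sub, hd, sub_self])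
    simp only [Pi.sub_apply, zpow_sub, Finset.prod_mul_distrib, Finset.prod_inv_distrib] at h1
    exact mul_inv_eq_one.1 h1
  refine ⟨MonoidHom.mk' (fun w => ∏ v, r v ^ B w.toAdd v) ?_, ?_⟩
  · intro w w'
    rw [← Finset.prod_mul_distrib]
    have h1 := hwell (B (w * w').toAdd) (B w.toAdd + B w'.toAdd) (hB _)
      (fun v hv => by rw [Pi.add_apply, hB _ v hv, hB _ v hv, add_zero])
      (by rw [Comb.dg_add, hBd, hBd, hBd]; rfl)
    rw [h1]
    exact Finset.prod_congr rfl fun v _ => by rw [Pi.add_apply, zpow_add]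
  · intro b hb
    exact hwell _ _ (hB _) hb (hBd _)

theorem exists_addchar {σ : Finset V}
    (hgen : ∀ w : K, ∃ b : V → ℤ, (∀ v, v ∉ σ → b v = 0) ∧ X.toComb.dg b = w)
    (r : V → ℂ) (hker : ∀ b : V → ℤ, (∀ v, v ∉ σ → b v = 0) → X.toComb.dg b = 0 → ∑ v, b v • r v = 0) :
    ∃ h : K →+ ℂ, ∀ b : V → ℤ, (∀ v, v ∉ σ → b v = 0) → h (X.toComb.dg b) = ∑ v, b v • r v := by
  choose B hB hBd using hgen
  have hwell : ∀ b b' : V → ℤ, (∀ v, v ∉ σ → b v = 0) → (∀ v, v ∉ σ → b' v = 0) →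
      X.toComb.dg b = X.toComb.dg b' → ∑ v, b v • r v = ∑ v, b' v • r v := by
    intro b b' hb hb' hd
    have h1 := hker (b - b') (fun v hv => by rw [Pi.sub_apply, hb v hv, hb' v hv, sub_zero])
      (by rw [Comb.dg_sub, hd, sub_self])
    simp only [Pi.sub_apply, sub_smul, Finset.sum_sub_distrib] at h1
    exact sub_eq_zero.1 h1
  refine ⟨AddMonoidHom.mk' (fun w => ∑ v, B w v • r v) ?_, ?_⟩
  · intro w w'
    rw [← Finset.sum_add_distrib]
    have h1 := hwell (B (w + w')) (B w + B w') (hB _)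
      (fun v hv => by rw [Pi.add_apply, hB _ v hv, hB _ v hv, add_zero])
      (by rw [Comb.dg_add, hBd, hBd, hBd])
    rw [h1]
    exact Finset.sum_congr rfl fun v _ => by rw [Pi.add_apply, add_smul]
  · intro b hb
    exact hwell _ _ (hB _) hb (hBd _)

end CoxData

end Pool.Agent.Helper39.TV
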