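import Pool.Agent.Helper39.TV.PGood
import Pool.Agent.Helper39.TV.Orbit

/-! TV, module SepA -/

open Finset MvPolynomial

set_option linter.unusedSectionVars false

namespace Pool.Agent.Helper39.TV

variable {V ι K : Type} [Fintype V] [DecidableEq V] [Fintype ι] [DecidableEq ι] [AddCommGroup K]

namespace CoxData

variable {X : CoxData V ι K} {A : K} {n : ℕ}

theorem sepA_bl_single (D : Comb V ι K) (i : ι) (v : V) :
    D.bl (Pi.single i (1 : ℤ)) v = if D.blk v = some i then (D.l v : ℤ) else 0 := by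
  cases hv : D.blk v with
  | none => rw [Comb.bl_none _ hv]; simp
  | some j =>
    rw [Comb.bl_some _ hv]
    by_cases hij : j = i
    · subst hij; simp
    · rw [Pi.single_eq_of_ne hij, zero_mul, if_neg]
      simpa using hij

/-- monomials whose exponent has support in `t` -/
theorem sepA_mon {x y : V ⊕ Fin 2 → ℂ} {t : Finset V} {r : V → ℂˣ}
    (hr : ∀ v ∈ t, y (Sum.inl v) = r v * x (Sum.inl v)) {c : V → ℤ} (hc : ∀ v, 0 ≤ c v)
    (hc0 : ∀ v, v ∉ t → c v = 0) :
    mon c y = ((∏ v, r v ^ c v : ℂˣ) : ℂ) * mon c x := by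
  unfold mon
  rw [Units.coe_prod, ← Finset.prod_mul_distrib]
  refine Finset.prod_congr rfl fun v _ => ?_
  by_cases hv : v ∈ t
  · rw [hr v hv, mul_pow]
    congr 1
    have : c v = ((c v).toNat : ℤ) := (Int.toNat_of_nonneg (hc v)).symm
    conv_rhs => rw [this, zpow_natCast, Units.val_pow_eq_pow_val]
  · rw [hc0 v hv]; simp

theorem sepA_mon_split {x : V ⊕ Fin 2 → ℂ} {c : V → ℤ} {v : V} (hv : c v = 1) :
    mon c x = x (Sum.inl v) * mon (c - Pi.single v 1) x := by
  unfold mon
  have h1 := Finset.mul_prod_erase Finset.univ (fun u => x (Sum.inl u) ^ (c u).toNat)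
    (Finset.mem_univ v)
  have h2 := Finset.mul_prod_erase Finset.univ
    (fun u => x (Sum.inl u) ^ ((c - Pi.single v 1 : V → ℤ) u).toNat) (Finset.mem_univ v)
  rw [← h1, ← h2]
  simp only [Pi.sub_apply, Pi.single_eq_same, hv, sub_self, Int.toNat_zero, pow_zero, one_mul,
    Int.toNat_one, pow_one]
  congr 1
  refine Finset.prod_congr rfl fun u hu => ?_
  rw [Pi.single_eq_of_ne (Finset.ne_of_mem_erase hu), sub_zero]

theorem sepA (h : X.SmoothProjective A n) {w : K} {x y : V ⊕ Fin 2 → ℂ} (hx : x ∈ X.semistable A)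
    (hy : y ∈ X.semistable A) {θ : ℂ} (hθ : θ ≠ 0) (hxy : ∀ j, y (Sum.inr j) = θ * x (Sum.inr j))
    (hx0 : ∃ j, x (Sum.inr j) ≠ 0) {τ : Finset V} (hτx : τ ⊆ supp x) (hτy : τ ⊆ supp y)
    (hF : X.toComb.Fixed τ) (hA : X.toComb.Adm τ) (hS : X.toComb.Semi A τ)
    (hfull : ∀ i, X.toComb.Full (supp x) i → X.toComb.Full τ i) (hC : X.toComb.Chart w τ)
    {C : ℂ} (hev : ∀ f, X.IsSection w f → eval y f = C * eval x f) : X.SameOrbit x y := by
  classical
  have G := good h
  have hxne : ∀ v ∈ τ, x (Sum.inl v) ≠ 0 := fun v hv => mem_supp.1 (hτx hv)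
  have hyne : ∀ v ∈ τ, y (Sum.inl v) ≠ 0 := fun v hv => mem_supp.1 (hτy hv)
  obtain ⟨r, hr⟩ : ∃ r : V → ℂˣ, ∀ v ∈ τ, y (Sum.inl v) = r v * x (Sum.inl v) := by
    refine ⟨fun v => if hv : v ∈ τ then
      Units.mk0 (y (Sum.inl v) / x (Sum.inl v)) (div_ne_zero (hyne v hv) (hxne v hv)) else 1, ?_⟩
    intro v hv
    simp only [dif_pos hv, Units.val_mk0]
    rw [div_mul_cancel₀ _ (hxne v hv)]
  set θu : ℂˣ := Units.mk0 θ hθ with hθu
  -- the block products
  have hblock : ∀ i, X.toComb.Full τ i → ∏ v, r v ^ (X.toComb.bl (Pi.single i (1 : ℤ)) v) = θu := by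
    intro i hi
    have h1 := total_iff.1 hx.1 i
    have h2 := total_iff.1 hy.1 i
    have h3 : X.form i x ≠ 0 := by
      rw [← h1]
      refine Finset.prod_ne_zero_iff.2 fun v hv => pow_ne_zero _ (hxne v (hi v ?_))
      simpa using hv
    have h4 : X.form i y = θ * X.form i x := by
      unfold form; rw [hxy, hxy]; ring
    have h5 : ((∏ v, r v ^ (X.toComb.bl (Pi.single i (1 : ℤ)) v) : ℂˣ) : ℂ) * X.form i x =
        X.form i y := by
      rw [← h1, ← h2, Finset.prod_filter, Finset.prod_filter, Units.coe_prod,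
        ← Finset.prod_mul_distrib]
      refine Finset.prod_congr rfl fun v _ => ?_
      rw [sepA_bl_single]
      by_cases hv : X.toComb.blk v = some i
      · rw [if_pos hv, if_pos hv, if_pos hv, hr v (hi v hv), mul_pow, zpow_natCast,
          Units.val_pow_eq_pow_val]
      · rw [if_neg hv, if_neg hv, if_neg hv]; simp
    rw [h4] at h5
    apply Units.ext
    rw [hθu, Units.val_mk0]
    exact mul_right_cancel₀ h3 h5
  -- the kernel condition
  have hker : ∀ b : V → ℤ, (∀ v, v ∉ τ → b v = 0) → X.toComb.dg b = 0 → ∏ v, r v ^ b v = 1 := by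
    intro b hb hd
    obtain ⟨c, hc, rfl⟩ := hF b hb hd
    have h1 : ∀ v, r v ^ (X.toComb.bl c v) =
        ∏ i, (r v ^ (X.toComb.bl (Pi.single i (1 : ℤ)) v)) ^ c i := by
      intro v
      rw [Comb.bl_eq_sum, Finset.sum_apply]
      simp only [Pi.smul_apply, smul_eq_mul]
      have h2 : ∀ (s : Finset ι) (g : ι → ℤ), r v ^ (∑ i ∈ s, g i) = ∏ i ∈ s, r v ^ g i := by
        intro s g
        induction s using Finset.induction_on with
        | empty => simp
        | insert a s ha ih => rw [Finset.sum_insert ha, Finset.prod_insert ha, zpow_add, ih]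
      rw [h2]
      refine Finset.prod_congr rfl fun i _ => ?_
      rw [← zpow_mul, mul_comm]
    simp_rw [h1]
    rw [Finset.prod_comm]
    have h3 : ∀ i, ∏ v, (r v ^ (X.toComb.bl (Pi.single i (1 : ℤ)) v)) ^ c i = θu ^ c i := by
      intro i
      by_cases hi : X.toComb.Full τ i
      · rw [Finset.prod_zpow, hblock i hi]
      · rw [Comb.bl_zero_of_not_full G.lpos hb hi]; simp
    simp_rw [h3]
    have h4 : ∀ s : Finset ι, ∏ i ∈ s, θu ^ c i = θu ^ (∑ i ∈ s, c i) := by
      intro s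
      induction s using Finset.induction_on with
      | empty => simp
      | insert a s ha ih => rw [Finset.sum_insert ha, Finset.prod_insert ha, zpow_add, ih]
    rw [h4, hc, zpow_zero]
  obtain ⟨g, hg⟩ := exists_char (X := X) (fun w => G.gen τ hA hS w) r hker
  have hgv : ∀ v ∈ τ, g (Multiplicative.ofAdd (X.deg v)) = r v := by
    intro v hv
    have h1 := hg (Pi.single v 1) (fun u hu => by
      rw [Pi.single_eq_of_ne]; rintro rfl; exact hu hv)
    rw [Comb.dg_single] at h1
    rw [h1, Finset.prod_eq_single v]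
    · simp
    · intro u _ hu; rw [Pi.single_eq_of_ne hu, zpow_zero]
    · simp
  -- a full block
  have hEx : ¬ X.toComb.Ell (supp x) := by
    intro hE
    obtain ⟨j, hj⟩ := hx0
    exact hj ((ell_supp_iff h hx.1).1 hE j)
  obtain ⟨i0, hi0⟩ : ∃ i, X.toComb.Full (supp x) i := by
    simpa only [Comb.Ell, not_forall, not_not] using hEx
  have hi0 : X.toComb.Full τ i0 := hfull i0 hi0
  have hgmu : g (Multiplicative.ofAdd X.mu) = θu := by
    have h1 := hg (X.toComb.bl (Pi.single i0 1)) (fun v hv => by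
      rw [sepA_bl_single, if_neg]
      exact fun h2 => hv (hi0 v h2))
    rw [G.mu_eq i0] at h1
    rw [h1, hblock i0 hi0]
  -- values of monomials
  have hmon : ∀ c : V → ℤ, (∀ v, 0 ≤ c v) → (∀ v, v ∉ τ → c v = 0) →
      mon c y = (g (Multiplicative.ofAdd (X.toComb.dg c)) : ℂ) * mon c x := by
    intro c hc hc0
    rw [sepA_mon hr hc hc0, hg c hc0]
  have hmonx : ∀ c : V → ℤ, (∀ v, v ∉ τ → c v = 0) → mon c x ≠ 0 := by
    intro c hc0
    unfold mon
    refine Finset.prod_ne_zero_iff.2 fun v _ => ?_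
    by_cases hv : v ∈ τ
    · exact pow_ne_zero _ (hxne v hv)
    · rw [hc0 v hv]; simp
  obtain ⟨j0, hj0⟩ := hx0
  have hlin : ∀ z : V ⊕ Fin 2 → ℂ, lin (Pi.single j0 1) z = z (Sum.inr j0) := by
    intro z
    unfold lin
    fin_cases j0 <;> simp
  obtain ⟨⟨c0, k0, hsec0, hc00⟩, hdir⟩ := hC
  -- C = g w
  have hCg : C = (g (Multiplicative.ofAdd w) : ℂ) := by
    obtain ⟨f, hf, hfe, -⟩ := exists_sec hsec0 (fun _ => Pi.single j0 1)
    have h1 := hev f hf
    rw [hfe, hfe] at h1
    simp only [hlin, Finset.prod_const, Finset.card_univ, Fintype.card_fin] at h1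
    rw [hmon c0 hsec0.1 hc00, hxy, mul_pow] at h1
    have h2 : mon c0 x * x (Sum.inr j0) ^ k0 ≠ 0 := mul_ne_zero (hmonx c0 hc00) (pow_ne_zero _ hj0)
    have h3 : (g (Multiplicative.ofAdd w) : ℂ) =
        (g (Multiplicative.ofAdd (X.toComb.dg c0)) : ℂ) * θ ^ k0 := by
      rw [← hsec0.2, ofAdd_add, ofAdd_nsmul, map_mul, map_pow, hgmu, Units.val_mul,
        Units.val_pow_eq_pow_val, hθu, Units.val_mk0]
    rw [h3]
    apply mul_right_cancel₀ h2
    rw [← h1]; ring
  refine ⟨g, fun s => ?_⟩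
  rcases s with v | j
  · change y (Sum.inl v) = (g (Multiplicative.ofAdd (X.deg v)) : ℂ) * x (Sum.inl v)
    by_cases hv : v ∈ τ
    · rw [hgv v hv, hr v hv]
    · obtain ⟨c, k, hsec, hcv, hc0⟩ := hdir v hv
      obtain ⟨f, hf, hfe, -⟩ := exists_sec hsec (fun _ => Pi.single j0 1)
      have h1 := hev f hf
      rw [hfe, hfe] at h1
      simp only [hlin, Finset.prod_const, Finset.card_univ, Fintype.card_fin] at h1
      have hc'0 : ∀ u, u ∉ τ → (c - Pi.single v 1 : V → ℤ) u = 0 := by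
        intro u hu
        by_cases huv : u = v
        · subst huv; simp [hcv]
        · simp [Pi.single_eq_of_ne huv, hc0 u hu huv]
      have hc' : ∀ u, 0 ≤ (c - Pi.single v 1 : V → ℤ) u := by
        intro u
        by_cases huv : u = v
        · subst huv; simp [hcv]
        · simp only [Pi.sub_apply, Pi.single_eq_of_ne huv, sub_zero]
          exact hsec.1 u
      rw [sepA_mon_split hcv, sepA_mon_split hcv, hmon _ hc' hc'0, hxy, mul_pow, hCg] at h1
      have h3 : (g (Multiplicative.ofAdd w) : ℂ) = (g (Multiplicative.ofAdd (X.deg v)) : ℂ) *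
          ((g (Multiplicative.ofAdd (X.toComb.dg (c - Pi.single v 1))) : ℂ) * θ ^ k) := by
        have h4 : w = X.deg v + (X.toComb.dg (c - Pi.single v 1) + k • X.mu) := by
          rw [← hsec.2, Comb.dg_sub, Comb.dg_single]; abel
        conv_lhs => rw [h4]
        rw [ofAdd_add, ofAdd_add, ofAdd_nsmul, map_mul, map_mul, map_pow, hgmu, Units.val_mul,
          Units.val_mul, Units.val_pow_eq_pow_val, hθu, Units.val_mk0]
      have h5 : (g (Multiplicative.ofAdd (X.toComb.dg (c - Pi.single v 1))) : ℂ) * θ ^ k *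
          (mon (c - Pi.single v 1) x * x (Sum.inr j0) ^ k) ≠ 0 :=
        mul_ne_zero (mul_ne_zero (Units.ne_zero _) (pow_ne_zero _ hθ))
          (mul_ne_zero (hmonx _ hc'0) (pow_ne_zero _ hj0))
      apply mul_right_cancel₀ h5
      rw [h3] at h1
      linear_combination h1
  · change y (Sum.inr j) = (g (Multiplicative.ofAdd X.mu) : ℂ) * x (Sum.inr j)
    rw [hgmu, hxy, hθu, Units.val_mk0]

end CoxData

end Pool.Agent.Helper39.TV
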