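import Pool.Agent.Helper39.TV.PGood
import Pool.Agent.Helper39.TV.Orbit
import Pool.Agent.Helper39.TV.EB
import Pool.Agent.Helper39.TV.SepA

/-! TV, module SepE -/

open Finset MvPolynomial

set_option linter.unusedSectionVars false

namespace Pool.Agent.Helper39.TV

variable {V ι K : Type} [Fintype V] [DecidableEq V] [Fintype ι] [DecidableEq ι] [AddCommGroup K]

namespace Comb

variable {D : Comb V ι K} {A : K} {n : ℕ}

/-- integral vectors of degree 0 with elliptic fixed support vanish -/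
theorem sepE_ker (G : D.Good A n) {x : Finset V} (hE : D.Ell x) (hF : D.Fixed x) {b : V → ℤ}
    (hb : ∀ v, v ∉ x → b v = 0) (hd : D.dg b = 0) : b = 0 := by
  obtain ⟨c, hc, rfl⟩ := hF b hb hd
  have : c = 0 := by
    funext i
    exact bl_zero_of_not_full G.lpos hb (hE i)
  rw [this, bl_zero]

/-- the section of degree `w` at an elliptic point -/
theorem sepE_sec (G : D.Good A n) {x : Finset V} (hE : D.Ell x) (hS : D.Semi A x) {w : K}
    (h1 : ∀ u ∈ x, 1 ≤ D.rp x w u) : D.Sec w (D.rp x w) 0 := by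
  refine ⟨fun v => ?_, ?_⟩
  · by_cases hv : v ∈ x
    · have := h1 v hv; omega
    · rw [rp_supp G hE hS _ hv]
  · rw [rp_dg G hE hS, zero_smul, add_zero]

/-- the section in the direction `v` -/
theorem sepE_dir (G : D.Good A n) {x : Finset V} (hE : D.Ell x) (hS : D.Semi A x) {w : K} {v : V}
    (hv : v ∉ x) (h1 : ∀ u ∈ x, 0 ≤ D.rp x (w - D.deg v) u) :
    D.Sec w (D.rp x (w - D.deg v) + Pi.single v 1) 0 ∧
      (D.rp x (w - D.deg v) + Pi.single v 1 : V → ℤ) v = 1 ∧
      (D.rp x (w - D.deg v) + Pi.single v 1 : V → ℤ) - Pi.single v 1 = D.rp x (w - D.deg v) ∧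
      (∀ u, 0 ≤ D.rp x (w - D.deg v) u) := by
  have h2 : ∀ u, 0 ≤ D.rp x (w - D.deg v) u := by
    intro u
    by_cases hu : u ∈ x
    · exact h1 u hu
    · rw [rp_supp G hE hS _ hu]
  refine ⟨⟨fun u => ?_, ?_⟩, ?_, ?_, h2⟩
  · simp only [Pi.add_apply]
    have h3 : (0 : ℤ) ≤ Pi.single (M := fun _ => ℤ) v 1 u := by
      by_cases huv : u = v
      · subst huv; simp
      · rw [Pi.single_eq_of_ne huv]
    exact add_nonneg (h2 u) h3
  · rw [dg_add, rp_dg G hE hS, dg_single, zero_smul, add_zero, sub_add_cancel]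
  · simp [rp_supp G hE hS _ hv]
  · simp

end Comb

namespace CoxData

variable {X : CoxData V ι K} {A : K} {n : ℕ}

/-- the coordinates `p` are determined by two forms -/
theorem sepE_forms (h : X.SmoothProjective A n) {i j : ι} (hij : i ≠ j) {x y : V ⊕ Fin 2 → ℂ} {θ : ℂ}
    (hi : X.form i y = θ * X.form i x) (hj : X.form j y = θ * X.form j x) :
    ∀ k, y (Sum.inr k) = θ * x (Sum.inr k) := by
  have hdet : X.a i 0 * X.a j 1 - X.a i 1 * X.a j 0 ≠ 0 := sub_ne_zero.2 (h.indep i j hij)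
  unfold form at hi hj
  intro k
  fin_cases k
  · apply mul_left_cancel₀ hdet
    show _ * y (Sum.inr 0) = _ * (θ * x (Sum.inr 0))
    linear_combination X.a j 1 * hi - X.a i 1 * hj
  · apply mul_left_cancel₀ hdet
    show _ * y (Sum.inr 1) = _ * (θ * x (Sum.inr 1))
    linear_combination X.a i 0 * hj - X.a j 0 * hi

theorem sepE (h : X.SmoothProjective A n) {w : K} {x y : V ⊕ Fin 2 → ℂ} (hx : x ∈ X.semistable A)
    (hy : y ∈ X.semistable A) {τ : Finset V} (hτx : τ ⊆ supp x)
    (hE : X.toComb.Ell τ) (hF : X.toComb.Fixed τ) (hS : X.toComb.Semi A τ) (hC : X.toComb.EChart w τ)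
    {C : ℂ} (hC0 : C ≠ 0) (hev : ∀ f, X.IsSection w f → eval y f = C * eval x f) :
    X.SameOrbit x y := by
  classical
  have G := good h
  obtain ⟨i, j, hij, hsim, h1, h2⟩ := hC
  have hxne : ∀ v ∈ τ, x (Sum.inl v) ≠ 0 := fun v hv => mem_supp.1 (hτx hv)
  have hmonx : ∀ c : V → ℤ, (∀ v, v ∉ τ → c v = 0) → mon c x ≠ 0 := by
    intro c hc0
    unfold mon
    refine Finset.prod_ne_zero_iff.2 fun v _ => ?_
    by_cases hv : v ∈ τ
    · exact pow_ne_zero _ (hxne v hv)
    · rw [hc0 v hv]; simp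
  have hsec := Comb.sepE_sec G hE hS h1
  have hrel : ∀ {c : V → ℤ}, X.toComb.Sec w c 0 → mon c y = C * mon c x := by
    intro c hc
    obtain ⟨f, hf, hfe, -⟩ := exists_sec hc (fun _ => 0)
    have h3 := hev f hf
    rw [hfe, hfe] at h3
    simpa using h3
  have h0 := hrel hsec
  have hmy : mon (X.toComb.rp τ w) y ≠ 0 := by
    rw [h0]
    exact mul_ne_zero hC0 (hmonx _ fun v hv => Comb.rp_supp G hE hS _ hv)
  have hyne : ∀ v ∈ τ, y (Sum.inl v) ≠ 0 := by
    intro v hv hyv
    apply hmy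
    unfold mon
    refine Finset.prod_eq_zero (Finset.mem_univ v) ?_
    rw [hyv]
    have := h1 v hv
    exact zero_pow (by omega)
  obtain ⟨r, hr⟩ : ∃ r : V → ℂˣ, ∀ v ∈ τ, y (Sum.inl v) = r v * x (Sum.inl v) := by
    refine ⟨fun v => if hv : v ∈ τ then
      Units.mk0 (y (Sum.inl v) / x (Sum.inl v)) (div_ne_zero (hyne v hv) (hxne v hv)) else 1, ?_⟩
    intro v hv
    simp only [dif_pos hv, Units.val_mk0]
    rw [div_mul_cancel₀ _ (hxne v hv)]
  have hker : ∀ b : V → ℤ, (∀ v, v ∉ τ → b v = 0) → X.toComb.dg b = 0 → ∏ v, r v ^ b v = 1 := by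
    intro b hb hd
    rw [Comb.sepE_ker G hE hF hb hd]; simp
  obtain ⟨g, hg⟩ := exists_char (X := X) (fun w => G.gen τ (Or.inl hE) hS w) r hker
  have hmon : ∀ c : V → ℤ, (∀ v, 0 ≤ c v) → (∀ v, v ∉ τ → c v = 0) →
      mon c y = (g (Multiplicative.ofAdd (X.toComb.dg c)) : ℂ) * mon c x := by
    intro c hc hc0
    rw [sepA_mon hr hc hc0, hg c hc0]
  have hCg : C = (g (Multiplicative.ofAdd w) : ℂ) := by
    have h3 := hmon _ hsec.1 (fun v hv => Comb.rp_supp G hE hS _ hv)
    rw [Comb.rp_dg G hE hS, h0] at h3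
    exact mul_right_cancel₀ (hmonx _ fun v hv => Comb.rp_supp G hE hS _ hv) h3
  have hgτ : ∀ v ∈ τ, y (Sum.inl v) = (g (Multiplicative.ofAdd (X.deg v)) : ℂ) * x (Sum.inl v) := by
    intro v hv
    have h3 := hg (Pi.single v 1) (fun u hu => by
      rw [Pi.single_eq_of_ne]; rintro rfl; exact hu hv)
    rw [Comb.dg_single] at h3
    rw [h3, Finset.prod_eq_single v]
    · simp [hr v hv]
    · intro u _ hu; rw [Pi.single_eq_of_ne hu, zpow_zero]
    · simp
  have hgZ : ∀ v ∈ X.toComb.Z τ i j,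
      y (Sum.inl v) = (g (Multiplicative.ofAdd (X.deg v)) : ℂ) * x (Sum.inl v) := by
    intro v hv
    have hvτ : v ∉ τ := by
      have := (Finset.mem_filter.1 hv).1
      simpa using this
    obtain ⟨hs, hsv, hsub, hnn⟩ := Comb.sepE_dir G hE hS hvτ (h2 v hv)
    have h3 := hrel hs
    rw [sepA_mon_split hsv, sepA_mon_split hsv, hsub,
      hmon _ hnn (fun u hu => Comb.rp_supp G hE hS _ hu), Comb.rp_dg G hE hS, hCg] at h3
    have h4 : (g (Multiplicative.ofAdd w) : ℂ) = (g (Multiplicative.ofAdd (X.deg v)) : ℂ) *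
        (g (Multiplicative.ofAdd (w - X.deg v)) : ℂ) := by
      rw [← Units.val_mul, ← map_mul, ← ofAdd_add, add_sub_cancel]
    have h5 : (g (Multiplicative.ofAdd (w - X.deg v)) : ℂ) * mon (X.toComb.rp τ (w - X.deg v)) x ≠ 0 :=
      mul_ne_zero (Units.ne_zero _) (hmonx _ fun u hu => Comb.rp_supp G hE hS _ hu)
    apply mul_right_cancel₀ h5
    rw [h4] at h3
    linear_combination h3
  -- products over a block
  have hgblock : ∀ m, ∏ v with X.blk v = some m, (g (Multiplicative.ofAdd (X.deg v)) : ℂ) ^ X.l v =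
      (g (Multiplicative.ofAdd X.mu) : ℂ) := by
    intro m
    rw [← h.homog m]
    have h3 : ∀ s : Finset V, g (Multiplicative.ofAdd (∑ v ∈ s, X.l v • X.deg v)) =
        ∏ v ∈ s, g (Multiplicative.ofAdd (X.deg v)) ^ X.l v := by
      intro s
      induction s using Finset.induction_on with
      | empty => simp
      | insert a s ha ih =>
        rw [Finset.sum_insert ha, Finset.prod_insert ha, ofAdd_add, map_mul, ofAdd_nsmul, map_pow, ih]
    rw [h3, Units.coe_prod]
    simp
  have hform : ∀ m, (∀ v, X.blk v = some m →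
      y (Sum.inl v) = (g (Multiplicative.ofAdd (X.deg v)) : ℂ) * x (Sum.inl v)) →
      X.form m y = (g (Multiplicative.ofAdd X.mu) : ℂ) * X.form m x := by
    intro m hm
    rw [← total_iff.1 hx.1 m, ← total_iff.1 hy.1 m, ← hgblock m, ← Finset.prod_mul_distrib]
    refine Finset.prod_congr rfl fun v hv => ?_
    rw [hm v (Finset.mem_filter.1 hv).2, mul_pow]
  have hmemZ : ∀ v m, v ∉ τ → X.blk v = some m → (m = i ∨ m = j) → v ∈ X.toComb.Z τ i j := by
    intro v m hv hm hmij
    refine Finset.mem_filter.2 ⟨by simpa using hv, fun m' h3 h4 h5 => ?_⟩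
    rw [hm] at h5
    have : m = m' := Option.some.inj h5
    subst this
    rcases hmij with h6 | h6
    · exact h3 h6
    · exact h4 h6
  have hfi := hform i (fun v hv => by
    by_cases hvτ : v ∈ τ
    · exact hgτ v hvτ
    · exact hgZ v (hmemZ v i hvτ hv (Or.inl rfl)))
  have hfj := hform j (fun v hv => by
    by_cases hvτ : v ∈ τ
    · exact hgτ v hvτ
    · exact hgZ v (hmemZ v j hvτ hv (Or.inr rfl)))
  have hp := sepE_forms h hij hfi hfj
  refine ⟨g, fun s => ?_⟩
  rcases s with v | k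
  · change y (Sum.inl v) = (g (Multiplicative.ofAdd (X.deg v)) : ℂ) * x (Sum.inl v)
    by_cases hvτ : v ∈ τ
    · exact hgτ v hvτ
    by_cases hvZ : v ∈ X.toComb.Z τ i j
    · exact hgZ v hvZ
    -- simple block
    obtain ⟨m, hmi, hmj, hvm⟩ : ∃ m, m ≠ i ∧ m ≠ j ∧ X.blk v = some m := by
      by_contra hcon
      push Not at hcon
      exact hvZ (Finset.mem_filter.2 ⟨by simpa using hvτ, fun m h3 h4 h5 => hcon m h3 h4 h5⟩)
    obtain ⟨p, ⟨hpτ, hpm, hpall⟩, hlp⟩ := hsim m hmi hmj
    have hvp : v = p := by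
      by_contra hne
      exact hvτ (hpall v hvm hne)
    subst hvp
    have hmem : v ∈ univ.filter (fun v => X.blk v = some m) :=
      Finset.mem_filter.2 ⟨Finset.mem_univ v, hvm⟩
    have h3 := total_iff.1 hx.1 m
    have h4 := total_iff.1 hy.1 m
    have h5 := hgblock m
    have h6 : X.form m y = (g (Multiplicative.ofAdd X.mu) : ℂ) * X.form m x := by
      unfold form; rw [hp, hp]; ring
    rw [← h3, ← h4, ← h5] at h6
    rw [← Finset.mul_prod_erase _ (fun v => y (Sum.inl v) ^ X.l v) hmem,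
      ← Finset.mul_prod_erase _ (fun v => x (Sum.inl v) ^ X.l v) hmem,
      ← Finset.mul_prod_erase _ (fun v => (g (Multiplicative.ofAdd (X.deg v)) : ℂ) ^ X.l v) hmem,
      hlp] at h6
    have h7 : ∏ u ∈ (univ.filter (fun v => X.blk v = some m)).erase v, y (Sum.inl u) ^ X.l u =
        (∏ u ∈ (univ.filter (fun v => X.blk v = some m)).erase v,
          (g (Multiplicative.ofAdd (X.deg u)) : ℂ) ^ X.l u) *
        ∏ u ∈ (univ.filter (fun v => X.blk v = some m)).erase v, x (Sum.inl u) ^ X.l u := by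
      rw [← Finset.prod_mul_distrib]
      refine Finset.prod_congr rfl fun u hu => ?_
      have h8 : u ∈ τ := hpall u (Finset.mem_filter.1 (Finset.mem_of_mem_erase hu)).2
        (Finset.ne_of_mem_erase hu)
      rw [hgτ u h8, mul_pow]
    rw [h7] at h6
    have h8 : (∏ u ∈ (univ.filter (fun v => X.blk v = some m)).erase v,
          (g (Multiplicative.ofAdd (X.deg u)) : ℂ) ^ X.l u) *
        ∏ u ∈ (univ.filter (fun v => X.blk v = some m)).erase v, x (Sum.inl u) ^ X.l u ≠ 0 := by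
      refine mul_ne_zero (Finset.prod_ne_zero_iff.2 fun u _ => pow_ne_zero _ (Units.ne_zero _))
        (Finset.prod_ne_zero_iff.2 fun u hu => pow_ne_zero _ (hxne u ?_))
      exact hpall u (Finset.mem_filter.1 (Finset.mem_of_mem_erase hu)).2
        (Finset.ne_of_mem_erase hu)
    apply mul_right_cancel₀ h8
    linear_combination h6
  · exact hp k

end CoxData

end Pool.Agent.Helper39.TV
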