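import Pool.Agent.Helper39.TV.Basic

/-! TV, module Sole -/

open Finset

set_option linter.unusedSectionVars false

namespace Pool.Agent.Helper39.TV

variable {V ι K : Type} [Fintype V] [DecidableEq V] [Fintype ι] [DecidableEq ι] [AddCommGroup K]

namespace Comb

variable {D : Comb V ι K} {A : K} {n : ℕ}

/-- a fixed point with a sole zero in the block it lies over is on a fixed curve -/
theorem sole_fill (G : D.Good A n) {x : Finset V} {i : ι} {p : V} (hO : D.Over x i) (hp : D.Sole x i p)
    (hF : D.Fixed x) (hS : D.Semi A x) :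
    D.l p = 1 ∧ D.Fixed (insert p x) ∧ ∀ j, D.Full (insert p x) j := by
  obtain ⟨hpx, hpi, hsole⟩ := hp
  obtain ⟨j, hj⟩ : ∃ j, j ≠ i := by
    obtain ⟨a, b, hab⟩ := G.two
    by_cases h : a = i
    · exact ⟨b, fun hb => hab (h.trans hb.symm)⟩
    · exact ⟨a, h⟩
  obtain ⟨b, hb, hbd⟩ := G.gen x (Or.inr ⟨i, hO⟩) hS (D.deg p)
  have hbp : b p = 0 := hb p hpx
  -- the vector `e_p - b`
  have hw : D.dg ((Pi.single p 1 - b : V → ℤ)) = 0 := by rw [dg_sub, dg_single, hbd, sub_self]
  have hrel : D.InRel (D.bl (Pi.single i 1 : ι → ℤ) - D.bl (Pi.single j 1 : ι → ℤ)) := by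
    refine ⟨Pi.single i 1 - Pi.single j 1, ?_, ?_⟩
    · simp [Finset.sum_sub_distrib]
    · rw [bl_sub]
  have hsupp : ∀ v, v ∉ x → (D.bl (Pi.single i 1 : ι → ℤ) - D.bl (Pi.single j 1 : ι → ℤ) -
      (D.l p : ℤ) • ((Pi.single p 1 - b : V → ℤ)) : V → ℤ) v = 0 := by
    intro v hv
    have hbj : D.bl (Pi.single j 1 : ι → ℤ) v = 0 := by
      cases h : D.blk v with
      | none => exact bl_none _ h
      | some k =>
        rw [bl_some _ h]
        have hk : k ≠ j := by
          rintro rfl
          exact hv (hO k hj v h)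
        simp [hk]
    by_cases hvp : v = p
    · subst hvp
      have hbi : D.bl (Pi.single i 1 : ι → ℤ) v = D.l v := by rw [bl_some _ hpi]; simp
      simp only [Pi.sub_apply, Pi.smul_apply, smul_eq_mul, hbi, hbj, hbp]
      simp
    · have hbi : D.bl (Pi.single i 1 : ι → ℤ) v = 0 := by
        cases h : D.blk v with
        | none => exact bl_none _ h
        | some k =>
          rw [bl_some _ h]
          have hk : k ≠ i := by
            rintro rfl
            exact hv (hsole v h hvp)
          simp [hk]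
      simp only [Pi.sub_apply, Pi.smul_apply, smul_eq_mul, hbi, hbj, hb v hv]
      simp [hvp]
  have hd : D.dg (D.bl (Pi.single i 1 : ι → ℤ) - D.bl (Pi.single j 1 : ι → ℤ) -
      (D.l p : ℤ) • ((Pi.single p 1 - b : V → ℤ))) = 0 := by
    rw [dg_sub, dg_sub, G.mu_eq, G.mu_eq, dg_smul, hw]
    simp
  have h1 := hF _ hsupp hd
  have h2 : D.InRel ((D.l p : ℤ) • ((Pi.single p 1 - b : V → ℤ))) := by
    have := hrel.sub h1
    rwa [sub_sub_cancel] at this
  have hl0 : (D.l p : ℤ) ≠ 0 := by
    have := G.lpos p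
    omega
  have h3 : D.InRel ((Pi.single p 1 - b : V → ℤ)) := G.tf _ hw _ hl0 h2
  have hl1 : D.l p = 1 := by
    obtain ⟨c, -, hc⟩ := h3
    have := congrFun hc p
    rw [bl_some _ hpi] at this
    simp only [Pi.sub_apply, Pi.single_eq_same, hbp, sub_zero] at this
    have h4 : (D.l p : ℤ) ∣ 1 := ⟨c i, by rw [this]; ring⟩
    have h5 := Int.eq_one_of_dvd_one (by positivity) h4
    exact_mod_cast h5
  refine ⟨hl1, ?_, ?_⟩
  · intro a ha had
    have h4 : D.InRel (a - a p • ((Pi.single p 1 - b : V → ℤ))) := by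
      refine hF _ (fun v hv => ?_) ?_
      · by_cases hvp : v = p
        · subst hvp
          simp [hbp]
        · have : a v = 0 := ha v (by simp [hvp, hv])
          simp [hvp, this, hb v hv]
      · rw [dg_sub, dg_smul, hw, had]
        simp
    have h5 := h4.add (h3.smul (a p))
    rwa [sub_add_cancel] at h5
  · intro k v hv
    by_cases hk : k = i
    · subst hk
      by_cases hvp : v = p
      · exact Finset.mem_insert.2 (Or.inl hvp)
      · exact Finset.mem_insert_of_mem (hsole v hv hvp)
    · exact Finset.mem_insert_of_mem (hO k hk v hv)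

end Comb

end Pool.Agent.Helper39.TV
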