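import Pool.Agent.Helper39.TV.PGood
import Pool.Agent.Helper39.TV.Orbit
import Pool.Agent.Helper39.TV.SepA

/-! TV, module TanA -/

open Finset MvPolynomial

set_option linter.unusedSectionVars false

namespace Pool.Agent.Helper39.TV

variable {V ι K : Type} [Fintype V] [DecidableEq V] [Fintype ι] [DecidableEq ι] [AddCommGroup K]

namespace CoxData

variable {X : CoxData V ι K} {A : K} {n : ℕ}

theorem tanA_mon_ne {x : V ⊕ Fin 2 → ℂ} {t : Finset V} (hx : ∀ v ∈ t, x (Sum.inl v) ≠ 0) {c : V → ℤ}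
    (hc0 : ∀ v, v ∉ t → c v = 0) : mon c x ≠ 0 := by
  unfold mon
  refine Finset.prod_ne_zero_iff.2 fun v _ => ?_
  by_cases hv : v ∈ t
  · exact pow_ne_zero _ (hx v hv)
  · rw [hc0 v hv]; simp

/-- logarithmic derivative of a monomial -/
theorem tanA_dmon {x ξ : V ⊕ Fin 2 → ℂ} {t : Finset V} {r : V → ℂ}
    (hr : ∀ v ∈ t, ξ (Sum.inl v) = r v * x (Sum.inl v)) {c : V → ℤ} (hc : ∀ v, 0 ≤ c v)
    (hc0 : ∀ v, v ∉ t → c v = 0) : dmon c x ξ = (∑ v, c v • r v) * mon c x := by
  unfold dmon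
  rw [Finset.sum_mul]
  refine Finset.sum_congr rfl fun v _ => ?_
  by_cases hcv : c v = 0
  · rw [hcv]; simp
  have hv : v ∈ t := by
    by_contra hv; exact hcv (hc0 v hv)
  rw [hr v hv]
  have h1 : mon c x = x (Sum.inl v) ^ (c v).toNat * ∏ u ∈ univ.erase v, x (Sum.inl u) ^ (c u).toNat := by
    unfold mon
    rw [Finset.mul_prod_erase _ (fun u => x (Sum.inl u) ^ (c u).toNat) (Finset.mem_univ v)]
  rw [h1]
  obtain ⟨m, hm⟩ : ∃ m : ℕ, c v = m + 1 := ⟨(c v).toNat - 1, by have := hc v; omega⟩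
  have h2 : (c v).toNat = m + 1 := by omega
  rw [h2, hm]
  simp only [Nat.add_sub_cancel]
  push_cast
  rw [zsmul_eq_mul]
  push_cast
  ring

theorem tanA_dmon_split_aux {x ξ : V ⊕ Fin 2 → ℂ} {c c' : V → ℤ} {v : V} (hv : c v = 1)
    (hne : ∀ u, u ≠ v → c' u = c u) (hself : c' v = 0) :
    dmon c x ξ = ξ (Sum.inl v) * mon c' x + x (Sum.inl v) * dmon c' x ξ := by
  unfold dmon
  rw [← Finset.add_sum_erase Finset.univ _ (Finset.mem_univ v), Finset.mul_sum]
  have h1 := Finset.add_sum_erase Finset.univ (fun u => x (Sum.inl v) *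
    (((c' u).toNat : ℂ) * ξ (Sum.inl u) * x (Sum.inl u) ^ ((c' u).toNat - 1) *
        ∏ u' ∈ univ.erase u, x (Sum.inl u') ^ (c' u').toNat)) (Finset.mem_univ v)
  rw [← h1]
  have h2 : mon c' x = ∏ u ∈ univ.erase v, x (Sum.inl u) ^ (c u).toNat := by
    unfold mon
    rw [← Finset.mul_prod_erase Finset.univ (fun u => x (Sum.inl u) ^ (c' u).toNat)
      (Finset.mem_univ v)]
    simp only [hself, Int.toNat_zero, pow_zero, one_mul]
    refine Finset.prod_congr rfl fun u hu => ?_
    rw [hne u (Finset.ne_of_mem_erase hu)]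
  rw [h2]
  simp only [hself, hv, Int.toNat_zero, Int.toNat_one, Nat.cast_zero, Nat.cast_one, zero_mul, one_mul,
    mul_zero, zero_add, Nat.sub_self, pow_zero, mul_one]
  congr 1
  refine Finset.sum_congr rfl fun u hu => ?_
  have huv : u ≠ v := Finset.ne_of_mem_erase hu
  rw [hne u huv]
  have h3 : ∏ u' ∈ univ.erase u, x (Sum.inl u') ^ (c u').toNat = x (Sum.inl v) *
      ∏ u' ∈ univ.erase u, x (Sum.inl u') ^ (c' u').toNat := by
    have hmem : v ∈ univ.erase u := Finset.mem_erase.2 ⟨Ne.symm huv, Finset.mem_univ v⟩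
    rw [← Finset.mul_prod_erase (univ.erase u) (fun u' => x (Sum.inl u') ^ (c u').toNat) hmem,
      ← Finset.mul_prod_erase (univ.erase u) (fun u' => x (Sum.inl u') ^ (c' u').toNat) hmem]
    simp only [hself, hv, Int.toNat_zero, Int.toNat_one, pow_zero, one_mul, pow_one]
    congr 1
    refine Finset.prod_congr rfl fun u' hu' => ?_
    rw [hne u' (Finset.ne_of_mem_erase hu')]
  rw [h3]
  ring

/-- derivative of a monomial with one simple factor outside `t` -/
theorem tanA_dmon_split {x ξ : V ⊕ Fin 2 → ℂ} {c : V → ℤ} {v : V} (hv : c v = 1) :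
    dmon c x ξ = ξ (Sum.inl v) * mon (c - Pi.single v 1) x +
      x (Sum.inl v) * dmon (c - Pi.single v 1) x ξ :=
  tanA_dmon_split_aux hv (fun u hu => by simp [Pi.single_eq_of_ne hu]) (by simp [hv])

/-- derivative of a product of `k` equal forms -/
theorem tanA_forms {x ξ : V ⊕ Fin 2 → ℂ} {g : Fin 2 → ℂ} {θ : ℂ} (h : lin g ξ = θ * lin g x) (k : ℕ) :
    ∑ j : Fin k, lin g ξ * ∏ _j' ∈ univ.erase j, lin g x = k * θ * lin g x ^ k := by
  have h1 : ∀ j : Fin k, lin g ξ * ∏ _j' ∈ univ.erase j, lin g x = θ * lin g x ^ k := by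
    intro j
    rw [h, mul_assoc, Finset.mul_prod_erase univ (fun _ => lin g x) (Finset.mem_univ j)]
    simp
  rw [Finset.sum_congr rfl fun j _ => h1 j]
  simp [mul_assoc]

theorem tanA (h : X.SmoothProjective A n) {w : K} {x ξ : V ⊕ Fin 2 → ℂ} (hx : x ∈ X.semistable A)
    (hξ : ξ ∈ X.tangent x) (hx0 : ∃ j, x (Sum.inr j) ≠ 0) {τ : Finset V} (hτx : τ ⊆ supp x)
    (hF : X.toComb.Fixed τ) (hA : X.toComb.Adm τ) (hS : X.toComb.Semi A τ)
    (hfull : ∀ i, X.toComb.Full (supp x) i → X.toComb.Full τ i) (hC : X.toComb.Chart w τ)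
    (hk : (∀ i, X.toComb.Full (supp x) i) → ∃ c k, 1 ≤ k ∧ X.toComb.Sec w c k ∧ ∀ v, v ∉ τ → c v = 0)
    {C : ℂ} (hev : ∀ f, X.IsSection w f → dder x ξ f = C * eval x f) : X.TangentToOrbit x ξ := by
  classical
  have G := good h
  have hxne : ∀ v ∈ τ, x (Sum.inl v) ≠ 0 := fun v hv => mem_supp.1 (hτx hv)
  have hmonx : ∀ c : V → ℤ, (∀ v, v ∉ τ → c v = 0) → mon c x ≠ 0 := fun c hc0 => tanA_mon_ne hxne hc0
  obtain ⟨⟨c0, k0, hsec0, hc00⟩, hdir⟩ := hC
  obtain ⟨j0, hj0⟩ := hx0
  have hlin : ∀ z : V ⊕ Fin 2 → ℂ, lin (Pi.single j0 1) z = z (Sum.inr j0) := by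
    intro z
    unfold lin
    fin_cases j0 <;> simp
  -- (1) the zero coordinates
  have hzero : ∀ v, v ∉ supp x → ξ (Sum.inl v) = 0 := by
    intro v hv
    have hxv : x (Sum.inl v) = 0 := by
      by_contra h1; exact hv (mem_supp.2 h1)
    have hvτ : v ∉ τ := fun h1 => hv (hτx h1)
    obtain ⟨c, k, hsec, hcv, hc0⟩ := hdir v hvτ
    have hc'0 : ∀ u, u ∉ τ → (c - Pi.single v 1 : V → ℤ) u = 0 := by
      intro u hu
      by_cases huv : u = v
      · subst huv; simp [hcv]
      · simp [Pi.single_eq_of_ne huv, hc0 u hu huv]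
    obtain ⟨f, hf, hfe, hfd⟩ := exists_sec hsec (fun _ => Pi.single j0 1)
    have h1 := hev f hf
    have hm0 : mon c x = 0 := by rw [sepA_mon_split hcv, hxv, zero_mul]
    rw [hfe, hfd, hm0, zero_mul, zero_mul, add_zero, mul_zero, tanA_dmon_split hcv, hxv, zero_mul,
      add_zero] at h1
    simp only [hlin, Finset.prod_const, Finset.card_univ, Fintype.card_fin] at h1
    rcases mul_eq_zero.1 h1 with h2 | h2
    · rcases mul_eq_zero.1 h2 with h3 | h3
      · exact h3
      · exact absurd h3 (hmonx _ hc'0)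
    · exact absurd h2 (pow_ne_zero _ hj0)
  -- (2) ξ_p is proportional to p
  have hdet : x (Sum.inr 1) * ξ (Sum.inr 0) - x (Sum.inr 0) * ξ (Sum.inr 1) = 0 := by
    by_cases hall : ∀ i, X.toComb.Full (supp x) i
    · obtain ⟨c, k, hk1, hsec, hc0⟩ := hk hall
      obtain ⟨k', rfl⟩ : ∃ k', k = k' + 1 := ⟨k - 1, by omega⟩
      obtain ⟨f, hf, hfe, hfd⟩ := exists_sec hsec (Fin.cons
        (fun j => if j = 0 then x (Sum.inr 1) else - x (Sum.inr 0)) fun _ => Pi.single j0 1)
      have h4 : lin (fun j : Fin 2 => if j = 0 then x (Sum.inr 1) else - x (Sum.inr 0)) x = 0 := by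
        unfold lin; simp; ring
      have h5 : lin (fun j : Fin 2 => if j = 0 then x (Sum.inr 1) else - x (Sum.inr 0)) ξ =
          x (Sum.inr 1) * ξ (Sum.inr 0) - x (Sum.inr 0) * ξ (Sum.inr 1) := by
        unfold lin; simp; ring
      have h1 := hev f hf
      rw [hfe, hfd] at h1
      have h6 : ∏ j : Fin (k' + 1), lin ((Fin.cons
          (fun j => if j = 0 then x (Sum.inr 1) else - x (Sum.inr 0)) fun _ => Pi.single j0 1 :
            Fin (k' + 1) → Fin 2 → ℂ) j) x = 0 := by
        rw [Fin.prod_univ_succ, Fin.cons_zero, h4, zero_mul]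
      rw [h6, mul_zero, zero_add, mul_zero, mul_zero] at h1
      have h7 : ∑ j : Fin (k' + 1), lin ((Fin.cons
          (fun j => if j = 0 then x (Sum.inr 1) else - x (Sum.inr 0)) fun _ => Pi.single j0 1 :
            Fin (k' + 1) → Fin 2 → ℂ) j) ξ * ∏ j' ∈ univ.erase j, lin ((Fin.cons
          (fun j => if j = 0 then x (Sum.inr 1) else - x (Sum.inr 0)) fun _ => Pi.single j0 1 :
            Fin (k' + 1) → Fin 2 → ℂ) j') x =
          (x (Sum.inr 1) * ξ (Sum.inr 0) - x (Sum.inr 0) * ξ (Sum.inr 1)) *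
            x (Sum.inr j0) ^ k' := by
        rw [Finset.sum_eq_single 0]
        · rw [Fin.cons_zero, h5]
          congr 1
          have h8 : (univ.erase (0 : Fin (k' + 1))) = Finset.univ.map (Fin.succEmb k') := by
            ext j
            refine Fin.cases ?_ (fun j => ?_) j
            · simp [Fin.succ_ne_zero]
            · simp [Fin.succ_ne_zero]
          rw [h8, Finset.prod_map]
          simp [hlin]
        · intro j _ hj
          rw [Finset.prod_eq_zero (i := 0), mul_zero]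
          · exact Finset.mem_erase.2 ⟨Ne.symm hj, Finset.mem_univ _⟩
          · rw [Fin.cons_zero, h4]
        · intro h8; exact absurd (Finset.mem_univ _) h8
      rw [h7] at h1
      rcases mul_eq_zero.1 h1 with h8 | h8
      · exact absurd h8 (hmonx c hc0)
      · rcases mul_eq_zero.1 h8 with h9 | h9
        · exact h9
        · exact absurd h9 (pow_ne_zero _ hj0)
    · push Not at hall
      obtain ⟨i, hi⟩ := hall
      have hfx : X.form i x = 0 := by
        by_contra h1; exact hi ((full_iff h.lpos hx.1).2 h1)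
      have hfξ : X.form i ξ = 0 := by
        rw [← tangent_iff.1 hξ i]
        obtain ⟨u, hu, hux⟩ : ∃ u, X.blk u = some i ∧ u ∉ supp x := by
          unfold Comb.Full at hi
          push Not at hi
          exact hi
        have hxu : x (Sum.inl u) = 0 := by
          by_contra h1; exact hux (mem_supp.2 h1)
        refine Finset.sum_eq_zero fun v hv => ?_
        by_cases hvu : v = u
        · subst hvu
          rw [hzero v hux]; simp
        · rw [Finset.prod_eq_zero (i := u), mul_zero]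
          · exact Finset.mem_erase.2 ⟨Ne.symm hvu, by simpa using hu⟩
          · rw [hxu, zero_pow (h.lpos u).ne']
      -- a_i ≠ 0
      obtain ⟨i1, i2, h12⟩ := h.two
      have hai : X.a i 0 ≠ 0 ∨ X.a i 1 ≠ 0 := by
        by_contra hcon
        push Not at hcon
        obtain ⟨j, hj⟩ : ∃ j, i ≠ j := by
          by_cases h3 : i = i1
          · exact ⟨i2, by rw [h3]; exact h12⟩
          · exact ⟨i1, h3⟩
        exact h.indep i j hj (by rw [hcon.1, hcon.2]; ring)
      unfold form at hfx hfξ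
      rcases hai with ha | ha
      · have h3 : X.a i 0 * (x (Sum.inr 1) * ξ (Sum.inr 0) - x (Sum.inr 0) * ξ (Sum.inr 1)) = 0 := by
          linear_combination x (Sum.inr 1) * hfξ - ξ (Sum.inr 1) * hfx
        exact (mul_eq_zero.1 h3).resolve_left ha
      · have h3 : X.a i 1 * (x (Sum.inr 1) * ξ (Sum.inr 0) - x (Sum.inr 0) * ξ (Sum.inr 1)) = 0 := by
          linear_combination ξ (Sum.inr 0) * hfx - x (Sum.inr 0) * hfξ
        exact (mul_eq_zero.1 h3).resolve_left ha
  obtain ⟨θ, hθ⟩ : ∃ θ : ℂ, ∀ j, ξ (Sum.inr j) = θ * x (Sum.inr j) := by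
    refine ⟨ξ (Sum.inr j0) / x (Sum.inr j0), fun j => ?_⟩
    have h01 : x (Sum.inr 0) * ξ (Sum.inr 1) = x (Sum.inr 1) * ξ (Sum.inr 0) := by
      linear_combination -hdet
    have h00 : ∀ a b : Fin 2, x (Sum.inr a) * ξ (Sum.inr b) = x (Sum.inr b) * ξ (Sum.inr a) := by
      intro a b
      fin_cases a <;> fin_cases b
      · rfl
      · exact h01
      · exact h01.symm
      · rfl
    rw [div_mul_eq_mul_div, eq_div_iff hj0]
    rw [mul_comm (ξ (Sum.inr j)), h00 j0 j, mul_comm]
  have hlinθ : ∀ g : Fin 2 → ℂ, lin g ξ = θ * lin g x := by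
    intro g
    unfold lin
    rw [hθ, hθ]; ring
  -- (3) the logarithmic derivatives
  obtain ⟨r, hr⟩ : ∃ r : V → ℂ, ∀ v ∈ τ, ξ (Sum.inl v) = r v * x (Sum.inl v) := by
    refine ⟨fun v => ξ (Sum.inl v) / x (Sum.inl v), fun v hv => ?_⟩
    rw [div_mul_cancel₀ _ (hxne v hv)]
  have hblock : ∀ i, X.toComb.Full τ i → ∑ v, (X.toComb.bl (Pi.single i (1 : ℤ)) v) • r v = θ := by
    intro i hi
    have h1 := total_iff.1 hx.1 i
    have h2 := tangent_iff.1 hξ i
    have h3 : X.form i x ≠ 0 := by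
      rw [← h1]
      refine Finset.prod_ne_zero_iff.2 fun v hv => pow_ne_zero _ (hxne v (hi v ?_))
      simpa using hv
    have h4 : X.form i ξ = θ * X.form i x := by
      unfold form; rw [hθ, hθ]; ring
    have h5 : (∑ v, (X.toComb.bl (Pi.single i (1 : ℤ)) v) • r v) * X.form i x = X.form i ξ := by
      rw [← h2, Finset.sum_mul, Finset.sum_filter]
      refine Finset.sum_congr rfl fun v _ => ?_
      rw [sepA_bl_single]
      by_cases hv : X.toComb.blk v = some i
      · rw [if_pos hv, if_pos hv, hr v (hi v hv), ← h1,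
          ← Finset.mul_prod_erase _ (fun v => x (Sum.inl v) ^ X.l v)
            (Finset.mem_filter.2 ⟨Finset.mem_univ v, hv⟩)]
        obtain ⟨m, hm⟩ : ∃ m, X.l v = m + 1 := ⟨X.l v - 1, by have := h.lpos v; omega⟩
        rw [hm]
        simp only [Nat.add_sub_cancel, natCast_zsmul, nsmul_eq_mul]
        ring
      · rw [if_neg hv, if_neg hv]; simp
    rw [h4] at h5
    exact mul_right_cancel₀ h3 h5
  have hker : ∀ b : V → ℤ, (∀ v, v ∉ τ → b v = 0) → X.toComb.dg b = 0 → ∑ v, b v • r v = 0 := by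
    intro b hb hd
    obtain ⟨c, hc, rfl⟩ := hF b hb hd
    have h1 : ∀ v, (X.toComb.bl c v) • r v =
        ∑ i, c i • ((X.toComb.bl (Pi.single i (1 : ℤ)) v) • r v) := by
      intro v
      conv_lhs => rw [Comb.bl_eq_sum, Finset.sum_apply]
      rw [Finset.sum_smul]
      refine Finset.sum_congr rfl fun i _ => ?_
      rw [Pi.smul_apply, smul_eq_mul, mul_smul]
    simp_rw [h1]
    rw [Finset.sum_comm]
    have h3 : ∀ i, ∑ v, c i • ((X.toComb.bl (Pi.single i (1 : ℤ)) v) • r v) = c i • θ := by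
      intro i
      by_cases hi : X.toComb.Full τ i
      · rw [← Finset.smul_sum, hblock i hi]
      · rw [Comb.bl_zero_of_not_full G.lpos hb hi]; simp
    simp_rw [h3]
    rw [← Finset.sum_smul, hc, zero_smul]
  obtain ⟨g, hg⟩ := exists_addchar (X := X) (fun w => G.gen τ hA hS w) r hker
  have hgv : ∀ v ∈ τ, g (X.deg v) = r v := by
    intro v hv
    have h1 := hg (Pi.single v 1) (fun u hu => by
      rw [Pi.single_eq_of_ne]; rintro rfl; exact hu hv)
    rw [Comb.dg_single] at h1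
    rw [h1, Finset.sum_eq_single v]
    · simp
    · intro u _ hu; rw [Pi.single_eq_of_ne hu, zero_smul]
    · simp
  have hEx : ¬ X.toComb.Ell (supp x) := fun hE => hj0 ((ell_supp_iff h hx.1).1 hE j0)
  obtain ⟨i0, hi0⟩ : ∃ i, X.toComb.Full (supp x) i := by
    simpa only [Comb.Ell, not_forall, not_not] using hEx
  have hi0 : X.toComb.Full τ i0 := hfull i0 hi0
  have hgmu : g X.mu = θ := by
    have h1 := hg (X.toComb.bl (Pi.single i0 1)) (fun v hv => by
      rw [sepA_bl_single, if_neg]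
      exact fun h2 => hv (hi0 v h2))
    rw [G.mu_eq i0] at h1
    rw [h1, hblock i0 hi0]
  have hdm : ∀ c : V → ℤ, (∀ v, 0 ≤ c v) → (∀ v, v ∉ τ → c v = 0) →
      dmon c x ξ = g (X.toComb.dg c) * mon c x := by
    intro c hc hc0
    rw [tanA_dmon hr hc hc0, hg c hc0]
  have hCg : C = g w := by
    obtain ⟨f, hf, hfe, hfd⟩ := exists_sec hsec0 (fun _ => Pi.single j0 1)
    have h1 := hev f hf
    rw [hfe, hfd, tanA_forms (hlinθ _), hdm c0 hsec0.1 hc00] at h1
    simp only [hlin, Finset.prod_const, Finset.card_univ, Fintype.card_fin] at h1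
    have h2 : mon c0 x * x (Sum.inr j0) ^ k0 ≠ 0 := mul_ne_zero (hmonx c0 hc00) (pow_ne_zero _ hj0)
    have h3 : g w = g (X.toComb.dg c0) + k0 * θ := by
      rw [← hsec0.2, map_add, map_nsmul, hgmu, nsmul_eq_mul]
    rw [h3]
    apply mul_right_cancel₀ h2
    rw [← h1]; ring
  refine ⟨g, fun s => ?_⟩
  rcases s with v | j
  · change ξ (Sum.inl v) = g (X.deg v) * x (Sum.inl v)
    by_cases hv : v ∈ τ
    · rw [hgv v hv, hr v hv]
    · obtain ⟨c, k, hsec, hcv, hc0⟩ := hdir v hv
      obtain ⟨f, hf, hfe, hfd⟩ := exists_sec hsec (fun _ => Pi.single j0 1)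
      have h1 := hev f hf
      have hc'0 : ∀ u, u ∉ τ → (c - Pi.single v 1 : V → ℤ) u = 0 := by
        intro u hu
        by_cases huv : u = v
        · subst huv; simp [hcv]
        · simp [Pi.single_eq_of_ne huv, hc0 u hu huv]
      have hc' : ∀ u, 0 ≤ (c - Pi.single v 1 : V → ℤ) u := by
        intro u
        by_cases huv : u = v
        · subst huv; simp [hcv]
        · simp only [Pi.sub_apply, Pi.single_eq_of_ne huv, sub_zero]
          exact hsec.1 u
      rw [hfe, hfd, tanA_forms (hlinθ _), sepA_mon_split hcv, tanA_dmon_split hcv,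
        hdm _ hc' hc'0, hCg] at h1
      simp only [hlin, Finset.prod_const, Finset.card_univ, Fintype.card_fin] at h1
      have h3 : g w = g (X.deg v) + (g (X.toComb.dg (c - Pi.single v 1)) + k * θ) := by
        have h4 : w = X.deg v + (X.toComb.dg (c - Pi.single v 1) + k • X.mu) := by
          rw [← hsec.2, Comb.dg_sub, Comb.dg_single]; abel
        conv_lhs => rw [h4]
        rw [map_add, map_add, map_nsmul, hgmu, nsmul_eq_mul]
      have h5 : mon (c - Pi.single v 1) x * x (Sum.inr j0) ^ k ≠ 0 :=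
        mul_ne_zero (hmonx _ hc'0) (pow_ne_zero _ hj0)
      apply mul_right_cancel₀ h5
      rw [h3] at h1
      linear_combination h1
  · change ξ (Sum.inr j) = g X.mu * x (Sum.inr j)
    rw [hgmu, hθ]

end CoxData

end Pool.Agent.Helper39.TV
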