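import Pool.Agent.Helper39.TV.PGood
import Pool.Agent.Helper39.TV.Orbit
import Pool.Agent.Helper39.TV.EB
import Pool.Agent.Helper39.TV.SepE
import Pool.Agent.Helper39.TV.TanA

/-! TV, module TanE -/

open Finset MvPolynomial

set_option linter.unusedSectionVars false

namespace Pool.Agent.Helper39.TV

variable {V ι K : Type} [Fintype V] [DecidableEq V] [Fintype ι] [DecidableEq ι] [AddCommGroup K]

namespace CoxData

variable {X : CoxData V ι K} {A : K} {n : ℕ}

theorem tanE (h : X.SmoothProjective A n) {w : K} {x ξ : V ⊕ Fin 2 → ℂ} (hx : x ∈ X.semistable A)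
    (hξ : ξ ∈ X.tangent x) {τ : Finset V} (hτx : τ ⊆ supp x)
    (hE : X.toComb.Ell τ) (hF : X.toComb.Fixed τ) (hS : X.toComb.Semi A τ) (hC : X.toComb.EChart w τ)
    {C : ℂ} (hev : ∀ f, X.IsSection w f → dder x ξ f = C * eval x f) : X.TangentToOrbit x ξ := by
  classical
  have G := good h
  obtain ⟨i, j, hij, hsim, h1, h2⟩ := hC
  have hxne : ∀ v ∈ τ, x (Sum.inl v) ≠ 0 := fun v hv => mem_supp.1 (hτx hv)
  have hmonx : ∀ c : V → ℤ, (∀ v, v ∉ τ → c v = 0) → mon c x ≠ 0 := fun c hc0 => tanA_mon_ne hxne hc0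
  have hsec := Comb.sepE_sec G hE hS h1
  have hrel : ∀ {c : V → ℤ}, X.toComb.Sec w c 0 → dmon c x ξ = C * mon c x := by
    intro c hc
    obtain ⟨f, hf, hfe, hfd⟩ := exists_sec hc (fun _ => 0)
    have h3 := hev f hf
    rw [hfe, hfd] at h3
    simpa using h3
  obtain ⟨r, hr⟩ : ∃ r : V → ℂ, ∀ v ∈ τ, ξ (Sum.inl v) = r v * x (Sum.inl v) := by
    refine ⟨fun v => ξ (Sum.inl v) / x (Sum.inl v), fun v hv => ?_⟩
    rw [div_mul_cancel₀ _ (hxne v hv)]
  have hker : ∀ b : V → ℤ, (∀ v, v ∉ τ → b v = 0) → X.toComb.dg b = 0 → ∑ v, b v • r v = 0 := by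
    intro b hb hd
    rw [Comb.sepE_ker G hE hF hb hd]; simp
  obtain ⟨g, hg⟩ := exists_addchar (X := X) (fun w => G.gen τ (Or.inl hE) hS w) r hker
  have hdm : ∀ c : V → ℤ, (∀ v, 0 ≤ c v) → (∀ v, v ∉ τ → c v = 0) →
      dmon c x ξ = g (X.toComb.dg c) * mon c x := by
    intro c hc hc0
    rw [tanA_dmon hr hc hc0, hg c hc0]
  have hCg : C = g w := by
    have h3 := hdm _ hsec.1 (fun v hv => Comb.rp_supp G hE hS _ hv)
    rw [Comb.rp_dg G hE hS, hrel hsec] at h3
    exact mul_right_cancel₀ (hmonx _ fun v hv => Comb.rp_supp G hE hS _ hv) h3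
  have hgτ : ∀ v ∈ τ, ξ (Sum.inl v) = g (X.deg v) * x (Sum.inl v) := by
    intro v hv
    have h3 := hg (Pi.single v 1) (fun u hu => by
      rw [Pi.single_eq_of_ne]; rintro rfl; exact hu hv)
    rw [Comb.dg_single] at h3
    rw [h3, Finset.sum_eq_single v]
    · simp [hr v hv]
    · intro u _ hu; rw [Pi.single_eq_of_ne hu, zero_smul]
    · simp
  have hgZ : ∀ v ∈ X.toComb.Z τ i j, ξ (Sum.inl v) = g (X.deg v) * x (Sum.inl v) := by
    intro v hv
    have hvτ : v ∉ τ := by
      have := (Finset.mem_filter.1 hv).1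
      simpa using this
    obtain ⟨hs, hsv, hsub, hnn⟩ := Comb.sepE_dir G hE hS hvτ (h2 v hv)
    have h3 := hrel hs
    rw [sepA_mon_split hsv, tanA_dmon_split hsv, hsub,
      hdm _ hnn (fun u hu => Comb.rp_supp G hE hS _ hu), Comb.rp_dg G hE hS, hCg, map_sub] at h3
    have h5 : mon (X.toComb.rp τ (w - X.deg v)) x ≠ 0 :=
      hmonx _ fun u hu => Comb.rp_supp G hE hS _ hu
    apply mul_right_cancel₀ h5
    linear_combination h3
  have hgmu : ∀ m, ∑ v with X.blk v = some m, (X.l v : ℂ) * g (X.deg v) = g X.mu := by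
    intro m
    rw [← h.homog m, map_sum]
    refine Finset.sum_congr rfl fun v _ => ?_
    rw [map_nsmul, nsmul_eq_mul]
  -- one term of the tangent relation
  have hterm : ∀ m v, X.blk v = some m → ξ (Sum.inl v) = g (X.deg v) * x (Sum.inl v) →
      (X.l v : ℂ) * ξ (Sum.inl v) * x (Sum.inl v) ^ (X.l v - 1) *
        ∏ u ∈ (univ.filter (fun v => X.blk v = some m)).erase v, x (Sum.inl u) ^ X.l u =
      (X.l v : ℂ) * g (X.deg v) * X.form m x := by
    intro m v hv hv'
    rw [← total_iff.1 hx.1 m, ← Finset.mul_prod_erase _ (fun v => x (Sum.inl v) ^ X.l v)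
      (Finset.mem_filter.2 ⟨Finset.mem_univ v, hv⟩), hv']
    obtain ⟨e, he⟩ : ∃ e, X.l v = e + 1 := ⟨X.l v - 1, by have := h.lpos v; omega⟩
    rw [he]
    simp only [Nat.add_sub_cancel]
    ring
  have hform : ∀ m, (∀ v, X.blk v = some m → ξ (Sum.inl v) = g (X.deg v) * x (Sum.inl v)) →
      X.form m ξ = g X.mu * X.form m x := by
    intro m hm
    rw [← tangent_iff.1 hξ m, ← hgmu m, Finset.sum_mul]
    refine Finset.sum_congr rfl fun v hv => ?_
    have hv' := (Finset.mem_filter.1 hv).2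
    exact hterm m v hv' (hm v hv')
  have hmemZ : ∀ v m, v ∉ τ → X.blk v = some m → (m = i ∨ m = j) → v ∈ X.toComb.Z τ i j := by
    intro v m hv hm hmij
    refine Finset.mem_filter.2 ⟨by simpa using hv, fun m' h3 h4 h5 => ?_⟩
    rw [hm] at h5
    have : m = m' := Option.some.inj h5
    subst this
    rcases hmij with h6 | h6
    · exact h3 h6
    · exact h4 h6
  have hfi := hform i (fun v hv => by
    by_cases hvτ : v ∈ τ
    · exact hgτ v hvτ
    · exact hgZ v (hmemZ v i hvτ hv (Or.inl rfl)))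
  have hfj := hform j (fun v hv => by
    by_cases hvτ : v ∈ τ
    · exact hgτ v hvτ
    · exact hgZ v (hmemZ v j hvτ hv (Or.inr rfl)))
  have hp := sepE_forms h hij hfi hfj
  refine ⟨g, fun s => ?_⟩
  rcases s with v | k
  · change ξ (Sum.inl v) = g (X.deg v) * x (Sum.inl v)
    by_cases hvτ : v ∈ τ
    · exact hgτ v hvτ
    by_cases hvZ : v ∈ X.toComb.Z τ i j
    · exact hgZ v hvZ
    obtain ⟨m, hmi, hmj, hvm⟩ : ∃ m, m ≠ i ∧ m ≠ j ∧ X.blk v = some m := by
      by_contra hcon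
      push Not at hcon
      exact hvZ (Finset.mem_filter.2 ⟨by simpa using hvτ, fun m h3 h4 h5 => hcon m h3 h4 h5⟩)
    obtain ⟨p, ⟨hpτ, hpm, hpall⟩, hlp⟩ := hsim m hmi hmj
    have hvp : v = p := by
      by_contra hne
      exact hvτ (hpall v hvm hne)
    subst hvp
    have hmem : v ∈ univ.filter (fun v => X.blk v = some m) :=
      Finset.mem_filter.2 ⟨Finset.mem_univ v, hvm⟩
    have h6 : X.form m ξ = g X.mu * X.form m x := by
      unfold form; rw [hp, hp]; ring
    have h7 := tangent_iff.1 hξ m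
    rw [h6, ← hgmu m, ← Finset.add_sum_erase _ _ hmem,
      ← Finset.add_sum_erase _ (fun v => (X.l v : ℂ) * g (X.deg v)) hmem, add_mul, Finset.sum_mul]
      at h7
    have h8 : ∑ u ∈ (univ.filter (fun v => X.blk v = some m)).erase v,
        (X.l u : ℂ) * ξ (Sum.inl u) * x (Sum.inl u) ^ (X.l u - 1) *
          ∏ u' ∈ (univ.filter (fun v => X.blk v = some m)).erase u, x (Sum.inl u') ^ X.l u' =
        ∑ u ∈ (univ.filter (fun v => X.blk v = some m)).erase v,
          (X.l u : ℂ) * g (X.deg u) * X.form m x := by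
      refine Finset.sum_congr rfl fun u hu => ?_
      have hum := (Finset.mem_filter.1 (Finset.mem_of_mem_erase hu)).2
      exact hterm m u hum (hgτ u (hpall u hum (Finset.ne_of_mem_erase hu)))
    rw [h8] at h7
    have h9 := add_right_cancel h7
    rw [hlp, ← total_iff.1 hx.1 m, ← Finset.mul_prod_erase _ (fun v => x (Sum.inl v) ^ X.l v) hmem,
      hlp] at h9
    have h10 : ∏ u ∈ (univ.filter (fun v => X.blk v = some m)).erase v, x (Sum.inl u) ^ X.l u ≠ 0 := by
      refine Finset.prod_ne_zero_iff.2 fun u hu => pow_ne_zero _ (hxne u ?_)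
      exact hpall u (Finset.mem_filter.1 (Finset.mem_of_mem_erase hu)).2
        (Finset.ne_of_mem_erase hu)
    apply mul_right_cancel₀ h10
    simp only [Nat.cast_one, Nat.sub_self, pow_zero, pow_one] at h9
    linear_combination h9
  · exact hp k

end CoxData

end Pool.Agent.Helper39.TV
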