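import Pool.Agent.Helper39.TV.SepA
import Pool.Agent.Helper39.TV.SepE
import Pool.Agent.Helper39.TV.TanA
import Pool.Agent.Helper39.TV.TanE
import Pool.Agent.Helper39.TV.Generic
import Pool.Agent.Helper39.TV.Hyp
import Pool.Agent.Helper39.TV.ParSec
import Pool.Agent.Helper39.TV.Sole
import Pool.Agent.Helper39.TV.EAll
import Pool.Agent.Helper39.TV.Pair

/-! TV, module Main -/

open Finset MvPolynomial

set_option linter.unusedSectionVars false

namespace Pool.Agent.Helper39.TV

variable {V ι K : Type} [Fintype V] [DecidableEq V] [Fintype ι] [DecidableEq ι] [AddCommGroup K]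

namespace Comb

variable {D : Comb V ι K} {A : K} {n : ℕ}

theorem main_cases (G : D.Good A n) {N : ℕ} (hN : n + 2 ≤ N) {t : Finset V} (hA : D.Adm t)
    (hF : D.Fixed t) (hS : D.Semi A t) (hE : ¬ D.Ell t) :
    D.Chart (D.can + N • A) t ∧ ∃ c k, D.Sec (D.can + N • A) c k ∧ (∀ v, v ∉ t → c v = 0) ∧
      (∀ v ∈ t, 0 < c v ∨ ∃ i, D.blk v = some i ∧ D.Full t i) ∧
      (1 ≤ k ∨ ∃ i, D.Over t i ∧ ¬ D.Full t i ∧ ∀ p, ¬ D.Sole t i p) := by
  rcases hA with hA | ⟨i, hi⟩
  · exact absurd hA hE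
  by_cases hall : ∀ j, D.Full t j
  · obtain ⟨e, he, -, -⟩ := par_structure G hall hF hS
    obtain ⟨⟨c, k, hk, hsec, hc0, hce, hcp⟩, hch, -⟩ := par_sections G hN hall hF hS he
    refine ⟨hch, c, k, hsec, hc0, fun v hv => ?_, Or.inl hk⟩
    by_cases hve : ∃ j, v = e j
    · obtain ⟨j, rfl⟩ := hve
      exact Or.inr ⟨j, (he j).1, hall j⟩
    · exact Or.inl (hcp v hv fun j hj => hve ⟨j, hj⟩)
  have hfi : ¬ D.Full t i := by
    intro h
    apply hall
    intro j
    by_cases hj : j = i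
    · rw [hj]; exact h
    · exact hi j hj
  by_cases hsole : ∃ p, D.Sole t i p
  · obtain ⟨p, hp⟩ := hsole
    obtain ⟨-, hFF, hfull⟩ := sole_fill G hi hp hF hS
    have hSF : D.Semi A (insert p t) := Semi.mono (Finset.subset_insert p t) hS
    obtain ⟨e, he, huniq, -⟩ := par_structure G hfull hFF hSF
    have herase : (insert p t).erase p = t := Finset.erase_insert hp.1
    have hpe : p = e i := huniq i p hp.2.1 (by rw [herase]; exact hS)
    obtain ⟨⟨c, k, hk, hsec, hc0, hce, hcp⟩, -, hch⟩ := par_sections G hN hfull hFF hSF he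
    have hchi := hch i
    rw [← hpe, herase] at hchi
    refine ⟨hchi, c, k, hsec, fun v hv => ?_, fun v hv => ?_, Or.inl hk⟩
    · by_cases hvp : v = p
      · rw [hvp, hpe]; exact hce i
      · exact hc0 v (by simp [hvp, hv])
    · by_cases hve : ∃ j, v = e j
      · obtain ⟨j, rfl⟩ := hve
        refine Or.inr ⟨j, (he j).1, hi j ?_⟩
        rintro rfl
        rw [← hpe] at hv
        exact hp.1 hv
      · exact Or.inl (hcp v (Finset.mem_insert_of_mem hv) fun j hj => hve ⟨j, hj⟩)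
  · have hns : ∀ p, ¬ D.Sole t i p := fun p hp => hsole ⟨p, hp⟩
    obtain ⟨⟨c, k, hsec, hc0, hcp⟩, hch⟩ := hyp_sections G hN hi hfi hns hF hS
    refine ⟨hch, c, k, hsec, hc0, fun v hv => ?_, Or.inr ⟨i, hi, hfi, hns⟩⟩
    by_cases hj : ∃ j, j ≠ i ∧ D.blk v = some j
    · obtain ⟨j, hji, hvj⟩ := hj
      exact Or.inr ⟨j, hvj, hi j hji⟩
    · exact Or.inl (hcp v hv fun j hji hvj => hj ⟨j, hji, hvj⟩)

theorem ell_mono {s t : Finset V} (h : t ⊆ s) (hs : D.Ell s) : D.Ell t :=
  fun i hi => hs i fun v hv => h (hi v hv)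

theorem full_mono {s t : Finset V} (h : t ⊆ s) {i : ι} (ht : D.Full t i) : D.Full s i :=
  fun v hv => h (ht v hv)

end Comb

namespace CoxData

variable {X : CoxData V ι K} {A : K} {n : ℕ}

theorem mon_ne_zero {c : V → ℤ} {x : V ⊕ Fin 2 → ℂ} (h : ∀ v, 0 < c v → x (Sum.inl v) ≠ 0) :
    mon c x ≠ 0 := by
  unfold mon
  refine Finset.prod_ne_zero_iff.2 fun v _ => ?_
  by_cases hv : 0 < c v
  · exact pow_ne_zero _ (h v hv)
  · have : (c v).toNat = 0 := by
      rw [Int.toNat_eq_zero]; omega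
    rw [this, pow_zero]
    exact one_ne_zero

theorem ne_zero_of_mon {c : V → ℤ} {x : V ⊕ Fin 2 → ℂ} (h : mon c x ≠ 0) {v : V} (hv : 0 < c v) :
    x (Sum.inl v) ≠ 0 := by
  intro hx
  apply h
  unfold mon
  refine Finset.prod_eq_zero (Finset.mem_univ v) ?_
  rw [hx]
  exact zero_pow (by omega)

theorem mon_ne_zero_of_supp {c : V → ℤ} {x : V ⊕ Fin 2 → ℂ} {t : Finset V} (ht : t ⊆ supp x)
    (hc : ∀ v, v ∉ t → c v = 0) : mon c x ≠ 0 := by
  refine mon_ne_zero fun v hv => ?_
  have hvt : v ∈ t := by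
    by_contra hvt
    rw [hc v hvt] at hv
    exact lt_irrefl _ hv
  exact mem_supp.1 (ht hvt)

theorem lin_a {i : ι} {x : V ⊕ Fin 2 → ℂ} : lin (X.a i) x = X.form i x := rfl

theorem lin_single (j : Fin 2) (x : V ⊕ Fin 2 → ℂ) : lin (Pi.single j 1) x = x (Sum.inr j) := by
  unfold lin
  fin_cases j <;> simp

theorem form_smul {i : ι} {x y : V ⊕ Fin 2 → ℂ} {θ : ℂ} (h : ∀ j, y (Sum.inr j) = θ * x (Sum.inr j)) :
    X.form i y = θ * X.form i x := by
  unfold form
  rw [h, h]; ring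

theorem exists_inr_ne {x : V ⊕ Fin 2 → ℂ} (h : X.SmoothProjective A n) (hx : x ∈ X.total)
    (hE : ¬ X.toComb.Ell (supp x)) : ∃ j, x (Sum.inr j) ≠ 0 := by
  by_contra hcon
  push Not at hcon
  exact hE ((ell_supp_iff h hx).2 hcon)

theorem SameOrbit.symm {x y : V ⊕ Fin 2 → ℂ} (h : X.SameOrbit x y) : X.SameOrbit y x := by
  obtain ⟨g, hg⟩ := h
  refine ⟨g⁻¹, fun s => ?_⟩
  rw [hg s]
  simp

/-- the relation between the values of a section at `x` and `y` -/
theorem sec_rel {w : K} {x y : V ⊕ Fin 2 → ℂ} {C : ℂ}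
    (hev : ∀ f, X.IsSection w f → eval y f = C * eval x f) {c : V → ℤ} {k : ℕ}
    (hS : X.toComb.Sec w c k) (g : Fin k → Fin 2 → ℂ) :
    mon c y * ∏ j, lin (g j) y = C * (mon c x * ∏ j, lin (g j) x) := by
  obtain ⟨f, hf, hfe, -⟩ := exists_sec hS g
  rw [← hfe, ← hfe]
  exact hev f hf

theorem sep_half (h : X.SmoothProjective A n) {N : ℕ} (hN : n + 2 ≤ N) {x y : V ⊕ Fin 2 → ℂ}
    (hx : x ∈ X.semistable A) (hy : y ∈ X.semistable A) {C : ℂ} (hC0 : C ≠ 0)
    (hev : ∀ f, X.IsSection (X.toComb.can + N • A) f → eval y f = C * eval x f)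
    {t : Finset V} (ht : t ⊆ supp x) (hS : X.toComb.Semi A t) (hA : X.toComb.Adm t)
    (hF : X.toComb.Fixed t)
    (hfull : X.toComb.Ell t ∨ ∀ i, X.toComb.Full (supp x) i → X.toComb.Full t i)
    (hcase : X.toComb.Ell t ∨ ∃ c k, 1 ≤ k ∧ X.toComb.Sec (X.toComb.can + N • A) c k ∧
      (∀ v, v ∉ t → c v = 0) ∧ ∀ v ∈ t, 0 < c v ∨ ∃ i, X.toComb.blk v = some i ∧ X.toComb.Full t i) :
    X.SameOrbit x y := by
  have G := good h
  by_cases hE : X.toComb.Ell t
  · exact sepE h hx hy ht hE hF hS (Comb.echart G hE hF hS hN) hC0 hev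
  obtain ⟨c, k, hk, hsec, hc0, hcp⟩ := hcase.resolve_left hE
  have hfull' := hfull.resolve_left hE
  have hEx : ¬ X.toComb.Ell (supp x) := fun h' => hE (Comb.ell_mono ht h')
  obtain ⟨j0, hj0⟩ := exists_inr_ne h hx.1 hEx
  have hmx : mon c x ≠ 0 := mon_ne_zero_of_supp ht hc0
  -- all forms equal
  have h1 := sec_rel hev hsec (fun _ => Pi.single j0 1)
  simp only [lin_single, Finset.prod_const, Finset.card_univ, Fintype.card_fin] at h1
  have h2 : mon c y * y (Sum.inr j0) ^ k ≠ 0 := by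
    rw [h1]
    exact mul_ne_zero hC0 (mul_ne_zero hmx (pow_ne_zero _ hj0))
  have hmy : mon c y ≠ 0 := left_ne_zero_of_mul h2
  have hyj0 : y (Sum.inr j0) ≠ 0 := by
    intro h0
    apply h2
    rw [h0, zero_pow (by omega), mul_zero]
  -- proportionality
  obtain ⟨k', rfl⟩ : ∃ k', k = k' + 1 := ⟨k - 1, by omega⟩
  have hprop : x (Sum.inr 1) * y (Sum.inr 0) - x (Sum.inr 0) * y (Sum.inr 1) = 0 := by
    have h3 := sec_rel hev hsec
      (Fin.cons (fun j => if j = 0 then x (Sum.inr 1) else - x (Sum.inr 0)) fun _ => Pi.single j0 1)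
    simp only [Fin.prod_univ_succ, Fin.cons_zero, Fin.cons_succ, lin_single, Finset.prod_const,
      Finset.card_univ, Fintype.card_fin] at h3
    have h4 : lin (fun j : Fin 2 => if j = 0 then x (Sum.inr 1) else - x (Sum.inr 0)) x = 0 := by
      unfold lin; simp; ring
    rw [h4, zero_mul, mul_zero, mul_zero] at h3
    rcases mul_eq_zero.1 h3 with h5 | h5
    · exact absurd h5 hmy
    rcases mul_eq_zero.1 h5 with h6 | h6
    · unfold lin at h6
      simp at h6
      linear_combination h6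
    · exact absurd h6 (pow_ne_zero _ hyj0)
  obtain ⟨θ, hθ, hθxy⟩ : ∃ θ : ℂ, θ ≠ 0 ∧ ∀ j, y (Sum.inr j) = θ * x (Sum.inr j) := by
    refine ⟨y (Sum.inr j0) / x (Sum.inr j0), div_ne_zero hyj0 hj0, fun j => ?_⟩
    have h00 : ∀ a b : Fin 2, x (Sum.inr a) * y (Sum.inr b) = x (Sum.inr b) * y (Sum.inr a) := by
      have h01 : x (Sum.inr 0) * y (Sum.inr 1) = x (Sum.inr 1) * y (Sum.inr 0) := by
        linear_combination -hprop
      intro a b
      fin_cases a <;> fin_cases b
      · rfl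
      · exact h01
      · exact h01.symm
      · rfl
    rw [div_mul_eq_mul_div, eq_div_iff hj0]
    rw [mul_comm (y (Sum.inr j)), h00 j0 j, mul_comm]
  -- the chart contains y
  have hty : t ⊆ supp y := by
    intro v hv
    rcases hcp v hv with h5 | ⟨i, hi, hfi⟩
    · exact mem_supp.2 (ne_zero_of_mon hmy h5)
    · have h6 : X.form i x ≠ 0 := (full_iff h.lpos hx.1).1 (Comb.full_mono ht hfi)
      have h7 : X.form i y ≠ 0 := by
        rw [form_smul hθxy]
        exact mul_ne_zero hθ h6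
      exact (full_iff h.lpos hy.1).2 h7 v hi
  exact sepA h hx hy hθ hθxy ⟨j0, hj0⟩ ht hty hF hA hS hfull'
    (Comb.main_cases G hN hA hF hS hE).1 hev

theorem bpf_main (h : X.SmoothProjective A n) {N : ℕ} (hN : n + 2 ≤ N) {x : V ⊕ Fin 2 → ℂ}
    (hx : x ∈ X.semistable A) : ∃ f, X.IsSection (X.toComb.can + N • A) f ∧ eval x f ≠ 0 := by
  have G := good h
  obtain ⟨lam, hlam⟩ := Comb.fixed_limit G
  obtain ⟨psi, -, -, t, ht, -, hS, hA, hF, hfull⟩ := hlam (supp x) (adm_supp h hx.1) (semi_supp h hx)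
  by_cases hE : X.toComb.Ell t
  · obtain ⟨i, j, hij, hsim, h1, -⟩ := Comb.echart G hE hF hS hN
    have hsec : X.toComb.Sec (X.toComb.can + N • A) (X.toComb.rp t (X.toComb.can + N • A)) 0 := by
      refine ⟨fun v => ?_, ?_⟩
      · by_cases hv : v ∈ t
        · have := h1 v hv; omega
        · rw [Comb.rp_supp G hE hS _ hv]
      · rw [Comb.rp_dg G hE hS, zero_smul, add_zero]
    obtain ⟨f, hf, hfe, -⟩ := exists_sec hsec (fun _ => 0)
    refine ⟨f, hf, ?_⟩
    rw [hfe]
    simp only [Finset.univ_eq_empty, Finset.prod_empty, mul_one]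
    exact mon_ne_zero_of_supp ht fun v hv => Comb.rp_supp G hE hS _ hv
  · obtain ⟨-, c, k, hsec, hc0, -, -⟩ := Comb.main_cases G hN hA hF hS hE
    have hEx : ¬ X.toComb.Ell (supp x) := fun h' => hE (Comb.ell_mono ht h')
    obtain ⟨j0, hj0⟩ := exists_inr_ne h hx.1 hEx
    obtain ⟨f, hf, hfe, -⟩ := exists_sec hsec (fun _ => Pi.single j0 1)
    refine ⟨f, hf, ?_⟩
    rw [hfe]
    simp only [lin_single, Finset.prod_const]
    exact mul_ne_zero (mon_ne_zero_of_supp ht hc0) (pow_ne_zero _ hj0)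

/-- the section at a hyperbolic point over block `i` has no factor in `p` if the other point is
over another block -/
theorem k_zero (h : X.SmoothProjective A n) {w : K} {x y : V ⊕ Fin 2 → ℂ}
    (hx : x ∈ X.semistable A) (hy : y ∈ X.semistable A) {C : ℂ} (hC0 : C ≠ 0)
    (hev : ∀ f, X.IsSection w f → eval y f = C * eval x f)
    {t : Finset V} (ht : t ⊆ supp x) {i j : ι} (hij : i ≠ j) (hO : X.toComb.Over t i)
    (hj : ¬ X.toComb.Full (supp y) j) {c : V → ℤ} {k : ℕ} (hsec : X.toComb.Sec w c k)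
    (hc0 : ∀ v, v ∉ t → c v = 0) : k = 0 := by
  by_contra hk
  have h1 := sec_rel hev hsec (fun _ => X.a j)
  simp only [lin_a, Finset.prod_const, Finset.card_univ, Fintype.card_fin] at h1
  have h2 : X.form j y = 0 := by
    by_contra h2
    exact hj ((full_iff h.lpos hy.1).2 h2)
  have h3 : X.form j x ≠ 0 :=
    (full_iff h.lpos hx.1).1 (Comb.full_mono ht (hO j (Ne.symm hij)))
  rw [h2, zero_pow hk, mul_zero] at h1
  exact mul_ne_zero hC0 (mul_ne_zero (mon_ne_zero_of_supp ht hc0) (pow_ne_zero _ h3)) h1.symm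

/-- comparison of weights along a one-parameter subgroup -/
theorem lam_le {w : K} {x : V ⊕ Fin 2 → ℂ} {lam psi : V → ℚ}
    (hpsi : ∀ b : V → ℤ, X.toComb.dg b = 0 → ∑ v, psi v * (b v : ℚ) = 0)
    (hle : ∀ v ∈ supp x, psi v ≤ lam v) {t : Finset V} (ht : t ⊆ supp x)
    (hiff : ∀ v ∈ supp x, v ∈ t ↔ psi v = lam v) {c c' : V → ℤ}
    (hc : X.toComb.dg c = w) (hc' : X.toComb.dg c' = w) (hc0 : ∀ v, v ∉ t → c v = 0)
    (hc'0 : ∀ v, 0 ≤ c' v) (hm : mon c' x ≠ 0) :
    ∑ v, lam v * (c v : ℚ) ≤ ∑ v, lam v * (c' v : ℚ) ∧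
    (∑ v, lam v * (c v : ℚ) = ∑ v, lam v * (c' v : ℚ) → ∀ v, v ∉ t → c' v = 0) := by
  have h1 : ∑ v, lam v * (c v : ℚ) = ∑ v, psi v * (c v : ℚ) := by
    refine Finset.sum_congr rfl fun v _ => ?_
    by_cases hv : v ∈ t
    · rw [(hiff v (ht hv)).1 hv]
    · rw [hc0 v hv]; simp
  have h2 : ∑ v, psi v * (c v : ℚ) = ∑ v, psi v * (c' v : ℚ) := by
    have := hpsi (c - c') (by rw [Comb.dg_sub, hc, hc', sub_self])
    simp only [Pi.sub_apply, Int.cast_sub, mul_sub, Finset.sum_sub_distrib] at this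
    linarith
  have h3 : ∀ v, psi v * (c' v : ℚ) ≤ lam v * (c' v : ℚ) := by
    intro v
    by_cases hv : 0 < c' v
    · have h4 : v ∈ supp x := mem_supp.2 (ne_zero_of_mon hm hv)
      exact mul_le_mul_of_nonneg_right (hle v h4) (by exact_mod_cast hv.le)
    · have : c' v = 0 := le_antisymm (not_lt.1 hv) (hc'0 v)
      rw [this]; simp
  refine ⟨?_, fun heq v hv => ?_⟩
  · rw [h1, h2]
    exact Finset.sum_le_sum fun v _ => h3 v
  · by_contra hne
    have hpos : 0 < c' v := lt_of_le_of_ne (hc'0 v) (Ne.symm hne)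
    have h4 : v ∈ supp x := mem_supp.2 (ne_zero_of_mon hm hpos)
    have h5 : psi v < lam v := lt_of_le_of_ne (hle v h4) fun h6 => hv ((hiff v h4).2 h6)
    have h6 : ∑ v, psi v * (c' v : ℚ) < ∑ v, lam v * (c' v : ℚ) := by
      refine Finset.sum_lt_sum (fun v _ => h3 v) ⟨v, Finset.mem_univ v, ?_⟩
      exact mul_lt_mul_of_pos_right h5 (by exact_mod_cast hpos)
    rw [← h2, ← h1, heq] at h6
    exact lt_irrefl _ h6

theorem sep_main (h : X.SmoothProjective A n) {N : ℕ} (hN : n + 2 ≤ N) {x y : V ⊕ Fin 2 → ℂ}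
    (hx : x ∈ X.semistable A) (hy : y ∈ X.semistable A) {C : ℂ} (hC0 : C ≠ 0)
    (hev : ∀ f, X.IsSection (X.toComb.can + N • A) f → eval y f = C * eval x f) :
    X.SameOrbit x y := by
  have G := good h
  have hev' : ∀ f, X.IsSection (X.toComb.can + N • A) f → eval x f = C⁻¹ * eval y f := by
    intro f hf
    rw [hev f hf, ← mul_assoc, inv_mul_cancel₀ hC0, one_mul]
  obtain ⟨lam, hlam⟩ := Comb.fixed_limit G
  obtain ⟨psi, hpsi, hle, t, ht, hiff, hS, hA, hF, hfull⟩ :=
    hlam (supp x) (adm_supp h hx.1) (semi_supp h hx)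
  obtain ⟨psi', hpsi', hle', t', ht', hiff', hS', hA', hF', hfull'⟩ :=
    hlam (supp y) (adm_supp h hy.1) (semi_supp h hy)
  by_cases hE : X.toComb.Ell t
  · exact sep_half h hN hx hy hC0 hev ht hS hA hF hfull (Or.inl hE)
  by_cases hE' : X.toComb.Ell t'
  · exact (sep_half h hN hy hx (inv_ne_zero hC0) hev' ht' hS' hA' hF' hfull' (Or.inl hE')).symm
  obtain ⟨hch, c, k, hsec, hc0, hcp, hk⟩ := Comb.main_cases G hN hA hF hS hE
  obtain ⟨hch', c', k', hsec', hc0', hcp', hk'⟩ := Comb.main_cases G hN hA' hF' hS' hE'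
  rcases hk with hk | ⟨i, hO, hfi, hns⟩
  · exact sep_half h hN hx hy hC0 hev ht hS hA hF hfull (Or.inr ⟨c, k, hk, hsec, hc0, hcp⟩)
  rcases hk' with hk' | ⟨j, hO', hfj, hns'⟩
  · exact (sep_half h hN hy hx (inv_ne_zero hC0) hev' ht' hS' hA' hF' hfull'
      (Or.inr ⟨c', k', hk', hsec', hc0', hcp'⟩)).symm
  have hfull1 := hfull.resolve_left hE
  have hfull1' := hfull'.resolve_left hE'
  have hEx : ¬ X.toComb.Ell (supp x) := fun h' => hE (Comb.ell_mono ht h')
  have hEy : ¬ X.toComb.Ell (supp y) := fun h' => hE' (Comb.ell_mono ht' h')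
  have hxi : ¬ X.toComb.Full (supp x) i := fun h' => hfi (hfull1 i h')
  have hyj : ¬ X.toComb.Full (supp y) j := fun h' => hfj (hfull1' j h')
  have hfx : X.form i x = 0 := by
    by_contra h1
    exact hxi ((full_iff h.lpos hx.1).2 h1)
  have hfy : X.form j y = 0 := by
    by_contra h1
    exact hyj ((full_iff h.lpos hy.1).2 h1)
  obtain ⟨j0, hj0⟩ := exists_inr_ne h hx.1 hEx
  have hmx : mon c x ≠ 0 := mon_ne_zero_of_supp ht hc0
  by_cases hij : i = j
  · subst hij
    obtain ⟨θ, hθ, hθxy⟩ := prop_of_form h hfx hfy ⟨j0, hj0⟩ (exists_inr_ne h hy.1 hEy)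
    have h1 := sec_rel hev hsec (fun _ => Pi.single j0 1)
    simp only [lin_single, Finset.prod_const, Finset.card_univ, Fintype.card_fin] at h1
    have h2 : mon c y * y (Sum.inr j0) ^ k ≠ 0 := by
      rw [h1]
      exact mul_ne_zero hC0 (mul_ne_zero hmx (pow_ne_zero _ hj0))
    have hmy : mon c y ≠ 0 := left_ne_zero_of_mul h2
    have hty : t ⊆ supp y := by
      intro v hv
      rcases hcp v hv with h5 | ⟨m, hm, hfm⟩
      · exact mem_supp.2 (ne_zero_of_mon hmy h5)
      · have h6 : X.form m x ≠ 0 := (full_iff h.lpos hx.1).1 (Comb.full_mono ht hfm)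
        have h7 : X.form m y ≠ 0 := by
          rw [form_smul hθxy]
          exact mul_ne_zero hθ h6
        exact (full_iff h.lpos hy.1).2 h7 v hm
    exact sepA h hx hy hθ hθxy ⟨j0, hj0⟩ ht hty hF hA hS hfull1 hch hev
  exfalso
  have hk0 : k = 0 := k_zero h hx hy hC0 hev ht hij hO hyj hsec hc0
  have hk0' : k' = 0 := k_zero h hy hx (inv_ne_zero hC0) hev' ht' (Ne.symm hij) hO' hxi hsec' hc0'
  subst hk0
  subst hk0'
  have hmy' : mon c' y ≠ 0 := mon_ne_zero_of_supp ht' hc0'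
  have hmy : mon c y ≠ 0 := by
    have h1 := sec_rel hev hsec (fun _ => 0)
    simp only [Finset.univ_eq_empty, Finset.prod_empty, mul_one] at h1
    rw [h1]
    exact mul_ne_zero hC0 hmx
  have hmx' : mon c' x ≠ 0 := by
    have h1 := sec_rel hev' hsec' (fun _ => 0)
    simp only [Finset.univ_eq_empty, Finset.prod_empty, mul_one] at h1
    rw [h1]
    exact mul_ne_zero (inv_ne_zero hC0) hmy'
  have hdc : X.toComb.dg c = X.toComb.can + N • A := by
    have := hsec.2; rwa [zero_smul, add_zero] at this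
  have hdc' : X.toComb.dg c' = X.toComb.can + N • A := by
    have := hsec'.2; rwa [zero_smul, add_zero] at this
  obtain ⟨hl1, hl2⟩ := lam_le hpsi hle ht hiff hdc hdc' hc0 hsec'.1 hmx'
  obtain ⟨hl1', -⟩ := lam_le hpsi' hle' ht' hiff' hdc' hdc hc0' hsec.1 hmy
  have hc't : ∀ v, v ∉ t → c' v = 0 := hl2 (le_antisymm hl1 hl1')
  refine Comb.pair G hN hij hO hfi hns hF hS hO' hfj hns' hF' hS' hsec'.1 hdc' hc't hc0' ?_
  intro m hmi hmj
  by_contra hcon
  push Not at hcon
  have hsec2 : X.toComb.Sec (X.toComb.can + N • A) (c' - X.toComb.bl (Pi.single m 1)) 1 := by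
    refine ⟨fun v => ?_, ?_⟩
    · simp only [Pi.sub_apply]
      cases hv : X.toComb.blk v with
      | none => rw [Comb.bl_none _ hv, sub_zero]; exact hsec'.1 v
      | some m' =>
        rw [Comb.bl_some _ hv]
        by_cases hmm : m' = m
        · subst hmm
          have := hcon v hv
          simp only [Pi.single_eq_same, one_mul]
          omega
        · rw [Pi.single_eq_of_ne hmm, zero_mul, sub_zero]
          exact hsec'.1 v
    · rw [Comb.dg_sub, G.mu_eq m, one_smul, hdc', sub_add_cancel]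
  have h1 := sec_rel hev hsec2 (fun _ => X.a i)
  simp only [lin_a, Finset.prod_const, Finset.card_univ, Fintype.card_fin, pow_one] at h1
  rw [hfx, mul_zero, mul_zero] at h1
  have h2 : X.form i y ≠ 0 := (full_iff h.lpos hy.1).1 (Comb.full_mono ht' (hO' i hij))
  have h3 : mon (c' - X.toComb.bl (Pi.single m 1)) y ≠ 0 := by
    refine mon_ne_zero fun v hv => ne_zero_of_mon hmy' ?_
    have h4 : 0 ≤ X.toComb.bl (Pi.single m (1 : ℤ)) v := by
      cases hv' : X.toComb.blk v with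
      | none => rw [Comb.bl_none _ hv']
      | some m' =>
        rw [Comb.bl_some _ hv']
        refine mul_nonneg ?_ (Int.natCast_nonneg _)
        by_cases hmm : m' = m
        · subst hmm; simp
        · rw [Pi.single_eq_of_ne hmm]
    simp only [Pi.sub_apply] at hv
    omega
  exact mul_ne_zero h3 h2 h1

theorem tan_main (h : X.SmoothProjective A n) {N : ℕ} (hN : n + 2 ≤ N) {x ξ : V ⊕ Fin 2 → ℂ}
    (hx : x ∈ X.semistable A) (hξ : ξ ∈ X.tangent x) {C : ℂ}
    (hev : ∀ f, X.IsSection (X.toComb.can + N • A) f → dder x ξ f = C * eval x f) :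
    X.TangentToOrbit x ξ := by
  have G := good h
  obtain ⟨lam, hlam⟩ := Comb.fixed_limit G
  obtain ⟨psi, -, -, t, ht, -, hS, hA, hF, hfull⟩ := hlam (supp x) (adm_supp h hx.1) (semi_supp h hx)
  by_cases hE : X.toComb.Ell t
  · exact tanE h hx hξ ht hE hF hS (Comb.echart G hE hF hS hN) hev
  obtain ⟨hch, c, k, hsec, hc0, -, hk⟩ := Comb.main_cases G hN hA hF hS hE
  have hfull1 := hfull.resolve_left hE
  have hEx : ¬ X.toComb.Ell (supp x) := fun h' => hE (Comb.ell_mono ht h')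
  refine tanA h hx hξ (exists_inr_ne h hx.1 hEx) ht hF hA hS hfull1 hch (fun hall => ?_) hev
  rcases hk with hk | ⟨i, -, hfi, -⟩
  · exact ⟨c, k, hk, hsec, hc0⟩
  · exact absurd (hfull1 i (hall i)) hfi

theorem main (h : X.SmoothProjective A n) {N : ℕ} (hN : n + 2 ≤ N) :
    X.VeryAmple A (X.toComb.can + N • A) := by
  refine ⟨fun x hx => bpf_main h hN hx, fun x hx y hy hxy => ?_, fun x hx ξ hξ hxξ => ?_⟩
  · by_contra hcon
    push Not at hcon
    obtain ⟨f0, hf0, hf0x⟩ := bpf_main h hN hx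
    obtain ⟨f1, hf1, hf1y⟩ := bpf_main h hN hy
    have hev : ∀ f, X.IsSection (X.toComb.can + N • A) f →
        eval y f = eval y f0 / eval x f0 * eval x f := by
      intro f hf
      have hg : X.IsSection (X.toComb.can + N • A) (f - C (eval x f / eval x f0) * f0) := by
        refine IsWeightedHomogeneous.sub hf ?_
        have := (isWeightedHomogeneous_C X.wt (eval x f / eval x f0)).mul hf0
        rwa [zero_add] at this
      have hgx : eval x (f - C (eval x f / eval x f0) * f0) = 0 := by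
        simp only [map_sub, map_mul, eval_C]
        field_simp
        ring
      have hgy := hcon _ hg hgx
      simp only [map_sub, map_mul, eval_C] at hgy
      rw [sub_eq_zero] at hgy
      rw [hgy]
      ring
    have hC0 : eval y f0 / eval x f0 ≠ 0 := by
      intro h0
      have := hev f1 hf1
      rw [h0, zero_mul] at this
      exact hf1y this
    exact hxy (sep_main h hN hx hy hC0 hev)
  · by_contra hcon
    push Not at hcon
    obtain ⟨f0, hf0, hf0x⟩ := bpf_main h hN hx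
    have hlin : ∀ (f g : MvPolynomial (V ⊕ Fin 2) ℂ) (r : ℂ),
        dder x ξ (f - C r * g) = dder x ξ f - r * dder x ξ g := by
      intro f g r
      unfold dder
      rw [Finset.mul_sum, ← Finset.sum_sub_distrib]
      refine Finset.sum_congr rfl fun s _ => ?_
      have h1 : eval x (pderiv s (f - C r * g)) = eval x (pderiv s f) - r * eval x (pderiv s g) := by
        rw [map_sub, pderiv_C_mul, map_sub, map_mul, eval_C]
      rw [h1]
      ring
    have hev : ∀ f, X.IsSection (X.toComb.can + N • A) f →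
        dder x ξ f = dder x ξ f0 / eval x f0 * eval x f := by
      intro f hf
      have hg : X.IsSection (X.toComb.can + N • A) (f - C (eval x f / eval x f0) * f0) := by
        refine IsWeightedHomogeneous.sub hf ?_
        have := (isWeightedHomogeneous_C X.wt (eval x f / eval x f0)).mul hf0
        rwa [zero_add] at this
      have hgx : eval x (f - C (eval x f / eval x f0) * f0) = 0 := by
        simp only [map_sub, map_mul, eval_C]
        field_simp
        ring
      have hgy := hcon _ hg hgx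
      rw [hlin, sub_eq_zero] at hgy
      rw [hgy]
      ring
    exact hxξ (tan_main h hN hx hξ hev)

end CoxData

end Pool.Agent.Helper39.TV
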