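import Mathlib

/-! TV, module Matrix -/

open Finset

set_option linter.unusedSectionVars false

namespace Pool.Agent.Helper39.TV

theorem matrix_lemma {α β : Type} [Fintype α] [Fintype β] (hcard : Fintype.card α = Fintype.card β)
    (X0 : β → ℚ) (X : β → α → ℚ) (Y0 : α → ℚ) (Y : α → β → ℚ)
    (hX0 : ∀ l, 0 ≤ X0 l) (hX : ∀ l k, 0 ≤ X l k) (hY0 : ∀ k, 0 ≤ Y0 k) (hY : ∀ k l, 0 ≤ Y k l)
    (hXs : ∀ l, 2 * X0 l + ∑ k, X l k ≤ 1) (hYs : ∀ k, 2 * Y0 k + ∑ l, Y k l ≤ 1)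
    (hinv : ∀ k, Y0 k + ∑ l, X l k * (Y k l - Y0 k) = 1) : ∀ l, X0 l = 0 := by
  have hs : ∀ k, 1 ≤ ∑ l, X l k := by
    intro k
    by_contra hlt
    push Not at hlt
    set s := ∑ l, X l k with hsdef
    have hs0 : 0 ≤ s := Finset.sum_nonneg fun l _ => hX l k
    have hYl : ∀ l, Y k l ≤ 1 - 2 * Y0 k := by
      intro l
      have h9 : Y k l ≤ ∑ l, Y k l :=
        Finset.single_le_sum (f := fun l => Y k l) (fun l _ => hY k l) (Finset.mem_univ l)
      have := hYs k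
      linarith
    have hY02 : Y0 k ≤ 1 / 2 := by
      have h1 : 0 ≤ ∑ l, Y k l := Finset.sum_nonneg fun l _ => hY k l
      have := hYs k
      linarith
    have h2 : ∑ l, X l k * (Y k l - Y0 k) ≤ s * (1 - 3 * Y0 k) := by
      rw [hsdef, Finset.sum_mul]
      refine Finset.sum_le_sum fun l _ => ?_
      exact mul_le_mul_of_nonneg_left (by linarith [hYl l]) (hX l k)
    have h3 := hinv k
    have h4 := hY0 k
    rcases le_or_gt 0 (1 - 3 * s) with h | h
    · nlinarith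
    · nlinarith
  have h1 : (Fintype.card α : ℚ) ≤ ∑ k, ∑ l, X l k := by
    have := Finset.sum_le_sum fun k (_ : k ∈ (Finset.univ : Finset α)) => hs k
    simpa using this
  rw [Finset.sum_comm] at h1
  have h2 : ∑ l, ∑ k, X l k ≤ ∑ l, (1 - 2 * X0 l) :=
    Finset.sum_le_sum fun l _ => by linarith [hXs l]
  have h3 : ∑ l, (1 - 2 * X0 l) = (Fintype.card β : ℚ) - 2 * ∑ l, X0 l := by
    rw [Finset.sum_sub_distrib, ← Finset.mul_sum]
    simp
  have h4 : ∑ l, X0 l ≤ 0 := by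
    rw [hcard] at h1
    linarith
  have h5 : ∑ l, X0 l = 0 := le_antisymm h4 (Finset.sum_nonneg fun l _ => hX0 l)
  intro l
  exact (Finset.sum_eq_zero_iff_of_nonneg fun l _ => hX0 l).1 h5 l (Finset.mem_univ l)

end Pool.Agent.Helper39.TV
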