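import Pool.Agent.Helper39.TV.PPoint

/-! TV, module PEll -/

open Finset MvPolynomial

set_option linter.unusedSectionVars false

namespace Pool.Agent.Helper39.TV

variable {V ι K : Type} [Fintype V] [DecidableEq V] [Fintype ι] [DecidableEq ι] [AddCommGroup K]

namespace CoxData

variable {X : CoxData V ι K} {A : K} {n : ℕ}

/-- the derivatives of the relation of a block which is not simple, with respect to `z` -/
theorem PEll_pderiv_inl (hl : ∀ v, 0 < X.l v) {x : V ⊕ Fin 2 → ℂ} {i : ι}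
    (hfull : ¬ X.toComb.Full (supp x) i) (hsim : ¬ X.toComb.Simple (supp x) i) (v : V) :
    eval x (pderiv (Sum.inl v) (X.rel i)) = 0 := by
  classical
  have hsupp : ∀ w, w ∉ supp x → x (Sum.inl w) = 0 := by
    intro w hw
    simpa [supp] using hw
  simp only [Comb.Full, not_forall] at hfull
  obtain ⟨w0, hw0, hw0'⟩ := hfull
  have hmem : w0 ∈ univ.filter (fun v => X.blk v = some i) := by
    simp [hw0]
  rw [rel, ← Finset.mul_prod_erase _ _ hmem, map_sub, pderiv_mul, map_sub, map_add, map_mul,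
    map_mul, map_pow (eval x), eval_X, hsupp w0 hw0', zero_pow (hl w0).ne', zero_mul, add_zero]
  have h1 : eval x (pderiv (Sum.inl v) (C (X.a i 0) * MvPolynomial.X (Sum.inr 0) +
      C (X.a i 1) * MvPolynomial.X (Sum.inr 1) : MvPolynomial (V ⊕ Fin 2) ℂ)) = 0 := by
    rw [map_add, pderiv_C_mul, pderiv_C_mul, pderiv_X, pderiv_X]
    simp
  rw [h1, sub_zero]
  by_cases hex : ∃ w1, w1 ≠ w0 ∧ X.blk w1 = some i ∧ w1 ∉ supp x
  · obtain ⟨w1, hw1, hw1b, hw1'⟩ := hex
    have h2 : eval x (∏ v ∈ (univ.filter (fun v => X.blk v = some i)).erase w0,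
        (MvPolynomial.X (Sum.inl v) : MvPolynomial (V ⊕ Fin 2) ℂ) ^ X.l v) = 0 := by
      rw [map_prod]
      apply Finset.prod_eq_zero (i := w1)
      · rw [Finset.mem_erase]
        exact ⟨hw1, by simp [hw1b]⟩
      · rw [map_pow, eval_X, hsupp w1 hw1', zero_pow (hl w1).ne']
    rw [h2, mul_zero]
  · push Not at hex
    have h3 : X.l w0 ≠ 1 := by
      intro h
      apply hsim
      refine ⟨w0, ⟨hw0', hw0, ?_⟩, h⟩
      intro w hw hne
      exact hex w hne hw
    have h4 : eval x (pderiv (Sum.inl v)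
        ((MvPolynomial.X (Sum.inl w0) : MvPolynomial (V ⊕ Fin 2) ℂ) ^ X.l w0)) = 0 := by
      rw [pderiv_pow, map_mul, map_mul, map_pow, eval_X, hsupp w0 hw0',
        zero_pow (by have := hl w0; omega)]
      simp
    rw [h4, zero_mul]

theorem PEll_pderiv_inr (X : CoxData V ι K) (x : V ⊕ Fin 2 → ℂ) (i : ι) (j : Fin 2) :
    eval x (pderiv (Sum.inr j) (X.rel i)) = -X.a i j := by
  classical
  have h0 : ∀ s : Finset V, pderiv (Sum.inr j) (∏ v ∈ s,
      (MvPolynomial.X (Sum.inl v) : MvPolynomial (V ⊕ Fin 2) ℂ) ^ X.l v) = 0 := by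
    intro s
    induction s using Finset.induction_on with
    | empty => simp
    | insert a s ha ih =>
      rw [Finset.prod_insert ha, pderiv_mul, ih, mul_zero, add_zero, pderiv_pow, pderiv_X]
      simp
  rw [rel, map_sub, h0, zero_sub, map_neg, map_add, pderiv_C_mul, pderiv_C_mul, pderiv_X,
    pderiv_X, map_add]
  fin_cases j <;> simp

theorem ell_of_smooth (h : X.SmoothProjective A n) {σ : Finset V} (hE : X.toComb.Ell σ)
    (hS : X.toComb.Semi A σ) :
    ∃ i j : ι, i ≠ j ∧ ∀ m, m ≠ i → m ≠ j → X.toComb.Simple σ m := by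
  classical
  by_contra hcon
  push Not at hcon
  obtain ⟨i, j, hij⟩ := h.two
  obtain ⟨m1, -, -, hm1⟩ := hcon i j hij
  have hex : ∃ i', i' ≠ m1 := by
    by_cases hi : i = m1
    · exact ⟨j, fun hj => hij (by rw [hi, hj])⟩
    · exact ⟨i, hi⟩
  obtain ⟨i', hi'⟩ := hex
  obtain ⟨m2, hm21, -, hm2⟩ := hcon m1 i' hi'.symm
  obtain ⟨m3, hm31, hm32, hm3⟩ := hcon m1 m2 hm21.symm
  obtain ⟨x, hx, hsx, hx0⟩ := exists_point h (Or.inl hE)
  rw [← hsx] at hE hS hm1 hm2 hm3
  have hsm := h.smooth x (semistable_of_semi h hx hS)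
  rw [Fintype.linearIndependent_iff] at hsm
  set c1 : ℂ := X.a m2 0 * X.a m3 1 - X.a m2 1 * X.a m3 0 with hc1
  set c2 : ℂ := X.a m3 0 * X.a m1 1 - X.a m3 1 * X.a m1 0 with hc2
  set c3 : ℂ := X.a m1 0 * X.a m2 1 - X.a m1 1 * X.a m2 0 with hc3
  have hc1' : c1 ≠ 0 := sub_ne_zero.mpr (h.indep m2 m3 hm32.symm)
  have hg := hsm (Pi.single m1 c1 + Pi.single m2 c2 + Pi.single m3 c3) ?_ m1
  · rw [Pi.add_apply, Pi.add_apply, Pi.single_eq_same, Pi.single_eq_of_ne hm21.symm,
      Pi.single_eq_of_ne hm31.symm, add_zero, add_zero] at hg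
    exact hc1' hg
  · have hsum : ∀ F : ι → (V ⊕ Fin 2 → ℂ),
        ∑ i, (Pi.single m1 c1 + Pi.single m2 c2 + Pi.single m3 c3 : ι → ℂ) i • F i =
          c1 • F m1 + c2 • F m2 + c3 • F m3 := by
      intro F
      have h1 : ∀ (m : ι) (c : ℂ), ∑ i, (Pi.single m c : ι → ℂ) i • F i = c • F m := by
        intro m c
        rw [Finset.sum_eq_single m]
        · rw [Pi.single_eq_same]
        · intro b _ hb
          rw [Pi.single_eq_of_ne hb, zero_smul]
        · intro hm
          exact absurd (Finset.mem_univ m) hm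
      simp only [Pi.add_apply, add_smul, Finset.sum_add_distrib]
      rw [h1, h1, h1]
    rw [hsum]
    funext s
    simp only [Pi.add_apply, Pi.smul_apply, smul_eq_mul, Pi.zero_apply]
    cases s with
    | inl v =>
      rw [PEll_pderiv_inl h.lpos (hE m1) hm1, PEll_pderiv_inl h.lpos (hE m2) hm2,
        PEll_pderiv_inl h.lpos (hE m3) hm3]
      ring
    | inr j =>
      rw [PEll_pderiv_inr, PEll_pderiv_inr, PEll_pderiv_inr]
      have hj : ∀ j : Fin 2, c1 * -X.a m1 j + c2 * -X.a m2 j + c3 * -X.a m3 j = 0 := by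
        rw [Fin.forall_fin_two]
        constructor
        · rw [hc1, hc2, hc3]
          ring
        · rw [hc1, hc2, hc3]
          ring
      exact hj j

end CoxData

end Pool.Agent.Helper39.TV
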