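import Pool.Agent.Helper39.TV.PPoint

/-! TV, module PGen -/

open Finset MvPolynomial

set_option linter.unusedSectionVars false

namespace Pool.Agent.Helper39.TV

variable {V ι K : Type} [Fintype V] [DecidableEq V] [Fintype ι] [DecidableEq ι] [AddCommGroup K]

/-- the exponential of `2 π i q` as a unit -/
noncomputable def pgen_exp0 : ℚ →+ Additive ℂˣ :=
  AddMonoidHom.mk' (fun q => Additive.ofMul
    (Units.mk0 (Complex.exp (2 * Real.pi * Complex.I * (q : ℂ))) (Complex.exp_ne_zero _))) (by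
    intro a b
    rw [← ofMul_mul]
    congr 1
    ext
    simp only [Units.val_mk0, Units.val_mul]
    rw [← Complex.exp_add]
    congr 1
    push_cast
    ring)

lemma pgen_exp0_eq_zero {q : ℚ} : pgen_exp0 q = 0 ↔ ∃ n : ℤ, q = n := by
  have h1 : pgen_exp0 q = 0 ↔ Complex.exp (2 * Real.pi * Complex.I * (q : ℂ)) = 1 := by
    rw [← ofMul_one]
    change Additive.ofMul (Units.mk0 (Complex.exp (2 * Real.pi * Complex.I * (q : ℂ)))
      (Complex.exp_ne_zero _)) = Additive.ofMul 1 ↔ _
    rw [Additive.ofMul.apply_eq_iff_eq, ← Units.val_eq_one, Units.val_mk0]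
  rw [h1, Complex.exp_eq_one_iff]
  constructor
  · rintro ⟨n, hn⟩
    refine ⟨n, ?_⟩
    have h2 : (2 * Real.pi * Complex.I : ℂ) ≠ 0 := Complex.two_pi_I_ne_zero
    have h3 : (q : ℂ) = (n : ℂ) := by
      apply mul_left_cancel₀ h2
      rw [hn]; ring
    exact_mod_cast h3
  · rintro ⟨n, rfl⟩
    refine ⟨n, ?_⟩
    push_cast
    ring

/-- the embedding of `ℚ/ℤ` into the units of `ℂ` -/
noncomputable def pgen_exp : AddCircle (1 : ℚ) →+ Additive ℂˣ :=
  QuotientAddGroup.lift (AddSubgroup.zmultiples (1 : ℚ)) pgen_exp0 (by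
    intro q hq
    obtain ⟨n, hn⟩ := AddSubgroup.mem_zmultiples_iff.mp hq
    apply pgen_exp0_eq_zero.mpr
    exact ⟨n, by rw [← hn]; simp⟩)

lemma pgen_exp_inj {z : AddCircle (1 : ℚ)} (h : pgen_exp z = 0) : z = 0 := by
  obtain ⟨q, rfl⟩ := QuotientAddGroup.mk_surjective z
  have h1 : pgen_exp0 q = 0 := h
  obtain ⟨n, hn⟩ := pgen_exp0_eq_zero.mp h1
  rw [QuotientAddGroup.eq_zero_iff, AddSubgroup.mem_zmultiples_iff]
  exact ⟨n, by rw [hn]; simp⟩

namespace CoxData

variable {X : CoxData V ι K} {A : K} {n : ℕ}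

theorem gen_of_free (h : X.SmoothProjective A n) {σ : Finset V} (hA : X.toComb.Adm σ)
    (hS : X.toComb.Semi A σ) (w : K) : ∃ b : V → ℤ, (∀ v, v ∉ σ → b v = 0) ∧ X.toComb.dg b = w := by
  classical
  obtain ⟨x, hx, hsupp, hell⟩ := exists_point h hA
  have hxs : x ∈ X.semistable A := semistable_of_semi h hx (by rw [hsupp]; exact hS)
  set K' : AddSubgroup K := AddSubgroup.closure (X.deg '' (σ : Set V)) with hK'
  have hdeg : ∀ v ∈ σ, X.deg v ∈ K' := fun v hv =>
    AddSubgroup.subset_closure ⟨v, hv, rfl⟩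
  have hmu : ¬ X.toComb.Ell σ → X.mu ∈ K' := by
    intro hE
    simp only [Comb.Ell, not_forall, not_not] at hE
    obtain ⟨i, hi⟩ := hE
    rw [← h.homog i]
    refine AddSubgroup.sum_mem _ fun v hv => ?_
    exact AddSubgroup.nsmul_mem _ (hdeg v (hi v (Finset.mem_filter.mp hv).2)) _
  have hw : w ∈ K' := by
    by_contra hw
    have h1 : (QuotientAddGroup.mk w : K ⧸ K') ≠ 0 := by
      rw [ne_eq, QuotientAddGroup.eq_zero_iff]
      exact hw
    obtain ⟨c, hc⟩ := CharacterModule.exists_character_apply_ne_zero_of_ne_zero h1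
    let f : K →+ Additive ℂˣ := pgen_exp.comp ((c : (K ⧸ K') →+ AddCircle (1 : ℚ)).comp
      (QuotientAddGroup.mk' K'))
    have hf0 : ∀ k ∈ K', f k = 0 := by
      intro k hk
      have h2 : (QuotientAddGroup.mk' K') k = 0 := (QuotientAddGroup.eq_zero_iff k).mpr hk
      change pgen_exp (c ((QuotientAddGroup.mk' K') k)) = 0
      rw [h2, map_zero, map_zero]
    have hfw : f w ≠ 0 := fun h2 => hc (pgen_exp_inj h2)
    let g : Multiplicative K →* ℂˣ := AddMonoidHom.toMultiplicativeLeft f
    have hg : ∀ k, g (Multiplicative.ofAdd k) = (f k).toMul := fun k => rfl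
    have hg1 : g = 1 := by
      refine h.free x hxs g ?_
      intro s
      by_cases hs : x s = 0
      · rw [hs, mul_zero]
      · have hwt : X.wt s ∈ K' := by
          cases s with
          | inl v =>
            apply hdeg v
            rw [← hsupp]
            simp only [supp, Finset.mem_filter, Finset.mem_univ, true_and]
            exact hs
          | inr j =>
            apply hmu
            intro hE
            exact hs (hell hE j)
        rw [hg, hf0 _ hwt]
        simp
    apply hfw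
    have h3 : g (Multiplicative.ofAdd w) = 1 := by rw [hg1]; rfl
    rw [hg] at h3
    exact h3
  rw [hK'] at hw
  induction hw using AddSubgroup.closure_induction with
  | mem k hk =>
    obtain ⟨v, hv, rfl⟩ := hk
    refine ⟨Pi.single v 1, fun u hu => ?_, Comb.dg_single v⟩
    have : u ≠ v := fun h => hu (h ▸ hv)
    simp [this]
  | zero => exact ⟨0, fun _ _ => rfl, Comb.dg_zero⟩
  | add a b _ _ iha ihb =>
    obtain ⟨c, hc, hcd⟩ := iha
    obtain ⟨d, hd, hdd⟩ := ihb
    exact ⟨c + d, fun u hu => by simp [hc u hu, hd u hu], by rw [Comb.dg_add, hcd, hdd]⟩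
  | neg a _ iha =>
    obtain ⟨c, hc, hcd⟩ := iha
    exact ⟨-c, fun u hu => by simp [hc u hu], by rw [Comb.dg_neg, hcd]⟩

end CoxData

end Pool.Agent.Helper39.TV
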