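import Pool.Agent.Helper39.TV.PGen
import Pool.Agent.Helper39.TV.PEll

/-! TV, module PGood -/

open Finset MvPolynomial

set_option linter.unusedSectionVars false

namespace Pool.Agent.Helper39.TV

variable {V ι K : Type} [Fintype V] [DecidableEq V] [Fintype ι] [DecidableEq ι] [AddCommGroup K]

namespace CoxData

variable {X : CoxData V ι K} {A : K} {n : ℕ}

theorem pgood_dg_bl_single (h : X.SmoothProjective A n) (i : ι) :
    X.toComb.dg (X.toComb.bl (Pi.single i 1)) = X.mu := by
  rw [← h.homog i, Comb.dg, Finset.sum_filter]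
  refine Finset.sum_congr rfl fun v _ => ?_
  cases hv : X.toComb.blk v with
  | none => rw [Comb.bl_none _ hv]; simp
  | some j =>
    rw [Comb.bl_some _ hv]
    by_cases hij : j = i
    · subst hij; simp
    · rw [Pi.single_eq_of_ne hij, zero_mul, if_neg, zero_smul]
      simpa using hij

theorem pgood_weight (X : CoxData V ι K) (b : V ⊕ Fin 2 →₀ ℕ) :
    Finsupp.weight X.wt b = ∑ v, b (Sum.inl v) • X.deg v + (b (Sum.inr 0) + b (Sum.inr 1)) • X.mu := by
  rw [Finsupp.weight_apply, Finsupp.sum_fintype _ _ (by simp), Fintype.sum_sum_type]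
  simp only [wt, Sum.elim_inl, Sum.elim_inr, Fin.sum_univ_two, add_smul]

theorem good (h : X.SmoothProjective A n) : X.toComb.Good A n where
  lpos := h.lpos
  two := h.two
  ne := by
    intro i
    by_contra hcon
    push Not at hcon
    have hmu : X.mu = 0 := by
      rw [← h.homog i]
      refine Finset.sum_eq_zero fun v hv => ?_
      exact absurd (Finset.mem_filter.1 hv).2 (hcon v)
    have h1 := h.pointed (Finsupp.single (Sum.inr 0) 1) (by
      rw [pgood_weight, hmu]
      simp)
    have h2 := DFunLike.congr_fun h1 (Sum.inr 0)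
    simp at h2
  mu_eq := pgood_dg_bl_single h
  pointed := by
    intro a ha hd
    have h1 := h.pointed (Finsupp.equivFunOnFinite.symm (Sum.elim (fun v => (a v).toNat) fun _ => 0)) (by
      rw [pgood_weight]
      simp only [Finsupp.equivFunOnFinite_symm_apply_apply, Sum.elim_inl, Sum.elim_inr, add_zero,
        zero_smul]
      rw [← hd, Comb.dg]
      refine Finset.sum_congr rfl fun v _ => ?_
      conv_rhs => rw [← Int.toNat_of_nonneg (ha v)]
      rw [natCast_zsmul])
    funext v
    have h2 := DFunLike.congr_fun h1 (Sum.inl v)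
    simp only [Finsupp.equivFunOnFinite_symm_apply_apply, Sum.elim_inl, Finsupp.coe_zero,
      Pi.zero_apply] at h2
    have := ha v
    simp only [Pi.zero_apply]
    omega
  tf := by
    intro a hd m hm hrel
    obtain ⟨c, hc, hce⟩ := hrel
    obtain ⟨c', hc', hce'⟩ := h.connected a hd m hm ⟨c, hc, fun v => by
      have h1 := congrFun hce v
      simp only [Pi.smul_apply, smul_eq_mul] at h1
      rw [h1]; rfl⟩
    exact ⟨c', hc', funext hce'⟩
  gen := fun σ hA hS w => gen_of_free h hA hS w
  ell := fun σ hE hS => ell_of_smooth h hE hS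
  dim := h.dim

end CoxData

end Pool.Agent.Helper39.TV
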