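import Pool.Agent.Helper39.TV.PSupp

/-! TV, module PPoint -/

open Finset MvPolynomial

set_option linter.unusedSectionVars false

namespace Pool.Agent.Helper39.TV

variable {V ι K : Type} [Fintype V] [DecidableEq V] [Fintype ι] [DecidableEq ι] [AddCommGroup K]

namespace CoxData

variable {X : CoxData V ι K} {A : K} {n : ℕ}

/-- blocks are not empty -/
private lemma pp_ne (h : X.SmoothProjective A n) (i : ι) : ∃ v, X.blk v = some i := by
  by_contra hcon
  push Not at hcon
  have h1 := h.homog i
  rw [Finset.filter_false_of_mem (fun v _ => hcon v), Finset.sum_empty] at h1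
  have h2 := h.pointed (Finsupp.single (Sum.inr 0) 1) (by
    rw [Finsupp.weight_single, one_smul]
    exact h1.symm)
  have h3 := DFunLike.congr_fun h2 (Sum.inr 0)
  simp at h3

/-- a point with the right forms -/
private lemma pp_forms (h : X.SmoothProjective A n) {σ : Finset V} {i : ι}
    (hO : X.toComb.Over σ i) : ∃ p : Fin 2 → ℂ, ∀ j,
      (X.toComb.Full σ j → X.a j 0 * p 0 + X.a j 1 * p 1 ≠ 0) ∧
      (¬ X.toComb.Full σ j → X.a j 0 * p 0 + X.a j 1 * p 1 = 0) := by
  by_cases hi : X.toComb.Full σ i
  · have hall : ∀ j, X.toComb.Full σ j := by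
      intro j
      by_cases hj : j = i
      · rw [hj]; exact hi
      · exact hO j hj
    have ha : ∀ j, X.a j 0 ≠ 0 ∨ X.a j 1 ≠ 0 := by
      intro j
      by_contra hcon
      push Not at hcon
      obtain ⟨i', j', hij⟩ := h.two
      have : ∃ m, m ≠ j := by
        by_cases h1 : i' = j
        · exact ⟨j', fun h2 => hij (h1.trans h2.symm)⟩
        · exact ⟨i', h1⟩
      obtain ⟨m, hm⟩ := this
      apply h.indep m j hm
      rw [hcon.1, hcon.2]
      ring
    have hfin : (⋃ j : ι, {t : ℂ | X.a j 0 + X.a j 1 * t = 0}).Finite := by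
      refine Set.finite_iUnion fun j => ?_
      by_cases h1 : X.a j 1 = 0
      · have h0 : X.a j 0 ≠ 0 := (ha j).resolve_right (not_not.2 h1)
        convert Set.finite_empty
        ext t
        simp [h1, h0]
      · refine (Set.finite_singleton (-X.a j 0 / X.a j 1)).subset ?_
        intro t ht
        rw [Set.mem_singleton_iff, eq_div_iff h1]
        have : X.a j 0 + X.a j 1 * t = 0 := ht
        linear_combination this
    obtain ⟨t, ht⟩ := hfin.exists_notMem
    refine ⟨![1, t], fun j => ⟨fun _ h1 => ht ?_, fun h1 => absurd (hall j) h1⟩⟩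
    rw [Set.mem_iUnion]
    refine ⟨j, ?_⟩
    simp only [Matrix.cons_val_zero, Matrix.cons_val_one, mul_one] at h1
    exact h1
  · refine ⟨![X.a i 1, -X.a i 0], fun j => ⟨fun hj h1 => ?_, fun hj => ?_⟩⟩
    · have hji : j ≠ i := by
        rintro rfl
        exact hi hj
      simp only [Matrix.cons_val_zero, Matrix.cons_val_one] at h1
      apply h.indep j i hji
      linear_combination h1
    · have hji : j = i := by
        by_contra hne
        exact hj (hO j hne)
      subst hji
      simp only [Matrix.cons_val_zero, Matrix.cons_val_one]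
      ring

/-- every admissible support is the support of a point -/
theorem exists_point (h : X.SmoothProjective A n) {σ : Finset V} (hA : X.toComb.Adm σ) :
    ∃ x ∈ X.total, supp x = σ ∧ (X.toComb.Ell σ → ∀ j, x (Sum.inr j) = 0) := by
  classical
  by_cases hE : X.toComb.Ell σ
  · refine ⟨Sum.elim (fun v => if v ∈ σ then 1 else 0) (fun _ => 0), ?_, ?_, fun _ j => rfl⟩
    · rw [total_iff]
      intro i
      have h1 := hE i
      unfold Comb.Full at h1
      push Not at h1
      obtain ⟨v, hv, hvσ⟩ := h1
      have h2 : X.form i (Sum.elim (fun v => if v ∈ σ then (1 : ℂ) else 0) (fun _ => 0)) = 0 := by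
        simp [form]
      rw [h2]
      apply Finset.prod_eq_zero (i := v) (by simpa using hv)
      simp only [Sum.elim_inl, if_neg hvσ]
      exact zero_pow (h.lpos v).ne'
    · ext v
      rw [mem_supp]
      simp
  · obtain ⟨i, hi⟩ : ∃ i, X.toComb.Over σ i := hA.resolve_left hE
    obtain ⟨p, hp⟩ := pp_forms h hi
    choose c hc using pp_ne h
    have hr : ∀ j, ∃ r : ℂ, r ≠ 0 ∧ (X.toComb.Full σ j →
        r ^ X.l (c j) = X.a j 0 * p 0 + X.a j 1 * p 1) := by
      intro j
      by_cases hj : X.toComb.Full σ j
      · obtain ⟨r, hr⟩ := IsAlgClosed.exists_pow_nat_eq (X.a j 0 * p 0 + X.a j 1 * p 1)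
          (h.lpos (c j))
        refine ⟨r, ?_, fun _ => hr⟩
        rintro rfl
        rw [zero_pow (h.lpos (c j)).ne'] at hr
        exact (hp j).1 hj hr.symm
      · exact ⟨1, one_ne_zero, fun h1 => absurd h1 hj⟩
    choose r hr0 hr using hr
    set z : V → ℂ := fun v => if v ∈ σ then
      (X.blk v).elim 1 (fun j => if v = c j then r j else 1) else 0 with hz
    have hz1 : ∀ v, z v ≠ 0 ↔ v ∈ σ := by
      intro v
      by_cases hv : v ∈ σ
      · simp only [hv, iff_true, hz, if_true]
        cases hb : X.blk v with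
        | none => simp
        | some j =>
          simp only [Option.elim_some]
          split_ifs
          · exact hr0 j
          · exact one_ne_zero
      · simp [hv, hz]
    refine ⟨Sum.elim z p, ?_, ?_, fun h1 => absurd h1 hE⟩
    · rw [total_iff]
      intro j
      have h2 : X.form j (Sum.elim z p) = X.a j 0 * p 0 + X.a j 1 * p 1 := rfl
      rw [h2]
      by_cases hj : X.toComb.Full σ j
      · rw [← hr j hj, Finset.prod_eq_single (c j)]
        · have h3 : c j ∈ σ := hj _ (hc j)
          simp only [Sum.elim_inl, hz, if_pos h3, hc j, Option.elim_some, if_true]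
        · intro v hv hvc
          have hvj : X.blk v = some j := by simpa using hv
          have h3 : v ∈ σ := hj _ hvj
          simp only [Sum.elim_inl, hz, if_pos h3, hvj, Option.elim_some, if_neg hvc, one_pow]
        · intro h3
          exact absurd (by simpa using hc j) h3
      · rw [(hp j).2 hj]
        unfold Comb.Full at hj
        push Not at hj
        obtain ⟨v, hv, hvσ⟩ := hj
        apply Finset.prod_eq_zero (i := v) (by simpa using hv)
        simp only [Sum.elim_inl, hz, if_neg hvσ]
        exact zero_pow (h.lpos v).ne'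
    · ext v
      rw [mem_supp]
      exact hz1 v

theorem semistable_of_semi (h : X.SmoothProjective A n) {x : V ⊕ Fin 2 → ℂ} (hx : x ∈ X.total)
    (hS : X.toComb.Semi A (supp x)) : x ∈ X.semistable A := by
  obtain ⟨a, ⟨m, hm, b, hb, hba⟩, ha0, ha⟩ := hS
  have hb0 : ∀ v, 0 ≤ b v := by
    intro v
    have h1 : (0 : ℚ) ≤ b v := by
      rw [hba v]
      exact mul_nonneg (by positivity) (ha0 v)
    exact_mod_cast h1
  have hbz : ∀ v, v ∉ supp x → b v = 0 := by
    intro v hv
    have h1 : (b v : ℚ) = 0 := by rw [hba v, ha v hv, mul_zero]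
    exact_mod_cast h1
  have hsec : X.toComb.Sec (m • A) b 0 := ⟨hb0, by rw [zero_smul, add_zero, hb]⟩
  obtain ⟨f, hf1, hf2, _⟩ := exists_sec hsec (fun _ _ => 0)
  refine ⟨hx, m, hm, f, hf1, ?_⟩
  rw [hf2 x, Finset.prod_of_isEmpty, mul_one]
  unfold mon
  rw [Finset.prod_ne_zero_iff]
  intro v _
  by_cases hv : v ∈ supp x
  · exact pow_ne_zero _ (mem_supp.1 hv)
  · rw [hbz v hv]
    simp

end CoxData

end Pool.Agent.Helper39.TV
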