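import Pool.Agent.Helper39.TV.Points

/-! TV, module PSec -/

open Finset MvPolynomial

set_option linter.unusedSectionVars false

namespace Pool.Agent.Helper39.TV

variable {V ι K : Type} [Fintype V] [DecidableEq V] [Fintype ι] [DecidableEq ι] [AddCommGroup K]

namespace CoxData

variable {X : CoxData V ι K} {A : K} {n : ℕ}

section dder

variable (x ξ : V ⊕ Fin 2 → ℂ)

theorem psec_add (f g : MvPolynomial (V ⊕ Fin 2) ℂ) :
    dder x ξ (f + g) = dder x ξ f + dder x ξ g := by
  simp only [dder, map_add, mul_add, Finset.sum_add_distrib]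

theorem psec_sub (f g : MvPolynomial (V ⊕ Fin 2) ℂ) :
    dder x ξ (f - g) = dder x ξ f - dder x ξ g := by
  simp only [dder, map_sub, mul_sub, Finset.sum_sub_distrib]

theorem psec_mul (f g : MvPolynomial (V ⊕ Fin 2) ℂ) :
    dder x ξ (f * g) = dder x ξ f * eval x g + eval x f * dder x ξ g := by
  simp only [dder, Finset.sum_mul, Finset.mul_sum, ← Finset.sum_add_distrib]
  refine Finset.sum_congr rfl fun s _ => ?_
  rw [Derivation.leibniz]
  simp only [smul_eq_mul, map_add, map_mul]
  ring

theorem psec_C (a : ℂ) : dder x ξ (C a) = 0 := by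
  simp [dder]

theorem psec_one : dder x ξ 1 = 0 := by
  have := psec_C x ξ 1
  rwa [map_one] at this

theorem psec_X (s : V ⊕ Fin 2) : dder x ξ (MvPolynomial.X s) = ξ s := by
  simp only [dder]
  rw [Finset.sum_eq_single s]
  · rw [pderiv_X_self, map_one, mul_one]
  · intro t _ ht
    rw [pderiv_X_of_ne (Ne.symm ht), map_zero, mul_zero]
  · intro h
    exact absurd (Finset.mem_univ s) h

theorem psec_prod {α : Type} [DecidableEq α] (s : Finset α)
    (f : α → MvPolynomial (V ⊕ Fin 2) ℂ) :
    dder x ξ (∏ i ∈ s, f i) = ∑ i ∈ s, dder x ξ (f i) * ∏ j ∈ s.erase i, eval x (f j) := by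
  induction s using Finset.induction_on with
  | empty => simp [psec_one]
  | insert a s ha ih =>
    rw [Finset.prod_insert ha, psec_mul, Finset.sum_insert ha, Finset.erase_insert ha, ih,
      map_prod, Finset.mul_sum]
    congr 1
    refine Finset.sum_congr rfl fun i hi => ?_
    have hne : i ≠ a := fun h => ha (h ▸ hi)
    rw [Finset.erase_insert_of_ne (Ne.symm hne), Finset.prod_insert (by
      simp only [Finset.mem_erase, not_and]
      exact fun _ => ha)]
    ring

theorem psec_pow (f : MvPolynomial (V ⊕ Fin 2) ℂ) (k : ℕ) :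
    dder x ξ (f ^ k) = (k : ℂ) * dder x ξ f * eval x f ^ (k - 1) := by
  induction k with
  | zero => simp [psec_one]
  | succ k ih =>
    rw [pow_succ, psec_mul, ih, map_pow, Nat.add_sub_cancel]
    cases k with
    | zero => simp
    | succ k =>
      rw [Nat.add_sub_cancel]
      push_cast
      ring

theorem psec_lin (g : Fin 2 → ℂ) :
    dder x ξ (C (g 0) * MvPolynomial.X (Sum.inr 0) + C (g 1) * MvPolynomial.X (Sum.inr 1)) =
      lin g ξ := by
  rw [psec_add, psec_mul, psec_mul, psec_C, psec_C, psec_X, psec_X, eval_C, eval_C]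
  simp [lin]

theorem psec_eval_lin (g : Fin 2 → ℂ) :
    eval x (C (g 0) * MvPolynomial.X (Sum.inr 0) + C (g 1) * MvPolynomial.X (Sum.inr 1)) =
      lin g x := by
  simp [lin]

end dder

/-- the section `z ^ c * ∏ g_j(p)`: its value and its derivative -/
theorem exists_sec {w : K} {c : V → ℤ} {k : ℕ} (hS : X.toComb.Sec w c k) (g : Fin k → Fin 2 → ℂ) :
    ∃ f, X.IsSection w f ∧ (∀ x, eval x f = mon c x * ∏ j, lin (g j) x) ∧
      ∀ x ξ, dder x ξ f = dmon c x ξ * ∏ j, lin (g j) x +
        mon c x * ∑ j, lin (g j) ξ * ∏ j' ∈ univ.erase j, lin (g j') x := by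
  obtain ⟨h0, h1⟩ := hS
  refine ⟨(∏ v, (MvPolynomial.X (Sum.inl v)) ^ (c v).toNat) *
    ∏ j, (C (g j 0) * MvPolynomial.X (Sum.inr 0) + C (g j 1) * MvPolynomial.X (Sum.inr 1)),
    ?_, ?_, ?_⟩
  · have e1 : IsWeightedHomogeneous X.wt
        (∏ v, (MvPolynomial.X (Sum.inl v) : MvPolynomial (V ⊕ Fin 2) ℂ) ^ (c v).toNat)
        (∑ v, (c v).toNat • X.wt (Sum.inl v)) :=
      IsWeightedHomogeneous.prod _ _ _ fun v _ => (isWeightedHomogeneous_X ℂ X.wt _).pow _
    have e2 : IsWeightedHomogeneous X.wt
        (∏ j, (C (g j 0) * MvPolynomial.X (Sum.inr 0) +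
          C (g j 1) * MvPolynomial.X (Sum.inr 1) : MvPolynomial (V ⊕ Fin 2) ℂ))
        (∑ _j : Fin k, X.mu) := by
      refine IsWeightedHomogeneous.prod _ _ _ fun j _ => ?_
      refine IsWeightedHomogeneous.add ?_ ?_
      · exact (isWeightedHomogeneous_X ℂ X.wt (Sum.inr 0)).C_mul _
      · exact (isWeightedHomogeneous_X ℂ X.wt (Sum.inr 1)).C_mul _
    have e3 : (∑ v, (c v).toNat • X.wt (Sum.inl v)) + ∑ _j : Fin k, X.mu = w := by
      rw [← h1]
      congr 1
      · unfold Comb.dg
        refine Finset.sum_congr rfl fun v _ => ?_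
        conv_rhs => rw [← Int.toNat_of_nonneg (h0 v)]
        rw [natCast_zsmul]
        rfl
      · simp
    have := e1.mul e2
    rw [e3] at this
    exact this
  · intro x
    rw [map_mul, map_prod, map_prod]
    unfold mon
    congr 1
    · refine Finset.prod_congr rfl fun v _ => ?_
      rw [map_pow, eval_X]
    · exact Finset.prod_congr rfl fun j _ => psec_eval_lin x (g j)
  · intro x ξ
    rw [psec_mul, psec_prod, psec_prod, map_prod, map_prod]
    unfold mon dmon
    congr 1
    · congr 1
      · refine Finset.sum_congr rfl fun v _ => ?_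
        rw [psec_pow, psec_X, eval_X]
        congr 1
        refine Finset.prod_congr rfl fun u _ => ?_
        rw [map_pow, eval_X]
      · exact Finset.prod_congr rfl fun j _ => psec_eval_lin x (g j)
    · congr 1
      · refine Finset.prod_congr rfl fun v _ => ?_
        rw [map_pow, eval_X]
      · refine Finset.sum_congr rfl fun j _ => ?_
        rw [psec_lin]
        congr 1
        exact Finset.prod_congr rfl fun j' _ => psec_eval_lin x (g j')

/-- the relations in coordinates -/
theorem total_iff {x : V ⊕ Fin 2 → ℂ} :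
    x ∈ X.total ↔ ∀ i, ∏ v with X.blk v = some i, x (Sum.inl v) ^ X.l v = X.form i x := by
  unfold total
  rw [Set.mem_ofPred_eq]
  refine forall_congr' fun i => ?_
  unfold rel form
  rw [map_sub, psec_eval_lin x (X.a i), map_prod, sub_eq_zero]
  simp only [map_pow, eval_X, lin]

/-- tangent vectors in coordinates -/
theorem tangent_iff {x ξ : V ⊕ Fin 2 → ℂ} :
    ξ ∈ X.tangent x ↔ ∀ i, ∑ v with X.blk v = some i, (X.l v : ℂ) * ξ (Sum.inl v) *
      x (Sum.inl v) ^ (X.l v - 1) *
        ∏ u ∈ (univ.filter (fun v => X.blk v = some i)).erase v, x (Sum.inl u) ^ X.l u =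
          X.form i ξ := by
  unfold tangent
  rw [Set.mem_ofPred_eq]
  refine forall_congr' fun i => ?_
  unfold rel form
  rw [psec_sub, psec_lin x ξ (X.a i), psec_prod, sub_eq_zero]
  simp only [psec_pow, psec_X, map_pow, eval_X, lin]

end CoxData

end Pool.Agent.Helper39.TV
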