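import Pool.Agent.Helper39.TV.PSec

/-! TV, module PSupp -/

open Finset MvPolynomial

set_option linter.unusedSectionVars false

namespace Pool.Agent.Helper39.TV

variable {V ι K : Type} [Fintype V] [DecidableEq V] [Fintype ι] [DecidableEq ι] [AddCommGroup K]

namespace CoxData

variable {X : CoxData V ι K} {A : K} {n : ℕ}

theorem mem_supp {x : V ⊕ Fin 2 → ℂ} {v : V} : v ∈ supp x ↔ x (Sum.inl v) ≠ 0 := by
  simp [supp]

theorem full_iff (hl : ∀ v, 0 < X.l v) {x : V ⊕ Fin 2 → ℂ} (hx : x ∈ X.total) {i : ι} :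
    X.toComb.Full (supp x) i ↔ X.form i x ≠ 0 := by
  rw [← (total_iff.1 hx) i, Finset.prod_ne_zero_iff]
  unfold Comb.Full
  constructor
  · intro h v hv
    exact pow_ne_zero _ (mem_supp.1 (h v (Finset.mem_filter.1 hv).2))
  · intro h v hv
    rw [mem_supp]
    intro h0
    exact h v (Finset.mem_filter.2 ⟨Finset.mem_univ _, hv⟩) (by rw [h0, zero_pow (hl v).ne'])

/-- two forms vanish only at `p = 0` -/
theorem psupp_indep (h : X.SmoothProjective A n) {x : V ⊕ Fin 2 → ℂ} {i j : ι} (hij : i ≠ j)
    (hi : X.form i x = 0) (hj : X.form j x = 0) (t : Fin 2) : x (Sum.inr t) = 0 := by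
  have hd := h.indep i j hij
  unfold form at hi hj
  have hd' : X.a i 0 * X.a j 1 - X.a i 1 * X.a j 0 ≠ 0 := sub_ne_zero.2 hd
  have h0 : (X.a i 0 * X.a j 1 - X.a i 1 * X.a j 0) * x (Sum.inr 0) = 0 := by
    linear_combination X.a j 1 * hi - X.a i 1 * hj
  have h1 : (X.a i 0 * X.a j 1 - X.a i 1 * X.a j 0) * x (Sum.inr 1) = 0 := by
    linear_combination X.a i 0 * hj - X.a j 0 * hi
  have k0 := (mul_eq_zero.1 h0).resolve_left hd'
  have k1 := (mul_eq_zero.1 h1).resolve_left hd'
  fin_cases t
  · exact k0
  · exact k1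

theorem psupp_form_zero {x : V ⊕ Fin 2 → ℂ} (hp : ∀ j, x (Sum.inr j) = 0) (i : ι) :
    X.form i x = 0 := by
  simp [form, hp]

/-- `p = 0` iff the support is elliptic -/
theorem ell_supp_iff (h : X.SmoothProjective A n) {x : V ⊕ Fin 2 → ℂ} (hx : x ∈ X.total) :
    X.toComb.Ell (supp x) ↔ ∀ j, x (Sum.inr j) = 0 := by
  constructor
  · intro hE
    obtain ⟨i, j, hij⟩ := h.two
    have hi := hE i
    have hj := hE j
    rw [full_iff h.lpos hx, not_not] at hi hj
    exact psupp_indep h hij hi hj
  · intro hp i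
    rw [full_iff h.lpos hx, not_not]
    exact psupp_form_zero hp i

theorem adm_supp (h : X.SmoothProjective A n) {x : V ⊕ Fin 2 → ℂ} (hx : x ∈ X.total) :
    X.toComb.Adm (supp x) := by
  by_cases hE : X.toComb.Ell (supp x)
  · exact Or.inl hE
  · right
    by_cases hall : ∀ i, X.toComb.Full (supp x) i
    · obtain ⟨i, _, _⟩ := h.two
      exact ⟨i, fun j _ => hall j⟩
    · push Not at hall
      obtain ⟨i, hi⟩ := hall
      refine ⟨i, fun j hj => ?_⟩
      by_contra hj'
      apply hE
      rw [ell_supp_iff h hx]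
      rw [full_iff h.lpos hx, not_not] at hi hj'
      exact psupp_indep h (Ne.symm hj) hi hj'

theorem psupp_mu (h : X.SmoothProjective A n) (i : ι) :
    X.toComb.dg (X.toComb.bl (Pi.single i 1)) = X.mu := by
  rw [← h.homog i]
  unfold Comb.dg
  rw [Finset.sum_filter]
  refine Finset.sum_congr rfl fun v _ => ?_
  by_cases hv : X.blk v = some i
  · rw [if_pos hv, Comb.bl_some _ hv]
    simp
  · rw [if_neg hv]
    cases hb : X.blk v with
    | none => rw [Comb.bl_none _ hb, zero_smul]
    | some j =>
      have hj : j ≠ i := by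
        rintro rfl
        exact hv hb
      rw [Comb.bl_some _ hb]
      simp [hj]

theorem semi_supp (h : X.SmoothProjective A n) {x : V ⊕ Fin 2 → ℂ} (hx : x ∈ X.semistable A) :
    X.toComb.Semi A (supp x) := by
  obtain ⟨hx, m, hm, f, hf, hfx⟩ := hx
  -- a monomial which does not vanish at `x`
  obtain ⟨d, hd, hd0⟩ : ∃ d ∈ f.support, ∏ s, x s ^ d s ≠ 0 := by
    by_contra hcon
    push Not at hcon
    apply hfx
    rw [eval_eq']
    exact Finset.sum_eq_zero fun d hd => by rw [hcon d hd, mul_zero]
  have hwt : Finsupp.weight X.wt d = m • A := hf (mem_support_iff.1 hd)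
  have hns : ∀ s, d s ≠ 0 → x s ≠ 0 := by
    intro s hs h0
    apply hd0
    exact Finset.prod_eq_zero (Finset.mem_univ s) (by rw [h0, zero_pow hs])
  have hwt' : (∑ v, d (Sum.inl v) • X.deg v) + (d (Sum.inr 0) + d (Sum.inr 1)) • X.mu = m • A := by
    rw [← hwt, Finsupp.weight_apply, Finsupp.sum_fintype _ _ (fun _ => by simp),
      Fintype.sum_sum_type, Fin.sum_univ_two, add_smul]
    rfl
  -- the vector of exponents
  obtain ⟨b, hb0, hbs, hbd⟩ : ∃ b : V → ℤ, (∀ v, 0 ≤ b v) ∧ (∀ v, v ∉ supp x → b v = 0) ∧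
      X.toComb.dg b = m • A := by
    by_cases he : d (Sum.inr 0) + d (Sum.inr 1) = 0
    · refine ⟨fun v => (d (Sum.inl v) : ℤ), fun v => by positivity, fun v hv => ?_, ?_⟩
      · rw [mem_supp, not_not] at hv
        have h3 : d (Sum.inl v) = 0 := by
          by_contra hne
          exact hns _ hne hv
        simp [h3]
      · rw [he, zero_smul, add_zero] at hwt'
        rw [← hwt']
        unfold Comb.dg
        refine Finset.sum_congr rfl fun v _ => ?_
        rw [natCast_zsmul]
    · have hp : ∃ t : Fin 2, x (Sum.inr t) ≠ 0 := by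
        by_cases h0 : d (Sum.inr 0) = 0
        · exact ⟨1, hns _ (by omega)⟩
        · exact ⟨0, hns _ h0⟩
      obtain ⟨i, hi⟩ : ∃ i, X.toComb.Full (supp x) i := by
        by_contra hcon
        push Not at hcon
        have hE : X.toComb.Ell (supp x) := hcon
        rw [ell_supp_iff h hx] at hE
        obtain ⟨t, ht⟩ := hp
        exact ht (hE t)
      refine ⟨(fun v => (d (Sum.inl v) : ℤ)) +
        ((d (Sum.inr 0) + d (Sum.inr 1) : ℕ) : ℤ) • X.toComb.bl (Pi.single i 1),
        fun v => ?_, fun v hv => ?_, ?_⟩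
      · have h1 : (0 : ℤ) ≤ X.toComb.bl (Pi.single i 1) v := by
          cases hb : X.blk v with
          | none => rw [Comb.bl_none _ hb]
          | some j =>
            rw [Comb.bl_some _ hb]
            by_cases hj : j = i
            · subst hj; simp
            · simp [hj]
        simp only [Pi.add_apply, Pi.smul_apply, smul_eq_mul]
        positivity
      · have h1 : X.blk v ≠ some i := fun h => hv (hi v h)
        have h2 : X.toComb.bl (Pi.single i (1 : ℤ)) v = 0 := by
          cases hb : X.blk v with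
          | none => rw [Comb.bl_none _ hb]
          | some j =>
            have hj : j ≠ i := by
              rintro rfl
              exact h1 hb
            rw [Comb.bl_some _ hb]
            simp [hj]
        have h3 : d (Sum.inl v) = 0 := by
          rw [mem_supp, not_not] at hv
          by_contra hne
          exact hns _ hne hv
        simp only [Pi.add_apply, Pi.smul_apply, smul_eq_mul]
        rw [h2, h3]
        simp
      · rw [Comb.dg_add, Comb.dg_smul, psupp_mu h, ← hwt', natCast_zsmul]
        congr 1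
        unfold Comb.dg
        refine Finset.sum_congr rfl fun v _ => ?_
        rw [natCast_zsmul]
  have hm' : (m : ℚ) ≠ 0 := by exact_mod_cast hm.ne'
  refine ⟨fun v => (b v : ℚ) / m, ⟨m, hm, b, hbd, fun v => ?_⟩, fun v => ?_, fun v hv => ?_⟩
  · field_simp
  · have := hb0 v
    have : (0 : ℚ) ≤ b v := by exact_mod_cast this
    positivity
  · simp [hbs v hv]

/-- two points at which the same form vanishes have proportional `p` -/
theorem prop_of_form (h : X.SmoothProjective A n) {x y : V ⊕ Fin 2 → ℂ} {i : ι}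
    (hx : X.form i x = 0) (hy : X.form i y = 0) (hx0 : ∃ j, x (Sum.inr j) ≠ 0)
    (hy0 : ∃ j, y (Sum.inr j) ≠ 0) :
    ∃ θ : ℂ, θ ≠ 0 ∧ ∀ j, y (Sum.inr j) = θ * x (Sum.inr j) := by
  have hai : X.a i 0 ≠ 0 ∨ X.a i 1 ≠ 0 := by
    by_contra hcon
    push Not at hcon
    obtain ⟨i', j', hij⟩ := h.two
    have : ∃ j, i ≠ j := by
      by_cases hi : i = i'
      · exact ⟨j', by rw [hi]; exact hij⟩
      · exact ⟨i', hi⟩
    obtain ⟨j, hj⟩ := this
    exact h.indep i j hj (by rw [hcon.1, hcon.2]; ring)
  unfold form at hx hy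
  rw [Fin.exists_fin_two] at hx0 hy0
  rcases hai with ha | ha
  · have ex : x (Sum.inr 0) = -(X.a i 1 / X.a i 0) * x (Sum.inr 1) := by
      field_simp
      linear_combination hx
    have ey : y (Sum.inr 0) = -(X.a i 1 / X.a i 0) * y (Sum.inr 1) := by
      field_simp
      linear_combination hy
    have hx1 : x (Sum.inr 1) ≠ 0 := by
      rcases hx0 with h0 | h0
      · intro h1
        apply h0
        rw [ex, h1, mul_zero]
      · exact h0
    have hy1 : y (Sum.inr 1) ≠ 0 := by
      rcases hy0 with h0 | h0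
      · intro h1
        apply h0
        rw [ey, h1, mul_zero]
      · exact h0
    refine ⟨y (Sum.inr 1) / x (Sum.inr 1), div_ne_zero hy1 hx1, ?_⟩
    rw [Fin.forall_fin_two]
    constructor
    · rw [ex, ey]
      field_simp
    · field_simp
  · have ex : x (Sum.inr 1) = -(X.a i 0 / X.a i 1) * x (Sum.inr 0) := by
      field_simp
      linear_combination hx
    have ey : y (Sum.inr 1) = -(X.a i 0 / X.a i 1) * y (Sum.inr 0) := by
      field_simp
      linear_combination hy
    have hx1 : x (Sum.inr 0) ≠ 0 := by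
      rcases hx0 with h0 | h0
      · exact h0
      · intro h1
        apply h0
        rw [ex, h1, mul_zero]
    have hy1 : y (Sum.inr 0) ≠ 0 := by
      rcases hy0 with h0 | h0
      · exact h0
      · intro h1
        apply h0
        rw [ey, h1, mul_zero]
    refine ⟨y (Sum.inr 0) / x (Sum.inr 0), div_ne_zero hy1 hx1, ?_⟩
    rw [Fin.forall_fin_two]
    constructor
    · field_simp
    · rw [ex, ey]
      field_simp

end CoxData

end Pool.Agent.Helper39.TV
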