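import Pool.Agent.Helper39.TV.Interior

/-! TV, module ParStr -/

open Finset

set_option linter.unusedSectionVars false

namespace Pool.Agent.Helper39.TV

variable {V ι K : Type} [Fintype V] [DecidableEq V] [Fintype ι] [DecidableEq ι] [AddCommGroup K]

namespace Comb

variable {D : Comb V ι K} {A : K} {n : ℕ}

/-- a minimiser of `a v / l v` on block `i` can be made zero -/
theorem parstr_erase (G : D.Good A n) {x : Finset V} (hO : ∀ i, D.Full x i) {a : V → ℚ}
    (ha : D.Pi A x a) {i : ι} {w : V} (hw : D.blk w = some i)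
    (hmin : ∀ v, D.blk v = some i → a w * D.l v ≤ a v * D.l w) : D.Semi A (x.erase w) := by
  obtain ⟨j, hj⟩ : ∃ j, j ≠ i := by
    obtain ⟨i1, i2, h12⟩ := G.two
    by_cases h : i1 = i
    · exact ⟨i2, fun h2 => h12 (h.trans h2.symm)⟩
    · exact ⟨i1, h⟩
  have hlw : (0 : ℚ) < D.l w := by exact_mod_cast G.lpos w
  set t : ℚ := a w / D.l w with ht
  have ht0 : 0 ≤ t := div_nonneg (ha.2.1 w) hlw.le
  set c : ι → ℚ := Pi.single j t - Pi.single i t with hc
  have hsum : ∑ k, c k = 0 := by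
    simp [hc, Finset.sum_sub_distrib]
  have hcj : c j = t := by simp [hc, Pi.single_apply, hj]
  have hci : c i = -t := by simp [hc, Pi.single_apply, Ne.symm hj]
  have hck : ∀ k, k ≠ i → k ≠ j → c k = 0 := by
    intro k h1 h2
    simp [hc, Pi.single_apply, h1, h2]
  refine ⟨a + D.bl c, ha.1.add_kq (KQ.bl G.mu_eq hsum), fun v => ?_, fun v hv => ?_⟩
  · rw [Pi.add_apply]
    have hav := ha.2.1 v
    cases hb : D.blk v with
    | none => rw [bl_none _ hb, add_zero]; exact hav
    | some k =>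
      rw [bl_some _ hb]
      have hlv : (0 : ℚ) < D.l v := by exact_mod_cast G.lpos v
      by_cases hki : k = i
      · rw [hki, hci]
        have h1 := hmin v (by rw [hb, hki])
        have h2 : t * D.l v ≤ a v := by
          rw [ht, div_mul_eq_mul_div, div_le_iff₀ hlw]
          exact h1
        linarith
      · by_cases hkj : k = j
        · rw [hkj, hcj]
          have := mul_nonneg ht0 hlv.le
          linarith
        · rw [hck k hki hkj, zero_mul, add_zero]; exact hav
  · rw [Pi.add_apply]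
    by_cases hvw : v = w
    · rw [hvw, bl_some _ hw, hci, ht]
      field_simp
      ring
    · have hvx : v ∉ x := fun h => hv (Finset.mem_erase.2 ⟨hvw, h⟩)
      rw [ha.2.2 v hvx]
      cases hb : D.blk v with
      | none => rw [bl_none _ hb, add_zero]
      | some k => exact absurd (hO k v hb) hvx

/-- the set without elements of block `i` lies over `i` -/
theorem parstr_over {x : Finset V} (hO : ∀ i, D.Full x i) {i : ι} {w : V}
    (hw : D.blk w = some i) : D.Over (x.erase w) i := by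
  intro j hj v hv
  refine Finset.mem_erase.2 ⟨?_, hO j v hv⟩
  rintro rfl
  rw [hw] at hv
  exact hj (Option.some.inj hv).symm

/-- an integral vector with the degree of `w` and support in `σ` -/
theorem parstr_rel (G : D.Good A n) {x σ : Finset V} (hF : D.Fixed x) (hσ : σ ⊆ x)
    (hA : D.Adm σ) (hS : D.Semi A σ) {w : V} (hw : w ∈ x) (hw' : w ∉ σ) {i : ι}
    (hb : D.blk w = some i) : ∃ c : ι → ℤ, c i * (D.l w : ℤ) = 1 ∧
      ∀ v, v ≠ w → v ∉ σ → D.bl c v = 0 := by
  obtain ⟨b, hb1, hb2⟩ := G.gen σ hA hS (D.deg w)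
  obtain ⟨c, -, hc⟩ := hF (Pi.single w 1 - b) (fun v hv => by
    have h1 : v ≠ w := fun h => hv (h ▸ hw)
    rw [Pi.sub_apply, hb1 v (fun h => hv (hσ h))]
    simp [Pi.single_apply, h1]) (by rw [dg_sub, dg_single, hb2, sub_self])
  refine ⟨c, ?_, fun v hv hvσ => ?_⟩
  · have h1 := congrFun hc w
    rw [bl_some _ hb, Pi.sub_apply, hb1 w hw'] at h1
    simpa using h1.symm
  · have h1 := congrFun hc v
    rw [← h1, Pi.sub_apply, hb1 v hvσ]
    simp [Pi.single_apply, hv]

/-- at most one element of a block can be made zero -/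
theorem parstr_unique (G : D.Good A n) {x : Finset V} (hO : ∀ i, D.Full x i)
    (hF : D.Fixed x) {a : V → ℚ} (ha : D.Pi A x a) {i : ι} {w w' : V}
    (hw : D.blk w = some i) (hw' : D.blk w' = some i) (h : D.Semi A (x.erase w))
    (h' : D.Semi A (x.erase w')) : w = w' := by
  by_contra hne
  obtain ⟨a1, ha1⟩ := h
  obtain ⟨a2, ha2⟩ := h'
  have hlw : (0 : ℚ) < D.l w := by exact_mod_cast G.lpos w
  have hlw' : (0 : ℚ) < D.l w' := by exact_mod_cast G.lpos w'
  have ha1x := ha1.mono (Finset.erase_subset w x)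
  have ha2x := ha2.mono (Finset.erase_subset w' x)
  obtain ⟨c, -, hc⟩ := hF.rat (ha.1.sub_kq ha1.1) (fun v hv => by
    rw [Pi.sub_apply, ha.2.2 v hv, ha1x.2.2 v hv, sub_zero])
  obtain ⟨d, -, hd⟩ := hF.rat (ha.1.sub_kq ha2.1) (fun v hv => by
    rw [Pi.sub_apply, ha.2.2 v hv, ha2x.2.2 v hv, sub_zero])
  have e1 := congrFun hc w
  have e2 := congrFun hc w'
  have e3 := congrFun hd w
  have e4 := congrFun hd w'
  rw [Pi.sub_apply, bl_some _ hw] at e1 e3
  rw [Pi.sub_apply, bl_some _ hw'] at e2 e4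
  rw [ha1.2.2 w (Finset.notMem_erase w x)] at e1
  rw [ha2.2.2 w' (Finset.notMem_erase w' x)] at e4
  have p1 := ha1.2.1 w'
  have p2 := ha2.2.1 w
  -- c i ≤ d i ≤ c i
  have h1 : c i ≤ d i := by
    have : c i * (D.l w' : ℚ) ≤ d i * D.l w' := by linarith
    exact le_of_mul_le_mul_right this hlw'
  have h2 : d i ≤ c i := by
    have : d i * (D.l w : ℚ) ≤ c i * D.l w := by linarith
    exact le_of_mul_le_mul_right this hlw
  have h3 : c i = d i := le_antisymm h1 h2
  have h4 : a1 w' = 0 := by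
    rw [h3] at e2
    linarith
  have hS : D.Semi A ((x.erase w).erase w') := ⟨a1, ha1.1, ha1.2.1, fun v hv => by
    by_cases hvw : v = w'
    · rw [hvw, h4]
    · exact ha1.2.2 v (fun h5 => hv (Finset.mem_erase.2 ⟨hvw, h5⟩))⟩
  have hAdm : D.Adm ((x.erase w).erase w') := by
    refine Or.inr ⟨i, fun j hj v hv => ?_⟩
    refine Finset.mem_erase.2 ⟨?_, parstr_over hO hw j hj v hv⟩
    rintro rfl
    rw [hw'] at hv
    exact hj (Option.some.inj hv).symm
  obtain ⟨c', hc1, hc2⟩ := parstr_rel G hF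
    ((Finset.erase_subset _ _).trans (Finset.erase_subset _ _)) hAdm hS (hO i w hw)
    (fun h5 => Finset.notMem_erase w x (Finset.mem_of_mem_erase h5)) hw
  have h5 := hc2 w' (Ne.symm hne) (Finset.notMem_erase w' _)
  rw [bl_some _ hw'] at h5
  rcases mul_eq_zero.1 h5 with h6 | h6
  · rw [h6, zero_mul] at hc1
    exact absurd hc1 (by norm_num)
  · have := G.lpos w'
    have h7 : (D.l w' : ℤ) = 0 := h6
    omega

theorem parstr_min (G : D.Good A n) (a : V → ℚ) (i : ι) : ∃ w, D.blk w = some i ∧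
    ∀ v, D.blk v = some i → a w * D.l v ≤ a v * D.l w := by
  obtain ⟨v0, hv0⟩ := G.ne i
  obtain ⟨w, hw, hmin⟩ := Finset.exists_min_image
    (Finset.univ.filter fun v => D.blk v = some i) (fun v => a v / D.l v)
    ⟨v0, by simpa using hv0⟩
  rw [Finset.mem_filter] at hw
  refine ⟨w, hw.2, fun v hv => ?_⟩
  have h1 := hmin v (by simpa using hv)
  have hlw : (0 : ℚ) < D.l w := by exact_mod_cast G.lpos w
  have hlv : (0 : ℚ) < D.l v := by exact_mod_cast G.lpos v
  rwa [div_le_div_iff₀ hlw hlv] at h1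

theorem par_structure (G : D.Good A n) {x : Finset V} (hO : ∀ i, D.Full x i)
    (hF : D.Fixed x) (hS : D.Semi A x) : ∃ e : ι → V,
      (∀ i, D.blk (e i) = some i ∧ D.l (e i) = 1 ∧ D.Semi A (x.erase (e i))) ∧
      (∀ i w, D.blk w = some i → D.Semi A (x.erase w) → w = e i) ∧
      ∀ a, D.Pi A x a → (∀ v ∈ x, 0 < a v) →
        (∀ i v, D.blk v = some i → v ≠ e i → D.l v * a (e i) < a v) ∧ 1 ≤ ∑ i, a (e i) := by
  obtain ⟨i₁, i₂, h12⟩ := G.two
  have hA : D.Adm x := Or.inr ⟨i₁, fun j _ => hO j⟩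
  obtain ⟨a₀, ha₀⟩ := hS
  choose e he1 he2 using parstr_min G a₀
  have he3 : ∀ i, D.Semi A (x.erase (e i)) := fun i => parstr_erase G hO ha₀ (he1 i) (he2 i)
  have huniq : ∀ i w, D.blk w = some i → D.Semi A (x.erase w) → w = e i :=
    fun i w hw h => parstr_unique G hO hF ha₀ hw (he1 i) h (he3 i)
  have hl : ∀ i, D.l (e i) = 1 := by
    intro i
    obtain ⟨c, hc, -⟩ := parstr_rel G hF (Finset.erase_subset (e i) x)
      (Or.inr ⟨i, parstr_over hO (he1 i)⟩) (he3 i) (hO i _ (he1 i)) (Finset.notMem_erase _ _)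
      (he1 i)
    have h1 : (D.l (e i) : ℤ) ∣ 1 := ⟨c i, by rw [mul_comm]; exact hc.symm⟩
    have h2 : D.l (e i) ∣ 1 := by exact_mod_cast h1
    exact Nat.dvd_one.1 h2
  refine ⟨e, fun i => ⟨he1 i, hl i, he3 i⟩, huniq, fun a ha hpos => ⟨?_, ?_⟩⟩
  · intro i v hv hne
    obtain ⟨w, hw, hmin⟩ := parstr_min G a i
    have hwe : w = e i := huniq i w hw (parstr_erase G hO ha hw hmin)
    subst hwe
    have h1 := hmin v hv
    rw [hl i, Nat.cast_one, mul_one] at h1
    rcases lt_or_eq_of_le h1 with h2 | h2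
    · linarith
    · exfalso
      apply hne
      refine huniq i v hv (parstr_erase G hO ha hv fun u hu => ?_)
      have h3 := hmin u hu
      rw [hl i, Nat.cast_one, mul_one] at h3
      rw [← h2]
      have hlv : (0 : ℚ) < D.l v := by exact_mod_cast G.lpos v
      nlinarith [mul_le_mul_of_nonneg_right h3 hlv.le]
  · obtain ⟨b, hb1, hb2⟩ := G.gen x hA ⟨a₀, ha₀⟩ A
    have hrep : D.Rep A (fun v => (b v : ℚ)) := Rep.of_int hb2
    obtain ⟨c, hc0, hc⟩ := hF.rat (ha.1.sub_kq hrep) (fun v hv => by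
      rw [Pi.sub_apply, ha.2.2 v hv, hb1 v hv]; simp)
    have h1 : ∀ i, a (e i) = b (e i) + c i := by
      intro i
      have h2 := congrFun hc (e i)
      rw [Pi.sub_apply, bl_some _ (he1 i), hl i] at h2
      push_cast at h2
      linarith
    have h2 : ∑ i, a (e i) = ((∑ i, b (e i) : ℤ) : ℚ) := by
      push_cast
      rw [← add_zero (∑ i, (b (e i) : ℚ)), ← hc0, ← Finset.sum_add_distrib]
      exact Finset.sum_congr rfl fun i _ => h1 i
    have h3 : 0 < ∑ i, a (e i) :=
      Finset.sum_pos (fun i _ => hpos _ (hO i _ (he1 i))) ⟨i₁, Finset.mem_univ _⟩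
    rw [h2] at h3 ⊢
    have h4 : (0 : ℤ) < ∑ i, b (e i) := by exact_mod_cast h3
    have h5 : (1 : ℤ) ≤ ∑ i, b (e i) := h4
    exact_mod_cast h5

end Comb

end Pool.Agent.Helper39.TV
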