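import Pool.Agent.Helper39.TV.Basic

/-!
Points, sections, tangent vectors: the geometric side of a trinomial Cox ring.
-/

open Finset MvPolynomial

set_option linter.unusedSectionVars false

namespace Pool.Agent.Helper39.TV

/-- Data of a trinomial Cox ring.  The coordinates are `z_v` (`v : V`) and `p_0, p_1`; `blk` puts
some of the `z_v` into blocks; block `i` gives the relation `∏ z_v ^ (l v) = a_{i0} p_0 + a_{i1} p_1`;
`deg v` and `mu` are the degrees of `z_v` and of `p_0, p_1` in the grading group `K`. -/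
structure CoxData (V ι K : Type) extends Comb V ι K where
  a : ι → Fin 2 → ℂ

variable {V ι K : Type} [Fintype V] [DecidableEq V] [Fintype ι] [DecidableEq ι] [AddCommGroup K]

namespace CoxData

variable (X : CoxData V ι K)

/-- degrees of the coordinates -/
def wt : V ⊕ Fin 2 → K := Sum.elim X.deg (fun _ => X.mu)

/-- the relation of block `i` -/
noncomputable def rel (i : ι) : MvPolynomial (V ⊕ Fin 2) ℂ :=
  (∏ v ∈ univ.filter (fun v => X.blk v = some i), MvPolynomial.X (Sum.inl v) ^ X.l v) -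
    (C (X.a i 0) * MvPolynomial.X (Sum.inr 0) + C (X.a i 1) * MvPolynomial.X (Sum.inr 1))

/-- the total coordinate space (the spectrum of the Cox ring) -/
def total : Set (V ⊕ Fin 2 → ℂ) := {x | ∀ i, eval x (X.rel i) = 0}

/-- homogeneous elements of degree `w` of the Cox ring: the sections of the line bundle `w` -/
def IsSection (w : K) (f : MvPolynomial (V ⊕ Fin 2) ℂ) : Prop := IsWeightedHomogeneous X.wt f w

/-- semistable points for the class `A` -/
def semistable (A : K) : Set (V ⊕ Fin 2 → ℂ) :=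
  {x | x ∈ X.total ∧ ∃ m : ℕ, 0 < m ∧ ∃ f, X.IsSection (m • A) f ∧ eval x f ≠ 0}

/-- derivative of `f` at `x` in the direction `ξ` -/
noncomputable def dder (x ξ : V ⊕ Fin 2 → ℂ) (f : MvPolynomial (V ⊕ Fin 2) ℂ) : ℂ :=
  ∑ s, ξ s * eval x (pderiv s f)

/-- tangent space of the total coordinate space -/
def tangent (x : V ⊕ Fin 2 → ℂ) : Set (V ⊕ Fin 2 → ℂ) := {ξ | ∀ i, dder x ξ (X.rel i) = 0}

/-- `x` and `y` are in the same orbit of the grading torus `H = Hom(K, ℂˣ)` -/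
def SameOrbit (x y : V ⊕ Fin 2 → ℂ) : Prop :=
  ∃ h : Multiplicative K →* ℂˣ, ∀ s, y s = (h (Multiplicative.ofAdd (X.wt s)) : ℂ) * x s

/-- `ξ` is tangent to the orbit of `x` under `H` -/
def TangentToOrbit (x ξ : V ⊕ Fin 2 → ℂ) : Prop := ∃ χ : K →+ ℂ, ∀ s, ξ s = χ (X.wt s) * x s

/-- the linear form of block `i` -/
def form (i : ι) (x : V ⊕ Fin 2 → ℂ) : ℂ := X.a i 0 * x (Sum.inr 0) + X.a i 1 * x (Sum.inr 1)

/-- support of a point -/
noncomputable def supp (x : V ⊕ Fin 2 → ℂ) : Finset V := by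
  classical exact univ.filter (fun v => x (Sum.inl v) ≠ 0)

/-- `X` is the Cox ring of a smooth projective variety of dimension `n` with ample class `A` and an
effective action of an `(n-1)`-dimensional torus -/
structure SmoothProjective (A : K) (n : ℕ) : Prop where
  lpos : ∀ v, 0 < X.l v
  two : ∃ i j : ι, i ≠ j
  indep : ∀ i j, i ≠ j → X.a i 0 * X.a j 1 ≠ X.a i 1 * X.a j 0
  homog : ∀ i, ∑ v with X.blk v = some i, X.l v • X.deg v = X.mu
  pointed : ∀ b : V ⊕ Fin 2 →₀ ℕ, Finsupp.weight X.wt b = 0 → b = 0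
  connected : ∀ a : V → ℤ, ∑ v, a v • X.deg v = 0 → ∀ m : ℤ, m ≠ 0 →
    (∃ c : ι → ℤ, ∑ i, c i = 0 ∧ ∀ v, m * a v = (X.blk v).elim 0 (fun i => c i * (X.l v : ℤ))) →
    ∃ c : ι → ℤ, ∑ i, c i = 0 ∧ ∀ v, a v = (X.blk v).elim 0 (fun i => c i * (X.l v : ℤ))
  free : ∀ x ∈ X.semistable A, ∀ h : Multiplicative K →* ℂˣ,
    (∀ s, (h (Multiplicative.ofAdd (X.wt s)) : ℂ) * x s = x s) → h = 1
  smooth : ∀ x ∈ X.semistable A, LinearIndependent ℂ (fun i s => eval x (pderiv s (X.rel i)))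
  dim : Fintype.card V + 2 = n + Fintype.card ι + Module.finrank ℤ K

/-- the sections of degree `w` embed the quotient of the semistable locus by the grading torus -/
structure VeryAmple (A w : K) : Prop where
  bpf : ∀ x ∈ X.semistable A, ∃ f, X.IsSection w f ∧ eval x f ≠ 0
  sep : ∀ x ∈ X.semistable A, ∀ y ∈ X.semistable A, ¬ X.SameOrbit x y →
    ∃ f, X.IsSection w f ∧ eval x f = 0 ∧ eval y f ≠ 0
  tan : ∀ x ∈ X.semistable A, ∀ ξ ∈ X.tangent x, ¬ X.TangentToOrbit x ξ →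
    ∃ f, X.IsSection w f ∧ eval x f = 0 ∧ dder x ξ f ≠ 0

/-- value of the monomial with exponent `c` -/
noncomputable def mon (c : V → ℤ) (x : V ⊕ Fin 2 → ℂ) : ℂ := ∏ v, x (Sum.inl v) ^ (c v).toNat

/-- value of a linear form in `p` -/
noncomputable def lin (g : Fin 2 → ℂ) (x : V ⊕ Fin 2 → ℂ) : ℂ :=
  g 0 * x (Sum.inr 0) + g 1 * x (Sum.inr 1)

/-- derivative of the monomial -/
noncomputable def dmon (c : V → ℤ) (x ξ : V ⊕ Fin 2 → ℂ) : ℂ :=
  ∑ v, ((c v).toNat : ℂ) * ξ (Sum.inl v) * x (Sum.inl v) ^ ((c v).toNat - 1) *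
    ∏ u ∈ univ.erase v, x (Sum.inl u) ^ (c u).toNat

end CoxData

end Pool.Agent.Helper39.TV
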