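import Pool.Agent.Helper39.TV.Basic

/-! TV, module Round -/

open Finset

set_option linter.unusedSectionVars false

namespace Pool.Agent.Helper39.TV

variable {V ι K : Type} [Fintype V] [DecidableEq V] [Fintype ι] [DecidableEq ι] [AddCommGroup K]

namespace Comb

variable {D : Comb V ι K} {A : K} {n : ℕ}

/-- an element of a block which minimises `s / l` -/
private theorem round_min (hne : ∀ i, ∃ v, D.blk v = some i) (s : V → ℤ) (j : ι) :
    ∃ m, D.blk m = some j ∧ ∀ v, D.blk v = some j → (s m : ℚ) / D.l m ≤ (s v : ℚ) / D.l v := by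
  classical
  obtain ⟨v0, hv0⟩ := hne j
  obtain ⟨m, hm, hmin⟩ := Finset.exists_min_image (Finset.univ.filter fun v => D.blk v = some j)
    (fun v => (s v : ℚ) / D.l v) ⟨v0, by simp [hv0]⟩
  simp only [Finset.mem_filter, Finset.mem_univ, true_and] at hm hmin
  exact ⟨m, hm, hmin⟩

theorem round_over (G : D.Good A n) {x : Finset V} {i : ι} (hO : D.Over x i) (hi : ¬ D.Full x i)
    (hF : D.Fixed x) (hS : D.Semi A x) {w : K} {Q : V → ℚ} (hQ : D.Rep w Q) (hpos : ∀ v ∈ x, 0 < Q v)
    {d : V → ℤ} (hd : ∀ v, v ∉ x → Q v = d v ∧ 1 ≤ d v) :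
    ∃ (c : V → ℤ) (k : ℕ), D.Sec (D.can + w) c k ∧ (∀ v, v ∉ x → c v = d v - 1) ∧
      (∀ v ∈ x, (∀ j, j ≠ i → D.blk v ≠ some j) → (c v : ℚ) = Q v - 1) := by
  classical
  -- the integral vector
  set d' : V → ℤ := fun v => if v ∈ x then 0 else d v with hd'
  obtain ⟨r, hr, hrw⟩ := G.gen x (Or.inr ⟨i, hO⟩) hS (w - D.dg d')
  set s : V → ℤ := d' + r with hs
  have hsw : D.dg s = w := by rw [hs, dg_add, hrw]; abel
  have hsx : ∀ v, v ∉ x → s v = d v := by
    intro v hv
    simp [hs, hd', hv, hr v hv]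
  -- comparison with `Q`
  obtain ⟨c0, hc0, hbl⟩ := hF.rat (hQ.sub_kq (Rep.of_int hsw)) (by
    intro v hv
    simp only [Pi.sub_apply]
    rw [(hd v hv).1, hsx v hv, sub_self])
  have hQs : ∀ v, Q v = s v + D.bl c0 v := by
    intro v
    have := congrFun hbl v
    simp only [Pi.sub_apply] at this
    linarith
  have hc0i : c0 i = 0 := by
    refine bl_zero_of_not_full G.lpos (σ := x) (c := c0) (fun v hv => ?_) hi
    have := hQs v
    rw [(hd v hv).1, hsx v hv] at this
    linarith
  -- the minimisers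
  choose m hm hmin using round_min (D := D) G.ne s
  set kk : ι → ℤ := fun j => ⌈(s (m j) : ℚ) / D.l (m j)⌉ with hkk
  have hlpos : ∀ v, (0 : ℚ) < D.l v := fun v => by exact_mod_cast G.lpos v
  have hup : ∀ j v, D.blk v = some j → kk j * D.l v ≤ s v + D.l v - 1 := by
    intro j v hv
    have h1 : (kk j : ℚ) < (s (m j) : ℚ) / D.l (m j) + 1 := Int.ceil_lt_add_one _
    have h2 := hmin j v hv
    have h3 : (kk j : ℚ) < (s v : ℚ) / D.l v + 1 := by linarith
    have h4 : (kk j : ℚ) * D.l v < s v + D.l v := by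
      have := mul_lt_mul_of_pos_right h3 (hlpos v)
      rw [add_mul, div_mul_cancel₀ _ (hlpos v).ne', one_mul] at this
      exact this
    have h5 : kk j * (D.l v : ℤ) < s v + D.l v := by exact_mod_cast h4
    omega
  have hlow : ∀ j, j ≠ i → -c0 j < (kk j : ℚ) := by
    intro j hj
    have h1 : (s (m j) : ℚ) / D.l (m j) ≤ (kk j : ℚ) := Int.le_ceil _
    have h2 := hpos (m j) (hO j hj (m j) (hm j))
    rw [hQs, bl_some _ (hm j)] at h2
    have h3 : -c0 j < (s (m j) : ℚ) / D.l (m j) := by
      rw [lt_div_iff₀ (hlpos (m j))]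
      linarith
    linarith
  have hex : ∃ j, j ≠ i := by
    obtain ⟨a, b, hab⟩ := G.two
    by_cases ha : a = i
    · exact ⟨b, fun hb => hab (ha.trans hb.symm)⟩
    · exact ⟨a, ha⟩
  have hsum : 0 < ∑ j ∈ Finset.univ.erase i, kk j := by
    have h1 : ∑ j ∈ Finset.univ.erase i, (-c0 j) < ∑ j ∈ Finset.univ.erase i, (kk j : ℚ) := by
      obtain ⟨j, hj⟩ := hex
      exact Finset.sum_lt_sum_of_nonempty ⟨j, by simp [hj]⟩ fun j hj =>
        hlow j (Finset.ne_of_mem_erase hj)
    have h2 : ∑ j ∈ Finset.univ.erase i, (-c0 j) = 0 := by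
      rw [Finset.sum_neg_distrib]
      have := Finset.add_sum_erase Finset.univ c0 (Finset.mem_univ i)
      rw [hc0i, hc0, zero_add] at this
      rw [this, neg_zero]
    rw [h2] at h1
    exact_mod_cast h1
  -- the section
  set e : ι → ℤ := fun j => if j = i then 0 else 1 - kk j with he
  have hesum : ∑ j, e j = (Fintype.card ι : ℤ) - 1 - ∑ j ∈ Finset.univ.erase i, kk j := by
    rw [← Finset.add_sum_erase Finset.univ e (Finset.mem_univ i)]
    have h1 : e i = 0 := by simp [he]
    have h2 : ∑ j ∈ Finset.univ.erase i, e j = ∑ j ∈ Finset.univ.erase i, (1 - kk j) := by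
      refine Finset.sum_congr rfl fun j hj => ?_
      simp [he, Finset.ne_of_mem_erase hj]
    rw [h1, h2, Finset.sum_sub_distrib, Finset.sum_const, Finset.card_erase_of_mem (Finset.mem_univ i),
      Finset.card_univ]
    have : 0 < Fintype.card ι := Fintype.card_pos_iff.2 ⟨i⟩
    have h3 : ((Fintype.card ι - 1 : ℕ) : ℤ) = (Fintype.card ι : ℤ) - 1 := by
      push_cast [Nat.cast_sub this]; rfl
    rw [nsmul_eq_mul, h3]
    ring
  have hfree : ∀ v, (∀ j, j ≠ i → D.blk v ≠ some j) → D.bl e v = 0 := by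
    intro v hv
    cases h : D.blk v with
    | none => exact bl_none _ h
    | some j =>
      rw [bl_some _ h]
      by_cases hj : j = i
      · simp [he, hj]
      · exact absurd h (hv j hj)
  have hfree0 : ∀ v, (∀ j, j ≠ i → D.blk v ≠ some j) → D.bl c0 v = 0 := by
    intro v hv
    cases h : D.blk v with
    | none => exact bl_none _ h
    | some j =>
      rw [bl_some _ h]
      by_cases hj : j = i
      · rw [hj, hc0i, zero_mul]
      · exact absurd h (hv j hj)
  have hout : ∀ v, v ∉ x → ∀ j, j ≠ i → D.blk v ≠ some j := fun v hv j hj h => hv (hO j hj v h)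
  refine ⟨s - 1 + D.bl e, (∑ j ∈ Finset.univ.erase i, kk j - 1).toNat, ⟨fun v => ?_, ?_⟩, ?_, ?_⟩
  · simp only [Pi.add_apply, Pi.sub_apply, Pi.one_apply]
    by_cases hv : v ∈ x
    · by_cases hb : ∀ j, j ≠ i → D.blk v ≠ some j
      · rw [hfree v hb]
        have h1 := hpos v hv
        rw [hQs, hfree0 v hb, add_zero] at h1
        have h2 : 0 < s v := by exact_mod_cast h1
        omega
      · push Not at hb
        obtain ⟨j, hj, hjv⟩ := hb
        rw [bl_some _ hjv]
        have h1 := hup j v hjv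
        have h2 : e j = 1 - kk j := by simp [he, hj]
        rw [h2]
        linarith
    · rw [hfree v (hout v hv), hsx v hv]
      have := (hd v hv).2
      omega
  · rw [dg_add, dg_sub, hsw, dg_one, dg_bl G.mu_eq, hesum, ← natCast_zsmul, Int.toNat_of_nonneg (by omega),
      can]
    simp only [sub_smul, one_smul]
    have h2 : (2 : ℤ) • D.mu = D.mu + D.mu := two_smul ℤ D.mu
    rw [h2]
    abel
  · intro v hv
    simp only [Pi.add_apply, Pi.sub_apply, Pi.one_apply]
    rw [hfree v (hout v hv), hsx v hv, add_zero]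
  · intro v hv hb
    simp only [Pi.add_apply, Pi.sub_apply, Pi.one_apply]
    rw [hfree v hb, hQs, hfree0 v hb]
    push_cast
    ring

end Comb

end Pool.Agent.Helper39.TV
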